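import Pool.Agent.H29Ising.Stmts

namespace H29I
open Finset

lemma bl_mono_succ {V : Type} (G : SimpleGraph V) (v : V) (r : ℕ) : bl G v r ⊆ bl G v (r + 1) :=
  fun _ h => Or.inl h

lemma bl_mono {V : Type} (G : SimpleGraph V) (v : V) {r s : ℕ} (h : r ≤ s) :
    bl G v r ⊆ bl G v s := by
  induction h with
  | refl => exact subset_rfl
  | step _ ih => exact ih.trans (bl_mono_succ G v _)

lemma treeBall_mono {V : Type} (G : SimpleGraph V) (v : V) {r s : ℕ} (h : r ≤ s)
    (ht : TreeBall G v s) : TreeBall G v r := by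
  unfold TreeBall at *
  exact ht.comap (SimpleGraph.induceHomOfLE G (bl_mono G v h)).toHom
    (SimpleGraph.induceHomOfLE G (bl_mono G v h)).injective

lemma nontree_mono {V : Type} [Fintype V] (G : SimpleGraph V) {r s : ℕ} (h : r ≤ s) :
    nontree G r ≤ nontree G s := by
  classical
  unfold nontree
  apply Finset.card_le_card
  intro v hv
  simp only [mem_filter, mem_univ, true_and] at hv ⊢
  exact fun hs => hv (treeBall_mono G v h hs)

lemma dE_oe_le {V : Type} [Fintype V] [LinearOrder V] (G : SimpleGraph V) (v : V) :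
    dE (oe G) v ≤ dg G v := by
  classical
  unfold dE dg oe
  apply Finset.card_le_card_of_injOn (fun p => if p.1 = v then p.2 else p.1)
  · intro p hp
    simp only [coe_filter, mem_filter, mem_univ, true_and, Set.mem_setOf_eq] at hp ⊢
    obtain ⟨⟨h1, h2⟩, h3⟩ := hp
    by_cases h : p.1 = v
    · simp only [h, if_true]; rw [← h]; exact h2
    · simp only [h, if_false]
      rcases h3 with h3 | h3
      · exact absurd h3 h
      · rw [← h3]; exact h2.symm
  · intro p hp q hq hpq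
    simp only [coe_filter, mem_filter, mem_univ, true_and, Set.mem_setOf_eq] at hp hq
    obtain ⟨⟨p1, p2⟩, p3⟩ := hp
    obtain ⟨⟨q1, q2⟩, q3⟩ := hq
    simp only at hpq
    by_cases h : p.1 = v
    · by_cases h' : q.1 = v
      · simp only [h, h', if_true] at hpq
        exact Prod.ext (h.trans h'.symm) hpq
      · simp only [h, h', if_true, if_false] at hpq
        have q2v : q.2 = v := by tauto
        exfalso
        have e1 : v < p.2 := h ▸ p1
        have e2 : q.1 < v := q2v ▸ q1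
        rw [hpq] at e1
        exact lt_asymm e1 e2
    · have p2v : p.2 = v := by tauto
      by_cases h' : q.1 = v
      · simp only [h, h', if_true, if_false] at hpq
        exfalso
        have e1 : v < q.2 := h' ▸ q1
        have e2 : p.1 < v := p2v ▸ p1
        rw [hpq] at e2
        exact lt_asymm e1 e2
      · simp only [h, h', if_false] at hpq
        have q2v : q.2 = v := by tauto
        exact Prod.ext hpq (p2v.trans q2v.symm)

lemma sp_abs (b : Bool) : |sp b| = 1 := by cases b <;> simp [sp]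

lemma wt_pos {V : Type} [Fintype V] [DecidableEq V] (β : ℝ) (E : Finset (V × V)) (B : V → ℝ)
    (σ : V → Bool) : 0 < wt β E B σ := Real.exp_pos _

lemma Zp_pos {V : Type} [Fintype V] [DecidableEq V] (β : ℝ) (E : Finset (V × V)) (B : V → ℝ) :
    0 < Zp β E B := Finset.sum_pos (fun σ _ => wt_pos β E B σ) univ_nonempty

lemma log_Zp_shift {V : Type} [Fintype V] [DecidableEq V] (β : ℝ) (E : Finset (V × V))
    (B : V → ℝ) (t : ℝ) (ht : 0 ≤ t) :
    Real.log (Zp β E B) ≤ Real.log (Zp β E (fun u => B u + t)) + t * Fintype.card V := by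
  have h : Zp β E B ≤ Real.exp (t * Fintype.card V) * Zp β E (fun u => B u + t) := by
    unfold Zp
    rw [Finset.mul_sum]
    apply Finset.sum_le_sum
    intro σ _
    unfold wt
    rw [← Real.exp_add]
    apply Real.exp_le_exp.mpr
    have : ∑ v, (B v + t) * sp (σ v) = ∑ v, B v * sp (σ v) + t * ∑ v, sp (σ v) := by
      rw [Finset.mul_sum, ← Finset.sum_add_distrib]
      exact Finset.sum_congr rfl (fun v _ => by ring)
    rw [this]
    have h2 : -(Fintype.card V : ℝ) ≤ ∑ v, sp (σ v) := by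
      have : ∑ v : V, (-1 : ℝ) ≤ ∑ v, sp (σ v) := by
        apply Finset.sum_le_sum
        intro v _
        have := sp_abs (σ v)
        exact (abs_le.mp this.le).1
      simpa using this
    nlinarith
  calc Real.log (Zp β E B) ≤ Real.log (Real.exp (t * Fintype.card V) *
        Zp β E (fun u => B u + t)) := Real.log_le_log (Zp_pos _ _ _) h
    _ = _ := by
        rw [Real.log_mul (Real.exp_pos _).ne' (Zp_pos _ _ _).ne', Real.log_exp]; ring

lemma Phi_shift {V : Type} [Fintype V] (β : ℝ) (E : Finset (V × V))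
    (B m : V → ℝ) (t : ℝ) (ht : 0 ≤ t) (hm : ∀ v, |m v| ≤ 1) :
    Phi β E (fun u => B u + t) m ≤ Phi β E B m + t * Fintype.card V := by
  unfold Phi
  have h2 : ∑ v, m v ≤ Fintype.card V := by
    have : ∑ v, m v ≤ ∑ v : V, (1 : ℝ) := Finset.sum_le_sum (fun v _ => (abs_le.mp (hm v)).2)
    simpa using this
  have : ∑ v, ((B v + t) * m v + h1 (m v)) = ∑ v, (B v * m v + h1 (m v)) + t * ∑ v, m v := by
    rw [Finset.mul_sum, ← Finset.sum_add_distrib]
    exact Finset.sum_congr rfl (fun v _ => by ring)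
  rw [this]
  nlinarith

def Ruozzi : Prop := ∀ (V : Type) [Fintype V] [DecidableEq V] (β : ℝ) (E : Finset (V × V))
  (B m : V → ℝ), 0 ≤ β → (∀ p ∈ E, p.1 ≠ p.2) → (∀ v, |m v| < 1) →
  Phi β E B m ≤ Real.log (Zp β E B)

lemma oe_ne {V : Type} [Fintype V] [LinearOrder V] (G : SimpleGraph V) :
    ∀ p ∈ oe G, p.1 ≠ p.2 := by
  classical
  intro p hp
  unfold oe at hp
  simp only [mem_filter, mem_univ, true_and] at hp
  exact hp.1.ne

lemma Close.symm {V V' : Type} [Fintype V] [Fintype V'] {G : SimpleGraph V} {a : V → ℕ}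
    {G' : SimpleGraph V'} {a' : V' → ℕ} {r : ℕ} {δ : ℝ} (h : Close G a G' a' r δ) :
    Close G' a' G a r δ := by
  intro S
  have := h S
  rw [← abs_neg, ← Finset.sum_neg_distrib]
  simpa using this

lemma Close.mono {V V' : Type} [Fintype V] [Fintype V'] {G : SimpleGraph V} {a : V → ℕ}
    {G' : SimpleGraph V'} {a' : V' → ℕ} {r : ℕ} {δ δ' : ℝ} (h : Close G a G' a' r δ)
    (hd : δ ≤ δ') : Close G a G' a' r δ' := fun S => (h S).trans hd

theorem oneSided (hA : StmtA) (hR : Ruozzi) (hS : TaskS) (hC : StmtC) (hC4 : TaskC4)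
    (hG3 : TaskG3) (hC5 : TaskC5) :
    ∀ (β b ε : ℝ) (d : ℕ), 0 ≤ β → 0 < ε → ∃ (R : ℕ) (δ : ℝ), 0 < δ ∧
  ∀ (V V' : Type) [Fintype V] [LinearOrder V] [Nonempty V]
    [Fintype V'] [LinearOrder V'] [Nonempty V'] (G : SimpleGraph V) (G' : SimpleGraph V')
    (a : V → ℕ) (a' : V' → ℕ) (bf : ℕ → ℝ), (∀ v, dg G v ≤ d) → (∀ v, dg G' v ≤ d) →
    (∀ j, |bf j| ≤ b) → (nontree G R : ℝ) ≤ δ * Fintype.card V →
    Close G a G' a' R δ →
    Real.log (Zp β (oe G) (fun v => bf (a v))) / Fintype.card V ≤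
      Real.log (Zp β (oe G') (fun v => bf (a' v))) / Fintype.card V' + ε := by
  intro β b ε d hβ hε
  obtain ⟨hS1, hS2, hS3⟩ := hS
  obtain ⟨ρ, hρ0, hρ1, hρ⟩ := hS3 β (b + ε / 8) d hβ
  obtain ⟨RA, η, hη, hAA⟩ := hA β (b + ε / 8) (2 / (ε / 8)) (ε / 4) d hβ (by positivity)
    (by positivity)
  obtain ⟨R0, hR0⟩ := hC β b ρ (ε / 8) d hβ hρ0 hρ1 (by positivity)
  obtain ⟨δ4, hδ4, h4⟩ := hC4 hG3 β b ρ (ε / 8) d hβ hρ0 hρ1 (by positivity)
  refine ⟨max RA (R0 + 1), min η δ4, lt_min hη hδ4, ?_⟩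
  intro V V' _ _ _ _ _ _ G G' a a' bf hd hd' hb hnt hcl
  set n : ℝ := (Fintype.card V : ℝ) with hn
  set n' : ℝ := (Fintype.card V' : ℝ) with hn'
  have hnpos : 0 < n := by rw [hn]; exact_mod_cast Fintype.card_pos
  have hnpos' : 0 < n' := by rw [hn']; exact_mod_cast Fintype.card_pos
  set B : V → ℝ := fun v => bf (a v) with hB
  obtain ⟨t, ht0, ht1, hsus⟩ := hS2 V β (oe G) B (ε / 8) hβ (by positivity)
  have hBt : ∀ v, |B v + t| ≤ b + ε / 8 := by
    intro v
    calc |B v + t| ≤ |B v| + |t| := abs_add_le _ _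
      _ ≤ b + ε / 8 := by rw [abs_of_nonneg ht0]; exact add_le_add (hb _) ht1
  have hdE : ∀ v, dE (oe G) v ≤ d := fun v => (dE_oe_le G v).trans (hd v)
  have hmag : ∀ v, |mag β (oe G) (fun u => B u + t) v| ≤ ρ :=
    hρ V (oe G) (fun u => B u + t) (oe_ne G) hdE hBt
  have h1 := hAA V G (fun u => B u + t) hd hBt
    (by
      calc (nontree G RA : ℝ) ≤ nontree G (max RA (R0 + 1)) := by
            exact_mod_cast nontree_mono G (le_max_left _ _)
        _ ≤ min η δ4 * n := hnt
        _ ≤ η * n := mul_le_mul_of_nonneg_right (min_le_left _ _) hnpos.le) hsus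
  have h2 := log_Zp_shift β (oe G) B t ht0
  have h3 := Phi_shift β (oe G) B (mag β (oe G) (fun u => B u + t)) t ht0
    (fun v => (hmag v).trans hρ1.le)
  obtain ⟨r, hr, f, hf, hPhi⟩ := hR0 V G a bf (mag β (oe G) (fun u => B u + t)) hmag hd
    (fun v => hb _)
  have hcl' : Close G a G' a' (r + 1) δ4 :=
    (hC5 V V' G a G' a' (r + 1) _ _ (by omega) hcl).mono (min_le_right _ _)
  have h5 := h4 r V V' G G' a a' bf f hf hd hd' hb hcl'
  have h6 := hR V' β (oe G') (fun v => bf (a' v)) (fun v => f (wl G' a' r v)) hβ (oe_ne G')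
    (fun v => (hf _).trans_lt hρ1)
  have h7 : Real.log (Zp β (oe G) B) ≤
      Phi β (oe G) B (fun v => f (wl G a r v)) + (ε / 8 + ε / 4 + ε / 8 + ε / 8) * n := by
    have e1 : t * n ≤ ε / 8 * n := mul_le_mul_of_nonneg_right ht1 hnpos.le
    linarith
  have h8 : Real.log (Zp β (oe G) B) / n ≤
      Phi β (oe G) B (fun v => f (wl G a r v)) / n + (ε / 8 + ε / 4 + ε / 8 + ε / 8) := by
    rw [div_le_iff₀ hnpos, add_mul, div_mul_cancel₀ _ hnpos.ne']
    exact h7
  have h9 : Phi β (oe G') (fun v => bf (a' v)) (fun v => f (wl G' a' r v)) / n' ≤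
      Real.log (Zp β (oe G') (fun v => bf (a' v))) / n' :=
    div_le_div_of_nonneg_right h6 hnpos'.le
  have h10 := (abs_le.mp h5).2
  linarith

theorem core (hA : StmtA) (hR : Ruozzi) (hS : TaskS) (hC : StmtC) (hC4 : TaskC4)
    (hG3 : TaskG3) (hC5 : TaskC5) : StmtCore := by
  intro β b ε d hβ hε
  obtain ⟨R, δ, hδ, h⟩ := oneSided hA hR hS hC hC4 hG3 hC5 β b ε d hβ hε
  refine ⟨R, δ, hδ, ?_⟩
  intro V V' _ _ _ _ _ _ G G' a a' bf hd hd' hb hnt hnt' hcl
  have h1 := h V V' G G' a a' bf hd hd' hb hnt hcl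
  have h2 := h V' V G' G a' a bf hd' hd hb hnt' hcl.symm
  rw [abs_le]
  constructor <;> linarith

end H29I
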