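import Mathlib

/-! Project H29-ISING: existence of the pressure of the ferromagnetic Ising model with
arbitrary-sign degree-dependent fields on locally tree-like graph sequences (MP_a763a9_pr). -/

namespace H29I
open Finset

/-- spin value of a Boolean -/
def sp (b : Bool) : ℝ := if b then 1 else -1

section Basic
variable {V : Type} [Fintype V] [DecidableEq V]

/-- Gibbs weight: coupling `β` on the oriented edge set `E` (each edge once), fields `B`. -/
noncomputable def wt (β : ℝ) (E : Finset (V × V)) (B : V → ℝ) (σ : V → Bool) : ℝ :=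
  Real.exp (β * ∑ p ∈ E, sp (σ p.1) * sp (σ p.2) + ∑ v, B v * sp (σ v))

/-- partition function -/
noncomputable def Zp (β : ℝ) (E : Finset (V × V)) (B : V → ℝ) : ℝ :=
  ∑ σ : V → Bool, wt β E B σ

/-- Gibbs measure -/
noncomputable def gb (β : ℝ) (E : Finset (V × V)) (B : V → ℝ) (σ : V → Bool) : ℝ :=
  wt β E B σ / Zp β E B

/-- magnetization -/
noncomputable def mag (β : ℝ) (E : Finset (V × V)) (B : V → ℝ) (v : V) : ℝ :=
  ∑ σ : V → Bool, gb β E B σ * sp (σ v)

/-- covariance -/
noncomputable def cv (β : ℝ) (E : Finset (V × V)) (B : V → ℝ) (v w : V) : ℝ :=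
  (∑ σ : V → Bool, gb β E B σ * (sp (σ v) * sp (σ w))) - mag β E B v * mag β E B w

/-- marginal probability of the restriction of `σ` to `A` -/
noncomputable def marg (P : (V → Bool) → ℝ) (A : Finset V) (σ : V → Bool) : ℝ :=
  ∑ τ : V → Bool, if (∀ v ∈ A, τ v = σ v) then P τ else 0

/-- entropy of the restriction to `A` -/
noncomputable def ent (P : (V → Bool) → ℝ) (A : Finset V) : ℝ :=
  - ∑ σ : V → Bool, P σ * Real.log (marg P A σ)

/-- conditional mutual information of a set function -/
def MI (h : Finset V → ℝ) (x y : V) (Z : Finset V) : ℝ :=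
  h (insert x Z) + h (insert y Z) - h Z - h (insert x (insert y Z))

end Basic

/-- two-spin log partition function -/
noncomputable def L2 (β a c : ℝ) : ℝ :=
  Real.log (∑ s : Bool, ∑ t : Bool, Real.exp (β * (sp s * sp t) + a * sp s + c * sp t))

/-- two-spin constrained free energy (dual form) -/
noncomputable def G2 (β x y : ℝ) : ℝ :=
  ⨅ p : ℝ × ℝ, (L2 β p.1 p.2 - p.1 * x - p.2 * y)

/-- entropy of a spin with mean `x` -/
noncomputable def h1 (x : ℝ) : ℝ := Real.binEntropy ((1 + x) / 2)

/-- Bethe functional -/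
noncomputable def Phi {V : Type} [Fintype V] (β : ℝ) (E : Finset (V × V))
    (B : V → ℝ) (m : V → ℝ) : ℝ :=
  ∑ v, (B v * m v + h1 (m v)) + ∑ p ∈ E, (G2 β (m p.1) (m p.2) - h1 (m p.1) - h1 (m p.2))

/-- balls -/
def bl {V : Type} (G : SimpleGraph V) (v : V) : ℕ → Set V
  | 0 => {v}
  | r + 1 => {u | u ∈ bl G v r ∨ ∃ w ∈ bl G v r, G.Adj w u}

/-- oriented edges of a graph on a linearly ordered vertex set -/
noncomputable def oe {V : Type} [Fintype V] [LinearOrder V] (G : SimpleGraph V) : Finset (V × V) := by
  classical exact univ.filter (fun p => p.1 < p.2 ∧ G.Adj p.1 p.2)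

/-- degree -/
noncomputable def dg {V : Type} [Fintype V] (G : SimpleGraph V) (v : V) : ℕ := by
  classical exact (univ.filter (fun u => G.Adj v u)).card

/-- the ball of radius `r` is a tree -/
def TreeBall {V : Type} (G : SimpleGraph V) (v : V) (r : ℕ) : Prop :=
  (G.induce (bl G v r)).IsAcyclic

/-- number of vertices whose `r`-ball is not a tree -/
noncomputable def nontree {V : Type} [Fintype V] (G : SimpleGraph V) (r : ℕ) : ℕ := by
  classical exact (univ.filter (fun v => ¬ TreeBall G v r)).card

/-- colour-refinement types -/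
def WLT : ℕ → Type
  | 0 => ℕ
  | r + 1 => WLT r × Multiset (WLT r)

noncomputable def wl {V : Type} [Fintype V] (G : SimpleGraph V) (a : V → ℕ) : (r : ℕ) → V → WLT r
  | 0, v => a v
  | r + 1, v => by
      classical exact (wl G a r v, ((univ.filter (fun u => G.Adj v u)).val.map (wl G a r)))

/-- frequency of a type -/
noncomputable def frq {V : Type} [Fintype V] (G : SimpleGraph V) (a : V → ℕ) (r : ℕ)
    (t : WLT r) : ℝ := by
  classical exact ((univ.filter (fun v => wl G a r v = t)).card : ℝ) / Fintype.card V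

end H29I
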