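import Pool.Agent.H29Ising.Stmts

/-! Task R1 of the project H29-ISING (helper265). -/

namespace H29I

open Finset

theorem R1_gibbs (p1 p2 p3 p4 e1 e2 e3 e4 : ℝ) (h1 : 0 < p1) (h2 : 0 < p2) (h3 : 0 < p3)
    (h4 : 0 < p4) (hs : p1 + p2 + p3 + p4 = 1) :
    Real.negMulLog p1 + Real.negMulLog p2 + Real.negMulLog p3 + Real.negMulLog p4 +
      (p1 * e1 + p2 * e2 + p3 * e3 + p4 * e4) ≤
    Real.log (Real.exp e1 + Real.exp e2 + Real.exp e3 + Real.exp e4) := by
  set Z := Real.exp e1 + Real.exp e2 + Real.exp e3 + Real.exp e4 with hZ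
  have hZ0 : 0 < Z := by positivity
  have key : ∀ p e : ℝ, 0 < p → Real.negMulLog p + p * e ≤ Real.exp e / Z - p + p * Real.log Z := by
    intro p e hp
    have h5 := Real.log_le_sub_one_of_pos (show 0 < Real.exp e / (p * Z) by positivity)
    rw [Real.log_div (Real.exp_pos e).ne' (by positivity), Real.log_exp,
      Real.log_mul hp.ne' hZ0.ne'] at h5
    have h6 := mul_le_mul_of_nonneg_left h5 hp.le
    have h7 : p * (Real.exp e / (p * Z) - 1) = Real.exp e / Z - p := by
      field_simp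
    rw [h7] at h6
    rw [Real.negMulLog]
    nlinarith
  have k1 := key p1 e1 h1
  have k2 := key p2 e2 h2
  have k3 := key p3 e3 h3
  have k4 := key p4 e4 h4
  have h8 : Real.exp e1 / Z + Real.exp e2 / Z + Real.exp e3 / Z + Real.exp e4 / Z = 1 := by
    rw [← add_div, ← add_div, ← add_div, ← hZ, div_self hZ0.ne']
  have h9 : p1 * Real.log Z + p2 * Real.log Z + p3 * Real.log Z + p4 * Real.log Z = Real.log Z := by
    rw [← add_mul, ← add_mul, ← add_mul, hs, one_mul]
  linarith

theorem R1_L2 (β a c : ℝ) : L2 β a c = Real.log (Real.exp (β + a + c) + Real.exp (-β + a - c) +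
    Real.exp (-β - a + c) + Real.exp (β - a - c)) := by
  unfold L2
  rw [Fintype.sum_bool, Fintype.sum_bool, Fintype.sum_bool]
  simp only [sp, if_true, Bool.false_eq_true, if_false]
  have e1 : β * (1 * 1) + a * 1 + c * 1 = β + a + c := by ring
  have e2 : β * (1 * -1) + a * 1 + c * -1 = -β + a - c := by ring
  have e3 : β * (-1 * 1) + a * -1 + c * 1 = -β - a + c := by ring
  have e4 : β * (-1 * -1) + a * -1 + c * -1 = β - a - c := by ring
  rw [e1, e2, e3, e4, ← add_assoc]

/-- entropy of the table with `p(+,+) = q` and marginals `A`, `B` -/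
noncomputable def R1_H (A B q : ℝ) : ℝ :=
  Real.negMulLog q + Real.negMulLog (A - q) + Real.negMulLog (B - q) +
    Real.negMulLog (q + 1 - A - B)

theorem R1_lower (β A B q : ℝ) (h1 : 0 < q) (h2 : q < A) (h3 : q < B) (h4 : 0 < q + 1 - A - B)
    (a c : ℝ) : R1_H A B q + β * (4 * q + 1 - 2 * A - 2 * B) ≤
      L2 β a c - a * (2 * A - 1) - c * (2 * B - 1) := by
  have h := R1_gibbs q (A - q) (B - q) (q + 1 - A - B) (β + a + c) (-β + a - c) (-β - a + c)
    (β - a - c) h1 (by linarith) (by linarith) h4 (by ring)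
  rw [← R1_L2] at h
  unfold R1_H
  nlinarith

theorem R1_exact (r A B q : ℝ) (h1 : 0 < q) (h2 : q < A) (h3 : q < B) (h4 : 0 < q + 1 - A - B)
    (hor : q * (q + 1 - A - B) = Real.exp (4 * r) * ((A - q) * (B - q))) :
    ∃ a c : ℝ, L2 r a c - a * (2 * A - 1) - c * (2 * B - 1) =
      R1_H A B q + r * (4 * q + 1 - 2 * A - 2 * B) := by
  have h2' : 0 < A - q := by linarith
  have h3' : 0 < B - q := by linarith
  have hlog : Real.log q + Real.log (q + 1 - A - B) =
      4 * r + (Real.log (A - q) + Real.log (B - q)) := by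
    have := congrArg Real.log hor
    rwa [Real.log_mul h1.ne' h4.ne', Real.log_mul (Real.exp_pos _).ne' (by positivity),
      Real.log_exp, Real.log_mul h2'.ne' h3'.ne'] at this
  set l1 := Real.log q with hl1
  set l2 := Real.log (A - q) with hl2
  set l3 := Real.log (B - q) with hl3
  set l4 := Real.log (q + 1 - A - B) with hl4
  set a := (l1 + l2 - l3 - l4) / 4 with ha
  set c := (l1 + l3 - l2 - l4) / 4 with hc
  set lam := -(l1 + l2 + l3 + l4) / 4 with hlam
  refine ⟨a, c, ?_⟩
  have e1 : r + a + c = l1 + lam := by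
    rw [ha, hc, hlam]; linarith
  have e2 : -r + a - c = l2 + lam := by
    rw [ha, hc, hlam]; linarith
  have e3 : -r - a + c = l3 + lam := by
    rw [ha, hc, hlam]; linarith
  have e4 : r - a - c = l4 + lam := by
    rw [ha, hc, hlam]; linarith
  have hL : L2 r a c = lam := by
    rw [R1_L2, e1, e2, e3, e4, Real.exp_add, Real.exp_add, Real.exp_add, Real.exp_add,
      ← add_mul, ← add_mul, ← add_mul, hl1, hl2, hl3, hl4, Real.exp_log h1, Real.exp_log h2',
      Real.exp_log h3', Real.exp_log h4]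
    have : q + (A - q) + (B - q) + (q + 1 - A - B) = 1 := by ring
    rw [this, one_mul, Real.log_exp]
  have hH : R1_H A B q = -(q * l1 + (A - q) * l2 + (B - q) * l3 + (q + 1 - A - B) * l4) := by
    unfold R1_H
    simp only [Real.negMulLog]
    rw [← hl1, ← hl2, ← hl3, ← hl4]
    ring
  rw [hL, hH]
  have f1 : l1 = r + a + c - lam := by linarith
  have f2 : l2 = -r + a - c - lam := by linarith
  have f3 : l3 = -r - a + c - lam := by linarith
  have f4 : l4 = r - a - c - lam := by linarith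
  clear_value l1 l2 l3 l4 a c lam
  subst f1 f2 f3 f4
  ring

theorem R1_exists (r A B : ℝ) (hA0 : 0 < A) (hA1 : A < 1) (hB0 : 0 < B) (hB1 : B < 1) :
    ∃ q : ℝ, 0 < q ∧ q < A ∧ q < B ∧ 0 < q + 1 - A - B ∧
      q * (q + 1 - A - B) = Real.exp (4 * r) * ((A - q) * (B - q)) := by
  set lo := max 0 (A + B - 1) with hlo
  set hi := min A B with hhi
  set g : ℝ → ℝ := fun q => q * (q + 1 - A - B) - Real.exp (4 * r) * ((A - q) * (B - q)) with hg
  have hlh : lo < hi := by
    rw [hlo, hhi, max_lt_iff, lt_min_iff, lt_min_iff]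
    exact ⟨⟨hA0, hB0⟩, by linarith, by linarith⟩
  have hloA : lo < A := lt_of_lt_of_le hlh (min_le_left _ _)
  have hloB : lo < B := lt_of_lt_of_le hlh (min_le_right _ _)
  have hlo0 : 0 ≤ lo := le_max_left _ _
  have hE := Real.exp_pos (4 * r)
  have hglo : g lo < 0 := by
    have h1 : lo * (lo + 1 - A - B) = 0 := by
      rcases max_choice 0 (A + B - 1) with h | h
      · rw [hlo, h, zero_mul]
      · rw [hlo, h]; ring
    have h2 : 0 < Real.exp (4 * r) * ((A - lo) * (B - lo)) :=
      mul_pos hE (mul_pos (by linarith) (by linarith))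
    show lo * (lo + 1 - A - B) - Real.exp (4 * r) * ((A - lo) * (B - lo)) < 0
    linarith
  have hghi : 0 < g hi := by
    have h1 : (A - hi) * (B - hi) = 0 := by
      rcases min_choice A B with h | h
      · rw [hhi, h]; ring
      · rw [hhi, h]; ring
    have h2 : 0 < hi * (hi + 1 - A - B) := by
      have h3 : 0 < hi := lt_of_le_of_lt hlo0 hlh
      have h4 : A + B - 1 ≤ lo := le_max_right _ _
      exact mul_pos h3 (by linarith)
    show 0 < hi * (hi + 1 - A - B) - Real.exp (4 * r) * ((A - hi) * (B - hi))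
    rw [h1, mul_zero, sub_zero]
    exact h2
  have hcont : ContinuousOn g (Set.Icc lo hi) := by
    apply Continuous.continuousOn
    rw [hg]
    fun_prop
  obtain ⟨q, hq, hq0⟩ := intermediate_value_Ioo hlh.le hcont (show (0 : ℝ) ∈ Set.Ioo (g lo) (g hi)
    from ⟨hglo, hghi⟩)
  refine ⟨q, lt_of_le_of_lt hlo0 hq.1, lt_of_lt_of_le hq.2 (min_le_left _ _),
    lt_of_lt_of_le hq.2 (min_le_right _ _), ?_, ?_⟩
  · have h4 : A + B - 1 ≤ lo := le_max_right _ _
    linarith [hq.1]
  · have h5 : q * (q + 1 - A - B) - Real.exp (4 * r) * ((A - q) * (B - q)) = 0 := hq0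
    linarith

theorem R1_G2_lower (β A B q : ℝ) (h1 : 0 < q) (h2 : q < A) (h3 : q < B)
    (h4 : 0 < q + 1 - A - B) :
    R1_H A B q + β * (4 * q + 1 - 2 * A - 2 * B) ≤ G2 β (2 * A - 1) (2 * B - 1) := by
  unfold G2
  exact le_ciInf fun p => R1_lower β A B q h1 h2 h3 h4 p.1 p.2

theorem R1_G2_eq (r A B q : ℝ) (h1 : 0 < q) (h2 : q < A) (h3 : q < B) (h4 : 0 < q + 1 - A - B)
    (hor : q * (q + 1 - A - B) = Real.exp (4 * r) * ((A - q) * (B - q))) :
    G2 r (2 * A - 1) (2 * B - 1) = R1_H A B q + r * (4 * q + 1 - 2 * A - 2 * B) := by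
  refine le_antisymm ?_ (R1_G2_lower r A B q h1 h2 h3 h4)
  obtain ⟨a, c, hac⟩ := R1_exact r A B q h1 h2 h3 h4 hor
  rw [← hac]
  unfold G2
  refine ciInf_le ⟨R1_H A B q + r * (4 * q + 1 - 2 * A - 2 * B), ?_⟩ ((a, c) : ℝ × ℝ)
  rintro _ ⟨p, rfl⟩
  exact R1_lower r A B q h1 h2 h3 h4 p.1 p.2

theorem R1_prod (A B : ℝ) : R1_H A B (A * B) = Real.binEntropy A + Real.binEntropy B := by
  unfold R1_H
  rw [Real.binEntropy_eq_negMulLog_add_negMulLog_one_sub,
    Real.binEntropy_eq_negMulLog_add_negMulLog_one_sub]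
  have e1 : A - A * B = A * (1 - B) := by ring
  have e2 : B - A * B = (1 - A) * B := by ring
  have e3 : A * B + 1 - A - B = (1 - A) * (1 - B) := by ring
  rw [e1, e2, e3, Real.negMulLog_mul, Real.negMulLog_mul, Real.negMulLog_mul, Real.negMulLog_mul]
  ring

theorem taskR1 : TaskR1 := by
  intro s t x y hs ht hx hy
  obtain ⟨hx1, hx2⟩ := abs_lt.1 hx
  obtain ⟨hy1, hy2⟩ := abs_lt.1 hy
  set A := (1 + x) / 2 with hA
  set B := (1 + y) / 2 with hB
  have hxA : x = 2 * A - 1 := by rw [hA]; ring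
  have hyB : y = 2 * B - 1 := by rw [hB]; ring
  have hA0 : 0 < A := by rw [hA]; linarith
  have hA1 : A < 1 := by rw [hA]; linarith
  have hB0 : 0 < B := by rw [hB]; linarith
  have hB1 : B < 1 := by rw [hB]; linarith
  choose q q1 q2 q3 q4 q5 using fun r : ℝ => R1_exists r A B hA0 hA1 hB0 hB1
  set c : ℝ → ℝ := fun r => 4 * q r + 1 - 2 * A - 2 * B with hc
  have hG : ∀ r, G2 r x y = R1_H A B (q r) + r * c r := by
    intro r
    rw [hxA, hyB]
    exact R1_G2_eq r A B (q r) (q1 r) (q2 r) (q3 r) (q4 r) (q5 r)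
  have hlow : ∀ r r', R1_H A B (q r') + r * c r' ≤ G2 r x y := by
    intro r r'
    rw [hxA, hyB]
    exact R1_G2_lower r A B (q r') (q1 r') (q2 r') (q3 r') (q4 r')
  have hlow' : ∀ r r', G2 r' x y + (r - r') * c r' ≤ G2 r x y := by
    intro r r'
    have h1 := hlow r r'
    have h2 := hG r'
    nlinarith
  have h0 : G2 0 x y = h1 x + h1 y := by
    have h1' := R1_G2_eq 0 A B (A * B) (mul_pos hA0 hB0) (by nlinarith) (by nlinarith)
      (by nlinarith) (by rw [mul_zero, Real.exp_zero]; ring)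
    rw [hxA, hyB, h1', R1_prod, zero_mul, add_zero]
    unfold h1
    congr 2 <;> ring
  have main : ∀ s t : ℝ, 0 ≤ t → t ≤ s → G2 s x y + G2 t x y ≤ G2 (s + t) x y + G2 0 x y := by
    intro s t ht hts
    have a1 := hlow' (s + t) s
    have a2 := hlow' 0 t
    have a3 := hlow' s t
    have a4 := hlow' t s
    have hmono : c t ≤ c s := by
      rcases hts.eq_or_lt with h | h
      · rw [h]
      · by_contra hcon
        push Not at hcon
        have : (s - t) * (c t - c s) ≤ 0 := by nlinarith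
        have : 0 < (s - t) * (c t - c s) := mul_pos (by linarith) (by linarith)
        linarith
    have : t * c t ≤ t * c s := mul_le_mul_of_nonneg_left hmono ht
    nlinarith
  rw [← h0]
  rcases le_total t s with h | h
  · exact main s t ht h
  · have := main t s hs h
    rw [add_comm t s] at this
    linarith

end H29I
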