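import Pool.Agent.H29Ising.Stmts

namespace H29I
open Finset Filter Topology MeasureTheory

/-- probability of an event under the law `μ n` of the random graph on `Fin n` -/
noncomputable def pr (μ : (n : ℕ) → SimpleGraph (Fin n) → ℝ) (n : ℕ)
    (S : SimpleGraph (Fin n) → Prop) : ℝ := by
  classical exact ∑ G, if S G then μ n G else 0

/-- fraction of the vertices whose `r`-ball is rooted isomorphic to `(H,o)` -/
noncomputable def fr {n : ℕ} (G : SimpleGraph (Fin n)) (r : ℕ) {m : ℕ} (H : SimpleGraph (Fin m))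
    (o : Fin m) : ℝ := by
  classical exact ((univ.filter (fun v => IsoBall G v r H o)).card : ℝ) / n

/-- fraction of the vertices of degree `k` -/
noncomputable def frd {n : ℕ} (G : SimpleGraph (Fin n)) (k : ℕ) : ℝ := by
  classical exact ((univ.filter (fun v => dg G v = k)).card : ℝ) / n

/-- `μ n` is a probability distribution on the graphs with vertex set `Fin n`. -/
def IsLaw (μ : (n : ℕ) → SimpleGraph (Fin n) → ℝ) : Prop :=
  (∀ n G, 0 ≤ μ n G) ∧ ∀ n, ∑ G, μ n G = 1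

/-- uniform sparsity: the degree `D_n` of a uniform vertex converges in distribution to `D`
(with law `p`) and `E D_n → E D`. -/
def UniformlySparse (μ : (n : ℕ) → SimpleGraph (Fin n) → ℝ) : Prop :=
  ∃ (p : ℕ → ℝ) (D : ℝ), (∀ k, 0 ≤ p k) ∧ HasSum p 1 ∧ HasSum (fun k : ℕ => (k : ℝ) * p k) D ∧
    (∀ k, Tendsto (fun n => ∑ G, μ n G * frd G k) atTop (𝓝 (p k))) ∧
    Tendsto (fun n => ∑ G : SimpleGraph (Fin n), μ n G * ((∑ v, (dg G v : ℝ)) / n)) atTop (𝓝 D)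

/-- local convergence in probability to the random rooted graph `(T ω, 0)` -/
def LocalLimit (μ : (n : ℕ) → SimpleGraph (Fin n) → ℝ) {Ω : Type} [MeasurableSpace Ω]
    (P : Measure Ω) (T : Ω → SimpleGraph ℕ) : Prop :=
  (∀ (r m : ℕ) (H : SimpleGraph (Fin m)) (o : Fin m), MeasurableSet {ω | IsoBall (T ω) 0 r H o}) ∧
  ∀ (r m : ℕ) (H : SimpleGraph (Fin m)) (o : Fin m) (ε : ℝ), 0 < ε →
    Tendsto (fun n => pr μ n (fun G => ε < |fr G r H o - (P {ω | IsoBall (T ω) 0 r H o}).toReal|))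
      atTop (𝓝 0)

/-- locally tree-like sequences of random graphs -/
def LocallyTreeLike (μ : (n : ℕ) → SimpleGraph (Fin n) → ℝ) : Prop :=
  IsLaw μ ∧ UniformlySparse μ ∧
  ∃ (Ω : Type) (_ : MeasurableSpace Ω) (P : Measure Ω) (T : Ω → SimpleGraph ℕ),
    IsProbabilityMeasure P ∧ (∀ ω v, {u | (T ω).Adj v u}.Finite) ∧
    (∀ᵐ ω ∂P, (T ω).IsAcyclic) ∧ LocalLimit μ P T

/-- partition function of the extended Ising model -/
noncomputable def ZeIsing {n : ℕ} (β k h : ℝ) (G : SimpleGraph (Fin n)) : ℝ :=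
  Zp β (oe G) (fun v => k * (dg G v : ℝ) + h)

/-- the final statement -/
def Final : Prop := ∀ μ, LocallyTreeLike μ → ∀ β k h : ℝ, 0 ≤ β → ∃ φ : ℝ, ∀ ε : ℝ, 0 < ε →
  Tendsto (fun n => pr μ n (fun G => ε < |Real.log (ZeIsing β k h G) / n - φ|)) atTop (𝓝 0)

/-- P1 -/
def TaskP1 : Prop := ∀ (μ : (n : ℕ) → SimpleGraph (Fin n) → ℝ)
  (ψ : (n : ℕ) → SimpleGraph (Fin n) → ℝ), IsLaw μ →
  (∀ ε η : ℝ, 0 < ε → 0 < η → ∃ (N : ℕ) (S : (n : ℕ) → SimpleGraph (Fin n) → Prop),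
    (∀ n, N ≤ n → 1 - η ≤ pr μ n (S n)) ∧
    ∀ n n', N ≤ n → N ≤ n' → ∀ G G', S n G → S n' G' → |ψ n G - ψ n' G'| ≤ ε) →
  ∃ φ : ℝ, ∀ ε : ℝ, 0 < ε → Tendsto (fun n => pr μ n (fun G => ε < |ψ n G - φ|)) atTop (𝓝 0)

/-- P2 -/
def TaskP2 : Prop := ∀ (μ : (n : ℕ) → SimpleGraph (Fin n) → ℝ), IsLaw μ → UniformlySparse μ →
  ∀ ε η : ℝ, 0 < ε → 0 < η → ∃ K N : ℕ, ∀ n, N ≤ n →
    pr μ n (fun G => ε * n < ∑ v, (if dg G v ≤ K then (0 : ℝ) else dg G v)) ≤ η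

/-- P3: finitely many trees carry almost all the mass -/
def TaskP3 : Prop := ∀ (Ω : Type) [MeasurableSpace Ω] (P : Measure Ω) [IsProbabilityMeasure P]
  (T : Ω → SimpleGraph ℕ), (∀ ω v, {u | (T ω).Adj v u}.Finite) → (∀ᵐ ω ∂P, (T ω).IsAcyclic) →
  (∀ (r m : ℕ) (H : SimpleGraph (Fin m)) (o : Fin m), MeasurableSet {ω | IsoBall (T ω) 0 r H o}) →
  ∀ (r : ℕ) (δ : ℝ), 0 < δ → ∃ (ℓ : ℕ) (m : Fin ℓ → ℕ) (H : (i : Fin ℓ) → SimpleGraph (Fin (m i)))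
    (o : (i : Fin ℓ) → Fin (m i)), (∀ i, (H i).IsAcyclic) ∧
    (∀ i j, i ≠ j → ¬ ∃ φ : (H i) ≃g (H j), φ (o i) = o j) ∧
    1 - δ ≤ ∑ i, (P {ω | IsoBall (T ω) 0 r (H i) (o i)}).toReal

/-- P4: closeness of the truncated graphs from the ball statistics -/
def TaskP4 : Prop := TaskD1 → TaskD2 → ∀ (K r ℓ : ℕ) (m : Fin ℓ → ℕ)
  (H : (i : Fin ℓ) → SimpleGraph (Fin (m i))) (o : (i : Fin ℓ) → Fin (m i)) (p : Fin ℓ → ℝ)
  (δ δ' : ℝ), 0 < δ → 0 < δ' → (∀ i, (H i).IsAcyclic) →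
    (∀ i j, i ≠ j → ¬ ∃ φ : (H i) ≃g (H j), φ (o i) = o j) → 1 - δ ≤ ∑ i, p i →
    (ℓ : ℝ) * δ' ≤ δ → ∀ (n n' : ℕ) (G : SimpleGraph (Fin n)) (G' : SimpleGraph (Fin n')),
    0 < n → 0 < n' → (∀ i, |fr G (r + 2) (H i) (o i) - p i| ≤ δ') →
    (∀ i, |fr G' (r + 2) (H i) (o i) - p i| ≤ δ') →
    Close (trG K G) (trL K G) (trG K G') (trL K G') r (6 * δ) ∧
    (nontree (trG K G) r : ℝ) ≤ 2 * δ * n

/-- union bound: for large `n`, with probability close to one all the frequencies of a finite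
list are close to their limits -/
def TaskP5 : Prop := ∀ (μ : (n : ℕ) → SimpleGraph (Fin n) → ℝ), IsLaw μ → ∀ (Ω : Type)
  [MeasurableSpace Ω] (P : Measure Ω) (T : Ω → SimpleGraph ℕ), LocalLimit μ P T →
  ∀ (r ℓ : ℕ) (m : Fin ℓ → ℕ) (H : (i : Fin ℓ) → SimpleGraph (Fin (m i)))
    (o : (i : Fin ℓ) → Fin (m i)) (δ' η : ℝ), 0 < δ' → 0 < η → ∃ N : ℕ, ∀ n, N ≤ n →
    1 - η ≤ pr μ n (fun G => ∀ i, |fr G r (H i) (o i) -
      (P {ω | IsoBall (T ω) 0 r (H i) (o i)}).toReal| ≤ δ')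

end H29I

namespace H29I

/-- assembly of the final statement (task for a helper) -/
def TaskFinal : Prop := StmtCore → TaskD1 → TaskD2 → TaskD3 → TaskP1 → TaskP2 → TaskP3 →
  TaskP4 → TaskP5 → Final

end H29I
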