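import Pool.Agent.H29Ising.Defs

namespace H29I
open Finset

/-! ## Two-spin free energy -/

/-- R1 -/
def TaskR1 : Prop := ∀ s t x y : ℝ, 0 ≤ s → 0 ≤ t → |x| < 1 → |y| < 1 →
  G2 s x y + G2 t x y ≤ G2 (s + t) x y + (h1 x + h1 y)

/-- R2: Ruozzi's inequality for attractive pairwise models -/
def TaskR2 : Prop := TaskR1 → ∀ (V : Type) [Fintype V] [DecidableEq V] (β : ℝ) (E : Finset (V × V))
  (B m : V → ℝ), 0 ≤ β → (∀ p ∈ E, p.1 ≠ p.2) → (∀ v, |m v| < 1) →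
  Phi β E B m ≤ Real.log (Zp β E B)

/-- G1: Gibbs inequality for two spins -/
def TaskG1 : Prop := ∀ (β : ℝ) (p : Bool → Bool → ℝ), (∀ s t, 0 ≤ p s t) → ∑ s, ∑ t, p s t = 1 →
  (∑ s, ∑ t, Real.negMulLog (p s t)) + β * ∑ s, ∑ t, p s t * (sp s * sp t) ≤
    G2 β (∑ s, ∑ t, p s t * sp s) (∑ s, ∑ t, p s t * sp t)

/-- G2s: supermodularity -/
def TaskG2 : Prop := ∀ β x x' y y' : ℝ, 0 ≤ β → |x| < 1 → |x'| < 1 → |y| < 1 → |y'| < 1 →
  x ≤ x' → y ≤ y' → G2 β x y' + G2 β x' y ≤ G2 β x y + G2 β x' y'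

/-- G3: regularity -/
def TaskG3 : Prop := (∀ β x y : ℝ, G2 β x y = G2 β y x) ∧
  ∀ β ρ : ℝ, 0 ≤ β → 0 < ρ → ρ < 1 → ∃ A : ℝ, 0 ≤ A ∧ ∀ x y x' y' : ℝ,
    |x| ≤ ρ → |y| ≤ ρ → |x'| ≤ ρ → |y'| ≤ ρ →
    |G2 β x y - G2 β x' y'| ≤ A * (|x - x'| + |y - y'|) ∧ |h1 x - h1 x'| ≤ A * |x - x'| ∧
    |G2 β x y| ≤ A ∧ |h1 x| ≤ A

/-! ## Entropy of spin configurations -/

/-- E1: Shannon inequalities -/
def TaskE1 : Prop := ∀ (V : Type) [Fintype V] [DecidableEq V] (P : (V → Bool) → ℝ),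
  (∀ σ, 0 < P σ) → ∑ σ, P σ = 1 →
  ent P ∅ = 0 ∧
  (∀ A B C : Finset V, ent P C + ent P (A ∪ B ∪ C) ≤ ent P (A ∪ C) + ent P (B ∪ C)) ∧
  (∀ (x : V) (A : Finset V), ent P A ≤ ent P (insert x A) ∧
    ent P (insert x A) ≤ ent P A + Real.log 2)

/-- sphere -/
noncomputable def sph {V : Type} [Fintype V] (G : SimpleGraph V) (x : V) (r : ℕ) : Finset V := by
  classical exact univ.filter (fun y => y ∈ bl G x r ∧ y ∉ bl G x (r - 1))

/-- E2: spatial Markov property across a sphere -/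
def TaskE2 : Prop := ∀ (V : Type) [Fintype V] [LinearOrder V] (G : SimpleGraph V) (β : ℝ)
  (B : V → ℝ) (x : V) (r : ℕ) (Z Y : Finset V), 1 ≤ r → (∀ y ∈ Y, y ∉ bl G x r) →
  ent (gb β (oe G) B) (insert x (Z ∪ sph G x r)) + ent (gb β (oe G) B) (Z ∪ sph G x r ∪ Y) =
  ent (gb β (oe G) B) (Z ∪ sph G x r) + ent (gb β (oe G) B) (insert x (Z ∪ sph G x r ∪ Y))

/-- E3a: a two-variable inequality -/
def TaskE3a : Prop := ∀ (e : ℝ) (p : Bool → Bool → ℝ) (S : ℝ), 0 < e → (∀ s t, 0 < p s t) →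
  S = ∑ s, ∑ t, p s t → (∀ s, e * S ≤ ∑ t, p s t) → (∀ t, e * S ≤ ∑ s, p s t) →
  (∑ t, p true t) * (∑ s, p s true) ≤ p true true * S →
  ∑ s, ∑ t, p s t * Real.log (p s t * S / ((∑ t', p s t') * (∑ s', p s' t))) ≤
    (1 / e ^ 2) * (p true true - (∑ t, p true t) * (∑ s, p s true) / S)

/-- E3b: FKG and the law of total covariance -/
def TaskE3b : Prop := ∀ (V : Type) [Fintype V] [DecidableEq V] (β : ℝ) (E : Finset (V × V))
  (B : V → ℝ) (x y : V) (Z : Finset V), 0 ≤ β → x ≠ y → x ∉ Z → y ∉ Z →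
  (∀ σ, marg (gb β E B) (insert x Z) (Function.update σ x true) *
      marg (gb β E B) (insert y Z) (Function.update σ y true) ≤
      marg (gb β E B) (insert x (insert y Z)) (Function.update (Function.update σ x true) y true) *
      marg (gb β E B) Z σ) ∧
  (∑ σ, gb β E B σ * ((marg (gb β E B) (insert x (insert y Z))
        (Function.update (Function.update σ x true) y true) -
      marg (gb β E B) (insert x Z) (Function.update σ x true) *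
      marg (gb β E B) (insert y Z) (Function.update σ y true) / marg (gb β E B) Z σ) /
      marg (gb β E B) Z σ) ≤ cv β E B x y / 4)

/-- number of edges at a vertex -/
def dE {V : Type} [DecidableEq V] (E : Finset (V × V)) (v : V) : ℕ :=
  (E.filter (fun p => p.1 = v ∨ p.2 = v)).card

/-- E3c: finite energy -/
def TaskE3c : Prop := ∀ (β b : ℝ) (d : ℕ), 0 ≤ β → ∃ e : ℝ, 0 < e ∧ e < 1 ∧
  ∀ (V : Type) [Fintype V] [DecidableEq V] (E : Finset (V × V)) (B : V → ℝ) (x : V) (Z : Finset V)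
    (σ : V → Bool) (s : Bool), (∀ p ∈ E, p.1 ≠ p.2) → (∀ v, dE E v ≤ d) → (∀ v, |B v| ≤ b) →
    x ∉ Z → e * marg (gb β E B) Z σ ≤ marg (gb β E B) (insert x Z) (Function.update σ x s)

/-- E3: mutual information bounded by covariance -/
def TaskE3 : Prop := TaskE3a → TaskE3b → TaskE3c → ∀ (β b : ℝ) (d : ℕ), 0 ≤ β → ∃ C : ℝ, 0 < C ∧
  ∀ (V : Type) [Fintype V] [DecidableEq V] (E : Finset (V × V)) (B : V → ℝ) (x y : V)
    (Z : Finset V), (∀ p ∈ E, p.1 ≠ p.2) → (∀ v, dE E v ≤ d) → (∀ v, |B v| ≤ b) → x ≠ y →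
    MI (ent (gb β E B)) x y Z ≤ C * cv β E B x y

/-- S: covariances are nonnegative, magnetizations are bounded away from ±1, and the
susceptibility is bounded at some field shift -/
def TaskS : Prop :=
  (∀ (V : Type) [Fintype V] [DecidableEq V] (β : ℝ) (E : Finset (V × V)) (B : V → ℝ) (x y : V),
    0 ≤ β → 0 ≤ cv β E B x y) ∧
  (∀ (V : Type) [Fintype V] [DecidableEq V] (β : ℝ) (E : Finset (V × V)) (B : V → ℝ) (δ : ℝ),
    0 ≤ β → 0 < δ → ∃ t, 0 ≤ t ∧ t ≤ δ ∧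
      ∑ v, ∑ w, cv β E (fun u => B u + t) v w ≤ 2 / δ * Fintype.card V) ∧
  (∀ (β b : ℝ) (d : ℕ), 0 ≤ β → ∃ ρ : ℝ, 0 < ρ ∧ ρ < 1 ∧
    ∀ (V : Type) [Fintype V] [DecidableEq V] (E : Finset (V × V)) (B : V → ℝ),
      (∀ p ∈ E, p.1 ≠ p.2) → (∀ v, dE E v ≤ d) → (∀ v, |B v| ≤ b) → ∀ v, |mag β E B v| ≤ ρ)

/-! ## Abstract telescoping for set functions -/

/-- T: edges inside a tree ball inject into its non-root vertices -/
def TaskT : Prop := ∀ (V : Type) [Fintype V] [LinearOrder V] (G : SimpleGraph V) (w : V) (R : ℕ),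
  TreeBall G w R → ∃ ch : V × V → V,
    (∀ p ∈ oe G, p.1 ∈ bl G w R → p.2 ∈ bl G w R →
      (ch p = p.1 ∨ ch p = p.2) ∧ ch p ≠ w ∧ ch p ∈ bl G w R) ∧
    Set.InjOn ch {p | p ∈ oe G ∧ p.1 ∈ bl G w R ∧ p.2 ∈ bl G w R}

/-- A2: telescoping comparison with the Bethe entropy -/
def TaskA2 : Prop := TaskT → ∀ (V : Type) [Fintype V] [LinearOrder V] (h : Finset V → ℝ)
  (G : SimpleGraph V) [DecidableRel G.Adj] (R d : ℕ) [∀ x, DecidablePred (fun w => w ∉ bl G x R)],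
  h ∅ = 0 → (∀ x y Z, 0 ≤ MI h x y Z) → (∀ x Z, h (insert x Z) ≤ h Z + Real.log 2) →
  (∀ v, dg G v ≤ d) →
  h univ ≤ ∑ v, h {v} + ∑ p ∈ oe G, (h {p.1, p.2} - h {p.1} - h {p.2})
    + d * ∑ x, ∑ w ∈ univ.filter (fun w => w ∉ bl G x R), MI h x w (univ.filter (· < w))
    + (nontree G R : ℝ) * (d * ((d : ℝ) + 1) ^ R * Real.log 2)

/-- A3: the far mass is controlled by the covariances in an annulus -/
def TaskA3 : Prop := ∀ (V : Type) [Fintype V] [LinearOrder V] (h : Finset V → ℝ)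
  (c : V → V → ℝ) (G : SimpleGraph V) (R R' d : ℕ) (C : ℝ)
  [∀ x, DecidablePred (fun w => w ∉ bl G x R)] [∀ x, DecidablePred (fun w => w ∈ bl G x R')],
  0 ≤ C → (∀ x y, 0 ≤ c x y) →
  (∀ A B D : Finset V, h D + h (A ∪ B ∪ D) ≤ h (A ∪ D) + h (B ∪ D)) →
  (∀ x A, h A ≤ h (insert x A)) →
  (∀ x y Z, x ≠ y → MI h x y Z ≤ C * c x y) →
  (∀ (x : V) (r : ℕ) (Z Y : Finset V), 1 ≤ r → (∀ y ∈ Y, y ∉ bl G x r) →
    h (insert x (Z ∪ sph G x r)) + h (Z ∪ sph G x r ∪ Y) =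
    h (Z ∪ sph G x r) + h (insert x (Z ∪ sph G x r ∪ Y))) →
  R + (1 + (d + 1) ^ R) ≤ R' → (∀ v, dg G v ≤ d) → ∀ x,
  ∑ w ∈ univ.filter (fun w => w ∉ bl G x R), MI h x w (univ.filter (· < w)) ≤
    3 * C * ∑ w ∈ univ.filter (fun w => w ∉ bl G x R ∧ w ∈ bl G x R'), c x w

/-- A: upper bound of the free energy by the Bethe functional at the true magnetizations -/
def StmtA : Prop := ∀ (β b X ε : ℝ) (d : ℕ), 0 ≤ β → 0 < X → 0 < ε → ∃ (R : ℕ) (η : ℝ), 0 < η ∧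
  ∀ (V : Type) [Fintype V] [LinearOrder V] (G : SimpleGraph V) (B : V → ℝ),
    (∀ v, dg G v ≤ d) → (∀ v, |B v| ≤ b) → (nontree G R : ℝ) ≤ η * Fintype.card V →
    ∑ v, ∑ w, cv β (oe G) B v w ≤ X * Fintype.card V →
    Real.log (Zp β (oe G) B) ≤ Phi β (oe G) B (mag β (oe G) B) + ε * Fintype.card V

/-- assembly of A -/
def TaskA : Prop := TaskG1 → TaskE1 → TaskE2 →
  (∀ (β b : ℝ) (d : ℕ), 0 ≤ β → ∃ C : ℝ, 0 < C ∧
    ∀ (V : Type) [Fintype V] [DecidableEq V] (E : Finset (V × V)) (B : V → ℝ) (x y : V)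
    (Z : Finset V), (∀ p ∈ E, p.1 ≠ p.2) → (∀ v, dE E v ≤ d) → (∀ v, |B v| ≤ b) → x ≠ y →
    MI (ent (gb β E B)) x y Z ≤ C * cv β E B x y) →
  TaskS → TaskT → TaskA2 → TaskA3 → StmtA

/-! ## Rounding to functions of local types -/

/-- average of `X` over the vertices of the same type -/
noncomputable def av {V : Type} [Fintype V] (G : SimpleGraph V) (a : V → ℕ) (r : ℕ)
    (X : V → ℝ) (v : V) : ℝ := by
  classical exact (∑ u ∈ univ.filter (fun u => wl G a r u = wl G a r v), X u) /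
    (univ.filter (fun u => wl G a r u = wl G a r v)).card

/-- defect -/
noncomputable def Df {V : Type} [Fintype V] (G : SimpleGraph V) (a : V → ℕ) (r : ℕ)
    (X : V → ℝ) : ℝ := ∑ v, (dg G v : ℝ) * |av G a (r + 1) X v - av G a r X v|

/-- C1: edge correlations of 0/1 functions against the comonotone ones -/
def TaskC1 : Prop := ∀ (V : Type) [Fintype V] [LinearOrder V] (G : SimpleGraph V)
  [DecidableRel G.Adj] (a : V → ℕ) (r : ℕ) (X Y : V → ℝ), 1 ≤ r → (∀ v, X v = 0 ∨ X v = 1) →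
  (∀ v, Y v = 0 ∨ Y v = 1) →
  ∑ u, ∑ v, (if G.Adj u v then X u * Y v else 0) ≤
    ∑ u, ∑ v, (if G.Adj u v then min (av G a r X u) (av G a r Y v) else 0) +
      Df G a r X + Df G a r Y

/-- C2: energy increment -/
def TaskC2 : Prop := ∀ (K d : ℕ) (ε : ℝ), 0 < ε → ∃ R0 : ℕ, ∀ (V : Type) [Fintype V]
  (G : SimpleGraph V) (a : V → ℕ) (X : Fin K → V → ℝ), (∀ k v, 0 ≤ X k v ∧ X k v ≤ 1) →
  (∀ v, dg G v ≤ d) → ∃ r, 1 ≤ r ∧ r ≤ R0 ∧ ∑ k, Df G a r (X k) ≤ ε * Fintype.card V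

/-- C: rounding the Bethe functional to a function of local types -/
def StmtC : Prop := ∀ (β b ρ ε : ℝ) (d : ℕ), 0 ≤ β → 0 < ρ → ρ < 1 → 0 < ε → ∃ R0 : ℕ,
  ∀ (V : Type) [Fintype V] [LinearOrder V] (G : SimpleGraph V) (a : V → ℕ) (bf : ℕ → ℝ)
    (m : V → ℝ), (∀ v, |m v| ≤ ρ) → (∀ v, dg G v ≤ d) → (∀ v, |bf (a v)| ≤ b) →
    ∃ r, r ≤ R0 ∧ ∃ f : WLT r → ℝ, (∀ t, |f t| ≤ ρ) ∧
      Phi β (oe G) (fun v => bf (a v)) m ≤
        Phi β (oe G) (fun v => bf (a v)) (fun v => f (wl G a r v)) + ε * Fintype.card V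

def TaskC3 : Prop := TaskG2 → TaskG3 → TaskC1 → TaskC2 → StmtC

/-- closeness of local statistics -/
def Close {V V' : Type} [Fintype V] [Fintype V'] (G : SimpleGraph V) (a : V → ℕ)
    (G' : SimpleGraph V') (a' : V' → ℕ) (r : ℕ) (δ : ℝ) : Prop :=
  ∀ S : Finset (WLT r), |∑ t ∈ S, (frq G a r t - frq G' a' r t)| ≤ δ

/-- C4: the Bethe functional of a local rule only depends on local statistics -/
def TaskC4 : Prop := TaskG3 → ∀ (β b ρ ε : ℝ) (d : ℕ), 0 ≤ β → 0 < ρ → ρ < 1 → 0 < ε →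
  ∃ δ : ℝ, 0 < δ ∧ ∀ (r : ℕ) (V V' : Type) [Fintype V] [LinearOrder V] [Nonempty V]
    [Fintype V'] [LinearOrder V'] [Nonempty V'] (G : SimpleGraph V) (G' : SimpleGraph V')
    (a : V → ℕ) (a' : V' → ℕ) (bf : ℕ → ℝ) (f : WLT r → ℝ), (∀ t, |f t| ≤ ρ) →
    (∀ v, dg G v ≤ d) → (∀ v, dg G' v ≤ d) → (∀ j, |bf j| ≤ b) → Close G a G' a' (r + 1) δ →
    |Phi β (oe G) (fun v => bf (a v)) (fun v => f (wl G a r v)) / Fintype.card V -
      Phi β (oe G') (fun v => bf (a' v)) (fun v => f (wl G' a' r v)) / Fintype.card V'| ≤ ε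

/-- closeness is inherited by smaller radii -/
def TaskC5 : Prop := ∀ (V V' : Type) [Fintype V] [Fintype V'] (G : SimpleGraph V) (a : V → ℕ)
    (G' : SimpleGraph V') (a' : V' → ℕ) (r R : ℕ) (δ : ℝ), r ≤ R → Close G a G' a' R δ →
    Close G a G' a' r δ

/-- the deterministic core -/
def StmtCore : Prop := ∀ (β b ε : ℝ) (d : ℕ), 0 ≤ β → 0 < ε → ∃ (R : ℕ) (δ : ℝ), 0 < δ ∧
  ∀ (V V' : Type) [Fintype V] [LinearOrder V] [Nonempty V]
    [Fintype V'] [LinearOrder V'] [Nonempty V'] (G : SimpleGraph V) (G' : SimpleGraph V')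
    (a : V → ℕ) (a' : V' → ℕ) (bf : ℕ → ℝ), (∀ v, dg G v ≤ d) → (∀ v, dg G' v ≤ d) →
    (∀ j, |bf j| ≤ b) → (nontree G R : ℝ) ≤ δ * Fintype.card V →
    (nontree G' R : ℝ) ≤ δ * Fintype.card V' → Close G a G' a' R δ →
    |Real.log (Zp β (oe G) (fun v => bf (a v))) / Fintype.card V -
      Real.log (Zp β (oe G') (fun v => bf (a' v))) / Fintype.card V'| ≤ ε

/-! ## Truncation and isomorphism of balls -/

/-- rooted isomorphism of the ball `B_r(G,v)` with `(H,o)` -/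
def IsoBall {V W : Type} (G : SimpleGraph V) (v : V) (r : ℕ) (H : SimpleGraph W) (o : W) : Prop :=
  ∃ φ : (G.induce {u | G.edist v u ≤ r}) ≃g H, ∃ hv, φ ⟨v, hv⟩ = o

/-- delete the edges at vertices of degree `> K` -/
def trG {V : Type} [Fintype V] (K : ℕ) (G : SimpleGraph V) : SimpleGraph V where
  Adj u v := G.Adj u v ∧ dg G u ≤ K ∧ dg G v ≤ K
  symm := ⟨fun _ _ h => ⟨h.1.symm, h.2.2, h.2.1⟩⟩
  loopless := ⟨fun v h => G.loopless.irrefl v h.1⟩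

/-- label = truncated original degree -/
noncomputable def trL {V : Type} [Fintype V] (K : ℕ) (G : SimpleGraph V) (v : V) : ℕ :=
  min (dg G v) (K + 1)

/-- D0 -/
def TaskD0 : Prop := ∀ (V : Type) (G : SimpleGraph V) (v : V) (r : ℕ),
  bl G v r = {u | G.edist v u ≤ r}

/-- D1: types of the truncated graph are determined by balls -/
def TaskD1 : Prop := ∀ (V V' W : Type) [Fintype V] [Fintype V'] (G : SimpleGraph V)
  (G' : SimpleGraph V') (H : SimpleGraph W) (o : W) (v : V) (v' : V') (K r : ℕ),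
  IsoBall G v (r + 2) H o → IsoBall G' v' (r + 2) H o →
  wl (trG K G) (trL K G) r v = wl (trG K G') (trL K G') r v'

/-- D2: tree balls -/
def TaskD2 : Prop := ∀ (V W : Type) [Fintype V] (G : SimpleGraph V) (H : SimpleGraph W) (o : W)
  (v : V) (K r r' : ℕ), r' ≤ r → IsoBall G v r H o → H.IsAcyclic → TreeBall (trG K G) v r'

/-- D3: cost of the truncation -/
def TaskD3 : Prop := ∀ (V : Type) [Fintype V] [LinearOrder V] (G : SimpleGraph V) (β k h : ℝ)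
  (K : ℕ), 0 ≤ β →
  |Real.log (Zp β (oe G) (fun v => k * dg G v + h)) -
    Real.log (Zp β (oe (trG K G)) (fun v => (fun j : ℕ => if j ≤ K then k * (j : ℝ) + h else 0)
      (trL K G v)))| ≤
    (β + |k| + |h|) * ∑ v, (if dg G v ≤ K then (0 : ℝ) else dg G v)

end H29I
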