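import Mathlib
import Pool.Agent.H29Ising.Stmts

/-!
Project H29-ISING (helper29), task A (helper174).
-/

set_option autoImplicit false

namespace H29I.TA
open Finset

/-! ### geometry -/

theorem bl_succ {V : Type} (G : SimpleGraph V) (v : V) (r : ℕ) : bl G v r ⊆ bl G v (r + 1) :=
  fun _ hu => Or.inl hu

theorem bl_mono {V : Type} (G : SimpleGraph V) (v : V) {r r' : ℕ} (h : r ≤ r') :
    bl G v r ⊆ bl G v r' :=
  monotone_nat_of_le_succ (f := fun r => bl G v r) (fun r => bl_succ G v r) h

theorem treeBall_mono {V : Type} (G : SimpleGraph V) (v : V) {r r' : ℕ} (h : r ≤ r')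
    (ht : TreeBall G v r') : TreeBall G v r :=
  SimpleGraph.IsAcyclic.embedding (G.induceHomOfLE (bl_mono G v h)) ht

theorem nontree_mono {V : Type} [Fintype V] (G : SimpleGraph V) {r r' : ℕ} (h : r ≤ r') :
    nontree G r ≤ nontree G r' := by
  classical
  unfold nontree
  apply card_le_card
  intro v hv
  simp only [mem_filter, mem_univ, true_and] at hv ⊢
  exact fun hc => hv (treeBall_mono G v h hc)

/-- the scales -/
def Rs (d : ℕ) : ℕ → ℕ
  | 0 => 1
  | i + 1 => Rs d i + (1 + (d + 1) ^ Rs d i)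

theorem Rs_le (d : ℕ) (i : ℕ) : Rs d i ≤ Rs d (i + 1) := by
  show Rs d i ≤ Rs d i + (1 + (d + 1) ^ Rs d i)
  omega

theorem Rs_mono (d : ℕ) {i j : ℕ} (h : i ≤ j) : Rs d i ≤ Rs d j :=
  monotone_nat_of_le_succ (Rs_le d) h

open Classical in
/-- sum over the annulus number `i` -/
noncomputable def ann {V : Type} [Fintype V] (G : SimpleGraph V) (d : ℕ) (c : V → V → ℝ)
    (i : ℕ) (x : V) : ℝ :=
  ∑ w, if w ∉ bl G x (Rs d i) ∧ w ∈ bl G x (Rs d (i + 1)) then c x w else 0

theorem ann_sum {V : Type} [Fintype V] (G : SimpleGraph V) (d : ℕ) (c : V → V → ℝ)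
    (hc : ∀ x y, 0 ≤ c x y) (x : V) (K : ℕ) : ∑ i ∈ range K, ann G d c i x ≤ ∑ w, c x w := by
  classical
  have h1 : ∑ i ∈ range K, ann G d c i x ≤
      ∑ w, if w ∈ bl G x (Rs d K) then c x w else 0 := by
    induction K with
    | zero =>
      simp only [range_zero, sum_empty]
      apply sum_nonneg
      intro w _
      split_ifs
      · exact hc _ _
      · exact le_rfl
    | succ K ih =>
      rw [sum_range_succ]
      refine (add_le_add ih le_rfl).trans ?_
      unfold ann
      rw [← sum_add_distrib]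
      apply sum_le_sum
      intro w _
      have hm : w ∈ bl G x (Rs d K) → w ∈ bl G x (Rs d (K + 1)) :=
        fun h => bl_mono G x (Rs_le d K) h
      have := hc x w
      by_cases h1 : w ∈ bl G x (Rs d K)
      · simp [h1, hm h1]
      · by_cases h2 : w ∈ bl G x (Rs d (K + 1))
        · simp [h1, h2]
        · simp [h1, h2]
  refine h1.trans (sum_le_sum fun w _ => ?_)
  split_ifs
  · exact le_rfl
  · exact hc _ _

theorem exists_scale {V : Type} [Fintype V] (G : SimpleGraph V) (d : ℕ) (c : V → V → ℝ)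
    (hc : ∀ x y, 0 ≤ c x y) (K : ℕ) (hK : 0 < K) (T : ℝ) (hT : ∑ x, ∑ w, c x w ≤ T) :
    ∃ i < K, ∑ x, ann G d c i x ≤ T / K := by
  have h1 : ∑ i ∈ range K, ∑ x, ann G d c i x ≤ ∑ i ∈ range K, T / K := by
    rw [sum_comm]
    calc ∑ x, ∑ i ∈ range K, ann G d c i x ≤ ∑ x, ∑ w, c x w :=
          sum_le_sum fun x _ => ann_sum G d c hc x K
      _ ≤ T := hT
      _ = ∑ i ∈ range K, T / K := by
          rw [sum_const, card_range, nsmul_eq_mul]
          have : (K : ℝ) ≠ 0 := by exact_mod_cast hK.ne'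
          field_simp
  obtain ⟨i, hi, h2⟩ := exists_le_of_sum_le (by simpa using hK.ne') h1
  exact ⟨i, mem_range.1 hi, h2⟩

theorem dE_oe_le {V : Type} [Fintype V] [LinearOrder V] (G : SimpleGraph V) (v : V) :
    dE (oe G) v ≤ dg G v := by
  classical
  unfold dE dg
  apply card_le_card_of_injOn (fun p => if p.1 = v then p.2 else p.1)
  · intro p hp
    have hp' := mem_filter.1 hp
    have hpo : p.1 < p.2 ∧ G.Adj p.1 p.2 := by
      have := hp'.1
      unfold oe at this
      simpa using this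
    simp only [coe_filter, mem_univ, true_and, Set.mem_ofPred_eq]
    rcases hp'.2 with h | h
    · rw [if_pos h, ← h]
      exact hpo.2
    · have h1 : p.1 ≠ v := by
        intro h1
        rw [h1, h] at hpo
        exact lt_irrefl _ hpo.1
      rw [if_neg h1, ← h]
      exact hpo.2.symm
  · intro p hp q hq hpq
    have hp' := mem_filter.1 hp
    have hq' := mem_filter.1 hq
    have hpo : p.1 < p.2 := by
      have := hp'.1
      unfold oe at this
      simp only [mem_filter, mem_univ, true_and] at this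
      exact this.1
    have hqo : q.1 < q.2 := by
      have := hq'.1
      unfold oe at this
      simp only [mem_filter, mem_univ, true_and] at this
      exact this.1
    simp only at hpq
    by_cases h1 : p.1 = v
    · by_cases h2 : q.1 = v
      · rw [if_pos h1, if_pos h2] at hpq
        exact Prod.ext (h1.trans h2.symm) hpq
      · rw [if_pos h1, if_neg h2] at hpq
        have h3 := hq'.2.resolve_left h2
        rw [h1, hpq] at hpo
        rw [h3] at hqo
        exact absurd (hpo.trans hqo) (lt_irrefl _)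
    · have h3 := hp'.2.resolve_left h1
      by_cases h2 : q.1 = v
      · rw [if_neg h1, if_pos h2] at hpq
        rw [h2, ← hpq] at hqo
        rw [h3] at hpo
        exact absurd (hpo.trans hqo) (lt_irrefl _)
      · rw [if_neg h1, if_neg h2] at hpq
        have h4 := hq'.2.resolve_left h2
        exact Prod.ext hpq (h3.trans h4.symm)

/-! ### entropy of one and two spins -/

theorem fiber {V S : Type} [Fintype V] [DecidableEq V] [Fintype S] [DecidableEq S]
    (P : (V → Bool) → ℝ) (f : (V → Bool) → S) (g : S → ℝ) :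
    ∑ σ, P σ * g (f σ) = ∑ s, (∑ τ, if f τ = s then P τ else 0) * g s := by
  simp_rw [sum_mul]
  rw [sum_comm]
  refine sum_congr rfl fun σ _ => ?_
  simp [ite_mul]

section
variable {V : Type} [Fintype V] [DecidableEq V] (P : (V → Bool) → ℝ)

/-- one spin marginal -/
def q1 (v : V) (s : Bool) : ℝ := ∑ τ, if τ v = s then P τ else 0

/-- two spin marginal -/
def q2 (u v : V) (s t : Bool) : ℝ := ∑ τ, if (τ u, τ v) = (s, t) then P τ else 0

theorem fiber1 (v : V) (g : Bool → ℝ) : ∑ σ, P σ * g (σ v) = ∑ s, q1 P v s * g s :=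
  fiber P (fun σ => σ v) g

theorem fiber2 (u v : V) (g : Bool → Bool → ℝ) :
    ∑ σ, P σ * g (σ u) (σ v) = ∑ s, ∑ t, q2 P u v s t * g s t := by
  have := fiber P (fun σ => (σ u, σ v)) (fun st => g st.1 st.2)
  rw [this, Fintype.sum_prod_type]
  rfl

theorem ent_one (v : V) : ent P {v} = ∑ s, Real.negMulLog (q1 P v s) := by
  unfold ent
  have h : ∀ σ : V → Bool, marg P {v} σ = q1 P v (σ v) := by
    intro σ
    unfold marg q1
    simp
  simp_rw [h]
  rw [fiber1 P v (fun s => Real.log (q1 P v s)), ← sum_neg_distrib]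
  refine sum_congr rfl fun s _ => ?_
  rw [Real.negMulLog]
  ring

theorem ent_two (u v : V) : ent P {u, v} = ∑ s, ∑ t, Real.negMulLog (q2 P u v s t) := by
  unfold ent
  have h : ∀ σ : V → Bool, marg P {u, v} σ = q2 P u v (σ u) (σ v) := by
    intro σ
    unfold marg q2
    refine sum_congr rfl fun τ _ => ?_
    simp
  simp_rw [h]
  rw [fiber2 P u v (fun s t => Real.log (q2 P u v s t)), ← sum_neg_distrib]
  refine sum_congr rfl fun s _ => ?_
  rw [← sum_neg_distrib]
  refine sum_congr rfl fun t _ => ?_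
  rw [Real.negMulLog]
  ring

theorem ent_univ : ent P univ = - ∑ σ, P σ * Real.log (P σ) := by
  unfold ent
  have h : ∀ σ : V → Bool, marg P univ σ = P σ := by
    intro σ
    unfold marg
    rw [sum_eq_single σ]
    · simp
    · intro τ _ hτ
      rw [if_neg]
      intro h
      exact hτ (funext fun v => h v (mem_univ v))
    · intro h
      exact absurd (mem_univ _) h
  simp_rw [h]

theorem h1_eq (hP : ∑ σ, P σ = 1) (v : V) :
    h1 (∑ σ, P σ * sp (σ v)) = ent P {v} := by
  have e1 : ∑ s, q1 P v s = 1 := by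
    have := fiber1 P v (fun _ => 1)
    simp only [mul_one] at this
    rw [← this, hP]
  have e2 := fiber1 P v sp
  rw [e2, ent_one]
  rw [Fintype.sum_bool] at e1
  rw [Fintype.sum_bool, Fintype.sum_bool]
  have e3 : (1 + (q1 P v true * sp true + q1 P v false * sp false)) / 2 = q1 P v true := by
    simp only [sp, if_true, Bool.false_eq_true, if_false]
    linarith
  unfold h1
  rw [e3, Real.binEntropy_eq_negMulLog_add_negMulLog_one_sub]
  congr 2
  linarith

end

/-! ### Gibbs measure -/

section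
variable {V : Type} [Fintype V] [DecidableEq V] (β : ℝ) (E : Finset (V × V)) (B : V → ℝ)

theorem wt_pos (σ : V → Bool) : 0 < wt β E B σ := Real.exp_pos _

theorem Zp_pos : 0 < Zp β E B := sum_pos (fun σ _ => wt_pos β E B σ) univ_nonempty

theorem gb_pos (σ : V → Bool) : 0 < gb β E B σ := div_pos (wt_pos β E B σ) (Zp_pos β E B)

theorem gb_sum : ∑ σ, gb β E B σ = 1 := by
  unfold gb
  rw [← sum_div]
  exact div_self (Zp_pos β E B).ne'

theorem log_Zp : Real.log (Zp β E B) =
    β * ∑ p ∈ E, ∑ σ, gb β E B σ * (sp (σ p.1) * sp (σ p.2)) + ∑ v, B v * mag β E B v +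
      ent (gb β E B) univ := by
  rw [ent_univ]
  have h1 : ∀ σ, Real.log (gb β E B σ) =
      (β * ∑ p ∈ E, sp (σ p.1) * sp (σ p.2) + ∑ v, B v * sp (σ v)) - Real.log (Zp β E B) := by
    intro σ
    unfold gb
    rw [Real.log_div (wt_pos β E B σ).ne' (Zp_pos β E B).ne', wt, Real.log_exp]
  have h2 : ∑ σ, gb β E B σ * Real.log (gb β E B σ) =
      ∑ σ, gb β E B σ * (β * ∑ p ∈ E, sp (σ p.1) * sp (σ p.2) + ∑ v, B v * sp (σ v)) -
        Real.log (Zp β E B) := by
    simp_rw [h1, mul_sub]
    rw [sum_sub_distrib, ← sum_mul, gb_sum, one_mul]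
  have h3 : ∑ σ, gb β E B σ * (β * ∑ p ∈ E, sp (σ p.1) * sp (σ p.2) + ∑ v, B v * sp (σ v)) =
      β * ∑ p ∈ E, ∑ σ, gb β E B σ * (sp (σ p.1) * sp (σ p.2)) +
        ∑ v, B v * mag β E B v := by
    simp_rw [mul_add]
    rw [sum_add_distrib]
    congr 1
    · rw [sum_comm, mul_sum]
      refine sum_congr rfl fun σ _ => ?_
      rw [mul_sum, mul_sum, mul_sum]
      refine sum_congr rfl fun p _ => ?_
      ring
    · unfold mag
      simp_rw [mul_sum]
      rw [sum_comm]
      refine sum_congr rfl fun σ _ => sum_congr rfl fun v _ => ?_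
      ring
  rw [h2, h3]
  ring

theorem edge_le (hG1 : TaskG1) (u v : V) :
    ent (gb β E B) {u, v} + β * ∑ σ, gb β E B σ * (sp (σ u) * sp (σ v)) ≤
      G2 β (mag β E B u) (mag β E B v) := by
  have h := hG1 β (q2 (gb β E B) u v) (fun s t => sum_nonneg fun τ _ => by
    split_ifs
    · exact (gb_pos β E B τ).le
    · exact le_rfl) (by
    have := fiber2 (gb β E B) u v (fun _ _ => 1)
    simp only [mul_one] at this
    rw [← this, gb_sum])
  rw [ent_two, fiber2 (gb β E B) u v (fun s t => sp s * sp t), mag, mag,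
    fiber2 (gb β E B) u v (fun s _ => sp s), fiber2 (gb β E B) u v (fun _ t => sp t)]
  exact h

end

end H29I.TA

namespace H29I
open Finset TA

theorem taskA : TaskA := by
  intro hG1 hE1 hE2 hE3 hS hT hA2 hA3 β b X ε d hβ hX hε
  classical
  obtain ⟨C, hC, hMI⟩ := hE3 β b d hβ
  -- number of scales
  obtain ⟨K, hK⟩ := exists_nat_gt (d * (3 * C) * X / (ε / 2))
  have hK0' : (0 : ℝ) < K := lt_of_le_of_lt (by positivity) hK
  have hK0 : 0 < K := by exact_mod_cast hK0'
  set D : ℝ := d * ((d : ℝ) + 1) ^ Rs d K * Real.log 2 with hD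
  have hlog2 : 0 < Real.log 2 := Real.log_pos (by norm_num)
  have hD0 : 0 ≤ D := by positivity
  refine ⟨Rs d K, ε / 2 / (D + 1), by positivity, ?_⟩
  intro V _ _ G B hd hB hnt hcv
  set n : ℝ := (Fintype.card V : ℝ) with hn
  have hn0 : 0 ≤ n := by positivity
  have hE : ∀ p ∈ oe G, p.1 ≠ p.2 := by
    intro p hp
    unfold oe at hp
    simp only [mem_filter, mem_univ, true_and] at hp
    exact hp.1.ne
  have hdE : ∀ v, dE (oe G) v ≤ d := fun v => (dE_oe_le G v).trans (hd v)
  have hc0 : ∀ x y, 0 ≤ cv β (oe G) B x y := fun x y => hS.1 V β (oe G) B x y hβ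
  obtain ⟨i, hiK, hi⟩ := exists_scale G d (cv β (oe G) B) hc0 K hK0 (X * n) hcv
  obtain ⟨h0, hsub, hinc⟩ := hE1 V (gb β (oe G) B) (gb_pos β (oe G) B) (gb_sum β (oe G) B)
  set h : Finset V → ℝ := ent (gb β (oe G) B) with hh
  have hMI0 : ∀ x y Z, 0 ≤ MI h x y Z := by
    intro x y Z
    have := hsub {x} {y} Z
    rw [union_assoc, ← insert_eq, ← insert_eq, ← insert_eq] at this
    unfold MI
    linarith
  -- A2
  have hA2' := hA2 hT V h G (Rs d i) d h0 hMI0 (fun x Z => (hinc x Z).2) hd
  -- A3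
  have hA3' := hA3 V h (cv β (oe G) B) G (Rs d i) (Rs d (i + 1)) d C hC.le hc0 hsub
    (fun x A => (hinc x A).1)
    (fun x y Z hxy => hMI V (oe G) B x y Z hE hdE hB hxy)
    (fun x r Z Y hr hY => hE2 V G β B x r Z Y hr hY)
    (le_refl _) hd
  have hsum : ∑ x, ∑ w ∈ univ.filter (fun w => w ∉ bl G x (Rs d i)),
      MI h x w (univ.filter (· < w)) ≤ 3 * C * (X * n / K) := by
    calc ∑ x, ∑ w ∈ univ.filter (fun w => w ∉ bl G x (Rs d i)),
          MI h x w (univ.filter (· < w)) ≤ ∑ x, 3 * C * ann G d (cv β (oe G) B) i x := by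
          apply sum_le_sum
          intro x _
          refine (hA3' x).trans (le_of_eq ?_)
          congr 1
          unfold ann
          rw [← sum_filter]
      _ = 3 * C * ∑ x, ann G d (cv β (oe G) B) i x := by rw [mul_sum]
      _ ≤ 3 * C * (X * n / K) := mul_le_mul_of_nonneg_left hi (by positivity)
  -- errors
  have herr1 : d * (∑ x, ∑ w ∈ univ.filter (fun w => w ∉ bl G x (Rs d i)),
      MI h x w (univ.filter (· < w))) ≤ ε / 2 * n := by
    refine (mul_le_mul_of_nonneg_left hsum (by positivity)).trans ?_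
    have h5 : (d : ℝ) * (3 * C) * X ≤ ε / 2 * K := by
      rw [div_lt_iff₀ (by positivity)] at hK
      linarith
    have h6 : (d : ℝ) * (3 * C * (X * n / K)) = (d * (3 * C) * X) / K * n := by
      field_simp
    rw [h6]
    apply mul_le_mul_of_nonneg_right _ hn0
    rw [div_le_iff₀ hK0']
    exact h5
  have herr2 : (nontree G (Rs d i) : ℝ) * (d * ((d : ℝ) + 1) ^ Rs d i * Real.log 2) ≤
      ε / 2 * n := by
    have h5 : (nontree G (Rs d i) : ℝ) ≤ ε / 2 / (D + 1) * n := by
      refine le_trans ?_ hnt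
      exact_mod_cast nontree_mono G (Rs_mono d hiK.le)
    have h6 : d * ((d : ℝ) + 1) ^ Rs d i * Real.log 2 ≤ D := by
      rw [hD]
      apply mul_le_mul_of_nonneg_right _ hlog2.le
      apply mul_le_mul_of_nonneg_left _ (by positivity)
      apply pow_le_pow_right₀ _ (Rs_mono d hiK.le)
      have : (0 : ℝ) ≤ d := by positivity
      linarith
    calc (nontree G (Rs d i) : ℝ) * (d * ((d : ℝ) + 1) ^ Rs d i * Real.log 2)
        ≤ (ε / 2 / (D + 1) * n) * D := by
          apply mul_le_mul h5 h6 (by positivity) (by positivity)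
      _ = ε / 2 * n * (D / (D + 1)) := by ring
      _ ≤ ε / 2 * n * 1 := by
          apply mul_le_mul_of_nonneg_left _ (by positivity)
          rw [div_le_one (by positivity)]
          linarith
      _ = ε / 2 * n := by ring
  -- energy
  have hlog := log_Zp β (oe G) B
  have hv : ∀ v, h {v} = h1 (mag β (oe G) B v) := fun v =>
    (h1_eq (gb β (oe G) B) (gb_sum β (oe G) B) v).symm
  have hPhi : β * ∑ p ∈ oe G, ∑ σ, gb β (oe G) B σ * (sp (σ p.1) * sp (σ p.2)) +
      ∑ v, B v * mag β (oe G) B v + (∑ v, h {v} + ∑ p ∈ oe G, (h {p.1, p.2} - h {p.1} - h {p.2})) ≤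
      Phi β (oe G) B (mag β (oe G) B) := by
    unfold Phi
    have h7 : ∑ p ∈ oe G, (h {p.1, p.2} - h {p.1} - h {p.2}) +
        β * ∑ p ∈ oe G, ∑ σ, gb β (oe G) B σ * (sp (σ p.1) * sp (σ p.2)) ≤
        ∑ p ∈ oe G, (G2 β (mag β (oe G) B p.1) (mag β (oe G) B p.2) -
          h1 (mag β (oe G) B p.1) - h1 (mag β (oe G) B p.2)) := by
      rw [mul_sum, ← sum_add_distrib]
      apply sum_le_sum
      intro p _
      have h8 := edge_le β (oe G) B hG1 p.1 p.2
      rw [hv, hv]
      linarith
    rw [sum_add_distrib]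
    simp_rw [hv] at h7 ⊢
    linarith
  linarith

end H29I
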