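import Pool.Agent.H29Ising.Stmts

/-! Project H29-ISING, task A2: telescoping comparison with the Bethe entropy. -/

namespace H29I
open Finset

namespace A2

section bl
variable {V : Type} (G : SimpleGraph V)

lemma bl_succ (v u : V) (r : ℕ) :
    u ∈ bl G v (r + 1) ↔ u ∈ bl G v r ∨ ∃ w ∈ bl G v r, G.Adj w u := Iff.rfl

lemma bl_front (v : V) (r : ℕ) :
    ∀ u, u ∈ bl G v (r + 1) ↔ u ∈ bl G v r ∨ ∃ w, G.Adj v w ∧ u ∈ bl G w r := by
  induction r with
  | zero =>
    intro u
    rw [bl_succ]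
    simp only [bl, Set.mem_singleton_iff]
    constructor
    · rintro (h | ⟨w, rfl, h⟩)
      · exact Or.inl h
      · exact Or.inr ⟨u, h, rfl⟩
    · rintro (h | ⟨w, h, rfl⟩)
      · exact Or.inl h
      · exact Or.inr ⟨v, rfl, h⟩
  | succ r ih =>
    intro u
    rw [bl_succ]
    constructor
    · rintro (h | ⟨w, hw, h⟩)
      · exact Or.inl h
      · rcases (ih w).1 hw with h' | ⟨z, hz, h'⟩
        · exact Or.inl ((bl_succ G v u r).2 (Or.inr ⟨w, h', h⟩))
        · exact Or.inr ⟨z, hz, (bl_succ G z u r).2 (Or.inr ⟨w, h', h⟩)⟩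
    · rintro (h | ⟨z, hz, h⟩)
      · exact Or.inl h
      · rcases (bl_succ G z u r).1 h with h' | ⟨w, hw, h'⟩
        · exact Or.inl ((ih u).2 (Or.inr ⟨z, hz, h'⟩))
        · exact Or.inr ⟨w, (ih w).2 (Or.inr ⟨z, hz, hw⟩), h'⟩

lemma bl_symm (r : ℕ) : ∀ u v : V, u ∈ bl G v r → v ∈ bl G u r := by
  induction r with
  | zero =>
    intro u v h
    have h' : u = v := h
    subst h'
    exact h
  | succ r ih =>
    intro u v h
    rw [bl_front]
    rcases (bl_succ G v u r).1 h with h' | ⟨w, hw, h'⟩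
    · exact Or.inl (ih u v h')
    · exact Or.inr ⟨w, h'.symm, ih w v hw⟩

end bl

lemma telescope {V : Type} [LinearOrder V] (F : Finset V → ℝ) (S : Finset V) :
    ∑ w ∈ S, (F (insert w (S.filter (· < w))) - F (S.filter (· < w))) = F S - F ∅ := by
  induction S using Finset.induction_on_max with
  | empty => simp
  | insert a S ha ih =>
    have hna : a ∉ S := fun h => lt_irrefl _ (ha a h)
    rw [Finset.sum_insert hna]
    have h1 : (insert a S).filter (· < a) = S := by
      ext x
      simp only [mem_filter, mem_insert]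
      constructor
      · rintro ⟨rfl | h, h'⟩
        · exact absurd h' (lt_irrefl _)
        · exact h
      · intro h
        exact ⟨Or.inr h, ha x h⟩
    have h2 : ∀ w ∈ S, (insert a S).filter (· < w) = S.filter (· < w) := by
      intro w hw
      rw [Finset.filter_insert, if_neg (not_lt.2 (ha w hw).le)]
    rw [h1, Finset.sum_congr rfl (fun w hw => by rw [h2 w hw]), ih]
    ring

section card
variable {V : Type} [Fintype V] [LinearOrder V] (G : SimpleGraph V)

lemma mem_oe (p : V × V) : p ∈ oe G ↔ p.1 < p.2 ∧ G.Adj p.1 p.2 := by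
  classical
  simp [oe]

lemma card_edges_at (x : V) :
    ((oe G).filter (fun p => p.1 = x ∨ p.2 = x)).card ≤ dg G x := by
  classical
  unfold dg
  refine Finset.card_le_card_of_injOn (fun p => if p.1 = x then p.2 else p.1) ?_ ?_
  · intro p hp
    rw [Finset.mem_coe, mem_filter, mem_oe] at hp
    obtain ⟨⟨h1, h2⟩, h3⟩ := hp
    rw [Finset.mem_coe, mem_filter]
    refine ⟨mem_univ _, ?_⟩
    dsimp only
    by_cases hp1 : p.1 = x
    · rw [if_pos hp1, ← hp1]
      exact h2
    · rw [if_neg hp1]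
      have h4 : p.2 = x := h3.resolve_left hp1
      rw [← h4]
      exact h2.symm
  · intro p hp q hq hpq
    rw [Finset.mem_coe, mem_filter, mem_oe] at hp hq
    obtain ⟨⟨hp1, -⟩, hp3⟩ := hp
    obtain ⟨⟨hq1, -⟩, hq3⟩ := hq
    dsimp only at hpq
    by_cases h1 : p.1 = x <;> by_cases h2 : q.1 = x
    · rw [if_pos h1, if_pos h2] at hpq
      exact Prod.ext (h1.trans h2.symm) hpq
    · rw [if_pos h1, if_neg h2] at hpq
      have h4 : q.2 = x := hq3.resolve_left h2
      exfalso
      rw [h1, hpq] at hp1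
      rw [h4] at hq1
      exact lt_asymm hp1 hq1
    · rw [if_neg h1, if_pos h2] at hpq
      have h4 : p.2 = x := hp3.resolve_left h1
      exfalso
      rw [h2, ← hpq] at hq1
      rw [h4] at hp1
      exact lt_asymm hp1 hq1
    · rw [if_neg h1, if_neg h2] at hpq
      have h4 : p.2 = x := hp3.resolve_left h1
      have h5 : q.2 = x := hq3.resolve_left h2
      exact Prod.ext hpq (h4.trans h5.symm)

lemma card_ball (d : ℕ) (hd : ∀ v, dg G v ≤ d) (v : V) (r : ℕ) :
    ∀ S : Finset V, (∀ u ∈ S, u ∈ bl G v r) → S.card ≤ (d + 1) ^ r := by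
  classical
  induction r with
  | zero =>
    intro S hS
    have : S ⊆ {v} := by
      intro u hu
      exact Finset.mem_singleton.2 (hS u hu)
    simpa using Finset.card_le_card this
  | succ r ih =>
    intro S hS
    set T : Finset V := univ.filter (fun u => u ∈ bl G v r) with hTdef
    have hT : T.card ≤ (d + 1) ^ r := ih T (fun u hu => (Finset.mem_filter.1 hu).2)
    have hsub : S ⊆ T ∪ T.biUnion (fun w => univ.filter (fun u => G.Adj w u)) := by
      intro u hu
      rcases (bl_succ G v u r).1 (hS u hu) with h | ⟨w, hw, h⟩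
      · exact Finset.mem_union_left _ (Finset.mem_filter.2 ⟨mem_univ _, h⟩)
      · refine Finset.mem_union_right _ (Finset.mem_biUnion.2 ⟨w, ?_, ?_⟩)
        · exact Finset.mem_filter.2 ⟨mem_univ _, hw⟩
        · exact Finset.mem_filter.2 ⟨mem_univ _, h⟩
    have h1 : (T.biUnion (fun w => univ.filter (fun u => G.Adj w u))).card ≤ T.card * d := by
      refine Finset.card_biUnion_le_card_mul _ _ _ (fun w _ => ?_)
      have := hd w
      unfold dg at this
      convert this
    calc S.card ≤ (T ∪ T.biUnion (fun w => univ.filter (fun u => G.Adj w u))).card :=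
          Finset.card_le_card hsub
      _ ≤ T.card + (T.biUnion (fun w => univ.filter (fun u => G.Adj w u))).card :=
          Finset.card_union_le _ _
      _ ≤ T.card + T.card * d := by omega
      _ = T.card * (d + 1) := by ring
      _ ≤ (d + 1) ^ r * (d + 1) := Nat.mul_le_mul_right _ hT
      _ = (d + 1) ^ (r + 1) := by ring

end card

section MI
variable {V : Type} [DecidableEq V] (h : Finset V → ℝ)

lemma MI_self (x : V) (Z : Finset V) : MI h x x Z = h (insert x Z) - h Z := by
  simp only [MI, Finset.insert_idem]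
  ring

lemma MI_comm (x y : V) (Z : Finset V) : MI h x y Z = MI h y x Z := by
  simp only [MI]
  rw [Finset.insert_comm x y Z]
  ring

lemma J_eq (u v w : V) (A : Finset V) :
    MI h u v A - MI h u v (insert w A) = MI h u w A - MI h u w (insert v A) := by
  simp only [MI]
  rw [Finset.insert_comm w v A]
  ring

lemma J_le_left (hMI : ∀ x y Z, 0 ≤ MI h x y Z) (u v w : V) (A : Finset V) :
    MI h u v A - MI h u v (insert w A) ≤ MI h u w A := by
  rw [J_eq]
  linarith [hMI u w (insert v A)]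

lemma J_le_right (hMI : ∀ x y Z, 0 ≤ MI h x y Z) (u v w : V) (A : Finset V) :
    MI h u v A - MI h u v (insert w A) ≤ MI h v w A := by
  rw [MI_comm h u v A, MI_comm h u v (insert w A)]
  exact J_le_left h hMI v u w A

lemma MI_le_log (hMI : ∀ x y Z, 0 ≤ MI h x y Z)
    (hlog : ∀ x Z, h (insert x Z) ≤ h Z + Real.log 2) (x y : V) (Z : Finset V) :
    MI h x y Z ≤ Real.log 2 := by
  have h1 := hMI x x (insert y Z)
  rw [MI_self] at h1
  have h2 := hlog x Z
  simp only [MI]
  linarith

lemma J_le_log (hMI : ∀ x y Z, 0 ≤ MI h x y Z)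
    (hlog : ∀ x Z, h (insert x Z) ≤ h Z + Real.log 2) (u v w : V) (A : Finset V) :
    MI h u v A - MI h u v (insert w A) ≤ Real.log 2 := by
  linarith [MI_le_log h hMI hlog u v A, hMI u v (insert w A)]

end MI

section main
variable {V : Type} [Fintype V] [LinearOrder V] (h : Finset V → ℝ) (G : SimpleGraph V)

/-- the increment of a pair -/
noncomputable def J (w : V) (A : Finset V) (p : V × V) : ℝ :=
  MI h p.1 p.2 A - MI h p.1 p.2 (insert w A)

/-- the far edges -/
lemma far_part (R d : ℕ) (hMI : ∀ x y Z, 0 ≤ MI h x y Z) (hdeg : ∀ v, dg G v ≤ d)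
    (w : V) (A : Finset V) (far : Finset V) (S : Finset (V × V)) (hS : S ⊆ oe G)
    (hSf : ∀ p ∈ S, p.1 ∈ far ∨ p.2 ∈ far) :
    ∑ p ∈ S, J h w A p ≤ d * ∑ x ∈ far, MI h x w A := by
  classical
  set xf : V × V → V := fun p => if p.1 ∈ far then p.1 else p.2 with hxf
  have hxf1 : ∀ p, xf p = p.1 ∨ xf p = p.2 := by
    intro p
    by_cases hp : p.1 ∈ far
    · left; simp [hxf, hp]
    · right; simp [hxf, hp]
  have hxf2 : ∀ p ∈ S, xf p ∈ far := by
    intro p hp
    by_cases hp1 : p.1 ∈ far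
    · simp only [hxf, if_pos hp1]; exact hp1
    · simp only [hxf, if_neg hp1]
      exact (hSf p hp).resolve_left hp1
  have h1 : ∑ p ∈ S, J h w A p ≤ ∑ p ∈ S, MI h (xf p) w A := by
    refine Finset.sum_le_sum (fun p _ => ?_)
    rcases hxf1 p with e | e
    · rw [e]; exact J_le_left h hMI p.1 p.2 w A
    · rw [e]; exact J_le_right h hMI p.1 p.2 w A
  refine h1.trans ?_
  rw [← Finset.sum_fiberwise_of_maps_to hxf2, Finset.mul_sum]
  refine Finset.sum_le_sum (fun x _ => ?_)
  have h2 : ∑ p ∈ S with xf p = x, MI h (xf p) w A =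
      ((S.filter (fun p => xf p = x)).card : ℝ) * MI h x w A := by
    rw [Finset.sum_congr rfl (g := fun _ => MI h x w A)
      (fun p hp => by rw [(Finset.mem_filter.1 hp).2])]
    rw [Finset.sum_const, nsmul_eq_mul]
  rw [h2]
  refine mul_le_mul_of_nonneg_right ?_ (hMI x w A)
  have h3 : (S.filter (fun p => xf p = x)).card ≤ d := by
    refine le_trans (Finset.card_le_card ?_) ((card_edges_at G x).trans (hdeg x))
    intro p hp
    obtain ⟨hp1, hp2⟩ := Finset.mem_filter.1 hp
    refine Finset.mem_filter.2 ⟨hS hp1, ?_⟩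
    rcases hxf1 p with e | e
    · left; rw [← e, hp2]
    · right; rw [← e, hp2]
  exact_mod_cast h3

/-- the near edges, tree case -/
lemma near_tree (hT : TaskT) (R : ℕ) (hMI : ∀ x y Z, 0 ≤ MI h x y Z)
    (w : V) (A : Finset V) (S : Finset (V × V)) (hS : S ⊆ oe G)
    (hSn : ∀ p ∈ S, p.1 ∈ bl G w R ∧ p.2 ∈ bl G w R) (htree : TreeBall G w R) :
    ∑ p ∈ S, J h w A p ≤ ∑ v ∈ univ.erase w, MI h v w A := by
  classical
  obtain ⟨ch, hch, hinj⟩ := hT V G w R htree
  have h1 : ∑ p ∈ S, J h w A p ≤ ∑ p ∈ S, MI h (ch p) w A := by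
    refine Finset.sum_le_sum (fun p hp => ?_)
    rcases (hch p (hS hp) (hSn p hp).1 (hSn p hp).2).1 with e | e
    · rw [e]; exact J_le_left h hMI p.1 p.2 w A
    · rw [e]; exact J_le_right h hMI p.1 p.2 w A
  refine h1.trans ?_
  have hinj' : ∀ p ∈ S, ∀ q ∈ S, ch p = ch q → p = q := by
    intro p hp q hq hpq
    exact hinj ⟨hS hp, (hSn p hp).1, (hSn p hp).2⟩ ⟨hS hq, (hSn q hq).1, (hSn q hq).2⟩ hpq
  rw [← Finset.sum_image (f := fun v => MI h v w A) (g := ch) hinj']
  refine Finset.sum_le_sum_of_subset_of_nonneg ?_ (fun v _ _ => hMI v w A)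
  intro v hv
  obtain ⟨p, hp, rfl⟩ := Finset.mem_image.1 hv
  exact Finset.mem_erase.2 ⟨(hch p (hS hp) (hSn p hp).1 (hSn p hp).2).2.1, mem_univ _⟩

/-- the near edges, general case -/
lemma near_gen (R d : ℕ) (hMI : ∀ x y Z, 0 ≤ MI h x y Z)
    (hlog : ∀ x Z, h (insert x Z) ≤ h Z + Real.log 2) (hdeg : ∀ v, dg G v ≤ d)
    (w : V) (A : Finset V) (S : Finset (V × V)) (hS : S ⊆ oe G)
    (hSn : ∀ p ∈ S, p.1 ∈ bl G w R ∧ p.2 ∈ bl G w R) :
    ∑ p ∈ S, J h w A p ≤ d * ((d : ℝ) + 1) ^ R * Real.log 2 := by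
  classical
  have hl : 0 ≤ Real.log 2 := Real.log_nonneg (by norm_num)
  have h1 : ∑ p ∈ S, J h w A p ≤ ∑ _p ∈ S, Real.log 2 :=
    Finset.sum_le_sum (fun p _ => J_le_log h hMI hlog p.1 p.2 w A)
  refine h1.trans ?_
  rw [Finset.sum_const, nsmul_eq_mul]
  refine mul_le_mul_of_nonneg_right ?_ hl
  set T : Finset V := univ.filter (fun u => u ∈ bl G w R) with hTdef
  have hT : T.card ≤ (d + 1) ^ R :=
    card_ball G d hdeg w R T (fun u hu => (Finset.mem_filter.1 hu).2)
  have hsub : S ⊆ T.biUnion (fun x => (oe G).filter (fun p => p.1 = x ∨ p.2 = x)) := by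
    intro p hp
    refine Finset.mem_biUnion.2 ⟨p.1, ?_, ?_⟩
    · exact Finset.mem_filter.2 ⟨mem_univ _, (hSn p hp).1⟩
    · exact Finset.mem_filter.2 ⟨hS hp, Or.inl rfl⟩
  have h2 : S.card ≤ T.card * d := by
    refine (Finset.card_le_card hsub).trans ?_
    exact Finset.card_biUnion_le_card_mul _ _ _
      (fun x _ => (card_edges_at G x).trans (hdeg x))
  have h3 : S.card ≤ d * (d + 1) ^ R := by
    calc S.card ≤ T.card * d := h2
      _ ≤ (d + 1) ^ R * d := Nat.mul_le_mul_right _ hT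
      _ = d * (d + 1) ^ R := by ring
  exact_mod_cast h3

lemma per_w (hT : TaskT) (R d : ℕ) (hMI : ∀ x y Z, 0 ≤ MI h x y Z)
    (hlog : ∀ x Z, h (insert x Z) ≤ h Z + Real.log 2) (hdeg : ∀ v, dg G v ≤ d)
    (w : V) (A : Finset V) (far : Finset V) (hfar : ∀ x, x ∈ far ↔ x ∉ bl G w R)
    [Decidable (TreeBall G w R)] :
    ∑ p ∈ oe G, J h w A p ≤ ∑ v ∈ univ.erase w, MI h v w A + d * ∑ x ∈ far, MI h x w A +
      (if ¬ TreeBall G w R then d * ((d : ℝ) + 1) ^ R * Real.log 2 else 0) := by
  classical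
  rw [← Finset.sum_filter_add_sum_filter_not (oe G)
    (fun p => p.1 ∈ bl G w R ∧ p.2 ∈ bl G w R)]
  have hf : ∑ p ∈ (oe G).filter (fun p => ¬ (p.1 ∈ bl G w R ∧ p.2 ∈ bl G w R)), J h w A p ≤
      d * ∑ x ∈ far, MI h x w A := by
    refine far_part h G R d hMI hdeg w A far _ (Finset.filter_subset _ _) ?_
    intro p hp
    have := (Finset.mem_filter.1 hp).2
    rw [hfar, hfar]
    by_contra hcon
    push Not at hcon
    exact this hcon
  have hn0 : (0 : ℝ) ≤ ∑ v ∈ univ.erase w, MI h v w A :=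
    Finset.sum_nonneg (fun v _ => hMI v w A)
  by_cases htree : TreeBall G w R
  · rw [if_neg (not_not.2 htree)]
    have hn := near_tree h G hT R hMI w A
      ((oe G).filter (fun p => p.1 ∈ bl G w R ∧ p.2 ∈ bl G w R)) (Finset.filter_subset _ _)
      (fun p hp => (Finset.mem_filter.1 hp).2) htree
    linarith
  · rw [if_pos htree]
    have hn := near_gen h G R d hMI hlog hdeg w A
      ((oe G).filter (fun p => p.1 ∈ bl G w R ∧ p.2 ∈ bl G w R)) (Finset.filter_subset _ _)
      (fun p hp => (Finset.mem_filter.1 hp).2)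
    linarith

/-- the Bethe expression relative to `A` -/
noncomputable def Be (A : Finset V) : ℝ :=
  ∑ v, (h (insert v A) - h A) - ∑ p ∈ oe G, MI h p.1 p.2 A

lemma Be_univ : Be h G univ = 0 := by
  have h1 : ∀ v : V, insert v (univ : Finset V) = univ := fun v =>
    Finset.insert_eq_of_mem (mem_univ v)
  simp only [Be, MI, h1, sub_self, Finset.sum_const_zero, add_sub_cancel_right]

lemma Be_empty (h0 : h ∅ = 0) : Be h G ∅ =
    ∑ v, h {v} + ∑ p ∈ oe G, (h {p.1, p.2} - h {p.1} - h {p.2}) := by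
  have h1 : ∑ p ∈ oe G, (h {p.1, p.2} - h {p.1} - h {p.2}) = - ∑ p ∈ oe G, MI h p.1 p.2 ∅ := by
    rw [← Finset.sum_neg_distrib]
    refine Finset.sum_congr rfl (fun p _ => ?_)
    simp only [MI, h0, insert_empty_eq]
    ring
  rw [h1]
  simp only [Be, h0, insert_empty_eq, sub_zero]
  ring

lemma Be_step (w : V) (A : Finset V) :
    (h (insert w A) - h A) + (Be h G (insert w A) - Be h G A) =
      ∑ p ∈ oe G, J h w A p - ∑ v ∈ univ.erase w, MI h v w A := by
  have h1 : ∑ v, (h (insert v A) - h A) - ∑ v, (h (insert v (insert w A)) - h (insert w A)) =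
      ∑ v, MI h v w A := by
    rw [← Finset.sum_sub_distrib]
    refine Finset.sum_congr rfl (fun v _ => ?_)
    simp only [MI]
    ring
  have h2 : ∑ v, MI h v w A = (h (insert w A) - h A) + ∑ v ∈ univ.erase w, MI h v w A := by
    rw [← Finset.add_sum_erase univ (fun v => MI h v w A) (mem_univ w), MI_self]
  have h3 : ∑ p ∈ oe G, J h w A p =
      ∑ p ∈ oe G, MI h p.1 p.2 A - ∑ p ∈ oe G, MI h p.1 p.2 (insert w A) := by
    rw [← Finset.sum_sub_distrib]
    rfl
  simp only [Be]
  linarith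

end main

end A2

open A2 in
theorem taskA2 : TaskA2 := by
  intro hT V _ _ h G _ R d _ h0 hMI hlog hdeg
  classical
  have key : h univ - h ∅ + (Be h G univ - Be h G ∅) ≤
      ∑ w : V, (d * ∑ x ∈ univ.filter (fun x => x ∉ bl G w R), MI h x w (univ.filter (· < w)) +
      (if ¬ TreeBall G w R then d * ((d : ℝ) + 1) ^ R * Real.log 2 else 0)) := by
    rw [← telescope h univ, ← telescope (Be h G) univ, ← Finset.sum_add_distrib]
    refine Finset.sum_le_sum (fun w _ => ?_)
    rw [Be_step]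
    have := per_w h G hT R d hMI hlog hdeg w (univ.filter (· < w))
      (univ.filter (fun x => x ∉ bl G w R)) (fun x => by simp)
    linarith
  rw [Finset.sum_add_distrib, ← Finset.mul_sum] at key
  have hswap : ∑ w : V, ∑ x ∈ univ.filter (fun x => x ∉ bl G w R),
      MI h x w (univ.filter (· < w)) =
      ∑ x : V, ∑ w ∈ univ.filter (fun w => w ∉ bl G x R), MI h x w (univ.filter (· < w)) := by
    simp only [Finset.sum_filter]
    rw [Finset.sum_comm]
    refine Finset.sum_congr rfl (fun x _ => Finset.sum_congr rfl (fun w _ => ?_))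
    by_cases hx : x ∈ bl G w R
    · have hw : w ∈ bl G x R := bl_symm G R x w hx
      simp [hx, hw]
    · have hw : w ∉ bl G x R := fun hw => hx (bl_symm G R w x hw)
      simp [hx, hw]
  have hnt : ∑ w : V, (if ¬ TreeBall G w R then d * ((d : ℝ) + 1) ^ R * Real.log 2 else 0) =
      (nontree G R : ℝ) * (d * ((d : ℝ) + 1) ^ R * Real.log 2) := by
    rw [← Finset.sum_filter, Finset.sum_const, nsmul_eq_mul]
    unfold nontree
    congr!
  rw [hswap, hnt, Be_univ, Be_empty h G h0, h0] at key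
  linarith

end H29I
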