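import Pool.Agent.H29Ising.Stmts

/-! Task A3 of the project H29-ISING: the far mass is controlled by the covariances in an annulus. -/

set_option autoImplicit false

namespace H29I.A3
open Finset H29I

section CI
variable {V : Type} [DecidableEq V]

/-- conditional mutual information of a vertex and a set -/
def CI (h : Finset V → ℝ) (x : V) (Y Z : Finset V) : ℝ :=
  h (insert x Z) + h (Z ∪ Y) - h Z - h (insert x (Z ∪ Y))

variable {h : Finset V → ℝ} {x : V}

theorem CI_empty (Z : Finset V) : CI h x ∅ Z = 0 := by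
  simp [CI]

theorem CI_insert (y : V) (Y Z : Finset V) : CI h x (insert y Y) Z = CI h x Y Z + MI h x y (Z ∪ Y) := by
  simp only [CI, MI, Finset.union_insert]
  ring

theorem CI_union (Y Y' Z : Finset V) : CI h x (Y ∪ Y') Z = CI h x Y Z + CI h x Y' (Z ∪ Y) := by
  simp only [CI, Finset.union_assoc]
  ring

theorem CI_singleton (w : V) (Z : Finset V) : CI h x {w} Z = MI h x w Z := by
  have := CI_insert (h := h) (x := x) w ∅ Z
  rw [CI_empty] at this
  simpa using this

theorem CI_nonneg (hs : ∀ A B D : Finset V, h D + h (A ∪ B ∪ D) ≤ h (A ∪ D) + h (B ∪ D))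
    (Y Z : Finset V) : 0 ≤ CI h x Y Z := by
  have h1 := hs {x} Y Z
  have e1 : ({x} : Finset V) ∪ Y ∪ Z = insert x (Z ∪ Y) := by
    ext a
    simp only [Finset.mem_union, Finset.mem_singleton, Finset.mem_insert]
    tauto
  have e2 : ({x} : Finset V) ∪ Z = insert x Z := by
    ext a
    simp
  have e3 : Y ∪ Z = Z ∪ Y := Finset.union_comm _ _
  rw [e1, e2, e3] at h1
  unfold CI
  linarith

theorem CI_le_sum {m : V → ℝ} (hm : ∀ w Z, x ≠ w → MI h x w Z ≤ m w) (Y Z : Finset V) (hY : x ∉ Y) :
    CI h x Y Z ≤ ∑ y ∈ Y, m y := by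
  induction Y using Finset.induction_on with
  | empty => simp [CI_empty]
  | insert y Y hyY ih =>
    rw [CI_insert, Finset.sum_insert hyY]
    have h1 : x ≠ y := fun e => hY (e ▸ Finset.mem_insert_self _ _)
    have h2 : x ∉ Y := fun e => hY (Finset.mem_insert_of_mem e)
    have h3 := ih h2
    have h4 := hm y (Z ∪ Y) h1
    linarith

theorem CI_sphere (hs : ∀ A B D : Finset V, h D + h (A ∪ B ∪ D) ≤ h (A ∪ D) + h (B ∪ D))
    {m : V → ℝ} (hm : ∀ w Z, x ≠ w → MI h x w Z ≤ m w) {S : Finset V} (hS : x ∉ S)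
    (Y Z : Finset V)
    (hMk : h (insert x (Z ∪ S)) + h (Z ∪ S ∪ Y) = h (Z ∪ S) + h (insert x (Z ∪ S ∪ Y))) :
    CI h x Y Z ≤ ∑ y ∈ S, m y := by
  have h1 : CI h x (S ∪ Y) Z = CI h x S Z := by
    rw [CI_union]
    unfold CI
    linarith
  have h2 : CI h x (S ∪ Y) Z = CI h x Y Z + CI h x S (Z ∪ Y) := by
    rw [Finset.union_comm, CI_union]
  have h3 := CI_nonneg (h := h) (x := x) hs S (Z ∪ Y)
  have h4 := CI_le_sum hm S Z hS
  linarith

end CI

section Chain
variable {V : Type} [LinearOrder V] {h : Finset V → ℝ} {x : V}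

theorem chain (A : Finset V) : ∑ w ∈ A, MI h x w (A.filter (· < w)) = CI h x A ∅ := by
  induction A using Finset.induction_on_max with
  | empty => simp [CI_empty]
  | insert a s hs ih =>
    have ha : a ∉ s := fun e => lt_irrefl _ (hs a e)
    rw [Finset.sum_insert ha, CI_insert, ← ih]
    have e1 : (insert a s).filter (· < a) = s := by
      ext b
      simp only [Finset.mem_filter, Finset.mem_insert]
      constructor
      · rintro ⟨rfl | hb, h2⟩
        · exact absurd h2 (lt_irrefl _)
        · exact hb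
      · intro hb
        exact ⟨Or.inr hb, hs b hb⟩
    rw [e1, Finset.empty_union, add_comm]
    congr 1
    apply Finset.sum_congr rfl
    intro w hw
    congr 1
    ext b
    simp only [Finset.mem_filter, Finset.mem_insert]
    constructor
    · rintro ⟨rfl | hb, h2⟩
      · exact absurd h2 (lt_asymm (hs w hw))
      · exact ⟨hb, h2⟩
    · rintro ⟨hb, h2⟩
      exact ⟨Or.inr hb, h2⟩

/-- the core estimate -/
theorem core (hs : ∀ A B D : Finset V, h D + h (A ∪ B ∪ D) ≤ h (A ∪ D) + h (B ∪ D))
    {m : V → ℝ} (hm : ∀ w Z, x ≠ w → MI h x w Z ≤ m w) (hm0 : ∀ w, 0 ≤ m w)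
    (A N P : Finset V) (hNP : N ⊆ P) (hA : x ∉ A) (s : ℝ) (hs0 : 0 ≤ s)
    (hfar : ∀ Z Y : Finset V, (∀ y ∈ Y, y ∉ P) → CI h x Y Z ≤ s) :
    ∑ w ∈ A \ N, MI h x w (A.filter (· < w)) ≤ (1 + (N.card : ℝ)) * s + 2 * ∑ w ∈ P \ N, m w := by
  -- split `A \ N` into the annulus and the far part
  have hA1 : A \ N = (A ∩ (P \ N)) ∪ (A \ P) := by
    ext w
    simp only [Finset.mem_sdiff, Finset.mem_union, Finset.mem_inter]
    constructor
    · rintro ⟨h1, h2⟩
      by_cases h3 : w ∈ P
      · exact Or.inl ⟨h1, h3, h2⟩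
      · exact Or.inr ⟨h1, h3⟩
    · rintro (⟨h1, h2, h3⟩ | ⟨h1, h2⟩)
      · exact ⟨h1, h3⟩
      · exact ⟨h1, fun h3 => h2 (hNP h3)⟩
  have hdis : Disjoint (A ∩ (P \ N)) (A \ P) := by
    rw [Finset.disjoint_left]
    intro w hw hw2
    simp only [Finset.mem_sdiff, Finset.mem_inter] at hw hw2
    exact hw2.2 hw.2.1
  rw [hA1, Finset.sum_union hdis]
  -- annulus
  have hann : ∑ w ∈ A ∩ (P \ N), m w ≤ ∑ w ∈ P \ N, m w :=
    Finset.sum_le_sum_of_subset_of_nonneg Finset.inter_subset_right (fun w _ _ => hm0 w)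
  have hannMI : ∀ Z : V → Finset V, ∑ w ∈ A ∩ (P \ N), MI h x w (Z w) ≤ ∑ w ∈ P \ N, m w := by
    intro Z
    refine le_trans (Finset.sum_le_sum (fun w hw => hm w (Z w) ?_)) hann
    rintro rfl
    exact hA (Finset.mem_inter.1 hw).1
  -- telescoping
  have hch1 := chain (h := h) (x := x) A
  have hch2 := chain (h := h) (x := x) (A ∩ P)
  have hsplit : ∑ w ∈ A, MI h x w (A.filter (· < w)) =
      ∑ w ∈ A ∩ P, MI h x w (A.filter (· < w)) + ∑ w ∈ A \ P, MI h x w (A.filter (· < w)) :=
    (Finset.sum_inter_add_sum_sdiff A P _).symm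
  have hAP : CI h x A ∅ = CI h x (A ∩ P) ∅ + CI h x (A \ P) (A ∩ P) := by
    have e : A = (A ∩ P) ∪ (A \ P) := by
      ext w
      simp only [Finset.mem_sdiff, Finset.mem_union, Finset.mem_inter]
      tauto
    have := CI_union (h := h) (x := x) (A ∩ P) (A \ P) ∅
    rw [← e, Finset.empty_union] at this
    exact this
  have hfar1 : CI h x (A \ P) (A ∩ P) ≤ s :=
    hfar _ _ (fun y hy => (Finset.mem_sdiff.1 hy).2)
  -- differences
  have hPd : A ∩ P = (A ∩ (P \ N)) ∪ (A ∩ N) := by
    ext w
    simp only [Finset.mem_sdiff, Finset.mem_union, Finset.mem_inter]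
    constructor
    · rintro ⟨h1, h2⟩
      by_cases h3 : w ∈ N
      · exact Or.inr ⟨h1, h3⟩
      · exact Or.inl ⟨h1, h2, h3⟩
    · rintro (⟨h1, h2, h3⟩ | ⟨h1, h2⟩)
      · exact ⟨h1, h2⟩
      · exact ⟨h1, hNP h2⟩
  have hdis2 : Disjoint (A ∩ (P \ N)) (A ∩ N) := by
    rw [Finset.disjoint_left]
    intro w hw hw2
    simp only [Finset.mem_sdiff, Finset.mem_inter] at hw hw2
    exact hw.2.2 hw2.2
  have hdiff : ∑ w ∈ A ∩ P, (MI h x w ((A ∩ P).filter (· < w)) - MI h x w (A.filter (· < w))) ≤
      ∑ w ∈ P \ N, m w + (N.card : ℝ) * s := by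
    have e : ∑ w ∈ A ∩ P, (MI h x w ((A ∩ P).filter (· < w)) - MI h x w (A.filter (· < w))) =
        ∑ w ∈ A ∩ (P \ N), (MI h x w ((A ∩ P).filter (· < w)) - MI h x w (A.filter (· < w))) +
        ∑ w ∈ A ∩ N, (MI h x w ((A ∩ P).filter (· < w)) - MI h x w (A.filter (· < w))) := by
      rw [← Finset.sum_union hdis2]
      exact Finset.sum_congr hPd (fun _ _ => rfl)
    rw [e]
    apply add_le_add
    · refine le_trans (Finset.sum_le_sum (fun w hw => ?_)) hann
      have hxw : x ≠ w := by
        rintro rfl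
        exact hA (Finset.mem_inter.1 hw).1
      have h1 := hm w ((A ∩ P).filter (· < w)) hxw
      have h2 := CI_nonneg (h := h) (x := x) hs {w} (A.filter (· < w))
      rw [CI_singleton] at h2
      linarith
    · have h3 : ∀ w ∈ A ∩ N,
          (MI h x w ((A ∩ P).filter (· < w)) - MI h x w (A.filter (· < w))) ≤ s := by
        intro w hw
        set Z := (A ∩ P).filter (· < w) with hZ
        set Y := (A \ P).filter (· < w) with hY
        have e1 : A.filter (· < w) = Z ∪ Y := by
          ext b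
          simp only [hZ, hY, Finset.mem_filter, Finset.mem_union, Finset.mem_inter,
            Finset.mem_sdiff]
          tauto
        have e2 := CI_union (h := h) (x := x) {w} Y Z
        have e3 := CI_union (h := h) (x := x) Y {w} Z
        rw [Finset.union_comm Y {w}] at e3
        rw [CI_singleton] at e2 e3
        rw [e1]
        have h4 := CI_nonneg (h := h) (x := x) hs Y (Z ∪ {w})
        have h5 := hfar Z Y (by
          intro y hy
          rw [hY, Finset.mem_filter, Finset.mem_sdiff] at hy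
          exact hy.1.2)
        linarith
      calc ∑ w ∈ A ∩ N, (MI h x w ((A ∩ P).filter (· < w)) - MI h x w (A.filter (· < w)))
          ≤ ∑ w ∈ A ∩ N, s := Finset.sum_le_sum h3
        _ = ((A ∩ N).card : ℝ) * s := by rw [Finset.sum_const, nsmul_eq_mul]
        _ ≤ (N.card : ℝ) * s := by
            apply mul_le_mul_of_nonneg_right _ hs0
            exact_mod_cast Finset.card_le_card Finset.inter_subset_right
  rw [Finset.sum_sub_distrib] at hdiff
  have hann2 := hannMI (fun w => A.filter (· < w))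
  linarith

end Chain

section Ball
variable {V : Type} [Fintype V] (G : SimpleGraph V)

omit [Fintype V] in
theorem bl_mono {x : V} {r s : ℕ} (h : r ≤ s) : bl G x r ⊆ bl G x s := by
  induction h with
  | refl => exact subset_rfl
  | step _ ih =>
    intro u hu
    exact Or.inl (ih hu)

omit [Fintype V] in
theorem self_mem (x : V) (r : ℕ) : x ∈ bl G x r := by
  induction r with
  | zero => exact Set.mem_singleton x
  | succ r ih => exact Or.inl ih

theorem bl_card [DecidableEq V] {d : ℕ} (hd : ∀ v, dg G v ≤ d) (x : V) (r : ℕ) :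
    ∀ N : Finset V, (∀ w, w ∈ N ↔ w ∈ bl G x r) → N.card ≤ (d + 1) ^ r := by
  classical
  induction r with
  | zero =>
    intro N hN
    have : N ⊆ {x} := by
      intro w hw
      have := (hN w).1 hw
      simpa [bl] using this
    simpa using Finset.card_le_card this
  | succ r ih =>
    intro N hN
    set N' : Finset V := univ.filter (fun w => w ∈ bl G x r) with hN'
    have h1 := ih N' (by intro w; simp [hN'])
    have h2 : N ⊆ N'.biUnion (fun w => insert w (univ.filter (fun u => G.Adj w u))) := by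
      intro u hu
      rw [Finset.mem_biUnion]
      rcases (hN u).1 hu with h | ⟨w, hw, hwu⟩
      · exact ⟨u, by simp [hN', h], by simp⟩
      · exact ⟨w, by simp [hN', hw], by simp [hwu]⟩
    calc N.card ≤ (N'.biUnion (fun w => insert w (univ.filter (fun u => G.Adj w u)))).card :=
          Finset.card_le_card h2
      _ ≤ ∑ w ∈ N', (insert w (univ.filter (fun u => G.Adj w u))).card := Finset.card_biUnion_le
      _ ≤ ∑ w ∈ N', (d + 1) := by
          apply Finset.sum_le_sum
          intro w _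
          refine (Finset.card_insert_le _ _).trans ?_
          have h3 := hd w
          unfold dg at h3
          have h4 : (univ.filter (fun u => G.Adj w u)).card ≤ d := by
            convert h3
          omega
      _ = N'.card * (d + 1) := by rw [Finset.sum_const, smul_eq_mul]
      _ ≤ (d + 1) ^ r * (d + 1) := Nat.mul_le_mul_right _ h1
      _ = (d + 1) ^ (r + 1) := by rw [pow_succ]

theorem mem_sph (x y : V) (r : ℕ) : y ∈ sph G x r ↔ y ∈ bl G x r ∧ y ∉ bl G x (r - 1) := by
  unfold sph
  simp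

theorem x_not_sph (x : V) (r : ℕ) : x ∉ sph G x r := by
  rw [mem_sph]
  intro h
  exact h.2 (self_mem G x _)

theorem sum_sph [DecidableEq V] (x : V) (R k : ℕ) (m : V → ℝ) (N P : Finset V)
    (hN : ∀ w, w ∈ N ↔ w ∈ bl G x R) (hP : ∀ w, w ∈ P ↔ w ∈ bl G x (R + k)) :
    ∑ w ∈ P \ N, m w = ∑ i ∈ range k, ∑ y ∈ sph G x (R + i + 1), m y := by
  classical
  induction k generalizing P with
  | zero =>
    have : P \ N = ∅ := by
      ext w
      simp only [Finset.mem_sdiff, Finset.notMem_empty, iff_false, not_and, not_not]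
      intro h
      rw [hN]
      exact (hP w).1 h
    rw [this]
    simp
  | succ k ih =>
    set P' : Finset V := univ.filter (fun w => w ∈ bl G x (R + k)) with hP'
    have h1 := ih P' (by intro w; simp [hP'])
    rw [Finset.sum_range_succ, ← h1]
    rw [← Finset.sum_union]
    · apply Finset.sum_congr _ (fun _ _ => rfl)
      ext w
      simp only [Finset.mem_sdiff, Finset.mem_union, mem_sph, hP, hN, hP', Finset.mem_filter,
        Finset.mem_univ, true_and, Nat.add_sub_cancel]
      have e : R + (k + 1) = R + k + 1 := by ring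
      rw [e]
      have m1 : w ∈ bl G x (R + k) → w ∈ bl G x (R + k + 1) := fun h => bl_mono G (by omega) h
      have m2 : w ∈ bl G x R → w ∈ bl G x (R + k) := fun h => bl_mono G (by omega) h
      tauto
    · rw [Finset.disjoint_left]
      intro w hw hw2
      simp only [Finset.mem_sdiff, mem_sph, hP', Finset.mem_filter, Finset.mem_univ, true_and,
        Nat.add_sub_cancel] at hw hw2
      exact hw2.2 hw.1

end Ball

/-- some term is at most the average -/
theorem exists_le_avg {k : ℕ} (hk : 0 < k) (f : ℕ → ℝ) :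
    ∃ i < k, (k : ℝ) * f i ≤ ∑ j ∈ range k, f j := by
  obtain ⟨i, hi, hmin⟩ := Finset.exists_min_image (range k) f ⟨0, Finset.mem_range.2 hk⟩
  refine ⟨i, Finset.mem_range.1 hi, ?_⟩
  calc (k : ℝ) * f i = ∑ _j ∈ range k, f i := by
        rw [Finset.sum_const, Finset.card_range, nsmul_eq_mul]
    _ ≤ _ := Finset.sum_le_sum (fun j hj => hmin j hj)

end H29I.A3

namespace H29I
open Finset

theorem taskA3 : TaskA3 := by
  intro V _ _ h c G R R' d C _ _ hC hc hs _hmono hMI hMk hR hd x
  classical
  set N : Finset V := univ.filter (fun w => w ∈ bl G x R) with hN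
  set P : Finset V := univ.filter (fun w => w ∈ bl G x R') with hP
  set A : Finset V := univ.filter (fun w => w < x) with hA
  set m : V → ℝ := fun w => C * c x w with hm
  have hm0 : ∀ w, 0 ≤ m w := fun w => mul_nonneg hC (hc x w)
  have hm1 : ∀ w Z, x ≠ w → MI h x w Z ≤ m w := fun w Z hw => hMI x w Z hw
  have hNm : ∀ w, w ∈ N ↔ w ∈ bl G x R := by intro w; simp [hN]
  have hPm : ∀ w, w ∈ P ↔ w ∈ bl G x R' := by intro w; simp [hP]
  have hNP : N ⊆ P := by
    intro w hw
    rw [hPm]
    exact A3.bl_mono G (by omega) ((hNm w).1 hw)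
  have hxA : x ∉ A := by simp [hA]
  obtain ⟨K, hK⟩ : ∃ K, R' = R + K := ⟨R' - R, by omega⟩
  have hKk : 1 + (d + 1) ^ R ≤ K := by omega
  have hK0 : 0 < K := by omega
  obtain ⟨i, hiK, hi⟩ := A3.exists_le_avg hK0 (fun i => ∑ y ∈ sph G x (R + i + 1), m y)
  set s : ℝ := ∑ y ∈ sph G x (R + i + 1), m y with hs'
  have hs0 : 0 ≤ s := Finset.sum_nonneg (fun w _ => hm0 w)
  have hPm' : ∀ w, w ∈ P ↔ w ∈ bl G x (R + K) := by
    intro w
    rw [hPm, hK]
  rw [← A3.sum_sph G x R K m N P hNm hPm'] at hi
  have hfar : ∀ Z Y : Finset V, (∀ y ∈ Y, y ∉ P) → A3.CI h x Y Z ≤ s := by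
    intro Z Y hY
    refine A3.CI_sphere hs hm1 (A3.x_not_sph G x _) Y Z ?_
    apply hMk x (R + i + 1) Z Y (by omega)
    intro y hy hyb
    exact hY y hy ((hPm' y).2 (A3.bl_mono G (by omega) hyb))
  have hcore := A3.core hs hm1 hm0 A N P hNP hxA s hs0 hfar
  have hNcard : (N.card : ℝ) ≤ ((d : ℝ) + 1) ^ R := by
    exact_mod_cast A3.bl_card G hd x R N hNm
  have hKk' : 1 + ((d : ℝ) + 1) ^ R ≤ (K : ℝ) := by exact_mod_cast hKk
  have h1 : (1 + (N.card : ℝ)) * s ≤ (K : ℝ) * s := by
    apply mul_le_mul_of_nonneg_right _ hs0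
    linarith
  have hLHS : ∑ w ∈ univ.filter (fun w => w ∉ bl G x R), MI h x w (univ.filter (· < w)) =
      ∑ w ∈ A \ N, MI h x w (A.filter (· < w)) := by
    symm
    have e1 : ∑ w ∈ A \ N, MI h x w (A.filter (· < w)) =
        ∑ w ∈ A \ N, MI h x w (univ.filter (· < w)) := by
      apply Finset.sum_congr rfl
      intro w hw
      congr 1
      have hwx : w < x := by
        have := (Finset.mem_sdiff.1 hw).1
        simpa [hA] using this
      ext b
      simp only [hA, Finset.mem_filter, Finset.mem_univ, true_and]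
      constructor
      · exact fun hb => hb.2
      · exact fun hb => ⟨hb.trans hwx, hb⟩
    rw [e1]
    apply Finset.sum_subset
    · intro w hw
      have := (Finset.mem_sdiff.1 hw).2
      rw [hNm] at this
      simpa using this
    · intro w hw hw2
      have hwN : w ∉ N := by
        rw [hNm]
        simpa using hw
      have hwA : w ∉ A := fun e => hw2 (Finset.mem_sdiff.2 ⟨e, hwN⟩)
      have hwx : ¬ w < x := by simpa [hA] using hwA
      have hne : w ≠ x := by
        rintro rfl
        exact hwN ((hNm _).2 (A3.self_mem G _ _))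
      have hxw : x < w := lt_of_le_of_ne (not_lt.1 hwx) (Ne.symm hne)
      unfold MI
      have e2 : insert x (univ.filter (· < w)) = univ.filter (· < w) :=
        Finset.insert_eq_of_mem (by simpa using hxw)
      rw [Finset.insert_comm, e2]
      ring
  have hRHS : ∑ w ∈ univ.filter (fun w => w ∉ bl G x R ∧ w ∈ bl G x R'), c x w =
      ∑ w ∈ P \ N, c x w := by
    apply Finset.sum_congr _ (fun _ _ => rfl)
    ext w
    simp only [Finset.mem_filter, Finset.mem_univ, true_and, Finset.mem_sdiff, hNm, hPm]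
    tauto
  have hsumm : ∑ w ∈ P \ N, m w = C * ∑ w ∈ P \ N, c x w := by
    rw [Finset.mul_sum]
  rw [hLHS, hRHS]
  rw [hsumm] at hcore hi
  linarith

end H29I
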