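import Pool.Agent.H29Ising.Stmts

/-! Task C1 of project H29-ISING (helper444). -/

namespace H29I
open Finset

namespace C1h444

open scoped Classical in
lemma av_eq {V : Type} [Fintype V] (G : SimpleGraph V) (a : V → ℕ) (r : ℕ) (Z : V → ℝ) (v : V) :
    av G a r Z v = (∑ u, if wl G a r u = wl G a r v then Z u else 0) /
      ((univ.filter (fun u => wl G a r u = wl G a r v)).card : ℝ) := by
  unfold av
  rw [Finset.sum_filter]

open scoped Classical in
lemma av_congr {V : Type} [Fintype V] (G : SimpleGraph V) (a : V → ℕ) (r : ℕ) (Z : V → ℝ)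
    {v w : V} (h : wl G a r v = wl G a r w) : av G a r Z v = av G a r Z w := by
  rw [av_eq, av_eq, h]

open scoped Classical in
lemma av_sum {V : Type} [Fintype V] (G : SimpleGraph V) (a : V → ℕ) (r : ℕ) (Z g : V → ℝ)
    (hg : ∀ u u', wl G a r u = wl G a r u' → g u = g u') :
    ∑ u, Z u * g u = ∑ u, av G a r Z u * g u := by
  have h1 : ∀ u, av G a r Z u * g u = ∑ w, (if wl G a r w = wl G a r u then
      Z w * g w / ((univ.filter (fun u => wl G a r u = wl G a r w)).card : ℝ) else 0) := by
    intro u
    rw [av_eq, div_mul_eq_mul_div, Finset.sum_mul, Finset.sum_div]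
    apply Finset.sum_congr rfl
    intro w _
    split_ifs with h
    · rw [hg w u h, h]
    · simp
  rw [Finset.sum_congr rfl (fun u _ => h1 u), Finset.sum_comm]
  apply Finset.sum_congr rfl
  intro w _
  have h2 : (∑ u, (if wl G a r w = wl G a r u then
      Z w * g w / ((univ.filter (fun u => wl G a r u = wl G a r w)).card : ℝ) else 0)) =
      ((univ.filter (fun u => wl G a r u = wl G a r w)).card : ℝ) *
        (Z w * g w / ((univ.filter (fun u => wl G a r u = wl G a r w)).card : ℝ)) := by
    rw [← Finset.sum_filter, Finset.sum_const, nsmul_eq_mul]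
    congr 3
    ext u
    simp [eq_comm]
  rw [h2]
  have h3 : ((univ.filter (fun u => wl G a r u = wl G a r w)).card : ℝ) ≠ 0 := by
    have : 0 < (univ.filter (fun u => wl G a r u = wl G a r w)).card :=
      Finset.card_pos.mpr ⟨w, by simp⟩
    positivity
  field_simp

open scoped Classical in
/-- number of neighbours of type `t`, for vertices of type `s` -/
noncomputable def gg {V : Type} [Fintype V] (G : SimpleGraph V) (a : V → ℕ) (r : ℕ)
    (s t : WLT r) (u : V) : ℝ :=
  if wl G a r u = s then
    ((((univ.filter (fun v => G.Adj u v)).val.map (wl G a r)).count t : ℕ) : ℝ) else 0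

open scoped Classical in
lemma gg_congr {V : Type} [Fintype V] (G : SimpleGraph V) (a : V → ℕ) (r : ℕ)
    (s t : WLT r) (u u' : V) (h : wl G a (r + 1) u = wl G a (r + 1) u') :
    gg G a r s t u = gg G a r s t u' := by
  have h1 : wl G a r u = wl G a r u' := congrArg Prod.fst h
  have h2 : ((univ.filter (fun v => G.Adj u v)).val.map (wl G a r)) =
      ((univ.filter (fun v => G.Adj u' v)).val.map (wl G a r)) := congrArg Prod.snd h
  unfold gg
  rw [h1, h2]

open scoped Classical in
lemma gg_sum {V : Type} [Fintype V] (G : SimpleGraph V) (a : V → ℕ) (r : ℕ)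
    (s t : WLT r) (Z : V → ℝ) :
    ∑ u, ∑ v, (if G.Adj u v ∧ wl G a r u = s ∧ wl G a r v = t then Z u else 0) =
      ∑ u, Z u * gg G a r s t u := by
  apply Finset.sum_congr rfl
  intro u _
  unfold gg
  by_cases h : wl G a r u = s
  · simp only [h, true_and, if_true]
    rw [← Finset.sum_filter, Finset.sum_const, nsmul_eq_mul, mul_comm]
    congr 2
    rw [Multiset.count_map]
    rw [← Finset.filter_val, Finset.card_val, Finset.filter_filter]
    congr 1
    ext v
    simp [eq_comm]
  · simp [h]

open scoped Classical in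
lemma fst_sum {V : Type} [Fintype V] (G : SimpleGraph V) (a : V → ℕ) (r : ℕ)
    (s t : WLT r) (Z : V → ℝ) :
    ∑ u, ∑ v, (if G.Adj u v ∧ wl G a r u = s ∧ wl G a r v = t then Z u else 0) =
      ∑ u, ∑ v, (if G.Adj u v ∧ wl G a r u = s ∧ wl G a r v = t then av G a (r + 1) Z u else 0) := by
  rw [gg_sum, gg_sum, av_sum G a (r + 1) Z _ (fun u u' h => gg_congr G a r s t u u' h)]

open scoped Classical in
lemma snd_sum {V : Type} [Fintype V] (G : SimpleGraph V) (a : V → ℕ) (r : ℕ)
    (s t : WLT r) (Z : V → ℝ) :
    ∑ u, ∑ v, (if G.Adj u v ∧ wl G a r u = s ∧ wl G a r v = t then Z v else 0) =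
      ∑ u, ∑ v, (if G.Adj u v ∧ wl G a r u = s ∧ wl G a r v = t then av G a (r + 1) Z v else 0) := by
  have h := fst_sum G a r t s Z
  rw [Finset.sum_comm, Finset.sum_comm (s := univ) (t := univ) (f := fun u v =>
    (if G.Adj u v ∧ wl G a r u = s ∧ wl G a r v = t then av G a (r + 1) Z v else 0))]
  calc _ = ∑ u, ∑ v, (if G.Adj u v ∧ wl G a r u = t ∧ wl G a r v = s then Z u else 0) := by
        apply Finset.sum_congr rfl; intro u _; apply Finset.sum_congr rfl; intro v _
        simp only [G.adj_comm v u, and_comm]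
    _ = _ := h
    _ = _ := by
        apply Finset.sum_congr rfl; intro u _; apply Finset.sum_congr rfl; intro v _
        simp only [G.adj_comm v u, and_comm]

open scoped Classical in
lemma class_le {V : Type} [Fintype V] (G : SimpleGraph V) (a : V → ℕ) (r : ℕ)
    (s t : WLT r) (X Y : V → ℝ) (hX : ∀ v, X v = 0 ∨ X v = 1) (hY : ∀ v, Y v = 0 ∨ Y v = 1) :
    ∑ u, ∑ v, (if G.Adj u v ∧ wl G a r u = s ∧ wl G a r v = t then X u * Y v else 0) ≤
      ∑ u, ∑ v, (if G.Adj u v ∧ wl G a r u = s ∧ wl G a r v = t then
        (min (av G a r X u) (av G a r Y v) + |av G a (r + 1) X u - av G a r X u| +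
          |av G a (r + 1) Y v - av G a r Y v|) else 0) := by
  by_cases hne : ∃ u0 v0, G.Adj u0 v0 ∧ wl G a r u0 = s ∧ wl G a r v0 = t
  swap
  · push Not at hne
    have h0 : ∀ u v, ¬ (G.Adj u v ∧ wl G a r u = s ∧ wl G a r v = t) :=
      fun u v h => hne u v h.1 h.2.1 h.2.2
    simp [h0]
  obtain ⟨u0, v0, hadj, hu0, hv0⟩ := hne
  rcases le_total (av G a r X u0) (av G a r Y v0) with hle | hle
  · calc _ ≤ ∑ u, ∑ v, (if G.Adj u v ∧ wl G a r u = s ∧ wl G a r v = t then X u else 0) := by
          apply Finset.sum_le_sum; intro u _; apply Finset.sum_le_sum; intro v _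
          split_ifs
          · rcases hX u with h | h <;> rcases hY v with h' | h' <;> simp [h, h']
          · exact le_rfl
      _ = ∑ u, ∑ v, (if G.Adj u v ∧ wl G a r u = s ∧ wl G a r v = t then
            av G a (r + 1) X u else 0) := fst_sum G a r s t X
      _ ≤ _ := by
          apply Finset.sum_le_sum; intro u _; apply Finset.sum_le_sum; intro v _
          split_ifs with h
          · obtain ⟨_, hu, hv⟩ := h
            have e1 : av G a r X u = av G a r X u0 := av_congr G a r X (hu.trans hu0.symm)
            have e2 : av G a r Y v = av G a r Y v0 := av_congr G a r Y (hv.trans hv0.symm)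
            rw [e1, e2, min_eq_left hle]
            have h1 := le_abs_self (av G a (r + 1) X u - av G a r X u0)
            have h2 := abs_nonneg (av G a (r + 1) Y v - av G a r Y v0)
            linarith
          · exact le_rfl
  · calc _ ≤ ∑ u, ∑ v, (if G.Adj u v ∧ wl G a r u = s ∧ wl G a r v = t then Y v else 0) := by
          apply Finset.sum_le_sum; intro u _; apply Finset.sum_le_sum; intro v _
          split_ifs
          · rcases hX u with h | h <;> rcases hY v with h' | h' <;> simp [h, h']
          · exact le_rfl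
      _ = ∑ u, ∑ v, (if G.Adj u v ∧ wl G a r u = s ∧ wl G a r v = t then
            av G a (r + 1) Y v else 0) := snd_sum G a r s t Y
      _ ≤ _ := by
          apply Finset.sum_le_sum; intro u _; apply Finset.sum_le_sum; intro v _
          split_ifs with h
          · obtain ⟨_, hu, hv⟩ := h
            have e1 : av G a r X u = av G a r X u0 := av_congr G a r X (hu.trans hu0.symm)
            have e2 : av G a r Y v = av G a r Y v0 := av_congr G a r Y (hv.trans hv0.symm)
            rw [e1, e2, min_eq_right hle]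
            have h1 := le_abs_self (av G a (r + 1) Y v - av G a r Y v0)
            have h2 := abs_nonneg (av G a (r + 1) X u - av G a r X u0)
            linarith
          · exact le_rfl

open scoped Classical in
lemma sum_classes {V : Type} [Fintype V] (G : SimpleGraph V) (a : V → ℕ) (r : ℕ)
    (F : V → V → ℝ) :
    ∑ u, ∑ v, (if G.Adj u v then F u v else 0) =
      ∑ s ∈ univ.image (wl G a r), ∑ t ∈ univ.image (wl G a r),
        ∑ u, ∑ v, (if G.Adj u v ∧ wl G a r u = s ∧ wl G a r v = t then F u v else 0) := by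
  have key : ∀ u v, (if G.Adj u v then F u v else 0) =
      ∑ s ∈ univ.image (wl G a r), ∑ t ∈ univ.image (wl G a r),
        (if G.Adj u v ∧ wl G a r u = s ∧ wl G a r v = t then F u v else 0) := by
    intro u v
    rw [Finset.sum_eq_single (wl G a r u), Finset.sum_eq_single (wl G a r v)]
    · simp
    · intro t _ ht
      rw [if_neg]
      rintro ⟨_, _, h⟩
      exact ht h.symm
    · intro h
      exact absurd (Finset.mem_image_of_mem _ (Finset.mem_univ v)) h
    · intro s _ hs
      apply Finset.sum_eq_zero
      intro t _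
      rw [if_neg]
      rintro ⟨_, h, _⟩
      exact hs h.symm
    · intro h
      exact absurd (Finset.mem_image_of_mem _ (Finset.mem_univ u)) h
  calc _ = ∑ u, ∑ v, ∑ s ∈ univ.image (wl G a r), ∑ t ∈ univ.image (wl G a r),
        (if G.Adj u v ∧ wl G a r u = s ∧ wl G a r v = t then F u v else 0) :=
        Finset.sum_congr rfl (fun u _ => Finset.sum_congr rfl (fun v _ => key u v))
    _ = ∑ u, ∑ s ∈ univ.image (wl G a r), ∑ v, ∑ t ∈ univ.image (wl G a r),
        (if G.Adj u v ∧ wl G a r u = s ∧ wl G a r v = t then F u v else 0) :=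
        Finset.sum_congr rfl (fun u _ => Finset.sum_comm)
    _ = ∑ s ∈ univ.image (wl G a r), ∑ u, ∑ v, ∑ t ∈ univ.image (wl G a r),
        (if G.Adj u v ∧ wl G a r u = s ∧ wl G a r v = t then F u v else 0) := Finset.sum_comm
    _ = ∑ s ∈ univ.image (wl G a r), ∑ u, ∑ t ∈ univ.image (wl G a r), ∑ v,
        (if G.Adj u v ∧ wl G a r u = s ∧ wl G a r v = t then F u v else 0) :=
        Finset.sum_congr rfl (fun s _ => Finset.sum_congr rfl (fun u _ => Finset.sum_comm))
    _ = _ := Finset.sum_congr rfl (fun s _ => Finset.sum_comm)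

open scoped Classical in
lemma main {V : Type} [Fintype V] (G : SimpleGraph V) (a : V → ℕ) (r : ℕ)
    (X Y : V → ℝ) (hX : ∀ v, X v = 0 ∨ X v = 1) (hY : ∀ v, Y v = 0 ∨ Y v = 1) :
    ∑ u, ∑ v, (if G.Adj u v then X u * Y v else 0) ≤
      ∑ u, ∑ v, (if G.Adj u v then min (av G a r X u) (av G a r Y v) else 0) +
      Df G a r X + Df G a r Y := by
  have h1 : ∑ u, ∑ v, (if G.Adj u v then X u * Y v else 0) ≤
      ∑ u, ∑ v, (if G.Adj u v then (min (av G a r X u) (av G a r Y v) +
        |av G a (r + 1) X u - av G a r X u| + |av G a (r + 1) Y v - av G a r Y v|) else 0) := by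
    rw [sum_classes G a r (fun u v => X u * Y v), sum_classes G a r
      (fun u v => min (av G a r X u) (av G a r Y v) +
        |av G a (r + 1) X u - av G a r X u| + |av G a (r + 1) Y v - av G a r Y v|)]
    exact Finset.sum_le_sum (fun s _ => Finset.sum_le_sum (fun t _ =>
      class_le G a r s t X Y hX hY))
  refine h1.trans (le_of_eq ?_)
  have h2 : ∀ u v, (if G.Adj u v then (min (av G a r X u) (av G a r Y v) +
        |av G a (r + 1) X u - av G a r X u| + |av G a (r + 1) Y v - av G a r Y v|) else 0) =
      (if G.Adj u v then min (av G a r X u) (av G a r Y v) else 0) +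
      (if G.Adj u v then |av G a (r + 1) X u - av G a r X u| else 0) +
      (if G.Adj u v then |av G a (r + 1) Y v - av G a r Y v| else 0) := by
    intro u v
    split_ifs <;> simp
  have hdg : ∀ (Z : V → ℝ) (u : V), ∑ v, (if G.Adj u v then |av G a (r + 1) Z u - av G a r Z u|
      else 0) = (dg G u : ℝ) * |av G a (r + 1) Z u - av G a r Z u| := by
    intro Z u
    rw [← Finset.sum_filter, Finset.sum_const, nsmul_eq_mul]
    rfl
  simp_rw [h2, Finset.sum_add_distrib]
  have h3 : ∑ u, ∑ v, (if G.Adj u v then |av G a (r + 1) X u - av G a r X u| else 0) =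
      Df G a r X := by
    unfold Df
    exact Finset.sum_congr rfl (fun u _ => hdg X u)
  have h4 : ∑ u, ∑ v, (if G.Adj u v then |av G a (r + 1) Y v - av G a r Y v| else 0) =
      Df G a r Y := by
    rw [Finset.sum_comm]
    unfold Df
    refine Finset.sum_congr rfl (fun u _ => ?_)
    rw [← hdg Y u]
    refine Finset.sum_congr rfl (fun v _ => ?_)
    simp only [G.adj_comm v u]
  rw [h3, h4]

end C1h444

theorem taskC1 : TaskC1 := by
  intro V _ _ G _ a r X Y _ hX hY
  have h := C1h444.main G a r X Y hX hY
  convert h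

end H29I
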