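import Pool.Agent.H29Ising.Stmts

/-! Task C2 of project H29-ISING: energy increment. -/

set_option autoImplicit false

namespace H29I
open Finset

namespace C2

open Classical in
/-- average over the fibres of `c` -/
noncomputable def avc {V T : Type} [Fintype V] (c : V → T) (X : V → ℝ) (v : V) : ℝ :=
  (∑ u ∈ univ.filter (fun u => c u = c v), X u) / (univ.filter (fun u => c u = c v)).card

theorem avc_sum {V T : Type} [Fintype V] (c : V → T) (f X : V → ℝ)
    (hf : ∀ u v, c u = c v → f u = f v) :
    ∑ v, f v * avc c X v = ∑ v, f v * X v := by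
  classical
  have h1 : ∀ v, f v * avc c X v = ∑ u, if c u = c v then
      f u * X u / (univ.filter (fun w => c w = c u)).card else 0 := by
    intro v
    rw [avc, Finset.sum_div, Finset.mul_sum, Finset.sum_filter]
    apply Finset.sum_congr rfl
    intro u _
    split_ifs with h
    · rw [hf u v h, h]
      ring
    · rfl
  simp_rw [h1]
  rw [Finset.sum_comm]
  apply Finset.sum_congr rfl
  intro u _
  rw [← Finset.sum_filter, Finset.sum_const, nsmul_eq_mul]
  have h2 : (univ.filter fun v => c u = c v) = univ.filter (fun w => c w = c u) := by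
    ext x
    simp only [mem_filter, mem_univ, true_and]
    exact eq_comm
  rw [h2]
  have h3 : ((univ.filter (fun w => c w = c u)).card : ℝ) ≠ 0 := by
    have : 0 < (univ.filter (fun w => c w = c u)).card :=
      Finset.card_pos.2 ⟨u, by simp⟩
    exact_mod_cast this.ne'
  field_simp

theorem avc_meas {V T : Type} [Fintype V] (c : V → T) (X : V → ℝ) (u v : V) (h : c u = c v) :
    avc c X u = avc c X v := by
  unfold avc
  rw [h]

theorem energy {V T S : Type} [Fintype V] (c : V → T) (c' : V → S)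
    (href : ∀ u v, c' u = c' v → c u = c v) (w : V → ℝ) (hw : ∀ u v, c u = c v → w u = w v)
    (X : V → ℝ) :
    ∑ v, w v * (avc c' X v - avc c X v) ^ 2 =
      ∑ v, w v * avc c' X v ^ 2 - ∑ v, w v * avc c X v ^ 2 := by
  have e1 := avc_sum c' (fun v => w v * avc c X v) X (by
    intro u v h
    rw [hw u v (href u v h), avc_meas c X u v (href u v h)])
  have e2 := avc_sum c (fun v => w v * avc c X v) X (by
    intro u v h
    rw [hw u v h, avc_meas c X u v h])
  have h1 : ∑ v, w v * (avc c' X v - avc c X v) ^ 2 = ∑ v, w v * avc c' X v ^ 2 -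
      2 * ∑ v, w v * avc c X v * avc c' X v + ∑ v, w v * avc c X v * avc c X v := by
    rw [Finset.mul_sum, ← Finset.sum_sub_distrib, ← Finset.sum_add_distrib]
    apply Finset.sum_congr rfl
    intro v _
    ring
  have h2 : ∑ v, w v * avc c X v ^ 2 = ∑ v, w v * avc c X v * avc c X v := by
    apply Finset.sum_congr rfl
    intro v _
    ring
  rw [h1, h2]
  rw [e1, e2]
  ring

theorem avc_bd {V T : Type} [Fintype V] (c : V → T) (X : V → ℝ)
    (hX : ∀ v, 0 ≤ X v ∧ X v ≤ 1) (v : V) : 0 ≤ avc c X v ∧ avc c X v ≤ 1 := by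
  classical
  unfold avc
  have hpos : (0 : ℝ) < ((univ.filter (fun w => c w = c v)).card : ℝ) := by
    have : 0 < (univ.filter (fun w => c w = c v)).card :=
      Finset.card_pos.2 ⟨v, by simp⟩
    exact_mod_cast this
  constructor
  · apply div_nonneg
    · exact Finset.sum_nonneg fun u _ => (hX u).1
    · exact Nat.cast_nonneg _
  · rw [div_le_one hpos]
    calc ∑ u ∈ univ.filter (fun u => c u = c v), X u
        ≤ ∑ u ∈ univ.filter (fun u => c u = c v), (1 : ℝ) :=
          Finset.sum_le_sum fun u _ => (hX u).2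
      _ = _ := by simp

theorem av_eq {V : Type} [Fintype V] (G : SimpleGraph V) (a : V → ℕ) (r : ℕ) (X : V → ℝ) (v : V) :
    av G a r X v = avc (wl G a r) X v := rfl

theorem wl_ref {V : Type} [Fintype V] (G : SimpleGraph V) (a : V → ℕ) (r : ℕ) (u v : V)
    (h : wl G a (r + 1) u = wl G a (r + 1) v) : wl G a r u = wl G a r v :=
  congrArg Prod.fst h

theorem wl_dg {V : Type} [Fintype V] (G : SimpleGraph V) (a : V → ℕ) (r : ℕ) (hr : 1 ≤ r) (u v : V)
    (h : wl G a r u = wl G a r v) : dg G u = dg G v := by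
  obtain ⟨s, rfl⟩ : ∃ s, r = s + 1 := ⟨r - 1, by omega⟩
  have h2 := congrArg Prod.snd h
  have h3 := congrArg Multiset.card h2
  simp only [wl, Multiset.card_map] at h3
  exact h3

end C2

open C2

theorem taskC2 : TaskC2 := by
  intro K d ε hε
  set θ : ℝ := ε / (K * d + 1) with hθ
  have hKd : (0 : ℝ) ≤ K * d := by positivity
  have hθ0 : 0 < θ := by positivity
  refine ⟨⌈(K * d : ℝ) / (θ * ε)⌉₊ + 1, ?_⟩
  set R0 : ℕ := ⌈(K * d : ℝ) / (θ * ε)⌉₊ + 1 with hR0
  have hR0' : (K * d : ℝ) / (θ * ε) ≤ R0 := by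
    rw [hR0]
    push_cast
    have := Nat.le_ceil ((K * d : ℝ) / (θ * ε))
    linarith
  have hR0pos : (0 : ℝ) < R0 := by
    rw [hR0]
    positivity
  intro V _ G a X hX hdeg
  set n : ℝ := (Fintype.card V : ℝ) with hn
  have hn0 : 0 ≤ n := by positivity
  let E : ℕ → ℝ := fun r => ∑ k, ∑ v, (dg G v : ℝ) * avc (wl G a r) (X k) v ^ 2
  have hE : ∀ r, 1 ≤ r → ∑ k, ∑ v, (dg G v : ℝ) *
      (avc (wl G a (r + 1)) (X k) v - avc (wl G a r) (X k) v) ^ 2 = E (r + 1) - E r := by
    intro r hr
    simp only [E]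
    rw [← Finset.sum_sub_distrib]
    apply Finset.sum_congr rfl
    intro k _
    apply energy
    · exact wl_ref G a r
    · intro u v h
      rw [wl_dg G a r hr u v h]
  have hE0 : ∀ r, 0 ≤ E r := fun r => Finset.sum_nonneg fun k _ =>
    Finset.sum_nonneg fun v _ => by positivity
  have hE1 : ∀ r, E r ≤ K * d * n := by
    intro r
    calc E r ≤ ∑ k : Fin K, ∑ v : V, (d : ℝ) := by
          apply Finset.sum_le_sum
          intro k _
          apply Finset.sum_le_sum
          intro v _
          have h1 := avc_bd (wl G a r) (X k) (hX k) v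
          have h2 : (dg G v : ℝ) ≤ d := by exact_mod_cast hdeg v
          have h3 : avc (wl G a r) (X k) v ^ 2 ≤ 1 := by nlinarith [h1.1, h1.2]
          calc (dg G v : ℝ) * avc (wl G a r) (X k) v ^ 2 ≤ (dg G v : ℝ) * 1 := by
                apply mul_le_mul_of_nonneg_left h3; positivity
            _ ≤ d := by linarith
      _ = K * d * n := by
          simp [hn]
          ring
  -- pigeonhole
  obtain ⟨r, hr1, hr2, hr3⟩ : ∃ r, 1 ≤ r ∧ r ≤ R0 ∧ (E (r + 1) - E r) * R0 ≤ K * d * n := by
    by_contra hcon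
    have hcon' : ∀ r, 1 ≤ r → r ≤ R0 → K * d * n < (E (r + 1) - E r) * R0 := by
      intro r h1 h2
      by_contra h3
      exact hcon ⟨r, h1, h2, not_lt.1 h3⟩
    have hsum : ∑ i ∈ Finset.range R0, (E (i + 1 + 1) - E (i + 1)) = E (R0 + 1) - E 1 := by
      rw [Finset.sum_range_sub (fun i => E (i + 1))]
    have hlt : ∑ i ∈ Finset.range R0, (K * d * n : ℝ) <
        ∑ i ∈ Finset.range R0, (E (i + 1 + 1) - E (i + 1)) * R0 := by
      apply Finset.sum_lt_sum_of_nonempty
      · rw [Finset.nonempty_range_iff]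
        omega
      · intro i hi
        rw [Finset.mem_range] at hi
        exact hcon' (i + 1) (by omega) (by omega)
    rw [Finset.sum_const, Finset.card_range, nsmul_eq_mul, ← Finset.sum_mul, hsum] at hlt
    have h5 : (K * d * n : ℝ) < E (R0 + 1) - E 1 := by
      rw [mul_comm] at hlt
      exact lt_of_mul_lt_mul_right hlt hR0pos.le
    have h6 := hE1 (R0 + 1)
    have h7 := hE0 1
    linarith
  refine ⟨r, hr1, hr2, ?_⟩
  have hD := hE r hr1
  -- Young
  have hY : ∀ k, Df G a r (X k) ≤ ∑ v, (θ / 2 * d + (dg G v : ℝ) *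
      (avc (wl G a (r + 1)) (X k) v - avc (wl G a r) (X k) v) ^ 2 / (2 * θ)) := by
    intro k
    unfold Df
    apply Finset.sum_le_sum
    intro v _
    rw [av_eq, av_eq]
    set z := avc (wl G a (r + 1)) (X k) v - avc (wl G a r) (X k) v with hz
    have h2 : (dg G v : ℝ) ≤ d := by exact_mod_cast hdeg v
    have h3 : (0 : ℝ) ≤ dg G v := Nat.cast_nonneg _
    have h4 : |z| ≤ θ / 2 + z ^ 2 / (2 * θ) := by
      rw [div_add_div _ _ (by norm_num) (by positivity), le_div_iff₀ (by positivity)]
      nlinarith [sq_nonneg (|z| - θ), sq_abs z]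
    calc (dg G v : ℝ) * |z| ≤ (dg G v : ℝ) * (θ / 2 + z ^ 2 / (2 * θ)) :=
          mul_le_mul_of_nonneg_left h4 h3
      _ = θ / 2 * dg G v + (dg G v : ℝ) * z ^ 2 / (2 * θ) := by ring
      _ ≤ _ := by
          have : θ / 2 * dg G v ≤ θ / 2 * d := mul_le_mul_of_nonneg_left h2 (by positivity)
          linarith
  calc ∑ k, Df G a r (X k) ≤ ∑ k, ∑ v, (θ / 2 * d + (dg G v : ℝ) *
      (avc (wl G a (r + 1)) (X k) v - avc (wl G a r) (X k) v) ^ 2 / (2 * θ)) :=
        Finset.sum_le_sum fun k _ => hY k
    _ = θ / 2 * (K * d) * n + (E (r + 1) - E r) / (2 * θ) := by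
        rw [← hD, Finset.sum_div]
        simp only [Finset.sum_add_distrib, Finset.sum_const, Finset.card_univ, nsmul_eq_mul,
          Fintype.card_fin, Finset.sum_div]
        rw [hn]
        ring
    _ ≤ ε / 2 * n + ε / 2 * n := by
        apply add_le_add
        · apply mul_le_mul_of_nonneg_right _ hn0
          have : θ * (K * d + 1) = ε := by
            rw [hθ]
            field_simp
          nlinarith
        · rw [div_le_iff₀ (by positivity)]
          have h8 : (K * d : ℝ) ≤ R0 * (θ * ε) := by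
            rwa [div_le_iff₀ (by positivity)] at hR0'
          have h9 : (E (r + 1) - E r) * R0 ≤ (ε * n * θ) * R0 := by
            calc (E (r + 1) - E r) * R0 ≤ K * d * n := hr3
              _ ≤ R0 * (θ * ε) * n := mul_le_mul_of_nonneg_right h8 hn0
              _ = _ := by ring
          have h10 := le_of_mul_le_mul_right h9 hR0pos
          calc E (r + 1) - E r ≤ ε * n * θ := h10
            _ = _ := by ring
    _ = ε * n := by ring

end H29I
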