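import Pool.Agent.H29Ising.Stmts

/-! Task C3: rounding the Bethe functional to a function of local types. -/

namespace H29I
open Finset

namespace C3

theorem tele (K : ℕ) (g : ℕ → ℝ) (i : ℕ) (hi : i ≤ K) :
    g i = g 0 + ∑ k ∈ range K, (g (k + 1) - g k) * (if k < i then 1 else 0) := by
  have h : ∑ k ∈ range K, (g (k + 1) - g k) * (if k < i then (1 : ℝ) else 0) =
      ∑ k ∈ range i, (g (k + 1) - g k) := by
    simp only [mul_ite, mul_one, mul_zero]
    rw [← Finset.sum_filter]
    congr 1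
    ext k
    simp only [mem_filter, mem_range]
    omega
  rw [h, Finset.sum_range_sub]
  ring

/-- mixed difference -/
def Dl (e : ℕ → ℕ → ℝ) (k l : ℕ) : ℝ := e (k + 1) (l + 1) - e k (l + 1) - e (k + 1) l + e k l

theorem tele2 (K : ℕ) (e : ℕ → ℕ → ℝ) (he : ∀ i j, e i j = e j i) (i j : ℕ) (hi : i ≤ K)
    (hj : j ≤ K) :
    e i j = e 0 0 + ∑ k ∈ range K, (e (k + 1) 0 - e k 0) * (if k < i then 1 else 0)
      + ∑ l ∈ range K, (e (l + 1) 0 - e l 0) * (if l < j then 1 else 0)
      + ∑ k ∈ range K, ∑ l ∈ range K,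
        Dl e k l * ((if k < i then 1 else 0) * (if l < j then 1 else 0)) := by
  have h1 := tele K (fun k => e k j) i hi
  have h2 : e 0 j = e 0 0 + ∑ l ∈ range K, (e (l + 1) 0 - e l 0) * (if l < j then 1 else 0) := by
    rw [he 0 j]
    exact tele K (fun l => e l 0) j hj
  have h3 : ∀ k, e (k + 1) j - e k j = (e (k + 1) 0 - e k 0) +
      ∑ l ∈ range K, Dl e k l * (if l < j then 1 else 0) := by
    intro k
    have := tele K (fun l => e (k + 1) l - e k l) j hj
    rw [this]
    congr 1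
    refine Finset.sum_congr rfl fun l _ => ?_
    unfold Dl
    ring
  rw [h1, h2]
  have h4 : ∑ k ∈ range K, (e (k + 1) j - e k j) * (if k < i then (1 : ℝ) else 0) =
      ∑ k ∈ range K, (e (k + 1) 0 - e k 0) * (if k < i then 1 else 0) +
      ∑ k ∈ range K, ∑ l ∈ range K,
        Dl e k l * ((if k < i then 1 else 0) * (if l < j then 1 else 0)) := by
    rw [← Finset.sum_add_distrib]
    refine Finset.sum_congr rfl fun k _ => ?_
    rw [h3 k, add_mul, Finset.sum_mul]
    congr 1
    refine Finset.sum_congr rfl fun l _ => ?_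
    ring
  rw [h4]
  ring

section
variable {V : Type} [Fintype V]

open Classical in
omit [Fintype V] in
/-- adjacency matrix -/
noncomputable def ad (G : SimpleGraph V) (u v : V) : ℝ := if G.Adj u v then 1 else 0

omit [Fintype V] in
theorem ad_symm (G : SimpleGraph V) (u v : V) : ad G u v = ad G v u := by
  unfold ad
  by_cases h : G.Adj u v
  · rw [if_pos h, if_pos h.symm]
  · rw [if_neg h, if_neg (fun h' => h h'.symm)]

omit [Fintype V] in
theorem ad_nonneg (G : SimpleGraph V) (u v : V) : 0 ≤ ad G u v := by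
  unfold ad
  split_ifs <;> norm_num

theorem dg_eq (G : SimpleGraph V) (v : V) : (dg G v : ℝ) = ∑ u, ad G v u := by
  unfold ad dg
  rw [Finset.sum_boole]

theorem adL (G : SimpleGraph V) (φ : V → ℝ) :
    ∑ u, ∑ v, ad G u v * φ u = ∑ u, (dg G u : ℝ) * φ u := by
  refine Finset.sum_congr rfl fun u _ => ?_
  rw [dg_eq, Finset.sum_mul]

theorem adR (G : SimpleGraph V) (φ : V → ℝ) :
    ∑ u, ∑ v, ad G u v * φ v = ∑ u, (dg G u : ℝ) * φ u := by
  rw [Finset.sum_comm, ← adL]
  refine Finset.sum_congr rfl fun u _ => Finset.sum_congr rfl fun v _ => ?_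
  rw [ad_symm]

theorem sum_oe [LinearOrder V] (G : SimpleGraph V) (g : V → V → ℝ) (hg : ∀ u v, g u v = g v u) :
    ∑ p ∈ oe G, g p.1 p.2 = 1 / 2 * ∑ u, ∑ v, ad G u v * g u v := by
  classical
  have h1 : ∑ p ∈ oe G, g p.1 p.2 = ∑ u, ∑ v, (if u < v ∧ G.Adj u v then g u v else 0) := by
    rw [← Fintype.sum_prod_type' (f := fun u v => (if u < v ∧ G.Adj u v then g u v else 0))]
    unfold oe
    rw [Finset.sum_filter]
  have h2 : ∑ u, ∑ v, (if u < v ∧ G.Adj u v then g u v else 0) =
      ∑ u, ∑ v, (if v < u ∧ G.Adj u v then g u v else 0) := by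
    rw [Finset.sum_comm]
    refine Finset.sum_congr rfl fun u _ => Finset.sum_congr rfl fun v _ => ?_
    rw [hg v u, G.adj_comm v u]
  have h3 : ∑ u, ∑ v, ad G u v * g u v =
      ∑ u, ∑ v, (if u < v ∧ G.Adj u v then g u v else 0) +
      ∑ u, ∑ v, (if v < u ∧ G.Adj u v then g u v else 0) := by
    rw [← Finset.sum_add_distrib]
    refine Finset.sum_congr rfl fun u _ => ?_
    rw [← Finset.sum_add_distrib]
    refine Finset.sum_congr rfl fun v _ => ?_
    unfold ad
    by_cases hA : G.Adj u v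
    · rcases lt_trichotomy u v with h | h | h
      · simp [hA, h, not_lt.2 h.le]
      · exact absurd h hA.ne
      · simp [hA, h, not_lt.2 h.le]
    · simp [hA]
  rw [h1, h3, ← h2]
  ring

/-- The expanded functional. -/
noncomputable def Psi (K : ℕ) (G : SimpleGraph V) (g : V → ℕ → ℝ) (e : ℕ → ℕ → ℝ)
    (W1 : ℕ → V → ℝ) (W2 : ℕ → ℕ → V → V → ℝ) : ℝ :=
  (∑ v, g v 0 + 1 / 2 * (e 0 0 * ∑ u, ∑ v, ad G u v))
  + ∑ k ∈ range K, ∑ v, ((g v (k + 1) - g v k) + dg G v * (e (k + 1) 0 - e k 0)) * W1 k v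
  + 1 / 2 * ∑ k ∈ range K, ∑ l ∈ range K, Dl e k l * ∑ u, ∑ v, ad G u v * W2 k l u v

theorem expand (K : ℕ) (G : SimpleGraph V) (g : V → ℕ → ℝ) (e : ℕ → ℕ → ℝ)
    (he : ∀ i j, e i j = e j i) (J : V → ℕ) (hJ : ∀ v, J v ≤ K) :
    ∑ v, g v (J v) + 1 / 2 * ∑ u, ∑ v, ad G u v * e (J u) (J v) =
      Psi K G g e (fun k v => if k < J v then 1 else 0)
        (fun k l u v => (if k < J u then 1 else 0) * (if l < J v then 1 else 0)) := by
  have h1 : ∑ v, g v (J v) = ∑ v, g v 0 +
      ∑ k ∈ range K, ∑ v, (g v (k + 1) - g v k) * (if k < J v then 1 else 0) := by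
    rw [Finset.sum_comm, ← Finset.sum_add_distrib]
    exact Finset.sum_congr rfl fun v _ => tele K (g v) (J v) (hJ v)
  have h2 : ∑ u, ∑ v, ad G u v * e (J u) (J v) = e 0 0 * ∑ u, ∑ v, ad G u v
      + 2 * ∑ k ∈ range K, ∑ v, (dg G v * (e (k + 1) 0 - e k 0)) * (if k < J v then 1 else 0)
      + ∑ k ∈ range K, ∑ l ∈ range K, Dl e k l * ∑ u, ∑ v, ad G u v *
        ((if k < J u then 1 else 0) * (if l < J v then 1 else 0)) := by
    have h3 : ∀ u v, ad G u v * e (J u) (J v) = e 0 0 * ad G u v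
        + ad G u v * (∑ k ∈ range K, (e (k + 1) 0 - e k 0) * (if k < J u then 1 else 0))
        + ad G u v * (∑ k ∈ range K, (e (k + 1) 0 - e k 0) * (if k < J v then 1 else 0))
        + ad G u v * (∑ k ∈ range K, ∑ l ∈ range K,
          Dl e k l * ((if k < J u then 1 else 0) * (if l < J v then 1 else 0))) := by
      intro u v
      rw [tele2 K e he (J u) (J v) (hJ u) (hJ v)]
      ring
    have h4 : ∑ u, ∑ v, ad G u v * e (J u) (J v) = ∑ u, ∑ v, e 0 0 * ad G u v
        + ∑ u, ∑ v, ad G u v * (∑ k ∈ range K, (e (k + 1) 0 - e k 0) *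
          (if k < J u then 1 else 0))
        + ∑ u, ∑ v, ad G u v * (∑ k ∈ range K, (e (k + 1) 0 - e k 0) *
          (if k < J v then 1 else 0))
        + ∑ u, ∑ v, ad G u v * (∑ k ∈ range K, ∑ l ∈ range K,
          Dl e k l * ((if k < J u then 1 else 0) * (if l < J v then 1 else 0))) := by
      simp only [← Finset.sum_add_distrib]
      exact Finset.sum_congr rfl fun u _ => Finset.sum_congr rfl fun v _ => h3 u v
    rw [h4, adL G (fun u => ∑ k ∈ range K, (e (k + 1) 0 - e k 0) * (if k < J u then 1 else 0)),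
      adR G (fun u => ∑ k ∈ range K, (e (k + 1) 0 - e k 0) * (if k < J u then 1 else 0))]
    have h5 : ∑ u, (dg G u : ℝ) * ∑ k ∈ range K, (e (k + 1) 0 - e k 0) *
        (if k < J u then 1 else 0) =
        ∑ k ∈ range K, ∑ v, (dg G v * (e (k + 1) 0 - e k 0)) * (if k < J v then 1 else 0) := by
      rw [Finset.sum_comm]
      refine Finset.sum_congr rfl fun u _ => ?_
      rw [Finset.mul_sum]
      refine Finset.sum_congr rfl fun k _ => ?_
      ring
    have h6 : ∑ u, ∑ v, ad G u v * (∑ k ∈ range K, ∑ l ∈ range K,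
          Dl e k l * ((if k < J u then 1 else 0) * (if l < J v then 1 else 0))) =
        ∑ k ∈ range K, ∑ l ∈ range K, Dl e k l * ∑ u, ∑ v, ad G u v *
        ((if k < J u then 1 else 0) * (if l < J v then 1 else 0)) := by
      simp only [Finset.mul_sum]
      have e1 : ∀ F : V → V → ℕ → ℕ → ℝ, ∑ u, ∑ v, ∑ k ∈ range K, ∑ l ∈ range K, F u v k l =
          ∑ k ∈ range K, ∑ l ∈ range K, ∑ u, ∑ v, F u v k l := by
        intro F
        calc ∑ u, ∑ v, ∑ k ∈ range K, ∑ l ∈ range K, F u v k l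
            = ∑ u, ∑ k ∈ range K, ∑ v, ∑ l ∈ range K, F u v k l :=
              Finset.sum_congr rfl fun u _ => Finset.sum_comm
          _ = ∑ k ∈ range K, ∑ u, ∑ v, ∑ l ∈ range K, F u v k l := Finset.sum_comm
          _ = ∑ k ∈ range K, ∑ u, ∑ l ∈ range K, ∑ v, F u v k l :=
              Finset.sum_congr rfl fun k _ => Finset.sum_congr rfl fun u _ => Finset.sum_comm
          _ = ∑ k ∈ range K, ∑ l ∈ range K, ∑ u, ∑ v, F u v k l :=
              Finset.sum_congr rfl fun k _ => Finset.sum_comm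
      rw [e1]
      refine Finset.sum_congr rfl fun k _ => Finset.sum_congr rfl fun l _ =>
        Finset.sum_congr rfl fun u _ => Finset.sum_congr rfl fun v _ => ?_
      ring
    rw [h5, h6]
    simp only [← Finset.mul_sum]
    ring
  unfold Psi
  rw [h1, h2]
  have h7 : ∑ k ∈ range K, ∑ v, ((g v (k + 1) - g v k) + dg G v * (e (k + 1) 0 - e k 0)) *
        (if k < J v then (1 : ℝ) else 0) =
      ∑ k ∈ range K, ∑ v, (g v (k + 1) - g v k) * (if k < J v then 1 else 0) +
      ∑ k ∈ range K, ∑ v, (dg G v * (e (k + 1) 0 - e k 0)) * (if k < J v then 1 else 0) := by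
    simp only [← Finset.sum_add_distrib]
    refine Finset.sum_congr rfl fun k _ => Finset.sum_congr rfl fun v _ => ?_
    ring
  rw [h7]
  ring

theorem Psi_avg (K N : ℕ) (G : SimpleGraph V) (g : V → ℕ → ℝ) (e : ℕ → ℕ → ℝ)
    (W1 : ℕ → ℕ → V → ℝ) (W2 : ℕ → ℕ → ℕ → V → V → ℝ) (W1' : ℕ → V → ℝ)
    (W2' : ℕ → ℕ → V → V → ℝ)
    (h1 : ∀ k ∈ range K, ∀ v, ∑ j ∈ range N, W1 j k v = N * W1' k v)
    (h2 : ∀ k ∈ range K, ∀ l ∈ range K, ∀ u v,
      ∑ j ∈ range N, W2 j k l u v = N * W2' k l u v) :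
    ∑ j ∈ range N, Psi K G g e (W1 j) (W2 j) = N * Psi K G g e W1' W2' := by
  unfold Psi
  rw [Finset.sum_add_distrib, Finset.sum_add_distrib, Finset.sum_const, Finset.card_range,
    nsmul_eq_mul]
  have a1 : ∑ j ∈ range N, ∑ k ∈ range K, ∑ v,
      ((g v (k + 1) - g v k) + dg G v * (e (k + 1) 0 - e k 0)) * W1 j k v =
      N * ∑ k ∈ range K, ∑ v,
      ((g v (k + 1) - g v k) + dg G v * (e (k + 1) 0 - e k 0)) * W1' k v := by
    rw [Finset.sum_comm, Finset.mul_sum]
    refine Finset.sum_congr rfl fun k hk => ?_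
    rw [Finset.sum_comm, Finset.mul_sum]
    refine Finset.sum_congr rfl fun v _ => ?_
    rw [← Finset.mul_sum, h1 k hk]
    ring
  have a2 : ∑ j ∈ range N, 1 / 2 * ∑ k ∈ range K, ∑ l ∈ range K, Dl e k l *
      ∑ u, ∑ v, ad G u v * W2 j k l u v =
      N * (1 / 2 * ∑ k ∈ range K, ∑ l ∈ range K, Dl e k l *
      ∑ u, ∑ v, ad G u v * W2' k l u v) := by
    rw [← Finset.mul_sum, mul_left_comm (N : ℝ)]
    congr 1
    rw [Finset.sum_comm, Finset.mul_sum]
    refine Finset.sum_congr rfl fun k hk => ?_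
    rw [Finset.sum_comm, Finset.mul_sum]
    refine Finset.sum_congr rfl fun l hl => ?_
    rw [← Finset.mul_sum, mul_left_comm (N : ℝ)]
    congr 1
    rw [Finset.sum_comm, Finset.mul_sum]
    refine Finset.sum_congr rfl fun u _ => ?_
    rw [Finset.sum_comm, Finset.mul_sum]
    refine Finset.sum_congr rfl fun v _ => ?_
    rw [← Finset.mul_sum, h2 k hk l hl]
    ring
  rw [a1, a2]
  ring

/-! ### types -/

theorem wl_a (G : SimpleGraph V) (a : V → ℕ) : ∀ (r : ℕ) (u v : V),
    wl G a r u = wl G a r v → a u = a v := by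
  intro r
  induction r with
  | zero => intro u v h; exact h
  | succ r ih =>
    intro u v h
    exact ih u v (congrArg (fun t : WLT r × Multiset (WLT r) => t.1) h)

theorem wl_dg (G : SimpleGraph V) (a : V → ℕ) (r : ℕ) (hr : 1 ≤ r) (u v : V)
    (h : wl G a r u = wl G a r v) : dg G u = dg G v := by
  obtain ⟨r, rfl⟩ : ∃ r', r = r' + 1 := ⟨r - 1, by omega⟩
  have h2 := congrArg (fun t : WLT r × Multiset (WLT r) => Multiset.card t.2) h
  simp only [wl, Multiset.card_map] at h2
  exact h2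

open Classical in
/-- the class of a vertex -/
noncomputable def cls (G : SimpleGraph V) (a : V → ℕ) (r : ℕ) (v : V) : Finset V :=
  univ.filter (fun u => wl G a r u = wl G a r v)

theorem av_eq (G : SimpleGraph V) (a : V → ℕ) (r : ℕ) (X : V → ℝ) (v : V) :
    av G a r X v = (∑ u ∈ cls G a r v, X u) / (cls G a r v).card := rfl

theorem cls_congr (G : SimpleGraph V) (a : V → ℕ) (r : ℕ) (u v : V)
    (h : wl G a r u = wl G a r v) : cls G a r u = cls G a r v := by
  unfold cls
  rw [h]

theorem mem_cls (G : SimpleGraph V) (a : V → ℕ) (r : ℕ) (u v : V) :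
    u ∈ cls G a r v ↔ wl G a r u = wl G a r v := by
  unfold cls
  simp

theorem cls_pos (G : SimpleGraph V) (a : V → ℕ) (r : ℕ) (v : V) : 0 < (cls G a r v).card :=
  Finset.card_pos.2 ⟨v, (mem_cls G a r v v).2 rfl⟩

theorem sum_av (G : SimpleGraph V) (a : V → ℕ) (r : ℕ) (X c : V → ℝ)
    (hc : ∀ u v, wl G a r u = wl G a r v → c u = c v) :
    ∑ v, c v * X v = ∑ v, c v * av G a r X v := by
  classical
  have h1 : ∀ v, c v * av G a r X v =
      ∑ u, if wl G a r u = wl G a r v then c v * X u / (cls G a r v).card else 0 := by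
    intro v
    rw [av_eq, ← Finset.sum_filter]
    change _ = ∑ u ∈ cls G a r v, _
    rw [← Finset.sum_div, ← Finset.mul_sum, mul_div_assoc]
  have h2 : ∑ v, c v * av G a r X v = ∑ u, ∑ v,
      if wl G a r u = wl G a r v then c v * X u / (cls G a r v).card else 0 := by
    rw [Finset.sum_comm]
    exact Finset.sum_congr rfl fun v _ => h1 v
  rw [h2]
  refine Finset.sum_congr rfl fun u _ => ?_
  have h3 : ∀ v, (if wl G a r u = wl G a r v then c v * X u / (cls G a r v).card else 0) =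
      if v ∈ cls G a r u then c u * X u / (cls G a r u).card else 0 := by
    intro v
    by_cases h : wl G a r u = wl G a r v
    · rw [if_pos h, if_pos ((mem_cls G a r v u).2 h.symm), hc u v h, cls_congr G a r u v h]
    · rw [if_neg h, if_neg (fun h' => h ((mem_cls G a r v u).1 h').symm)]
  rw [Finset.sum_congr rfl fun v _ => h3 v, Finset.sum_ite_mem, Finset.univ_inter,
    Finset.sum_const, nsmul_eq_mul]
  have h4 : ((cls G a r u).card : ℝ) ≠ 0 := by exact_mod_cast (cls_pos G a r u).ne'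
  field_simp

open Classical in
/-- number of vertices of the class with level above `k` -/
noncomputable def SN (G : SimpleGraph V) (a : V → ℕ) (r : ℕ) (i : V → ℕ) (k : ℕ) (v : V) : ℕ :=
  ((cls G a r v).filter (fun u => k < i u)).card

/-- scaled averages -/
noncomputable def PN (G : SimpleGraph V) (a : V → ℕ) (r : ℕ) (i : V → ℕ) (k : ℕ) (v : V) : ℕ :=
  SN G a r i k v * ((Fintype.card V).factorial / (cls G a r v).card)

theorem PN_congr (G : SimpleGraph V) (a : V → ℕ) (r : ℕ) (i : V → ℕ) (k : ℕ) (u v : V)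
    (h : wl G a r u = wl G a r v) : PN G a r i k u = PN G a r i k v := by
  unfold PN SN
  rw [cls_congr G a r u v h]

theorem PN_anti (G : SimpleGraph V) (a : V → ℕ) (r : ℕ) (i : V → ℕ) (k l : ℕ) (v : V)
    (h : k ≤ l) : PN G a r i l v ≤ PN G a r i k v := by
  unfold PN
  refine Nat.mul_le_mul_right _ ?_
  unfold SN
  refine Finset.card_le_card ?_
  intro u hu
  rw [Finset.mem_filter] at hu ⊢
  exact ⟨hu.1, lt_of_le_of_lt h hu.2⟩

theorem cls_dvd (G : SimpleGraph V) (a : V → ℕ) (r : ℕ) (v : V) :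
    (cls G a r v).card ∣ (Fintype.card V).factorial :=
  Nat.dvd_factorial (cls_pos G a r v) (Finset.card_le_univ _)

theorem PN_le (G : SimpleGraph V) (a : V → ℕ) (r : ℕ) (i : V → ℕ) (k : ℕ) (v : V) :
    PN G a r i k v ≤ (Fintype.card V).factorial := by
  unfold PN
  calc SN G a r i k v * ((Fintype.card V).factorial / (cls G a r v).card)
      ≤ (cls G a r v).card * ((Fintype.card V).factorial / (cls G a r v).card) :=
        Nat.mul_le_mul_right _ (Finset.card_filter_le _ _)
    _ = (Fintype.card V).factorial := Nat.mul_div_cancel' (cls_dvd G a r v)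

theorem PN_eq (G : SimpleGraph V) (a : V → ℕ) (r : ℕ) (i : V → ℕ) (k : ℕ) (v : V) :
    (PN G a r i k v : ℝ) = (Fintype.card V).factorial *
      av G a r (fun u => if k < i u then 1 else 0) v := by
  classical
  have h4 : ((cls G a r v).card : ℝ) ≠ 0 := by exact_mod_cast (cls_pos G a r v).ne'
  have h1 : ∑ u ∈ cls G a r v, (if k < i u then (1 : ℝ) else 0) = SN G a r i k v := by
    unfold SN
    rw [Finset.sum_boole]
  rw [av_eq, h1]
  unfold PN
  rw [Nat.cast_mul, Nat.cast_div (cls_dvd G a r v) h4]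
  field_simp

/-- rounded level -/
noncomputable def FJ (G : SimpleGraph V) (a : V → ℕ) (r : ℕ) (i : V → ℕ) (K j : ℕ) (v : V) : ℕ :=
  ((range K).filter (fun k => j < PN G a r i k v)).card

theorem FJ_le (G : SimpleGraph V) (a : V → ℕ) (r : ℕ) (i : V → ℕ) (K j : ℕ) (v : V) :
    FJ G a r i K j v ≤ K := by
  unfold FJ
  refine (Finset.card_filter_le _ _).trans ?_
  rw [Finset.card_range]

theorem FJ_iff (G : SimpleGraph V) (a : V → ℕ) (r : ℕ) (i : V → ℕ) (K j k : ℕ) (v : V)
    (hk : k < K) : k < FJ G a r i K j v ↔ j < PN G a r i k v := by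
  constructor
  · intro h
    by_contra h'
    have : (range K).filter (fun k => j < PN G a r i k v) ⊆ range k := by
      intro l hl
      rw [Finset.mem_filter] at hl
      rw [Finset.mem_range]
      by_contra h2
      exact h' (lt_of_lt_of_le hl.2 (PN_anti G a r i k l v (by omega)))
    have h3 := Finset.card_le_card this
    rw [Finset.card_range] at h3
    unfold FJ at h
    omega
  · intro h
    have : range (k + 1) ⊆ (range K).filter (fun k => j < PN G a r i k v) := by
      intro l hl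
      rw [Finset.mem_range] at hl
      rw [Finset.mem_filter, Finset.mem_range]
      exact ⟨by omega, lt_of_lt_of_le h (PN_anti G a r i l k v (by omega))⟩
    have h3 := Finset.card_le_card this
    rw [Finset.card_range] at h3
    unfold FJ
    omega

theorem FJ_congr (G : SimpleGraph V) (a : V → ℕ) (r : ℕ) (i : V → ℕ) (K j : ℕ) (u v : V)
    (h : wl G a r u = wl G a r v) : FJ G a r i K j u = FJ G a r i K j v := by
  unfold FJ
  simp only [fun k => PN_congr G a r i k u v h]

theorem cnt (N t : ℕ) (ht : t ≤ N) : ∑ j ∈ range N, (if j < t then (1 : ℝ) else 0) = t := by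
  rw [Finset.sum_boole]
  have : (range N).filter (fun j => j < t) = range t := by
    ext j
    simp only [mem_filter, mem_range]
    omega
  rw [this, Finset.card_range]

theorem avg1 (G : SimpleGraph V) (a : V → ℕ) (r : ℕ) (i : V → ℕ) (K k : ℕ) (hk : k < K) (v : V) :
    ∑ j ∈ range (Fintype.card V).factorial, (if k < FJ G a r i K j v then (1 : ℝ) else 0) =
      ((Fintype.card V).factorial : ℕ) * av G a r (fun u => if k < i u then 1 else 0) v := by
  simp only [fun j => FJ_iff G a r i K j k v hk]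
  rw [cnt _ _ (PN_le G a r i k v), PN_eq]

theorem avg2 (G : SimpleGraph V) (a : V → ℕ) (r : ℕ) (i : V → ℕ) (K k l : ℕ) (hk : k < K)
    (hl : l < K) (u v : V) :
    ∑ j ∈ range (Fintype.card V).factorial, ((if k < FJ G a r i K j u then (1 : ℝ) else 0) *
      (if l < FJ G a r i K j v then 1 else 0)) =
      ((Fintype.card V).factorial : ℕ) * min (av G a r (fun u => if k < i u then 1 else 0) u)
        (av G a r (fun u => if l < i u then 1 else 0) v) := by
  simp only [fun j => FJ_iff G a r i K j k u hk, fun j => FJ_iff G a r i K j l v hl]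
  have h1 : ∀ j, (if j < PN G a r i k u then (1 : ℝ) else 0) *
      (if j < PN G a r i l v then 1 else 0) =
      if j < min (PN G a r i k u) (PN G a r i l v) then 1 else 0 := by
    intro j
    by_cases h1 : j < PN G a r i k u <;> by_cases h2 : j < PN G a r i l v <;>
      simp [h1, h2]
  simp only [h1]
  rw [cnt _ _ (min_le_of_left_le (PN_le G a r i k u)), Nat.cast_min, PN_eq, PN_eq,
    mul_min_of_nonneg _ _ (Nat.cast_nonneg _)]

theorem Phi_eq [LinearOrder V] (G : SimpleGraph V) (β : ℝ) (B m : V → ℝ)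
    (hs : ∀ β x y : ℝ, G2 β x y = G2 β y x) :
    Phi β (oe G) B m = ∑ v, (B v * m v + h1 (m v)) +
      1 / 2 * ∑ u, ∑ v, ad G u v * (G2 β (m u) (m v) - h1 (m u) - h1 (m v)) := by
  unfold Phi
  rw [sum_oe G (fun u v => G2 β (m u) (m v) - h1 (m u) - h1 (m v))]
  intro u v
  rw [hs β (m u) (m v)]
  ring

theorem sum_ad_le (G : SimpleGraph V) (d : ℕ) (hd : ∀ v, dg G v ≤ d) :
    ∑ u, ∑ v, ad G u v ≤ (d : ℝ) * Fintype.card V := by
  calc ∑ u, ∑ v, ad G u v = ∑ u, (dg G u : ℝ) := by
        refine Finset.sum_congr rfl fun u _ => ?_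
        rw [dg_eq]
    _ ≤ ∑ _u : V, (d : ℝ) := Finset.sum_le_sum fun u _ => by exact_mod_cast hd u
    _ = (d : ℝ) * Fintype.card V := by
        rw [Finset.sum_const, nsmul_eq_mul, Finset.card_univ]
        ring

theorem phi_lip [LinearOrder V] (G : SimpleGraph V) (β : ℝ) (B m m' : V → ℝ)
    (hs : ∀ β x y : ℝ, G2 β x y = G2 β y x) (c1 c2 : ℝ) (hc2 : 0 ≤ c2) (d : ℕ)
    (hd : ∀ v, dg G v ≤ d)
    (h1' : ∀ v, (B v * m v + h1 (m v)) - (B v * m' v + h1 (m' v)) ≤ c1)
    (h2' : ∀ u v, (G2 β (m u) (m v) - h1 (m u) - h1 (m v)) -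
      (G2 β (m' u) (m' v) - h1 (m' u) - h1 (m' v)) ≤ c2) :
    Phi β (oe G) B m ≤ Phi β (oe G) B m' + (c1 + c2 * d) * Fintype.card V := by
  rw [Phi_eq G β B m hs, Phi_eq G β B m' hs]
  have e1 : ∑ v, (B v * m v + h1 (m v)) ≤ ∑ v, (B v * m' v + h1 (m' v)) +
      c1 * Fintype.card V := by
    have : ∑ v : V, c1 = c1 * Fintype.card V := by
      rw [Finset.sum_const, nsmul_eq_mul, Finset.card_univ]
      ring
    rw [← this, ← Finset.sum_add_distrib]
    refine Finset.sum_le_sum fun v _ => ?_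
    linarith [h1' v]
  have e2 : ∑ u, ∑ v, ad G u v * (G2 β (m u) (m v) - h1 (m u) - h1 (m v)) ≤
      ∑ u, ∑ v, ad G u v * (G2 β (m' u) (m' v) - h1 (m' u) - h1 (m' v)) +
      c2 * ∑ u, ∑ v, ad G u v := by
    rw [Finset.mul_sum, ← Finset.sum_add_distrib]
    refine Finset.sum_le_sum fun u _ => ?_
    rw [Finset.mul_sum, ← Finset.sum_add_distrib]
    refine Finset.sum_le_sum fun v _ => ?_
    have := mul_le_mul_of_nonneg_left (h2' u v) (ad_nonneg G u v)
    linarith
  have e3 : c2 * ∑ u, ∑ v, ad G u v ≤ c2 * ((d : ℝ) * Fintype.card V) :=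
    mul_le_mul_of_nonneg_left (sum_ad_le G d hd) hc2
  have e4 : 0 ≤ c2 * ((d : ℝ) * Fintype.card V) := by positivity
  nlinarith

theorem Df_nonneg (G : SimpleGraph V) (a : V → ℕ) (r : ℕ) (X : V → ℝ) : 0 ≤ Df G a r X := by
  unfold Df
  exact Finset.sum_nonneg fun v _ => by positivity

theorem Psi_le (K : ℕ) (G : SimpleGraph V) (a : V → ℕ) (r : ℕ) (g : V → ℕ → ℝ)
    (e : ℕ → ℕ → ℝ) (X : ℕ → V → ℝ) (c : ℝ)
    (hg : ∀ k u v, wl G a r u = wl G a r v → g u k = g v k)
    (hdg : ∀ u v, wl G a r u = wl G a r v → dg G u = dg G v)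
    (hD0 : ∀ k ∈ range K, ∀ l ∈ range K, 0 ≤ Dl e k l)
    (hDc : ∀ k ∈ range K, ∀ l ∈ range K, Dl e k l ≤ c)
    (hC : ∀ k l, ∑ u, ∑ v, ad G u v * (X k u * X l v) ≤
      ∑ u, ∑ v, ad G u v * min (av G a r (X k) u) (av G a r (X l) v) +
        Df G a r (X k) + Df G a r (X l)) :
    Psi K G g e X (fun k l u v => X k u * X l v) ≤
      Psi K G g e (fun k => av G a r (X k))
        (fun k l u v => min (av G a r (X k) u) (av G a r (X l) v)) +
      c * K * ∑ k ∈ range K, Df G a r (X k) := by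
  unfold Psi
  have e1 : ∑ k ∈ range K, ∑ v, ((g v (k + 1) - g v k) + dg G v * (e (k + 1) 0 - e k 0)) *
      X k v = ∑ k ∈ range K, ∑ v, ((g v (k + 1) - g v k) + dg G v * (e (k + 1) 0 - e k 0)) *
      av G a r (X k) v := by
    refine Finset.sum_congr rfl fun k _ => ?_
    refine sum_av G a r (X k) (fun v => (g v (k + 1) - g v k) +
      dg G v * (e (k + 1) 0 - e k 0)) ?_
    intro u v h
    rw [hg (k + 1) u v h, hg k u v h, hdg u v h]
  have e2 : ∑ k ∈ range K, ∑ l ∈ range K, Dl e k l * ∑ u, ∑ v, ad G u v * (X k u * X l v) ≤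
      ∑ k ∈ range K, ∑ l ∈ range K, Dl e k l * ∑ u, ∑ v, ad G u v *
        min (av G a r (X k) u) (av G a r (X l) v) +
      ∑ k ∈ range K, ∑ l ∈ range K, c * (Df G a r (X k) + Df G a r (X l)) := by
    rw [← Finset.sum_add_distrib]
    refine Finset.sum_le_sum fun k hk => ?_
    rw [← Finset.sum_add_distrib]
    refine Finset.sum_le_sum fun l hl => ?_
    have h1 := mul_le_mul_of_nonneg_left (hC k l) (hD0 k hk l hl)
    have h2 := mul_le_mul_of_nonneg_right (hDc k hk l hl)
      (add_nonneg (Df_nonneg G a r (X k)) (Df_nonneg G a r (X l)))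
    linarith
  have e3 : ∑ k ∈ range K, ∑ l ∈ range K, c * (Df G a r (X k) + Df G a r (X l)) =
      2 * (c * K * ∑ k ∈ range K, Df G a r (X k)) := by
    simp only [← Finset.mul_sum, Finset.sum_add_distrib, Finset.sum_const, Finset.card_range,
      nsmul_eq_mul]
    ring
  rw [e3] at e2
  rw [e1]
  linarith

end

end C3

theorem taskC3 : TaskC3 := by
  classical
  intro hG2 hG3 hC1 hC2 β b ρ ε d hβ hρ hρ1 hε
  obtain ⟨hsymm, hreg⟩ := hG3
  obtain ⟨A, hA, hAreg⟩ := hreg β ρ hβ hρ hρ1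
  obtain ⟨K, hK1, hK⟩ : ∃ K : ℕ, 1 ≤ K ∧
      ((|b| + A) * (2 * ρ / K) + 4 * A * (2 * ρ / K) * d) ≤ ε / 2 := by
    obtain ⟨K, hK⟩ := exists_nat_gt ((|b| + A + 4 * A * d) * (2 * ρ) / (ε / 2))
    have hK0 : (0 : ℝ) < K := lt_of_le_of_lt (by positivity) hK
    refine ⟨K, by exact_mod_cast hK0, ?_⟩
    rw [div_lt_iff₀ (by positivity)] at hK
    have : (|b| + A) * (2 * ρ / K) + 4 * A * (2 * ρ / K) * d =
        (|b| + A + 4 * A * d) * (2 * ρ) / K := by
      field_simp
    rw [this, div_le_iff₀ hK0]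
    linarith
  have hKpos : (0 : ℝ) < K := by exact_mod_cast hK1
  obtain ⟨R0, hR0⟩ := hC2 K d (ε / (2 * (4 * A * K + 1))) (by positivity)
  refine ⟨R0, ?_⟩
  intro V _ _ G a bf m hm hd hbf
  set s : ℕ → ℝ := fun j => -ρ + 2 * ρ * j / K with hs
  set i : V → ℕ := fun v => ⌊(m v + ρ) * K / (2 * ρ)⌋₊ with hi
  have hs_abs : ∀ j, j ≤ K → |s j| ≤ ρ := by
    intro j hj
    have hj' : (j : ℝ) ≤ K := by exact_mod_cast hj
    have h0 : 0 ≤ 2 * ρ * j / K := by positivity
    have h1 : 2 * ρ * j / K ≤ 2 * ρ := by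
      rw [div_le_iff₀ hKpos]
      nlinarith
    rw [abs_le]
    constructor
    · simp only [hs]; linarith
    · simp only [hs]; linarith
  have hs_mono : ∀ j, s j ≤ s (j + 1) := by
    intro j
    simp only [hs]
    have : 2 * ρ * (j : ℝ) / K ≤ 2 * ρ * ((j + 1 : ℕ) : ℝ) / K := by
      push_cast
      gcongr
      linarith
    linarith
  have hi_le : ∀ v, i v ≤ K := by
    intro v
    simp only [hi]
    refine Nat.floor_le_of_le ?_
    rw [div_le_iff₀ (by positivity)]
    have := (abs_le.1 (hm v)).2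
    nlinarith
  have hclose : ∀ v, |m v - s (i v)| ≤ 2 * ρ / K := by
    intro v
    have hnn : 0 ≤ (m v + ρ) * K / (2 * ρ) := by
      have := (abs_le.1 (hm v)).1
      have : 0 ≤ m v + ρ := by linarith
      positivity
    have h1 : (i v : ℝ) ≤ (m v + ρ) * K / (2 * ρ) := Nat.floor_le hnn
    have h2 : (m v + ρ) * K / (2 * ρ) < i v + 1 := Nat.lt_floor_add_one _
    rw [le_div_iff₀ (by positivity)] at h1
    rw [div_lt_iff₀ (by positivity)] at h2
    have h3 : 2 * ρ * (i v : ℝ) / K ≤ m v + ρ := by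
      rw [div_le_iff₀ hKpos]
      linarith
    have h4 : m v + ρ ≤ 2 * ρ * (i v : ℝ) / K + 2 * ρ / K := by
      rw [← add_div, le_div_iff₀ hKpos]
      linarith
    rw [abs_le]
    simp only [hs]
    constructor
    · have : 0 ≤ 2 * ρ / K := by positivity
      linarith
    · linarith
  set X : ℕ → V → ℝ := fun k v => if k < i v then 1 else 0 with hX
  obtain ⟨r, hr1, hrR, hDf⟩ := hR0 V G a (fun k v => X k v) (by
    intro k v
    simp only [hX]
    split_ifs <;> norm_num) hd
  refine ⟨r, hrR, ?_⟩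
  have hDf' : ∑ k ∈ range K, Df G a r (X k) ≤ ε / (2 * (4 * A * K + 1)) * Fintype.card V := by
    rw [Finset.sum_range]
    exact hDf
  set B : V → ℝ := fun v => bf (a v) with hB
  set g : V → ℕ → ℝ := fun v j => B v * s j + h1 (s j) with hg
  set e : ℕ → ℕ → ℝ := fun j l => G2 β (s j) (s l) - h1 (s j) - h1 (s l) with he
  have hesymm : ∀ j l, e j l = e l j := by
    intro j l
    simp only [he]
    rw [hsymm β (s j) (s l)]
    ring
  have hlt1 : ∀ j, j ≤ K → |s j| < 1 := fun j hj => lt_of_le_of_lt (hs_abs j hj) hρ1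
  have hDl : ∀ k l, C3.Dl e k l = G2 β (s (k + 1)) (s (l + 1)) - G2 β (s k) (s (l + 1)) -
      G2 β (s (k + 1)) (s l) + G2 β (s k) (s l) := by
    intro k l
    simp only [C3.Dl, he]
    ring
  have hD0 : ∀ k ∈ range K, ∀ l ∈ range K, 0 ≤ C3.Dl e k l := by
    intro k hk l hl
    rw [Finset.mem_range] at hk hl
    rw [hDl]
    have := hG2 β (s k) (s (k + 1)) (s l) (s (l + 1)) hβ (hlt1 k hk.le) (hlt1 (k + 1) hk)
      (hlt1 l hl.le) (hlt1 (l + 1) hl) (hs_mono k) (hs_mono l)
    linarith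
  have hDc : ∀ k ∈ range K, ∀ l ∈ range K, C3.Dl e k l ≤ 4 * A := by
    intro k hk l hl
    rw [Finset.mem_range] at hk hl
    rw [hDl]
    have hb : ∀ p q, p ≤ K → q ≤ K → |G2 β (s p) (s q)| ≤ A := fun p q hp hq =>
      (hAreg (s p) (s q) (s p) (s q) (hs_abs p hp) (hs_abs q hq) (hs_abs p hp)
        (hs_abs q hq)).2.2.1
    have b1 := abs_le.1 (hb (k + 1) (l + 1) hk hl)
    have b2 := abs_le.1 (hb k (l + 1) hk.le hl)
    have b3 := abs_le.1 (hb (k + 1) l hk hl.le)
    have b4 := abs_le.1 (hb k l hk.le hl.le)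
    linarith [b1.2, b2.1, b3.1, b4.2]
  have hadC : ∀ k l, ∑ u, ∑ v, C3.ad G u v * (X k u * X l v) ≤
      ∑ u, ∑ v, C3.ad G u v * min (av G a r (X k) u) (av G a r (X l) v) +
        Df G a r (X k) + Df G a r (X l) := by
    intro k l
    have h1 := hC1 V G a r (X k) (X l) hr1
      (by intro v; simp only [hX]; split_ifs <;> simp)
      (by intro v; simp only [hX]; split_ifs <;> simp)
    have h2 : ∀ F : V → V → ℝ, ∑ u, ∑ v, C3.ad G u v * F u v =
        ∑ u, ∑ v, (if G.Adj u v then F u v else 0) := by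
      intro F
      refine Finset.sum_congr rfl fun u _ => Finset.sum_congr rfl fun v _ => ?_
      unfold C3.ad
      by_cases h : G.Adj u v <;> simp [h]
    rw [h2 (fun u v => X k u * X l v), h2 (fun u v => min (av G a r (X k) u) (av G a r (X l) v))]
    exact h1
  -- expansion
  have hexp : ∀ J : V → ℕ, (∀ v, J v ≤ K) → Phi β (oe G) B (fun v => s (J v)) =
      C3.Psi K G g e (fun k v => if k < J v then 1 else 0)
        (fun k l u v => (if k < J u then 1 else 0) * (if l < J v then 1 else 0)) := by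
    intro J hJ
    rw [C3.Phi_eq G β B _ hsymm, ← C3.expand K G g e hesymm J hJ]
  have hstep2 := C3.Psi_le K G a r g e X (4 * A)
    (by
      intro k u v h
      simp only [hg, hB]
      rw [C3.wl_a G a r u v h])
    (fun u v h => C3.wl_dg G a r hr1 u v h) hD0 hDc hadC
  -- averaging
  set N : ℕ := (Fintype.card V).factorial with hN
  have havg := C3.Psi_avg K N G g e
    (fun j k v => if k < C3.FJ G a r i K j v then 1 else 0)
    (fun j k l u v => (if k < C3.FJ G a r i K j u then 1 else 0) *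
      (if l < C3.FJ G a r i K j v then 1 else 0))
    (fun k => av G a r (X k)) (fun k l u v => min (av G a r (X k) u) (av G a r (X l) v))
    (fun k hk v => C3.avg1 G a r i K k (Finset.mem_range.1 hk) v)
    (fun k hk l hl u v => C3.avg2 G a r i K k l (Finset.mem_range.1 hk)
      (Finset.mem_range.1 hl) u v)
  have hNpos : 0 < N := Nat.factorial_pos _
  obtain ⟨j, hj, hjle⟩ := Finset.exists_le_of_sum_le
    (f := fun _ => C3.Psi K G g e (fun k => av G a r (X k))
      (fun k l u v => min (av G a r (X k) u) (av G a r (X l) v)))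
    (g := fun j => C3.Psi K G g e (fun k v => if k < C3.FJ G a r i K j v then 1 else 0)
      (fun k l u v => (if k < C3.FJ G a r i K j u then 1 else 0) *
      (if l < C3.FJ G a r i K j v then 1 else 0))) (s := range N)
    (Finset.nonempty_range_iff.2 hNpos.ne')
    (by
      rw [havg, Finset.sum_const, Finset.card_range, nsmul_eq_mul])
  set J : V → ℕ := C3.FJ G a r i K j with hJ
  have hJK : ∀ v, J v ≤ K := C3.FJ_le G a r i K j
  have hJc : ∀ u v, wl G a r u = wl G a r v → J u = J v := fun u v h =>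
    C3.FJ_congr G a r i K j u v h
  refine ⟨fun t => if h : ∃ v, wl G a r v = t then s (J h.choose) else 0, ?_, ?_⟩
  · intro t
    by_cases h : ∃ v, wl G a r v = t
    · simp only [dif_pos h]
      exact hs_abs _ (hJK _)
    · simp only [dif_neg h]
      rw [abs_zero]
      exact hρ.le
  · have hf : (fun v => (fun t => if h : ∃ v, wl G a r v = t then s (J h.choose) else 0)
        (wl G a r v)) = fun v => s (J v) := by
      funext v
      have h : ∃ v', wl G a r v' = wl G a r v := ⟨v, rfl⟩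
      simp only [dif_pos h]
      rw [hJc _ _ h.choose_spec]
    rw [hf]
    have h1 : Phi β (oe G) B m ≤ Phi β (oe G) B (fun v => s (i v)) +
        ((|b| + A) * (2 * ρ / K) + 4 * A * (2 * ρ / K) * d) * Fintype.card V := by
      refine C3.phi_lip G β B m (fun v => s (i v)) hsymm _ _ (by positivity) d hd ?_ ?_
      · intro v
        have r1 := (hAreg (m v) (m v) (s (i v)) (s (i v)) (hm v) (hm v) (hs_abs _ (hi_le v))
          (hs_abs _ (hi_le v))).2.1
        have r2 : |B v * (m v - s (i v))| ≤ |b| * (2 * ρ / K) := by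
          rw [abs_mul]
          exact mul_le_mul ((hbf v).trans (le_abs_self b)) (hclose v) (abs_nonneg _)
            (abs_nonneg _)
        have r3 : A * |m v - s (i v)| ≤ A * (2 * ρ / K) :=
          mul_le_mul_of_nonneg_left (hclose v) hA
        have r4 := le_abs_self (B v * (m v - s (i v)))
        have r5 := le_abs_self (H29I.h1 (m v) - H29I.h1 (s (i v)))
        nlinarith
      · intro u v
        have r1 := hAreg (m u) (m v) (s (i u)) (s (i v)) (hm u) (hm v) (hs_abs _ (hi_le u))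
          (hs_abs _ (hi_le v))
        have r2 := (hAreg (m v) (m v) (s (i v)) (s (i v)) (hm v) (hm v) (hs_abs _ (hi_le v))
          (hs_abs _ (hi_le v))).2.1
        have r3 : A * |m v - s (i v)| ≤ A * (2 * ρ / K) :=
          mul_le_mul_of_nonneg_left (hclose v) hA
        have r4 : A * |m u - s (i u)| ≤ A * (2 * ρ / K) :=
          mul_le_mul_of_nonneg_left (hclose u) hA
        have r5 := le_abs_self (G2 β (m u) (m v) - G2 β (s (i u)) (s (i v)))
        have r6 := neg_abs_le (H29I.h1 (m v) - H29I.h1 (s (i v)))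
        have r7 := neg_abs_le (H29I.h1 (m u) - H29I.h1 (s (i u)))
        have r8 := r1.1
        have r9 := r1.2.1
        rw [mul_add] at r8
        linarith
    have h2 := hexp i hi_le
    have h3 := hexp J hJK
    have h4 : 4 * A * K * ∑ k ∈ range K, Df G a r (X k) ≤ ε / 2 * Fintype.card V := by
      have h5 : 4 * A * K * ∑ k ∈ range K, Df G a r (X k) ≤
          4 * A * K * (ε / (2 * (4 * A * K + 1)) * Fintype.card V) :=
        mul_le_mul_of_nonneg_left hDf' (by positivity)
      have h6 : 4 * A * K * (ε / (2 * (4 * A * K + 1))) ≤ ε / 2 := by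
        rw [mul_div_assoc', div_le_div_iff₀ (by positivity) (by positivity)]
        nlinarith
      have h7 := mul_le_mul_of_nonneg_right h6 (Nat.cast_nonneg (α := ℝ) (Fintype.card V))
      linarith
    have h8 := mul_le_mul_of_nonneg_right hK (Nat.cast_nonneg (α := ℝ) (Fintype.card V))
    have h9 : C3.Psi K G g e X (fun k l u v => X k u * X l v) =
      C3.Psi K G g e (fun k v => if k < i v then 1 else 0)
        (fun k l u v => (if k < i u then 1 else 0) * (if l < i v then 1 else 0)) := rfl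
    rw [h9, ← h2] at hstep2
    rw [← h3] at hjle
    linarith

end H29I
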