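import Pool.Agent.H29Ising.Stmts

set_option autoImplicit false

namespace H29I
open Finset

/-- the label of a type -/
def labC4 : (r : ℕ) → WLT r → ℕ
  | 0, t => t
  | r + 1, t => labC4 r t.1

theorem labC4_wl {V : Type} [Fintype V] (G : SimpleGraph V) (a : V → ℕ) :
    ∀ (r : ℕ) (v : V), labC4 r (wl G a r v) = a v
  | 0, _ => rfl
  | r + 1, v => labC4_wl G a r v

theorem sum_oe_C4 {V : Type} [Fintype V] [LinearOrder V] (G : SimpleGraph V) (F : V → V → ℝ)
    (hF : ∀ u v, F u v = F v u) :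
    ∑ p ∈ oe G, F p.1 p.2 =
      (1 / 2) * ∑ v, (open Classical in ∑ u ∈ univ.filter (fun u => G.Adj v u), F v u) := by
  classical
  have h1 : ∑ v, ∑ u ∈ univ.filter (fun u => G.Adj v u), F v u =
      ∑ p ∈ (univ : Finset (V × V)).filter (fun p => G.Adj p.1 p.2), F p.1 p.2 := by
    rw [Finset.sum_filter, Fintype.sum_prod_type]
    refine Finset.sum_congr rfl fun v _ => ?_
    rw [Finset.sum_filter]
  have h2 : (univ : Finset (V × V)).filter (fun p => G.Adj p.1 p.2) =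
      (univ : Finset (V × V)).filter (fun p => p.1 < p.2 ∧ G.Adj p.1 p.2) ∪
      (univ : Finset (V × V)).filter (fun p => p.2 < p.1 ∧ G.Adj p.1 p.2) := by
    ext p
    simp only [mem_filter, mem_univ, true_and, mem_union]
    constructor
    · intro h
      rcases lt_trichotomy p.1 p.2 with h' | h' | h'
      · exact Or.inl ⟨h', h⟩
      · exact absurd h' h.ne
      · exact Or.inr ⟨h', h⟩
    · rintro (h | h)
      · exact h.2
      · exact h.2
  have h3 : Disjoint ((univ : Finset (V × V)).filter (fun p => p.1 < p.2 ∧ G.Adj p.1 p.2))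
      ((univ : Finset (V × V)).filter (fun p => p.2 < p.1 ∧ G.Adj p.1 p.2)) := by
    rw [Finset.disjoint_left]
    intro p hp hq
    simp only [mem_filter, mem_univ, true_and] at hp hq
    exact lt_asymm hp.1 hq.1
  have h4 : ∑ p ∈ (univ : Finset (V × V)).filter (fun p => p.2 < p.1 ∧ G.Adj p.1 p.2), F p.1 p.2 =
      ∑ p ∈ (univ : Finset (V × V)).filter (fun p => p.1 < p.2 ∧ G.Adj p.1 p.2), F p.1 p.2 := by
    refine Finset.sum_nbij' Prod.swap Prod.swap ?_ ?_ ?_ ?_ ?_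
    · intro p hp
      simp only [mem_filter, mem_univ, true_and, Prod.fst_swap, Prod.snd_swap] at hp ⊢
      exact ⟨hp.1, hp.2.symm⟩
    · intro p hp
      simp only [mem_filter, mem_univ, true_and, Prod.fst_swap, Prod.snd_swap] at hp ⊢
      exact ⟨hp.1, hp.2.symm⟩
    · intro p _; exact Prod.swap_swap p
    · intro p _; exact Prod.swap_swap p
    · intro p _
      exact hF _ _
  have h5 : ∑ p ∈ oe G, F p.1 p.2 =
      ∑ p ∈ (univ : Finset (V × V)).filter (fun p => p.1 < p.2 ∧ G.Adj p.1 p.2), F p.1 p.2 := by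
    refine Finset.sum_congr ?_ fun _ _ => rfl
    unfold oe
    ext p
    simp only [mem_filter]
  rw [h5]
  have h6 : ∑ v, ∑ u ∈ univ.filter (fun u => G.Adj v u), F v u =
      2 * ∑ p ∈ (univ : Finset (V × V)).filter (fun p => p.1 < p.2 ∧ G.Adj p.1 p.2),
        F p.1 p.2 := by
    rw [h1, h2, Finset.sum_union h3, h4]
    ring
  rw [h6]
  ring

/-- the local functional -/
noncomputable def gC4 (β : ℝ) (r : ℕ) (bf : ℕ → ℝ) (f : WLT r → ℝ) (t : WLT (r + 1)) : ℝ :=
  bf (labC4 r t.1) * f t.1 + h1 (f t.1) +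
    (1 / 2) * ((t.2 : Multiset (WLT r)).map
      (fun c => G2 β (f t.1) (f c) - h1 (f t.1) - h1 (f c))).sum

theorem Phi_eq_C4 (hs : ∀ β x y : ℝ, G2 β x y = G2 β y x) (β : ℝ) (r : ℕ) {V : Type} [Fintype V]
    [LinearOrder V] (G : SimpleGraph V) (a : V → ℕ) (bf : ℕ → ℝ) (f : WLT r → ℝ) :
    Phi β (oe G) (fun v => bf (a v)) (fun v => f (wl G a r v)) =
      ∑ v, gC4 β r bf f (wl G a (r + 1) v) := by
  classical
  unfold Phi
  rw [sum_oe_C4 G (fun u v => G2 β (f (wl G a r u)) (f (wl G a r v)) - h1 (f (wl G a r u)) -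
    h1 (f (wl G a r v))) (fun u v => by rw [hs]; ring), Finset.mul_sum, ← Finset.sum_add_distrib]
  refine Finset.sum_congr rfl fun v _ => ?_
  unfold gC4
  have e1 : (wl G a (r + 1) v).1 = wl G a r v := rfl
  rw [e1, labC4_wl]
  congr 2
  have e2 : (wl G a (r + 1) v).2 = ((univ.filter (fun u => G.Adj v u)).val.map (wl G a r)) := by
    rfl
  rw [e2, Multiset.map_map]
  rfl

theorem bound_C4 (β ρ A b : ℝ) (r d : ℕ) (hA0 : 0 ≤ A) (hρ0 : 0 < ρ) (hρ : ρ < 1)
    (hA : ∀ x y x' y' : ℝ, |x| ≤ ρ → |y| ≤ ρ → |x'| ≤ ρ → |y'| ≤ ρ →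
      |G2 β x y - G2 β x' y'| ≤ A * (|x - x'| + |y - y'|) ∧ |h1 x - h1 x'| ≤ A * |x - x'| ∧
      |G2 β x y| ≤ A ∧ |h1 x| ≤ A) {V : Type} [Fintype V] (G : SimpleGraph V) (a : V → ℕ)
    (bf : ℕ → ℝ) (hb : ∀ j, |bf j| ≤ b) (f : WLT r → ℝ) (hf : ∀ t, |f t| ≤ ρ)
    (hd : ∀ v, dg G v ≤ d) (v : V) :
    |gC4 β r bf f (wl G a (r + 1) v)| ≤ b + A + (3 / 2) * A * d := by
  classical
  have hb0 : 0 ≤ b := le_trans (abs_nonneg _) (hb 0)
  have hG : ∀ s t : WLT r, |G2 β (f s) (f t)| ≤ A := fun s t =>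
    (hA (f s) (f t) (f s) (f t) (hf s) (hf t) (hf s) (hf t)).2.2.1
  have hH : ∀ s : WLT r, |h1 (f s)| ≤ A := fun s =>
    (hA (f s) (f s) (f s) (f s) (hf s) (hf s) (hf s) (hf s)).2.2.2
  unfold gC4
  have e1 : (wl G a (r + 1) v).1 = wl G a r v := rfl
  have e2 : (wl G a (r + 1) v).2 = ((univ.filter (fun u => G.Adj v u)).val.map (wl G a r)) := by
    rfl
  rw [e1, e2, Multiset.map_map]
  have e3 : (Multiset.map ((fun c => G2 β (f (wl G a r v)) (f c) - h1 (f (wl G a r v)) - h1 (f c)) ∘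
      wl G a r) (univ.filter (fun u => G.Adj v u)).val).sum =
      ∑ u ∈ univ.filter (fun u => G.Adj v u), (G2 β (f (wl G a r v)) (f (wl G a r u)) -
        h1 (f (wl G a r v)) - h1 (f (wl G a r u))) := rfl
  rw [e3]
  have e4 : |∑ u ∈ univ.filter (fun u => G.Adj v u), (G2 β (f (wl G a r v)) (f (wl G a r u)) -
        h1 (f (wl G a r v)) - h1 (f (wl G a r u)))| ≤ 3 * A * d := by
    refine (Finset.abs_sum_le_sum_abs _ _).trans ?_
    have : ∀ u ∈ univ.filter (fun u => G.Adj v u), |G2 β (f (wl G a r v)) (f (wl G a r u)) -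
        h1 (f (wl G a r v)) - h1 (f (wl G a r u))| ≤ 3 * A := by
      intro u _
      have h1' := abs_le.1 (hG (wl G a r v) (wl G a r u))
      have h2' := abs_le.1 (hH (wl G a r v))
      have h3' := abs_le.1 (hH (wl G a r u))
      rw [abs_le]
      constructor <;> linarith [h1'.1, h1'.2, h2'.1, h2'.2, h3'.1, h3'.2]
    refine (Finset.sum_le_card_nsmul _ _ _ this).trans ?_
    rw [nsmul_eq_mul]
    have hdv : (univ.filter (fun u => G.Adj v u)).card ≤ d := by
      have := hd v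
      unfold dg at this
      convert this
    have : ((univ.filter (fun u => G.Adj v u)).card : ℝ) ≤ d := by exact_mod_cast hdv
    nlinarith
  have e5 : |bf (labC4 r (wl G a r v)) * f (wl G a r v)| ≤ b := by
    rw [abs_mul]
    calc |bf (labC4 r (wl G a r v))| * |f (wl G a r v)| ≤ b * 1 := by
          apply mul_le_mul (hb _) ((hf _).trans hρ.le) (abs_nonneg _) hb0
      _ = b := mul_one b
  have e6 := abs_le.1 e5
  have e7 := abs_le.1 (hH (wl G a r v))
  have e8 := abs_le.1 e4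
  rw [abs_le]
  constructor <;> linarith [e6.1, e6.2, e7.1, e7.2, e8.1, e8.2]

theorem sum_frq_C4 {V : Type} [Fintype V] [Nonempty V] (G : SimpleGraph V) (a : V → ℕ) (r : ℕ)
    (g : WLT r → ℝ) (T : Finset (WLT r)) (hT : ∀ v, wl G a r v ∈ T) :
    (∑ v, g (wl G a r v)) / Fintype.card V = ∑ t ∈ T, frq G a r t * g t := by
  classical
  rw [Finset.sum_div]
  have h1 : ∀ t ∈ T, frq G a r t * g t =
      ∑ v ∈ univ.filter (fun v => wl G a r v = t), g (wl G a r v) / Fintype.card V := by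
    intro t _
    have e : frq G a r t = ((univ.filter (fun v => wl G a r v = t)).card : ℝ) / Fintype.card V := by
      unfold frq
      congr 2
    rw [e]
    have : ∀ v ∈ univ.filter (fun v => wl G a r v = t), g (wl G a r v) / Fintype.card V =
        g t / Fintype.card V := by
      intro v hv
      rw [(Finset.mem_filter.1 hv).2]
    rw [Finset.sum_congr rfl this, Finset.sum_const, nsmul_eq_mul]
    ring
  rw [Finset.sum_congr rfl h1]
  exact (Finset.sum_fiberwise_of_maps_to (fun v _ => hT v) _).symm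

theorem abs_sum_C4 {ι : Type} (T : Finset ι) (x g : ι → ℝ) (K δ : ℝ) (hK : 0 ≤ K)
    (hg : ∀ t ∈ T, |g t| ≤ K) (hS : ∀ S : Finset ι, |∑ t ∈ S, x t| ≤ δ) :
    |∑ t ∈ T, x t * g t| ≤ 2 * K * δ := by
  classical
  refine (Finset.abs_sum_le_sum_abs _ _).trans ?_
  have h1 : ∑ t ∈ T, |x t * g t| ≤ ∑ t ∈ T, K * |x t| := by
    apply Finset.sum_le_sum
    intro t ht
    rw [abs_mul, mul_comm]
    exact mul_le_mul_of_nonneg_right (hg t ht) (abs_nonneg _)
  refine h1.trans ?_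
  rw [← Finset.mul_sum]
  have h2 : ∑ t ∈ T, |x t| = ∑ t ∈ T.filter (fun t => 0 ≤ x t), x t -
      ∑ t ∈ T.filter (fun t => ¬ 0 ≤ x t), x t := by
    rw [← Finset.sum_filter_add_sum_filter_not T (fun t => 0 ≤ x t), sub_eq_add_neg,
      ← Finset.sum_neg_distrib]
    congr 1
    · exact Finset.sum_congr rfl fun t ht => abs_of_nonneg (Finset.mem_filter.1 ht).2
    · exact Finset.sum_congr rfl fun t ht => abs_of_neg (not_le.1 (Finset.mem_filter.1 ht).2)
  have h3 := abs_le.1 (hS (T.filter (fun t => 0 ≤ x t)))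
  have h4 := abs_le.1 (hS (T.filter (fun t => ¬ 0 ≤ x t)))
  have h5 : ∑ t ∈ T, |x t| ≤ 2 * δ := by
    rw [h2]; linarith [h3.2, h4.1]
  nlinarith

theorem taskC4 : TaskC4 := by
  classical
  intro hG3 β b ρ ε d hβ hρ0 hρ1 hε
  obtain ⟨hs, hreg⟩ := hG3
  obtain ⟨A, hA0, hA⟩ := hreg β ρ hβ hρ0 hρ1
  set K : ℝ := |b| + A + (3 / 2) * A * d with hKdef
  have hK0 : 0 ≤ K := by positivity
  refine ⟨ε / (2 * K + 1), by positivity, ?_⟩
  intro r V V' _ _ _ _ _ _ G G' a a' bf f hf hd hd' hb hclose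
  rw [Phi_eq_C4 hs, Phi_eq_C4 hs]
  set T : Finset (WLT (r + 1)) := univ.image (wl G a (r + 1)) ∪ univ.image (wl G' a' (r + 1))
    with hTdef
  have hT : ∀ v, wl G a (r + 1) v ∈ T := fun v =>
    Finset.mem_union_left _ (Finset.mem_image_of_mem _ (Finset.mem_univ _))
  have hT' : ∀ v, wl G' a' (r + 1) v ∈ T := fun v =>
    Finset.mem_union_right _ (Finset.mem_image_of_mem _ (Finset.mem_univ _))
  have s1 := sum_frq_C4 G a (r + 1) (gC4 β r bf f) T hT
  have s2 := sum_frq_C4 G' a' (r + 1) (gC4 β r bf f) T hT'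
  rw [s1, s2, ← Finset.sum_sub_distrib]
  have hb0 : 0 ≤ b := le_trans (abs_nonneg _) (hb 0)
  have hgT : ∀ t ∈ T, |gC4 β r bf f t| ≤ K := by
    intro t ht
    rw [hTdef, Finset.mem_union, Finset.mem_image, Finset.mem_image] at ht
    rw [hKdef, abs_of_nonneg hb0]
    rcases ht with ⟨v, -, rfl⟩ | ⟨v, -, rfl⟩
    · exact bound_C4 β ρ A b r d hA0 hρ0 hρ1 hA G a bf hb f hf hd v
    · exact bound_C4 β ρ A b r d hA0 hρ0 hρ1 hA G' a' bf hb f hf hd' v
  have key := abs_sum_C4 T (fun t => frq G a (r + 1) t - frq G' a' (r + 1) t)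
    (gC4 β r bf f) K (ε / (2 * K + 1)) hK0 hgT hclose
  have e : ∑ t ∈ T, (frq G a (r + 1) t * gC4 β r bf f t - frq G' a' (r + 1) t * gC4 β r bf f t) =
      ∑ t ∈ T, (frq G a (r + 1) t - frq G' a' (r + 1) t) * gC4 β r bf f t :=
    Finset.sum_congr rfl fun t _ => by ring
  rw [e]
  refine key.trans ?_
  have hpos : 0 < 2 * K + 1 := by positivity
  rw [mul_div_assoc', div_le_iff₀ hpos]
  nlinarith

end H29I
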