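import Pool.Agent.H29Ising.Stmts

namespace H29I
open Finset

theorem sum_frq_eq {V : Type} [Fintype V] (G : SimpleGraph V) (a : V → ℕ) (r : ℕ)
    [DecidableEq (WLT r)] (S : Finset (WLT r)) :
    ∑ t ∈ S, frq G a r t =
      ((univ.filter (fun v => wl G a r v ∈ S)).card : ℝ) / Fintype.card V := by
  classical
  have h : (univ.filter (fun v => wl G a r v ∈ S)).card =
      ∑ t ∈ S, (univ.filter (fun v => wl G a r v = t)).card := by
    rw [Finset.card_eq_sum_card_fiberwise (f := fun v => wl G a r v) (t := S)]
    · refine Finset.sum_congr rfl fun t ht => ?_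
      congr 1
      ext v
      simp only [Finset.mem_filter, Finset.mem_univ, true_and]
      constructor
      · rintro ⟨_, h⟩; exact h
      · intro h; exact ⟨h ▸ ht, h⟩
    · intro v hv
      simpa using hv
  rw [h]
  push_cast
  rw [Finset.sum_div]
  refine Finset.sum_congr rfl fun t _ => ?_
  unfold frq
  congr

theorem close_step {V V' : Type} [Fintype V] [Fintype V'] (G : SimpleGraph V) (a : V → ℕ)
    (G' : SimpleGraph V') (a' : V' → ℕ) (r : ℕ) (δ : ℝ)
    (h : Close G a G' a' (r + 1) δ) : Close G a G' a' r δ := by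
  classical
  intro S
  let T : Finset (WLT (r + 1)) :=
    ((univ.image (fun v => wl G a (r + 1) v)) ∪ (univ.image (fun v => wl G' a' (r + 1) v))).filter
      (fun t => (t : WLT r × Multiset (WLT r)).1 ∈ S)
  have hT := h T
  rw [Finset.sum_sub_distrib, sum_frq_eq, sum_frq_eq] at hT
  rw [Finset.sum_sub_distrib, sum_frq_eq, sum_frq_eq]
  have e1 : (univ.filter (fun v => wl G a (r + 1) v ∈ T)) =
      (univ.filter (fun v => wl G a r v ∈ S)) := by
    ext v
    simp only [Finset.mem_filter, Finset.mem_univ, true_and, T, Finset.mem_union,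
      Finset.mem_image]
    constructor
    · rintro ⟨_, h⟩; exact h
    · intro h; exact ⟨Or.inl ⟨v, rfl⟩, h⟩
  have e2 : (univ.filter (fun v => wl G' a' (r + 1) v ∈ T)) =
      (univ.filter (fun v => wl G' a' r v ∈ S)) := by
    ext v
    simp only [Finset.mem_filter, Finset.mem_univ, true_and, T, Finset.mem_union,
      Finset.mem_image]
    constructor
    · rintro ⟨_, h⟩; exact h
    · intro h; exact ⟨Or.inr ⟨v, rfl⟩, h⟩
  rw [e1, e2] at hT
  exact hT

theorem taskC5 : TaskC5 := by
  intro V V' _ _ G a G' a' r R δ hrR h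
  obtain ⟨k, rfl⟩ := Nat.exists_eq_add_of_le hrR
  induction k with
  | zero => exact h
  | succ k ih => exact ih (Nat.le_add_right _ _) (close_step G a G' a' (r + k) δ h)

end H29I
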