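import Mathlib
import Pool.Agent.H29Ising.Stmts

/-! Project H29-ISING, D1: types of the truncated graph are determined by balls. -/

set_option autoImplicit false

namespace H29I.D1
open Finset

theorem ed_step {V : Type} (G : SimpleGraph V) {v u w : V} {s : ℕ} (h : G.edist v u ≤ s)
    (ha : G.Adj u w) : G.edist v w ≤ ((s + 1 : ℕ) : ℕ∞) := by
  calc G.edist v w ≤ G.edist v u + G.edist u w := G.edist_triangle
    _ ≤ s + 1 := add_le_add h (le_of_eq (SimpleGraph.edist_eq_one_iff_adj.2 ha))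
    _ = ((s + 1 : ℕ) : ℕ∞) := by push_cast; rfl

theorem ed_back {V : Type} (G : SimpleGraph V) {v u : V} {s : ℕ}
    (h : G.edist v u ≤ ((s + 1 : ℕ) : ℕ∞)) :
    G.edist v u ≤ s ∨ ∃ w, G.edist v w ≤ s ∧ G.Adj w u := by
  have hne : G.edist v u ≠ ⊤ := ne_top_of_le_ne_top (ENat.natCast_ne_top _) h
  obtain ⟨p, hp⟩ := SimpleGraph.exists_walk_of_edist_ne_top hne
  rw [← hp] at h ⊢
  have hp' : p.length ≤ s + 1 := by exact_mod_cast h
  rcases Nat.lt_or_ge p.length (s + 1) with hlt | hge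
  · left
    exact_mod_cast Nat.lt_succ_iff.1 hlt
  · right
    obtain ⟨q, hq⟩ : ∃ q : G.Walk u v, q.length = s + 1 :=
      ⟨p.reverse, by rw [SimpleGraph.Walk.length_reverse]; omega⟩
    cases q with
    | nil => simp at hq
    | @cons _ w _ ha q' =>
      refine ⟨w, ?_, ha.symm⟩
      rw [SimpleGraph.Walk.length_cons] at hq
      have h1 : G.edist w v ≤ q'.length := SimpleGraph.edist_le q'
      rw [SimpleGraph.edist_comm] at h1
      have h2 : q'.length = s := by omega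
      rwa [h2] at h1

theorem wl_succ {V : Type} [Fintype V] (G : SimpleGraph V) (a : V → ℕ) (r : ℕ) (v : V) :
    ∃ inst : DecidablePred (fun u => G.Adj v u), wl G a (r + 1) v =
      (wl G a r v, ((@Finset.filter _ (fun u => G.Adj v u) inst univ).val.map (wl G a r))) :=
  ⟨_, rfl⟩

theorem dg_eq {V : Type} [Fintype V] (G : SimpleGraph V) (v : V) :
    ∃ inst : DecidablePred (fun u => G.Adj v u), dg G v =
      (@Finset.filter _ (fun u => G.Adj v u) inst univ).card :=
  ⟨_, rfl⟩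

theorem main {V V' : Type} [Fintype V] [Fintype V'] (G : SimpleGraph V) (G' : SimpleGraph V')
    (v : V) (v' : V') (R : ℕ) (ψ : V → V')
    (h1 : ∀ u w, G.edist v u ≤ R → G.edist v w ≤ R → (G.Adj u w ↔ G'.Adj (ψ u) (ψ w)))
    (h3 : ∀ u w, G.edist v u ≤ R → G.edist v w ≤ R → ψ u = ψ w → u = w)
    (h4 : ∀ u', G'.edist v' u' ≤ R → ∃ u, G.edist v u ≤ R ∧ ψ u = u')
    (h5 : ψ v = v') (K : ℕ) : ∀ j s : ℕ, s + j + 1 ≤ R → ∀ u, G.edist v u ≤ s →
      wl (trG K G) (trL K G) j u = wl (trG K G') (trL K G') j (ψ u) := by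
  have hle : ∀ {s : ℕ} {u : V}, s ≤ R → G.edist v u ≤ s → G.edist v u ≤ R := fun hs hu =>
    hu.trans (by exact_mod_cast hs)
  have hle' : ∀ {s : ℕ} {u : V'}, s ≤ R → G'.edist v' u ≤ s → G'.edist v' u ≤ R := fun hs hu =>
    hu.trans (by exact_mod_cast hs)
  have h2 : ∀ s : ℕ, s ≤ R → ∀ u, G.edist v u ≤ s → G'.edist v' (ψ u) ≤ s := by
    intro s
    induction s with
    | zero =>
      intro _ u hu
      have h0 : G.edist v u = 0 := le_antisymm (by simpa using hu) (by simp)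
      rw [SimpleGraph.edist_eq_zero_iff] at h0
      rw [← h0, h5]
      simp
    | succ s ih =>
      intro hs u hu
      rcases ed_back G hu with h | ⟨w, hw, ha⟩
      · exact (ih (by omega) u h).trans (by exact_mod_cast Nat.le_succ s)
      · have hw' := ih (by omega) w hw
        exact ed_step G' hw' ((h1 w u (hle (by omega) hw) (hle hs hu)).1 ha)
  -- neighbours
  have hmap : ∀ s : ℕ, s + 1 ≤ R → ∀ u, G.edist v u ≤ s → ∀ w, G.Adj u w →
      G'.Adj (ψ u) (ψ w) := fun s hs u hu w ha =>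
    (h1 u w (hle (by omega) hu) (hle hs (ed_step G hu ha))).1 ha
  have hsurj : ∀ s : ℕ, s + 1 ≤ R → ∀ u, G.edist v u ≤ s → ∀ w', G'.Adj (ψ u) w' →
      ∃ w, G.Adj u w ∧ ψ w = w' := by
    intro s hs u hu w' ha
    obtain ⟨w, hw, rfl⟩ := h4 w' (hle' hs (ed_step G' (h2 s (by omega) u hu) ha))
    exact ⟨w, (h1 u w (hle (by omega) hu) hw).2 ha, rfl⟩
  have hinj : ∀ s : ℕ, s + 1 ≤ R → ∀ u, G.edist v u ≤ s → ∀ w w2, G.Adj u w → G.Adj u w2 →
      ψ w = ψ w2 → w = w2 := fun s hs u hu w w2 ha ha2 h =>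
    h3 w w2 (hle hs (ed_step G hu ha)) (hle hs (ed_step G hu ha2)) h
  have hdg : ∀ s : ℕ, s + 1 ≤ R → ∀ u, G.edist v u ≤ s → dg G u = dg G' (ψ u) := by
    intro s hs u hu
    obtain ⟨i1, e1⟩ := dg_eq G u
    obtain ⟨i2, e2⟩ := dg_eq G' (ψ u)
    rw [e1, e2]
    refine Finset.card_bij (fun w _ => ψ w) ?_ ?_ ?_
    · intro w hw
      rw [mem_filter] at hw ⊢
      exact ⟨mem_univ _, hmap s hs u hu w hw.2⟩
    · intro w hw w2 hw2 h
      rw [mem_filter] at hw hw2
      exact hinj s hs u hu w w2 hw.2 hw2.2 h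
    · intro w' hw'
      rw [mem_filter] at hw'
      obtain ⟨w, hw, rfl⟩ := hsurj s hs u hu w' hw'.2
      exact ⟨w, by rw [mem_filter]; exact ⟨mem_univ _, hw⟩, rfl⟩
  intro j
  induction j with
  | zero =>
    intro s hs u hu
    show trL K G u = trL K G' (ψ u)
    unfold trL
    rw [hdg s (by omega) u hu]
  | succ j ih =>
    intro s hs u hu
    obtain ⟨i1, e1⟩ := wl_succ (trG K G) (trL K G) j u
    obtain ⟨i2, e2⟩ := wl_succ (trG K G') (trL K G') j (ψ u)
    rw [e1, e2]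
    have hm : (@Finset.filter _ (fun w => (trG K G).Adj u w) i1 univ).val.map
        (wl (trG K G) (trL K G) j) =
        (@Finset.filter _ (fun w => (trG K G').Adj (ψ u) w) i2 univ).val.map
        (wl (trG K G') (trL K G') j) := by
      refine Multiset.map_eq_map_of_bij_of_nodup _ _ (Finset.nodup _) (Finset.nodup _)
        (fun w _ => ψ w) ?_ ?_ ?_ ?_
      · intro w hw
        rw [Finset.mem_val, mem_filter] at hw ⊢
        obtain ⟨ha, hd1, hd2⟩ := hw.2
        refine ⟨mem_univ _, hmap s (by omega) u hu w ha, ?_, ?_⟩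
        · rw [← hdg s (by omega) u hu]; exact hd1
        · rw [← hdg (s + 1) (by omega) w (ed_step G hu ha)]; exact hd2
      · intro w hw w2 hw2 h
        rw [Finset.mem_val, mem_filter] at hw hw2
        exact hinj s (by omega) u hu w w2 hw.2.1 hw2.2.1 h
      · intro w' hw'
        rw [Finset.mem_val, mem_filter] at hw'
        obtain ⟨ha, hd1, hd2⟩ := hw'.2
        obtain ⟨w, hw, rfl⟩ := hsurj s (by omega) u hu w' ha
        refine ⟨w, ?_, rfl⟩
        rw [Finset.mem_val, mem_filter]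
        refine ⟨mem_univ _, hw, ?_, ?_⟩
        · rw [hdg s (by omega) u hu]; exact hd1
        · rw [hdg (s + 1) (by omega) w (ed_step G hu hw)]; exact hd2
      · intro w hw
        rw [Finset.mem_val, mem_filter] at hw
        exact ih (s + 1) (by omega) w (ed_step G hu hw.2.1)
    exact Prod.ext (ih s (by omega) u hu) hm

end H29I.D1

namespace H29I

theorem taskD1 : TaskD1 := by
  classical
  intro V V' W _ _ G G' H o v v' K r hI hI'
  obtain ⟨φ, hv, hφ⟩ := hI
  obtain ⟨φ', hv', hφ'⟩ := hI'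
  have hc : ((r : ℕ∞) + 2) = ((r + 2 : ℕ) : ℕ∞) := by push_cast; rfl
  let χ := φ.trans φ'.symm
  let ψ : V → V' := fun u => if h : G.edist v u ≤ ((r + 2 : ℕ) : ℕ∞) then
    (χ ⟨u, h⟩ : V') else v'
  have hψ : ∀ (u : V) (h : G.edist v u ≤ ((r + 2 : ℕ) : ℕ∞)), ψ u = (χ ⟨u, h⟩ : V') := fun u h =>
    dif_pos h
  have hroot : ψ v = v' := by
    have h0 : G.edist v v ≤ ((r + 2 : ℕ) : ℕ∞) := hv
    rw [hψ v h0]
    have h1 : χ ⟨v, h0⟩ = ⟨v', hv'⟩ := by
      show φ'.symm (φ ⟨v, hv⟩) = ⟨v', hv'⟩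
      rw [hφ, ← hφ', RelIso.symm_apply_apply]
    rw [h1]
  have hmain := D1.main G G' v v' (r + 2) ψ (by
      intro u w hu hw
      rw [hψ u hu, hψ w hw]
      have := χ.map_rel_iff (a := ⟨u, hu⟩) (b := ⟨w, hw⟩)
      exact this.symm)
    (by
      intro u w hu hw h
      rw [hψ u hu, hψ w hw] at h
      have h1 := χ.injective (Subtype.ext h)
      exact congrArg Subtype.val h1)
    (by
      intro u' hu'
      obtain ⟨⟨u, hu⟩, h⟩ := χ.surjective ⟨u', hu'⟩
      refine ⟨u, hu, ?_⟩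
      rw [hψ u hu, h])
    hroot K r 0 (by omega) v (by simp)
  rw [hmain, hroot]

end H29I
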