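import Pool.Agent.H29Ising.Stmts

/-! Task D2: balls of the truncated graph are trees. -/

set_option autoImplicit false

namespace H29I

theorem d2_sub {V : Type} [Fintype V] (G : SimpleGraph V) (v : V) (K s : ℕ) :
    ∀ u, u ∈ bl (trG K G) v s → G.edist v u ≤ s := by
  induction s with
  | zero =>
    intro u hu
    have h : u = v := hu
    subst h
    simp
  | succ s ih =>
    intro u hu
    rcases hu with hu | ⟨w, hw, hwu⟩
    · exact (ih u hu).trans (by exact_mod_cast Nat.le_succ s)
    · have h1 := ih w hw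
      have h2 : G.edist w u = 1 := SimpleGraph.edist_eq_one_iff_adj.mpr hwu.1
      calc G.edist v u ≤ G.edist v w + G.edist w u := G.edist_triangle
        _ ≤ s + 1 := by rw [h2]; gcongr
        _ = ((s + 1 : ℕ) : ℕ∞) := by push_cast; rfl

theorem taskD2 : TaskD2 := by
  intro V W _ G H o v K r r' hr ⟨φ, hv, hφ⟩ hH
  have hsub : ∀ u, u ∈ bl (trG K G) v r' → G.edist v u ≤ r := fun u hu =>
    (d2_sub G v K r' u hu).trans (by exact_mod_cast hr)
  unfold TreeBall
  let f : (trG K G).induce (bl (trG K G) v r') →g H :=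
    { toFun := fun x => φ ⟨x.1, hsub x.1 x.2⟩
      map_rel' := by
        intro a b hab
        have h1 : (trG K G).Adj a.1 b.1 := hab
        have h2 : (G.induce {u | G.edist v u ≤ r}).Adj ⟨a.1, hsub a.1 a.2⟩ ⟨b.1, hsub b.1 b.2⟩ := h1.1
        exact φ.map_adj_iff.mpr h2 }
  refine hH.comap f ?_
  intro a b hab
  have h1 : (⟨a.1, hsub a.1 a.2⟩ : {u | G.edist v u ≤ r}) = ⟨b.1, hsub b.1 b.2⟩ := φ.injective hab
  exact Subtype.ext (congrArg (fun z => z.1) h1)

end H29I
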