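import Pool.Agent.H29Ising.Stmts

namespace H29I
namespace D3

open Finset

theorem abs_sp (b : Bool) : |sp b| = 1 := by
  unfold sp; split_ifs <;> simp

/-- comparison of the logarithms of two sums of exponentials -/
theorem log_sum_exp {S : Type} [Fintype S] [Nonempty S] (f g : S → ℝ) (c : ℝ)
    (hfg : ∀ s, |f s - g s| ≤ c) :
    |Real.log (∑ s, Real.exp (f s)) - Real.log (∑ s, Real.exp (g s))| ≤ c := by
  have hpos : ∀ u : S → ℝ, 0 < ∑ s, Real.exp (u s) := fun u =>
    Finset.sum_pos (fun s _ => Real.exp_pos _) Finset.univ_nonempty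
  have hle : ∀ u w : S → ℝ, (∀ s, u s - w s ≤ c) →
      Real.log (∑ s, Real.exp (u s)) - Real.log (∑ s, Real.exp (w s)) ≤ c := by
    intro u w huw
    have h1 : ∑ s, Real.exp (u s) ≤ Real.exp c * ∑ s, Real.exp (w s) := by
      rw [Finset.mul_sum]
      apply Finset.sum_le_sum
      intro s _
      rw [← Real.exp_add]
      exact Real.exp_le_exp.2 (by linarith [huw s])
    have h2 := Real.log_le_log (hpos u) h1
    rw [Real.log_mul (Real.exp_ne_zero _) (hpos w).ne', Real.log_exp] at h2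
    linarith
  rw [abs_le]
  constructor
  · have := hle g f (fun s => by have := (abs_le.1 (hfg s)).1; linarith)
    linarith
  · exact hle f g (fun s => (abs_le.1 (hfg s)).2)

variable {V : Type} [Fintype V] [LinearOrder V]

theorem mem_oe (G : SimpleGraph V) (p : V × V) : p ∈ oe G ↔ p.1 < p.2 ∧ G.Adj p.1 p.2 := by
  classical
  unfold oe
  simp

theorem oe_sub (G : SimpleGraph V) (K : ℕ) : oe (trG K G) ⊆ oe G := by
  intro p hp
  rw [mem_oe] at hp ⊢
  exact ⟨hp.1, hp.2.1⟩

/-- edges of `G` at `v` -/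
theorem card_at (G : SimpleGraph V) (v : V) :
    ((oe G).filter (fun p => p.1 = v ∨ p.2 = v)).card ≤ dg G v := by
  classical
  unfold dg
  apply Finset.card_le_card_of_injOn (fun p => if p.1 = v then p.2 else p.1)
  · intro p hp
    have hp' := Finset.mem_filter.1 (Finset.mem_coe.1 hp)
    have h1 := (mem_oe G p).1 hp'.1
    simp only [Finset.coe_filter, Finset.mem_univ, true_and, Set.mem_setOf_eq]
    rcases eq_or_ne p.1 v with h | h
    · rw [if_pos h, ← h]; exact h1.2
    · rw [if_neg h]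
      have h2 : p.2 = v := hp'.2.resolve_left h
      rw [← h2]; exact h1.2.symm
  · intro p hp q hq hpq
    have hp' := Finset.mem_filter.1 (Finset.mem_coe.1 hp)
    have hq' := Finset.mem_filter.1 (Finset.mem_coe.1 hq)
    have h1 := ((mem_oe G p).1 hp'.1).1
    have h2 := ((mem_oe G q).1 hq'.1).1
    simp only at hpq
    obtain ⟨p1, p2⟩ := p
    obtain ⟨q1, q2⟩ := q
    simp only at h1 h2 hpq hp' hq' ⊢
    by_cases hp1 : p1 = v
    · by_cases hq1 : q1 = v
      · rw [if_pos hp1, if_pos hq1] at hpq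
        rw [hp1, hq1, hpq]
      · rw [if_pos hp1, if_neg hq1] at hpq
        have hq2 : q2 = v := hq'.2.resolve_left hq1
        exfalso
        rw [hp1, hpq] at h1
        rw [hq2] at h2
        exact lt_asymm h1 h2
    · have hp2 : p2 = v := hp'.2.resolve_left hp1
      by_cases hq1 : q1 = v
      · rw [if_neg hp1, if_pos hq1] at hpq
        exfalso
        rw [hp2] at h1
        rw [hq1, ← hpq] at h2
        exact lt_asymm h1 h2
      · rw [if_neg hp1, if_neg hq1] at hpq
        have hq2 : q2 = v := hq'.2.resolve_left hq1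
        rw [hp2, hq2, hpq]

theorem card_removed (G : SimpleGraph V) (K : ℕ) :
    (((oe G) \ (oe (trG K G))).card : ℝ) ≤ ∑ v, (if dg G v ≤ K then (0 : ℝ) else dg G v) := by
  classical
  have hsub : (oe G) \ (oe (trG K G)) ⊆
      (univ.filter (fun v => ¬ dg G v ≤ K)).biUnion
        (fun v => (oe G).filter (fun p => p.1 = v ∨ p.2 = v)) := by
    intro p hp
    rw [Finset.mem_sdiff] at hp
    have h1 := (mem_oe G p).1 hp.1
    have h2 : ¬ (dg G p.1 ≤ K ∧ dg G p.2 ≤ K) := by
      intro hh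
      exact hp.2 ((mem_oe _ p).2 ⟨h1.1, h1.2, hh.1, hh.2⟩)
    rw [Finset.mem_biUnion]
    by_cases h3 : dg G p.1 ≤ K
    · have h4 : ¬ dg G p.2 ≤ K := fun h => h2 ⟨h3, h⟩
      exact ⟨p.2, Finset.mem_filter.2 ⟨Finset.mem_univ _, h4⟩,
        Finset.mem_filter.2 ⟨hp.1, Or.inr rfl⟩⟩
    · exact ⟨p.1, Finset.mem_filter.2 ⟨Finset.mem_univ _, h3⟩,
        Finset.mem_filter.2 ⟨hp.1, Or.inl rfl⟩⟩
  have h1 : ((oe G) \ (oe (trG K G))).card ≤
      ∑ v ∈ univ.filter (fun v => ¬ dg G v ≤ K), dg G v :=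
    (Finset.card_le_card hsub).trans (Finset.card_biUnion_le.trans
      (Finset.sum_le_sum (fun v _ => card_at G v)))
  have h2 : ∑ v, (if dg G v ≤ K then (0 : ℝ) else dg G v) =
      ((∑ v ∈ univ.filter (fun v => ¬ dg G v ≤ K), dg G v : ℕ) : ℝ) := by
    rw [Finset.sum_filter]
    push_cast
    apply Finset.sum_congr rfl
    intro v _
    by_cases hv : dg G v ≤ K
    · simp [hv]
    · simp [hv]
  rw [h2]
  exact_mod_cast h1

theorem field_diff (G : SimpleGraph V) (k h : ℝ) (K : ℕ) (v : V) :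
    |(k * dg G v + h) - (fun j : ℕ => if j ≤ K then k * (j : ℝ) + h else 0) (trL K G v)| ≤
      (|k| + |h|) * (if dg G v ≤ K then (0 : ℝ) else dg G v) := by
  by_cases hv : dg G v ≤ K
  · have h1 : trL K G v = dg G v := by unfold trL; exact min_eq_left (by omega)
    simp only [h1, if_pos hv, sub_self, abs_zero, mul_zero, le_refl]
  · have h1 : trL K G v = K + 1 := by unfold trL; exact min_eq_right (by omega)
    have h2 : ¬ (K + 1 ≤ K) := by omega
    simp only [h1, if_neg hv, if_neg h2, sub_zero]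
    have h3 : (1 : ℝ) ≤ dg G v := by
      have : 1 ≤ dg G v := by omega
      exact_mod_cast this
    calc |k * dg G v + h| ≤ |k * dg G v| + |h| := abs_add_le _ _
      _ = |k| * dg G v + |h| := by rw [abs_mul, Nat.abs_cast]
      _ ≤ (|k| + |h|) * dg G v := by nlinarith [abs_nonneg h, abs_nonneg k]

end D3

open D3 Finset in
theorem taskD3 : TaskD3 := by
  intro V _ _ G β k h K hβ
  classical
  unfold Zp wt
  apply log_sum_exp
  intro σ
  set B2 : V → ℝ := fun v => (fun j : ℕ => if j ≤ K then k * (j : ℝ) + h else 0) (trL K G v)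
    with hB2
  set D : ℝ := ∑ v, (if dg G v ≤ K then (0 : ℝ) else dg G v) with hD
  have e1 : ∑ p ∈ oe G, sp (σ p.1) * sp (σ p.2) =
      ∑ p ∈ oe (trG K G), sp (σ p.1) * sp (σ p.2) +
      ∑ p ∈ oe G \ oe (trG K G), sp (σ p.1) * sp (σ p.2) := by
    rw [add_comm, Finset.sum_sdiff (oe_sub G K)]
  have e2 : |∑ p ∈ oe G \ oe (trG K G), sp (σ p.1) * sp (σ p.2)| ≤ D := by
    refine le_trans (Finset.abs_sum_le_sum_abs _ _) (le_trans ?_ (card_removed G K))
    rw [← nsmul_one, ← Finset.sum_const]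
    apply Finset.sum_le_sum
    intro p _
    rw [abs_mul, abs_sp, abs_sp, one_mul]
  have e3 : |∑ v, ((k * dg G v + h) * sp (σ v)) - ∑ v, B2 v * sp (σ v)| ≤ (|k| + |h|) * D := by
    rw [← Finset.sum_sub_distrib, hD, Finset.mul_sum]
    refine le_trans (Finset.abs_sum_le_sum_abs _ _) (Finset.sum_le_sum (fun v _ => ?_))
    rw [← sub_mul, abs_mul, abs_sp, mul_one]
    exact field_diff G k h K v
  rw [e1]
  have e4 : β * (∑ p ∈ oe (trG K G), sp (σ p.1) * sp (σ p.2) +
      ∑ p ∈ oe G \ oe (trG K G), sp (σ p.1) * sp (σ p.2)) +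
      ∑ v, (k * dg G v + h) * sp (σ v) -
      (β * ∑ p ∈ oe (trG K G), sp (σ p.1) * sp (σ p.2) + ∑ v, B2 v * sp (σ v)) =
      β * (∑ p ∈ oe G \ oe (trG K G), sp (σ p.1) * sp (σ p.2)) +
      (∑ v, (k * dg G v + h) * sp (σ v) - ∑ v, B2 v * sp (σ v)) := by ring
  rw [e4]
  calc _ ≤ |β * (∑ p ∈ oe G \ oe (trG K G), sp (σ p.1) * sp (σ p.2))| +
        |∑ v, (k * dg G v + h) * sp (σ v) - ∑ v, B2 v * sp (σ v)| := abs_add_le _ _
    _ ≤ β * D + (|k| + |h|) * D := by
        apply add_le_add _ e3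
        rw [abs_mul, abs_of_nonneg hβ]
        exact mul_le_mul_of_nonneg_left e2 hβ
    _ = (β + |k| + |h|) * D := by ring

end H29I
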