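import Pool.Agent.H29Ising.Stmts

set_option autoImplicit false

namespace H29I.E1

open Finset H29I

variable {V : Type} [Fintype V] [DecidableEq V]

lemma marg_congr (P : (V → Bool) → ℝ) (A : Finset V) {σ σ' : V → Bool}
    (h : ∀ v ∈ A, σ v = σ' v) : marg P A σ = marg P A σ' := by
  unfold marg
  refine Finset.sum_congr rfl fun τ _ => ?_
  have : (∀ v ∈ A, τ v = σ v) ↔ (∀ v ∈ A, τ v = σ' v) :=
    ⟨fun h2 v hv => (h2 v hv).trans (h v hv), fun h2 v hv => (h2 v hv).trans (h v hv).symm⟩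
  simp only [this]

lemma marg_pos {P : (V → Bool) → ℝ} (hP : ∀ σ, 0 < P σ) (A : Finset V) (σ : V → Bool) :
    0 < marg P A σ := by
  unfold marg
  refine Finset.sum_pos' (fun τ _ => ?_) ⟨σ, mem_univ _, ?_⟩
  · split_ifs
    · exact (hP τ).le
    · exact le_rfl
  · simp [hP σ]

lemma marg_anti {P : (V → Bool) → ℝ} (hP : ∀ σ, 0 < P σ) {A B : Finset V} (h : A ⊆ B)
    (σ : V → Bool) : marg P B σ ≤ marg P A σ := by
  unfold marg
  refine Finset.sum_le_sum fun τ _ => ?_
  by_cases h1 : ∀ v ∈ B, τ v = σ v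
  · rw [if_pos h1, if_pos (fun v hv => h1 v (h hv))]
  · rw [if_neg h1]
    split_ifs
    · exact (hP τ).le
    · exact le_rfl

lemma class_le {P : (V → Bool) → ℝ} (hP : ∀ σ, 0 < P σ) (D : Finset V)
    (Q : (V → Bool) → Prop) [DecidablePred Q]
    (hQ : ∀ σ σ', Q σ → Q σ' → ∀ v ∈ D, σ v = σ' v) :
    ∑ σ, (if Q σ then P σ / marg P D σ else 0) ≤ 1 := by
  by_cases hex : ∃ σ₀, Q σ₀
  · obtain ⟨σ₀, h0⟩ := hex
    have h1 : ∀ σ, (if Q σ then P σ / marg P D σ else 0) ≤
        (if (∀ v ∈ D, σ v = σ₀ v) then P σ else 0) / marg P D σ₀ := by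
      intro σ
      by_cases hq : Q σ
      · rw [if_pos hq, if_pos (hQ σ σ₀ hq h0), marg_congr P D (hQ σ σ₀ hq h0)]
      · rw [if_neg hq]
        refine div_nonneg ?_ (marg_pos hP D σ₀).le
        split_ifs
        · exact (hP σ).le
        · exact le_rfl
    refine (Finset.sum_le_sum fun σ _ => h1 σ).trans ?_
    rw [← Finset.sum_div]
    have : (∑ σ, if (∀ v ∈ D, σ v = σ₀ v) then P σ else 0) = marg P D σ₀ := rfl
    rw [this, div_self (marg_pos hP D σ₀).ne']
  · have : ∀ σ, (if Q σ then P σ / marg P D σ else 0) = 0 := fun σ => if_neg fun h => hex ⟨σ, h⟩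
    simp [this]

lemma inner_le {P : (V → Bool) → ℝ} (hP : ∀ σ, 0 < P σ) (A B C : Finset V) (τ : V → Bool) :
    ∑ σ, (if (∀ v ∈ B ∪ C, τ v = σ v) then P σ / marg P (A ∪ B ∪ C) σ * marg P (A ∪ C) σ else 0) ≤
      marg P C τ := by
  have e1 : ∀ σ, (if (∀ v ∈ B ∪ C, τ v = σ v) then
      P σ / marg P (A ∪ B ∪ C) σ * marg P (A ∪ C) σ else 0) =
      ∑ ρ, P ρ * (if (∀ v ∈ B ∪ C, τ v = σ v) ∧ (∀ v ∈ A ∪ C, ρ v = σ v) then
        P σ / marg P (A ∪ B ∪ C) σ else 0) := by
    intro σ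
    by_cases h : ∀ v ∈ B ∪ C, τ v = σ v
    · rw [if_pos h]
      conv_lhs => rw [show marg P (A ∪ C) σ = ∑ ρ, if (∀ v ∈ A ∪ C, ρ v = σ v) then P ρ else 0
        from rfl]
      rw [Finset.mul_sum]
      refine Finset.sum_congr rfl fun ρ _ => ?_
      by_cases h2 : ∀ v ∈ A ∪ C, ρ v = σ v
      · rw [if_pos h2, if_pos ⟨h, h2⟩, mul_comm]
      · rw [if_neg h2, if_neg (fun h3 => h2 h3.2)]
        ring
    · rw [if_neg h]
      refine (Finset.sum_eq_zero fun ρ _ => ?_).symm
      rw [if_neg (fun h3 => h h3.1), mul_zero]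
  simp only [e1]
  rw [Finset.sum_comm]
  unfold marg
  refine Finset.sum_le_sum fun ρ _ => ?_
  rw [← Finset.mul_sum]
  have hD : ∀ σ σ' : V → Bool, ((∀ v ∈ B ∪ C, τ v = σ v) ∧ (∀ v ∈ A ∪ C, ρ v = σ v)) →
      ((∀ v ∈ B ∪ C, τ v = σ' v) ∧ (∀ v ∈ A ∪ C, ρ v = σ' v)) →
      ∀ v ∈ A ∪ B ∪ C, σ v = σ' v := by
    intro σ σ' h h' v hv
    rw [Finset.mem_union, Finset.mem_union] at hv
    rcases hv with (hv | hv) | hv
    · exact (h.2 v (mem_union_left _ hv)).symm.trans (h'.2 v (mem_union_left _ hv))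
    · exact (h.1 v (mem_union_left _ hv)).symm.trans (h'.1 v (mem_union_left _ hv))
    · exact (h.1 v (mem_union_right _ hv)).symm.trans (h'.1 v (mem_union_right _ hv))
  have h1 := class_le hP (A ∪ B ∪ C)
    (fun σ => (∀ v ∈ B ∪ C, τ v = σ v) ∧ (∀ v ∈ A ∪ C, ρ v = σ v)) hD
  by_cases hc : ∀ v ∈ C, ρ v = τ v
  · rw [if_pos hc]
    calc P ρ * _ ≤ P ρ * 1 := mul_le_mul_of_nonneg_left h1 (hP ρ).le
      _ = P ρ := mul_one _
  · rw [if_neg hc]
    refine le_of_eq ?_
    rw [Finset.sum_eq_zero, mul_zero]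
    intro σ _
    rw [if_neg]
    rintro ⟨h2, h3⟩
    exact hc fun v hv => (h3 v (mem_union_right _ hv)).trans (h2 v (mem_union_right _ hv)).symm

lemma sum_le {P : (V → Bool) → ℝ} (hP : ∀ σ, 0 < P σ) (h1 : ∑ σ, P σ = 1) (A B C : Finset V) :
    ∑ σ, P σ * (marg P (A ∪ C) σ * marg P (B ∪ C) σ /
      (marg P (A ∪ B ∪ C) σ * marg P C σ)) ≤ 1 := by
  have e1 : ∀ σ, P σ * (marg P (A ∪ C) σ * marg P (B ∪ C) σ /
      (marg P (A ∪ B ∪ C) σ * marg P C σ)) =
      ∑ τ, P τ / marg P C τ * (if (∀ v ∈ B ∪ C, τ v = σ v) then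
        P σ / marg P (A ∪ B ∪ C) σ * marg P (A ∪ C) σ else 0) := by
    intro σ
    have hC := (marg_pos hP C σ).ne'
    have hD := (marg_pos hP (A ∪ B ∪ C) σ).ne'
    have e2 : P σ * (marg P (A ∪ C) σ * marg P (B ∪ C) σ /
      (marg P (A ∪ B ∪ C) σ * marg P C σ)) =
      marg P (B ∪ C) σ * (1 / marg P C σ * (P σ / marg P (A ∪ B ∪ C) σ * marg P (A ∪ C) σ)) := by
      field_simp
    rw [e2]
    conv_lhs => rw [show marg P (B ∪ C) σ = ∑ ρ, if (∀ v ∈ B ∪ C, ρ v = σ v) then P ρ else 0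
        from rfl]
    rw [Finset.sum_mul]
    refine Finset.sum_congr rfl fun τ _ => ?_
    by_cases h : ∀ v ∈ B ∪ C, τ v = σ v
    · rw [if_pos h, if_pos h, marg_congr P C (fun v hv => h v (mem_union_right _ hv))]
      ring
    · rw [if_neg h, if_neg h]
      ring
  simp only [e1]
  rw [Finset.sum_comm]
  rw [← h1]
  refine Finset.sum_le_sum fun τ _ => ?_
  rw [← Finset.mul_sum]
  calc P τ / marg P C τ * _ ≤ P τ / marg P C τ * marg P C τ :=
        mul_le_mul_of_nonneg_left (inner_le hP A B C τ)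
          (div_nonneg (hP τ).le (marg_pos hP C τ).le)
    _ = P τ := div_mul_cancel₀ _ (marg_pos hP C τ).ne'

lemma sum_two {P : (V → Bool) → ℝ} (hP : ∀ σ, 0 < P σ) (h1 : ∑ σ, P σ = 1) (A : Finset V)
    (x : V) : ∑ σ, P σ * (marg P A σ / marg P (insert x A) σ) ≤ 2 := by
  have e1 : ∀ σ, P σ * (marg P A σ / marg P (insert x A) σ) =
      ∑ ρ, P ρ * ((if (∀ v ∈ A, ρ v = σ v) ∧ σ x = true then
        P σ / marg P (insert x A) σ else 0) + (if (∀ v ∈ A, ρ v = σ v) ∧ σ x = false then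
        P σ / marg P (insert x A) σ else 0)) := by
    intro σ
    have e2 : P σ * (marg P A σ / marg P (insert x A) σ) =
      marg P A σ * (P σ / marg P (insert x A) σ) := by ring
    rw [e2]
    conv_lhs => rw [show marg P A σ = ∑ ρ, if (∀ v ∈ A, ρ v = σ v) then P ρ else 0 from rfl]
    rw [Finset.sum_mul]
    refine Finset.sum_congr rfl fun ρ _ => ?_
    by_cases h : ∀ v ∈ A, ρ v = σ v
    · rw [if_pos h]
      cases hx : σ x
      · rw [if_neg (by simp), if_pos ⟨h, rfl⟩, zero_add]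
      · rw [if_pos ⟨h, rfl⟩, if_neg (by simp), add_zero]
    · rw [if_neg h, if_neg (fun h3 => h h3.1), if_neg (fun h3 => h h3.1)]
      ring
  simp only [e1]
  rw [Finset.sum_comm]
  have key : ∀ (ρ : V → Bool) (b : Bool), ∑ σ, (if (∀ v ∈ A, ρ v = σ v) ∧ σ x = b then
        P σ / marg P (insert x A) σ else 0) ≤ 1 := by
    intro ρ b
    refine class_le hP (insert x A) (fun σ => (∀ v ∈ A, ρ v = σ v) ∧ σ x = b) ?_
    intro σ σ' h h' v hv
    rw [Finset.mem_insert] at hv
    rcases hv with rfl | hv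
    · rw [h.2, h'.2]
    · exact (h.1 v hv).symm.trans (h'.1 v hv)
  have h2 : (2 : ℝ) = ∑ ρ, P ρ * 2 := by rw [← Finset.sum_mul, h1, one_mul]
  rw [h2]
  refine Finset.sum_le_sum fun ρ _ => ?_
  rw [← Finset.mul_sum, Finset.sum_add_distrib]
  refine mul_le_mul_of_nonneg_left ?_ (hP ρ).le
  have := key ρ true
  have := key ρ false
  linarith

end H29I.E1

namespace H29I

open Finset H29I.E1

theorem taskE1 : TaskE1 := by
  intro V _ _ P hP h1
  refine ⟨?_, ?_, ?_⟩
  · have : ∀ σ, marg P ∅ σ = 1 := by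
      intro σ
      unfold marg
      simpa using h1
    unfold ent
    simp [this]
  · intro A B C
    unfold ent
    have h2 : 0 ≤ ∑ σ, P σ * (Real.log (marg P C σ) + Real.log (marg P (A ∪ B ∪ C) σ) -
        Real.log (marg P (A ∪ C) σ) - Real.log (marg P (B ∪ C) σ)) := by
      have h3 : ∀ σ, P σ * (1 - marg P (A ∪ C) σ * marg P (B ∪ C) σ /
          (marg P (A ∪ B ∪ C) σ * marg P C σ)) ≤
          P σ * (Real.log (marg P C σ) + Real.log (marg P (A ∪ B ∪ C) σ) -
          Real.log (marg P (A ∪ C) σ) - Real.log (marg P (B ∪ C) σ)) := by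
        intro σ
        refine mul_le_mul_of_nonneg_left ?_ (hP σ).le
        have p1 := marg_pos hP C σ
        have p2 := marg_pos hP (A ∪ B ∪ C) σ
        have p3 := marg_pos hP (A ∪ C) σ
        have p4 := marg_pos hP (B ∪ C) σ
        have h4 := Real.log_le_sub_one_of_pos
          (show 0 < marg P (A ∪ C) σ * marg P (B ∪ C) σ /
          (marg P (A ∪ B ∪ C) σ * marg P C σ) by positivity)
        rw [Real.log_div (by positivity) (by positivity), Real.log_mul p3.ne' p4.ne',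
          Real.log_mul p2.ne' p1.ne'] at h4
        linarith
      refine le_trans ?_ (Finset.sum_le_sum fun σ _ => h3 σ)
      have h5 := sum_le hP h1 A B C
      simp only [mul_sub, mul_one]
      rw [Finset.sum_sub_distrib, h1]
      linarith
    simp only [mul_sub, mul_add, Finset.sum_sub_distrib, Finset.sum_add_distrib] at h2
    linarith
  · intro x A
    constructor
    · unfold ent
      rw [neg_le_neg_iff]
      refine Finset.sum_le_sum fun σ _ => mul_le_mul_of_nonneg_left ?_ (hP σ).le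
      exact Real.log_le_log (marg_pos hP _ σ) (marg_anti hP (subset_insert x A) σ)
    · unfold ent
      have h3 : ∀ σ, P σ * (Real.log (marg P A σ) - Real.log (marg P (insert x A) σ)) ≤
          P σ * (Real.log 2 - 1) + (P σ * (marg P A σ / marg P (insert x A) σ)) / 2 := by
        intro σ
        have p1 := marg_pos hP A σ
        have p2 := marg_pos hP (insert x A) σ
        have h4 := Real.log_le_sub_one_of_pos
          (show 0 < marg P A σ / marg P (insert x A) σ / 2 by positivity)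
        rw [Real.log_div (by positivity) (by norm_num), Real.log_div p1.ne' p2.ne'] at h4
        have h5 := mul_le_mul_of_nonneg_left h4 (hP σ).le
        nlinarith
      have h6 := Finset.sum_le_sum fun σ (_ : σ ∈ (univ : Finset (V → Bool))) => h3 σ
      have h7 := sum_two hP h1 A x
      rw [Finset.sum_add_distrib, ← Finset.sum_mul, ← Finset.sum_div, h1] at h6
      simp only [mul_sub, Finset.sum_sub_distrib] at h6
      linarith

end H29I
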