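import Pool.Agent.H29Ising.Stmts

namespace H29I
open Finset

namespace E2aux

open Classical in
theorem markov {V : Type} [Fintype V] [DecidableEq V] (P : (V → Bool) → ℝ) (N : V → Prop)
    (S A C : Finset V) (hA : ∀ v ∈ A, ¬ N v) (hS : ∀ v ∈ S, ¬ N v) (hC : ∀ v ∈ C, N v)
    (hP : ∀ τ τ' : V → Bool, (∀ v ∈ S, τ v = τ' v) →
      P (fun v => if N v then τ' v else τ v) * P (fun v => if N v then τ v else τ' v) =
        P τ * P τ') (σ : V → Bool) :
    marg P (A ∪ S ∪ C) σ * marg P S σ = marg P (A ∪ S) σ * marg P (S ∪ C) σ := by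
  let f : (V → Bool) × (V → Bool) → (V → Bool) × (V → Bool) := fun q =>
    (fun v => if N v then q.2 v else q.1 v, fun v => if N v then q.1 v else q.2 v)
  have hf : Function.Involutive f := by
    rintro ⟨τ, τ'⟩
    simp only [f, Prod.mk.injEq]
    constructor
    · funext v; by_cases h : N v <;> simp [h]
    · funext v; by_cases h : N v <;> simp [h]
  have e1 : marg P (A ∪ S ∪ C) σ * marg P S σ = ∑ q : (V → Bool) × (V → Bool),
      (if (∀ v ∈ A ∪ S ∪ C, q.1 v = σ v) then P q.1 else 0) *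
        (if (∀ v ∈ S, q.2 v = σ v) then P q.2 else 0) := by
    rw [Fintype.sum_prod_type]
    simp only [marg]
    rw [Finset.sum_mul_sum]
  have e2 : marg P (A ∪ S) σ * marg P (S ∪ C) σ = ∑ q : (V → Bool) × (V → Bool),
      (if (∀ v ∈ A ∪ S, q.1 v = σ v) then P q.1 else 0) *
        (if (∀ v ∈ S ∪ C, q.2 v = σ v) then P q.2 else 0) := by
    rw [Fintype.sum_prod_type]
    simp only [marg]
    rw [Finset.sum_mul_sum]
  rw [e1, e2]
  refine Fintype.sum_equiv hf.toPerm _ _ ?_
  rintro ⟨τ, τ'⟩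
  simp only [Function.Involutive.coe_toPerm, f]
  have c1 : (∀ v ∈ A ∪ S, (if N v then τ' v else τ v) = σ v) ↔ ∀ v ∈ A ∪ S, τ v = σ v := by
    refine forall₂_congr fun v hv => ?_
    have hn : ¬ N v := by
      rcases Finset.mem_union.1 hv with h | h
      · exact hA v h
      · exact hS v h
    rw [if_neg hn]
  have c2 : (∀ v ∈ S ∪ C, (if N v then τ v else τ' v) = σ v) ↔
      (∀ v ∈ S, τ' v = σ v) ∧ ∀ v ∈ C, τ v = σ v := by
    constructor
    · intro h
      refine ⟨fun v hv => ?_, fun v hv => ?_⟩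
      · have := h v (Finset.mem_union_left _ hv)
        rwa [if_neg (hS v hv)] at this
      · have := h v (Finset.mem_union_right _ hv)
        rwa [if_pos (hC v hv)] at this
    · rintro ⟨h1, h2⟩ v hv
      rcases Finset.mem_union.1 hv with h | h
      · rw [if_neg (hS v h)]; exact h1 v h
      · rw [if_pos (hC v h)]; exact h2 v h
  by_cases h1 : ∀ v ∈ A ∪ S, τ v = σ v
  · by_cases h2 : ∀ v ∈ S, τ' v = σ v
    · by_cases h3 : ∀ v ∈ C, τ v = σ v
      · have g1 : ∀ v ∈ A ∪ S ∪ C, τ v = σ v := by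
          intro v hv
          rcases Finset.mem_union.1 hv with h | h
          · exact h1 v h
          · exact h3 v h
        rw [if_pos g1, if_pos h2, if_pos (c1.2 h1), if_pos (c2.2 ⟨h2, h3⟩)]
        exact (hP τ τ' fun v hv => (h1 v (Finset.mem_union_right _ hv)).trans (h2 v hv).symm).symm
      · have g1 : ¬ ∀ v ∈ A ∪ S ∪ C, τ v = σ v := fun h =>
          h3 fun v hv => h v (Finset.mem_union_right _ hv)
        have g2 : ¬ ∀ v ∈ S ∪ C, (if N v then τ v else τ' v) = σ v := fun h =>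
          h3 (c2.1 h).2
        rw [if_neg g1, if_neg g2, zero_mul, mul_zero]
    · have g2 : ¬ ∀ v ∈ S ∪ C, (if N v then τ v else τ' v) = σ v := fun h =>
        h2 (c2.1 h).1
      rw [if_neg h2, if_neg g2, mul_zero, mul_zero]
  · have g1 : ¬ ∀ v ∈ A ∪ S ∪ C, τ v = σ v := fun h =>
      h1 fun v hv => h v (Finset.mem_union_left _ hv)
    have g2 : ¬ ∀ v ∈ A ∪ S, (if N v then τ' v else τ v) = σ v := fun h =>
      h1 (c1.1 h)
    rw [if_neg g1, if_neg g2, zero_mul, zero_mul]

theorem marg_pos {V : Type} [Fintype V] [DecidableEq V] (P : (V → Bool) → ℝ)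
    (h0 : ∀ σ, 0 < P σ) (A : Finset V) (σ : V → Bool) : 0 < marg P A σ := by
  unfold marg
  refine lt_of_lt_of_le (h0 σ) ?_
  have h1 : P σ = if (∀ v ∈ A, σ v = σ v) then P σ else 0 := by
    rw [if_pos fun _ _ => rfl]
  rw [h1]
  refine Finset.single_le_sum (f := fun τ : V → Bool =>
    if (∀ v ∈ A, τ v = σ v) then P τ else 0) (fun τ _ => ?_) (Finset.mem_univ σ)
  split_ifs
  · exact (h0 τ).le
  · exact le_refl _

theorem markov_ent {V : Type} [Fintype V] [DecidableEq V] (P : (V → Bool) → ℝ)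
    (h0 : ∀ σ, 0 < P σ) (A B C D : Finset V)
    (h : ∀ σ, marg P A σ * marg P B σ = marg P C σ * marg P D σ) :
    ent P A + ent P B = ent P C + ent P D := by
  unfold ent
  rw [← neg_add, ← neg_add, ← Finset.sum_add_distrib, ← Finset.sum_add_distrib]
  congr 1
  refine Finset.sum_congr rfl fun σ _ => ?_
  rw [← mul_add, ← mul_add, ← Real.log_mul (marg_pos P h0 A σ).ne' (marg_pos P h0 B σ).ne',
    ← Real.log_mul (marg_pos P h0 C σ).ne' (marg_pos P h0 D σ).ne', h]

theorem wt_pos {V : Type} [Fintype V] [DecidableEq V] (β : ℝ) (E : Finset (V × V)) (B : V → ℝ)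
    (σ : V → Bool) : 0 < wt β E B σ := Real.exp_pos _

theorem Zp_pos {V : Type} [Fintype V] [DecidableEq V] (β : ℝ) (E : Finset (V × V)) (B : V → ℝ) :
    0 < Zp β E B :=
  Finset.sum_pos (fun σ _ => wt_pos β E B σ) ⟨fun _ => true, Finset.mem_univ _⟩

theorem gb_pos {V : Type} [Fintype V] [DecidableEq V] (β : ℝ) (E : Finset (V × V)) (B : V → ℝ)
    (σ : V → Bool) : 0 < gb β E B σ := div_pos (wt_pos β E B σ) (Zp_pos β E B)

open Classical in
theorem gb_swap {V : Type} [Fintype V] [DecidableEq V] (β : ℝ) (E : Finset (V × V)) (B : V → ℝ)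
    (N : V → Prop) (S : Finset V)
    (hE : ∀ p ∈ E, (N p.1 → ¬ N p.2 → p.2 ∈ S) ∧ (N p.2 → ¬ N p.1 → p.1 ∈ S))
    (τ τ' : V → Bool) (h : ∀ v ∈ S, τ v = τ' v) :
    gb β E B (fun v => if N v then τ' v else τ v) *
      gb β E B (fun v => if N v then τ v else τ' v) = gb β E B τ * gb β E B τ' := by
  have hw : wt β E B (fun v => if N v then τ' v else τ v) *
      wt β E B (fun v => if N v then τ v else τ' v) = wt β E B τ * wt β E B τ' := by
    unfold wt
    rw [← Real.exp_add, ← Real.exp_add]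
    congr 1
    have h1 : ∑ p ∈ E, sp ((fun v => if N v then τ' v else τ v) p.1) *
          sp ((fun v => if N v then τ' v else τ v) p.2) +
        ∑ p ∈ E, sp ((fun v => if N v then τ v else τ' v) p.1) *
          sp ((fun v => if N v then τ v else τ' v) p.2) =
        ∑ p ∈ E, sp (τ p.1) * sp (τ p.2) + ∑ p ∈ E, sp (τ' p.1) * sp (τ' p.2) := by
      rw [← Finset.sum_add_distrib, ← Finset.sum_add_distrib]
      refine Finset.sum_congr rfl fun p hp => ?_
      obtain ⟨ha, hb⟩ := hE p hp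
      by_cases n1 : N p.1
      · by_cases n2 : N p.2
        · simp only [n1, n2, if_true]; ring
        · have := h _ (ha n1 n2)
          simp only [n1, n2, if_true, if_false, this]; ring
      · by_cases n2 : N p.2
        · have := h _ (hb n2 n1)
          simp only [n1, n2, if_true, if_false, this]; ring
        · simp only [n1, n2, if_false]
    have h2 : ∑ v, B v * sp ((fun v => if N v then τ' v else τ v) v) +
        ∑ v, B v * sp ((fun v => if N v then τ v else τ' v) v) =
        ∑ v, B v * sp (τ v) + ∑ v, B v * sp (τ' v) := by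
      rw [← Finset.sum_add_distrib, ← Finset.sum_add_distrib]
      refine Finset.sum_congr rfl fun v _ => ?_
      by_cases n1 : N v
      · simp only [n1, if_true]; ring
      · simp only [n1, if_false]
    linear_combination β * h1 + h2
  unfold gb
  rw [div_mul_div_comm, div_mul_div_comm, hw]

end E2aux

theorem taskE2 : TaskE2 := by
  classical
  intro V _ _ G β B x r Z Y hr hY
  obtain ⟨r', rfl⟩ : ∃ r', r = r' + 1 := ⟨r - 1, by omega⟩
  have hx0 : ∀ n, x ∈ bl G x n := by
    intro n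
    induction n with
    | zero => exact rfl
    | succ n ih => exact Or.inl ih
  have hsub : ∀ v, v ∈ bl G x r' → v ∈ bl G x (r' + 1) := fun v hv => Or.inl hv
  have hS : ∀ v, v ∈ sph G x (r' + 1) ↔ v ∈ bl G x (r' + 1) ∧ v ∉ bl G x r' := by
    intro v
    unfold sph
    rw [Finset.mem_filter]
    simp
  let N : V → Prop := fun v => v ∉ bl G x (r' + 1)
  let P := gb β (oe G) B
  have hP0 : ∀ σ, 0 < P σ := E2aux.gb_pos β (oe G) B
  have hE : ∀ p ∈ oe G, (N p.1 → ¬ N p.2 → p.2 ∈ sph G x (r' + 1)) ∧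
      (N p.2 → ¬ N p.1 → p.1 ∈ sph G x (r' + 1)) := by
    intro p hp
    have hadj : G.Adj p.1 p.2 := by
      unfold oe at hp
      exact (Finset.mem_filter.1 hp).2.2
    constructor
    · intro h1 h2
      rw [hS]
      refine ⟨not_not.1 h2, fun h3 => h1 (Or.inr ⟨p.2, h3, hadj.symm⟩)⟩
    · intro h1 h2
      rw [hS]
      refine ⟨not_not.1 h2, fun h3 => h1 (Or.inr ⟨p.1, h3, hadj⟩)⟩
  have hSN : ∀ v ∈ sph G x (r' + 1), ¬ N v := fun v hv => not_not.2 ((hS v).1 hv).1
  have main : ∀ A C : Finset V, (∀ v ∈ A, v ∈ bl G x r') → (∀ v ∈ C, v ∉ bl G x (r' + 1)) →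
      ent P (A ∪ sph G x (r' + 1) ∪ C) + ent P (sph G x (r' + 1)) =
        ent P (A ∪ sph G x (r' + 1)) + ent P (sph G x (r' + 1) ∪ C) := by
    intro A C hA hC
    refine E2aux.markov_ent P hP0 _ _ _ _ fun σ => ?_
    exact E2aux.markov P N _ A C (fun v hv => not_not.2 (hsub v (hA v hv))) hSN hC
      (fun τ τ' h => E2aux.gb_swap β (oe G) B N _ hE τ τ' h) σ
  set S := sph G x (r' + 1) with hSdef
  let A := Z.filter (fun v => v ∈ bl G x r')
  let C := Z.filter (fun v => v ∉ bl G x (r' + 1))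
  have hA : ∀ v ∈ A, v ∈ bl G x r' := fun v hv => (Finset.mem_filter.1 hv).2
  have hC : ∀ v ∈ C, v ∉ bl G x (r' + 1) := fun v hv => (Finset.mem_filter.1 hv).2
  have hxA : ∀ v ∈ insert x A, v ∈ bl G x r' := by
    intro v hv
    rcases Finset.mem_insert.1 hv with rfl | hv
    · exact hx0 r'
    · exact hA v hv
  have hCY : ∀ v ∈ C ∪ Y, v ∉ bl G x (r' + 1) := by
    intro v hv
    rcases Finset.mem_union.1 hv with hv | hv
    · exact hC v hv
    · exact hY v hv
  have e1 : Z ∪ S = A ∪ S ∪ C := by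
    ext v
    simp only [Finset.mem_union, A, C, Finset.mem_filter, hS]
    constructor
    · rintro (h | h)
      · by_cases h1 : v ∈ bl G x r'
        · exact Or.inl (Or.inl ⟨h, h1⟩)
        · by_cases h2 : v ∈ bl G x (r' + 1)
          · exact Or.inl (Or.inr ⟨h2, h1⟩)
          · exact Or.inr ⟨h, h2⟩
      · exact Or.inl (Or.inr h)
    · rintro ((h | h) | h)
      · exact Or.inl h.1
      · exact Or.inr h
      · exact Or.inl h.1
  have e2 : insert x (Z ∪ S) = insert x A ∪ S ∪ C := by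
    rw [e1, Finset.insert_union, Finset.insert_union]
  have e3 : Z ∪ S ∪ Y = A ∪ S ∪ (C ∪ Y) := by
    rw [e1, Finset.union_assoc]
  have e4 : insert x (Z ∪ S ∪ Y) = insert x A ∪ S ∪ (C ∪ Y) := by
    rw [e3, Finset.insert_union, Finset.insert_union]
  rw [e2, e4, e3, e1]
  have m1 := main A C hA hC
  have m2 := main (insert x A) C hxA hC
  have m3 := main A (C ∪ Y) hA hCY
  have m4 := main (insert x A) (C ∪ Y) hxA hCY
  change ent P _ + ent P _ = ent P _ + ent P _
  linarith

end H29I
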