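import Mathlib
import Pool.Agent.H29Ising.Stmts

/-! helper116: task E3 of project H29-ISING. -/

set_option autoImplicit false

namespace H29I
open Finset

namespace E3

variable {V : Type} [Fintype V] [DecidableEq V]

lemma marg_pos (P : (V → Bool) → ℝ) (hP : ∀ σ, 0 < P σ) (A : Finset V) (σ : V → Bool) :
    0 < marg P A σ := by
  unfold marg
  refine Finset.sum_pos' (fun τ _ => ?_) ⟨σ, Finset.mem_univ _, ?_⟩
  · split_ifs
    · exact (hP τ).le
    · exact le_rfl
  · rw [if_pos (fun v _ => rfl)]
    exact hP σ

lemma marg_congr (P : (V → Bool) → ℝ) (A : Finset V) {σ τ : V → Bool} (h : ∀ v ∈ A, σ v = τ v) :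
    marg P A σ = marg P A τ := by
  unfold marg
  refine Finset.sum_congr rfl fun ρ _ => ?_
  have : (∀ v ∈ A, ρ v = σ v) ↔ (∀ v ∈ A, ρ v = τ v) :=
    ⟨fun h2 v hv => (h2 v hv).trans (h v hv), fun h2 v hv => (h2 v hv).trans (h v hv).symm⟩
  by_cases hc : ∀ v ∈ A, ρ v = σ v
  · rw [if_pos hc, if_pos (this.1 hc)]
  · rw [if_neg hc, if_neg (fun h3 => hc (this.2 h3))]

lemma marg_insert (P : (V → Bool) → ℝ) (x : V) (A : Finset V) (hx : x ∉ A) (σ : V → Bool) :
    marg P A σ = ∑ s, marg P (insert x A) (Function.update σ x s) := by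
  unfold marg
  rw [Finset.sum_comm]
  refine Finset.sum_congr rfl fun τ _ => ?_
  have hc : ∀ s, (∀ v ∈ insert x A, τ v = Function.update σ x s v) ↔
      (τ x = s ∧ ∀ v ∈ A, τ v = σ v) := by
    intro s
    constructor
    · intro h
      refine ⟨by simpa using h x (Finset.mem_insert_self _ _), fun v hv => ?_⟩
      have h2 := h v (Finset.mem_insert_of_mem hv)
      have hne : v ≠ x := by
        rintro rfl
        exact hx hv
      rwa [Function.update_of_ne hne] at h2
    · rintro ⟨h1, h2⟩ v hv
      rcases Finset.mem_insert.1 hv with rfl | hv'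
      · simpa using h1
      · have hne : v ≠ x := by
          rintro rfl
          exact hx hv'
        rw [Function.update_of_ne hne]
        exact h2 v hv'
  have h3 : ∀ s, (if (∀ v ∈ insert x A, τ v = Function.update σ x s v) then P τ else 0) =
      if (τ x = s ∧ ∀ v ∈ A, τ v = σ v) then P τ else 0 := by
    intro s
    by_cases h : τ x = s ∧ ∀ v ∈ A, τ v = σ v
    · rw [if_pos h, if_pos ((hc s).2 h)]
    · rw [if_neg h, if_neg (fun h4 => h ((hc s).1 h4))]
  rw [Finset.sum_congr rfl fun s _ => h3 s]
  by_cases h : ∀ v ∈ A, τ v = σ v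
  · rw [if_pos h, Fintype.sum_bool]
    cases hτ : τ x
    · rw [if_neg (by simp), if_pos ⟨rfl, h⟩, zero_add]
    · rw [if_pos ⟨rfl, h⟩, if_neg (by simp), add_zero]
  · rw [if_neg h, Fintype.sum_bool]
    rw [if_neg (fun h4 => h h4.2), if_neg (fun h4 => h h4.2), add_zero]

lemma tower (P : (V → Bool) → ℝ) (hP : ∀ σ, 0 < P σ) (x y : V) (Z : Finset V) (hxy : x ≠ y)
    (hx : x ∉ Z) (hy : y ∉ Z) (F : (V → Bool) → ℝ)
    (hF : ∀ σ τ : V → Bool, (∀ v ∈ insert x (insert y Z), τ v = σ v) → F τ = F σ) :
    ∑ σ, P σ * F σ = ∑ σ, P σ / marg P Z σ * ∑ s, ∑ t,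
      marg P (insert x (insert y Z)) (Function.update (Function.update σ x s) y t) *
        F (Function.update (Function.update σ x s) y t) := by
  have h1 : ∀ ρ : V → Bool, marg P (insert x (insert y Z)) ρ * F ρ =
      marg (fun τ => P τ * F τ) (insert x (insert y Z)) ρ := by
    intro ρ
    unfold marg
    rw [Finset.sum_mul]
    refine Finset.sum_congr rfl fun τ _ => ?_
    by_cases h : ∀ v ∈ insert x (insert y Z), τ v = ρ v
    · rw [if_pos h, if_pos h]
      show P τ * F ρ = P τ * F τ
      rw [hF ρ τ h]
    · rw [if_neg h, if_neg h, zero_mul]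
  have hxyZ : y ∉ insert x Z := by
    rw [Finset.mem_insert]
    rintro (h | h)
    · exact hxy h.symm
    · exact hy h
  have h2 : ∀ σ : V → Bool, ∑ s, ∑ t,
      marg P (insert x (insert y Z)) (Function.update (Function.update σ x s) y t) *
        F (Function.update (Function.update σ x s) y t) = marg (fun τ => P τ * F τ) Z σ := by
    intro σ
    rw [marg_insert (fun τ => P τ * F τ) x Z hx σ]
    refine Finset.sum_congr rfl fun s _ => ?_
    rw [marg_insert (fun τ => P τ * F τ) y (insert x Z) hxyZ]
    refine Finset.sum_congr rfl fun t _ => ?_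
    rw [h1, Finset.insert_comm]
  have h22 : ∑ σ, P σ / marg P Z σ * ∑ s, ∑ t,
      marg P (insert x (insert y Z)) (Function.update (Function.update σ x s) y t) *
        F (Function.update (Function.update σ x s) y t) =
      ∑ σ, P σ / marg P Z σ * marg (fun τ => P τ * F τ) Z σ :=
    Finset.sum_congr rfl fun σ _ => by rw [h2 σ]
  rw [h22]
  have h3 : ∀ σ : V → Bool, P σ / marg P Z σ * marg (fun τ => P τ * F τ) Z σ =
      ∑ τ, (if (∀ v ∈ Z, σ v = τ v) then P σ else 0) / marg P Z τ * (P τ * F τ) := by
    intro σ
    rw [marg.eq_def (fun τ => P τ * F τ), Finset.mul_sum]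
    refine Finset.sum_congr rfl fun τ _ => ?_
    by_cases h : ∀ v ∈ Z, τ v = σ v
    · rw [if_pos h, if_pos (fun v hv => (h v hv).symm), marg_congr P Z h]
    · rw [if_neg h, if_neg (fun h4 => h (fun v hv => (h4 v hv).symm)), mul_zero, zero_div, zero_mul]
  rw [Finset.sum_congr rfl fun σ _ => h3 σ, Finset.sum_comm]
  refine Finset.sum_congr rfl fun τ _ => ?_
  rw [← Finset.sum_mul, ← Finset.sum_div]
  have h4 : ∑ σ, (if (∀ v ∈ Z, σ v = τ v) then P σ else 0) = marg P Z τ := rfl
  rw [h4, div_self (marg_pos P hP Z τ).ne', one_mul]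

lemma gb_pos (β : ℝ) (E : Finset (V × V)) (B : V → ℝ) (σ : V → Bool) : 0 < gb β E B σ := by
  unfold gb
  have h1 : ∀ σ, 0 < wt β E B σ := fun σ => Real.exp_pos _
  exact div_pos (h1 σ) (Finset.sum_pos (fun τ _ => h1 τ) ⟨σ, Finset.mem_univ _⟩)

end E3

open E3 in
theorem taskE3 : TaskE3 := by
  intro h3a h3b h3c β b d hβ
  obtain ⟨e, he0, he1, hc⟩ := h3c β b d hβ
  refine ⟨1 / e ^ 2 / 4, by positivity, ?_⟩
  intro V _ _ E B x y Z hE hd hB hxy
  set P := gb β E B with hPdef
  have hP : ∀ σ, 0 < P σ := gb_pos β E B
  -- covariance is nonnegative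
  have hcv : 0 ≤ cv β E B x y := by
    obtain ⟨h1, h2⟩ := h3b V β E B x y ∅ hβ hxy (Finset.notMem_empty _) (Finset.notMem_empty _)
    have h4 : 0 ≤ cv β E B x y / 4 := by
      refine le_trans (Finset.sum_nonneg fun σ _ => ?_) h2
      have hM := marg_pos P hP ∅ σ
      refine mul_nonneg (hP σ).le (div_nonneg ?_ hM.le)
      rw [sub_nonneg, div_le_iff₀ hM]
      exact h1 σ
    linarith
  by_cases hx : x ∈ Z
  · have : MI (ent P) x y Z = 0 := by
      unfold MI
      rw [Finset.insert_eq_of_mem hx, Finset.insert_eq_of_mem (Finset.mem_insert_of_mem hx)]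
      ring
    rw [this]
    positivity
  by_cases hy : y ∈ Z
  · have : MI (ent P) x y Z = 0 := by
      unfold MI
      rw [Finset.insert_eq_of_mem hy]
      ring
    rw [this]
    positivity
  obtain ⟨h1, h2⟩ := h3b V β E B x y Z hβ hxy hx hy
  have hyx : y ∉ insert x Z := by
    rw [Finset.mem_insert]
    rintro (h | h)
    · exact hxy h.symm
    · exact hy h
  have hxy' : x ∉ insert y Z := by
    rw [Finset.mem_insert]
    rintro (h | h)
    · exact hxy h
    · exact hx h
  let F : (V → Bool) → ℝ := fun σ => Real.log (marg P (insert x (insert y Z)) σ * marg P Z σ /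
    (marg P (insert x Z) σ * marg P (insert y Z) σ))
  have hMI : MI (ent P) x y Z = ∑ σ, P σ * F σ := by
    unfold MI ent
    rw [← sub_eq_zero]
    have h5 : ∀ a b c d f : ℝ, -a + -b - -c - -d - f = -(a + b - c - d + f) := by
      intros
      ring
    rw [h5, ← Finset.sum_add_distrib, ← Finset.sum_sub_distrib, ← Finset.sum_sub_distrib,
      ← Finset.sum_add_distrib, Finset.sum_eq_zero, neg_zero]
    intro σ _
    have m1 := marg_pos P hP (insert x (insert y Z)) σ
    have m2 := marg_pos P hP Z σ
    have m3 := marg_pos P hP (insert x Z) σ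
    have m4 := marg_pos P hP (insert y Z) σ
    have h6 : F σ = Real.log (marg P (insert x (insert y Z)) σ) + Real.log (marg P Z σ) -
        (Real.log (marg P (insert x Z) σ) + Real.log (marg P (insert y Z) σ)) := by
      show Real.log _ = _
      rw [Real.log_div (by positivity) (by positivity), Real.log_mul m1.ne' m2.ne',
        Real.log_mul m3.ne' m4.ne']
    rw [h6]
    ring
  have hloc : ∀ σ τ : V → Bool, (∀ v ∈ insert x (insert y Z), τ v = σ v) → F τ = F σ := by
    intro σ τ h
    show Real.log _ = Real.log _
    rw [marg_congr P (insert x (insert y Z)) h,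
      marg_congr P Z (fun v hv => h v (Finset.mem_insert_of_mem (Finset.mem_insert_of_mem hv))),
      marg_congr P (insert y Z) (fun v hv => h v (Finset.mem_insert_of_mem hv)),
      marg_congr P (insert x Z) (fun v hv => h v (by
        rcases Finset.mem_insert.1 hv with rfl | hv
        · exact Finset.mem_insert_self _ _
        · exact Finset.mem_insert_of_mem (Finset.mem_insert_of_mem hv)))]
  rw [hMI, tower P hP x y Z hxy hx hy F hloc]
  have key : ∀ σ : V → Bool, ∑ s, ∑ t,
      marg P (insert x (insert y Z)) (Function.update (Function.update σ x s) y t) *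
        F (Function.update (Function.update σ x s) y t) ≤
      (1 / e ^ 2) * (marg P (insert x (insert y Z))
        (Function.update (Function.update σ x true) y true) -
      marg P (insert x Z) (Function.update σ x true) *
      marg P (insert y Z) (Function.update σ y true) / marg P Z σ) := by
    intro σ
    let p : Bool → Bool → ℝ := fun s t =>
      marg P (insert x (insert y Z)) (Function.update (Function.update σ x s) y t)
    have hrow : ∀ s, ∑ t, p s t = marg P (insert x Z) (Function.update σ x s) := by
      intro s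
      rw [marg_insert P y (insert x Z) hyx, Finset.insert_comm]
    have hcol : ∀ t, ∑ s, p s t = marg P (insert y Z) (Function.update σ y t) := by
      intro t
      rw [marg_insert P x (insert y Z) hxy']
      refine Finset.sum_congr rfl fun s _ => ?_
      rw [Function.update_comm hxy.symm]
    have hS : marg P Z σ = ∑ s, ∑ t, p s t := by
      rw [marg_insert P x Z hx]
      exact Finset.sum_congr rfl fun s _ => (hrow s).symm
    have hE3a := h3a e p (marg P Z σ) he0 (fun s t => marg_pos P hP _ _) hS
      (fun s => by
        rw [hrow]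
        exact hc V E B x Z σ s hE hd hB hx)
      (fun t => by
        rw [hcol]
        exact hc V E B y Z σ t hE hd hB hy)
      (by
        rw [hrow, hcol]
        exact h1 σ)
    rw [hrow, hcol] at hE3a
    refine le_trans (le_of_eq ?_) hE3a
    refine Finset.sum_congr rfl fun s _ => Finset.sum_congr rfl fun t _ => ?_
    have e1 : marg P Z (Function.update (Function.update σ x s) y t) = marg P Z σ := by
      refine marg_congr P Z fun v hv => ?_
      have hne : v ≠ x := by
        rintro rfl
        exact hx hv
      have hne' : v ≠ y := by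
        rintro rfl
        exact hy hv
      rw [Function.update_of_ne hne', Function.update_of_ne hne]
    have e2 : marg P (insert x Z) (Function.update (Function.update σ x s) y t) = ∑ t', p s t' := by
      rw [hrow]
      refine marg_congr P _ fun v hv => ?_
      have hne' : v ≠ y := by
        rintro rfl
        exact hyx hv
      rw [Function.update_of_ne hne']
    have e3 : marg P (insert y Z) (Function.update (Function.update σ x s) y t) = ∑ s', p s' t := by
      rw [hcol, Function.update_comm hxy]
      refine marg_congr P _ fun v hv => ?_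
      have hne : v ≠ x := by
        rintro rfl
        exact hxy' hv
      rw [Function.update_of_ne hne]
    show p s t * Real.log _ = p s t * Real.log _
    rw [e1, e2, e3]
  calc ∑ σ, P σ / marg P Z σ * ∑ s, ∑ t,
      marg P (insert x (insert y Z)) (Function.update (Function.update σ x s) y t) *
        F (Function.update (Function.update σ x s) y t)
      ≤ ∑ σ, (1 / e ^ 2) * (P σ * ((marg P (insert x (insert y Z))
        (Function.update (Function.update σ x true) y true) -
      marg P (insert x Z) (Function.update σ x true) *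
      marg P (insert y Z) (Function.update σ y true) / marg P Z σ) / marg P Z σ)) := by
        refine Finset.sum_le_sum fun σ _ => ?_
        have hM := marg_pos P hP Z σ
        refine (mul_le_mul_of_nonneg_left (key σ) (div_nonneg (hP σ).le hM.le)).trans (le_of_eq ?_)
        ring
    _ = (1 / e ^ 2) * ∑ σ, P σ * ((marg P (insert x (insert y Z))
        (Function.update (Function.update σ x true) y true) -
      marg P (insert x Z) (Function.update σ x true) *
      marg P (insert y Z) (Function.update σ y true) / marg P Z σ) / marg P Z σ) := by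
        rw [Finset.mul_sum]
    _ ≤ (1 / e ^ 2) * (cv β E B x y / 4) := mul_le_mul_of_nonneg_left h2 (by positivity)
    _ = 1 / e ^ 2 / 4 * cv β E B x y := by ring

end H29I
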