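import Pool.Agent.H29Ising.Stmts

/-! Task E3a of the project H29-ISING (helper99). -/

set_option autoImplicit false

namespace H29I

private lemma aux_log {p y : ℝ} (hp : 0 < p) (hy : 0 < y) : p * Real.log y ≤ p * (y - 1) :=
  mul_le_mul_of_nonneg_left (Real.log_le_sub_one_of_pos hy) hp.le

private lemma aux_main (e a b c d : ℝ) (he : 0 < e) (ha : 0 < a) (hb : 0 < b) (hc : 0 < c)
    (hd : 0 < d) (hr0 : e * (a + b + (c + d)) ≤ c + d) (hc1 : e * (a + b + (c + d)) ≤ a + c)
    (hK : (a + b) * (a + c) ≤ a * (a + b + (c + d))) :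
    a * Real.log (a * (a + b + (c + d)) / ((a + b) * (a + c))) +
      b * Real.log (b * (a + b + (c + d)) / ((a + b) * (b + d))) +
      (c * Real.log (c * (a + b + (c + d)) / ((c + d) * (a + c))) +
      d * Real.log (d * (a + b + (c + d)) / ((c + d) * (b + d)))) ≤
    (1 / e ^ 2) * (a - (a + b) * (a + c) / (a + b + (c + d))) := by
  set S := a + b + (c + d) with hS
  have hS0 : 0 < S := by rw [hS]; positivity
  set r1 := a + b with hr1
  set r0 := c + d with hr00
  set c1 := a + c with hc11
  set c0 := b + d with hc00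
  have h1 : 0 < r1 := by rw [hr1]; positivity
  have h2 : 0 < r0 := by rw [hr00]; positivity
  have h3 : 0 < c1 := by rw [hc11]; positivity
  have h4 : 0 < c0 := by rw [hc00]; positivity
  have l1 := aux_log ha (show 0 < a * S / (r1 * c1) by positivity)
  have l2 := aux_log hb (show 0 < b * S / (r1 * c0) by positivity)
  have l3 := aux_log hc (show 0 < c * S / (r0 * c1) by positivity)
  have l4 := aux_log hd (show 0 < d * S / (r0 * c0) by positivity)
  have key : a * (a * S / (r1 * c1) - 1) + b * (b * S / (r1 * c0) - 1) +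
      (c * (c * S / (r0 * c1) - 1) + d * (d * S / (r0 * c0) - 1)) =
      (a * d - b * c) ^ 2 * S / (r1 * r0 * (c1 * c0)) := by
    rw [hS, hr1, hr00, hc11, hc00]
    field_simp
    ring
  have hK0 : 0 ≤ a * d - b * c := by
    have : a * S - r1 * c1 = a * d - b * c := by rw [hS, hr1, hc11, hr00]; ring
    linarith
  have e1 : a - r1 * c1 / S = (a * d - b * c) / S := by
    field_simp
    rw [hS, hr1, hc11, hr00]; ring
  rw [e1]
  refine (add_le_add (add_le_add l1 l2) (add_le_add l3 l4)).trans ?_
  rw [key]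
  have hK1 : a * d - b * c ≤ r1 * c0 := by
    rw [hr1, hc00]; nlinarith [mul_pos ha hb, mul_pos hb hc, mul_pos hb hd, mul_pos hb hb]
  have hE : e ^ 2 * S ^ 2 ≤ r0 * c1 := by
    have : (e * S) * (e * S) ≤ r0 * c1 := mul_le_mul hr0 hc1 (by positivity) h2.le
    nlinarith
  have h5 : (a * d - b * c) ^ 2 * S / (r1 * r0 * (c1 * c0)) ≤
      (a * d - b * c) * (r1 * c0) * S / (r1 * r0 * (c1 * c0)) := by
    apply div_le_div_of_nonneg_right _ (by positivity)
    apply mul_le_mul_of_nonneg_right _ hS0.le
    rw [sq]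
    exact mul_le_mul_of_nonneg_left hK1 hK0
  refine h5.trans ?_
  have h6 : (a * d - b * c) * (r1 * c0) * S / (r1 * r0 * (c1 * c0)) =
      (a * d - b * c) * (S / (r0 * c1)) := by
    field_simp
  rw [h6]
  have h7 : S / (r0 * c1) ≤ 1 / (e ^ 2 * S) := by
    rw [div_le_div_iff₀ (by positivity) (by positivity)]
    nlinarith
  calc (a * d - b * c) * (S / (r0 * c1)) ≤ (a * d - b * c) * (1 / (e ^ 2 * S)) :=
        mul_le_mul_of_nonneg_left h7 hK0
    _ = 1 / e ^ 2 * ((a * d - b * c) / S) := by field_simp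

theorem taskE3a : TaskE3a := by
  intro e p S he hp hS hr hc hK
  subst hS
  have hr0 := hr false
  have hc1 := hc true
  simp only [Fintype.sum_bool] at hr0 hc1 hK ⊢
  have := aux_main e (p true true) (p true false) (p false true) (p false false) he
    (hp _ _) (hp _ _) (hp _ _) (hp _ _) hr0 hc1 hK
  exact this

end H29I
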