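import Mathlib
import Pool.Agent.H29Ising.Stmts

open Finset

namespace H29I

namespace E3bAux

variable {V : Type} [Fintype V] [DecidableEq V]

/-- indicator of `τ x = true` -/
def ind (x : V) (τ : V → Bool) : ℝ := if τ x = true then 1 else 0

/-- restricted sum -/
def rs (P : (V → Bool) → ℝ) (Z : Finset V) (σ : V → Bool) (φ : (V → Bool) → ℝ) : ℝ :=
  ∑ τ : V → Bool, (if (∀ v ∈ Z, τ v = σ v) then P τ else 0) * φ τ

lemma ind_nonneg (x : V) (τ : V → Bool) : 0 ≤ ind x τ := by
  unfold ind; split_ifs <;> norm_num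

lemma ind_mono (x : V) : Monotone (ind x) := by
  intro a b hab
  have h := hab x
  unfold ind
  by_cases h1 : a x = true
  · have h2 : b x = true := by
      rw [h1] at h
      exact top_le_iff.1 h
    simp [h1, h2]
  · rw [if_neg h1]
    by_cases h2 : b x = true
    · rw [if_pos h2]; exact zero_le_one
    · rw [if_neg h2]

lemma marg_x (P : (V → Bool) → ℝ) {x : V} {Z : Finset V} (hx : x ∉ Z) (σ : V → Bool) :
    marg P (insert x Z) (Function.update σ x true) = rs P Z σ (ind x) := by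
  unfold marg rs ind
  refine Finset.sum_congr rfl fun τ _ => ?_
  have hiff : (∀ v ∈ insert x Z, τ v = Function.update σ x true v) ↔
      ((∀ v ∈ Z, τ v = σ v) ∧ τ x = true) := by
    constructor
    · intro h
      refine ⟨fun v hv => ?_, ?_⟩
      · have := h v (Finset.mem_insert_of_mem hv)
        rwa [Function.update_of_ne (by rintro rfl; exact hx hv)] at this
      · have := h x (Finset.mem_insert_self _ _)
        rwa [Function.update_self] at this
    · rintro ⟨h1, h2⟩ v hv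
      rcases Finset.mem_insert.1 hv with rfl | hv'
      · rw [Function.update_self]; exact h2
      · rw [Function.update_of_ne (by rintro rfl; exact hx hv')]; exact h1 v hv'
  by_cases h1 : ∀ v ∈ Z, τ v = σ v
  · by_cases h2 : τ x = true
    · rw [if_pos (hiff.2 ⟨h1, h2⟩), if_pos h1, if_pos h2, mul_one]
    · rw [if_neg (fun h => h2 (hiff.1 h).2), if_neg h2, mul_zero]
  · rw [if_neg (fun h => h1 (hiff.1 h).1), if_neg h1, zero_mul]

lemma marg_xy (P : (V → Bool) → ℝ) {x y : V} {Z : Finset V} (hxy : x ≠ y) (hx : x ∉ Z)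
    (hy : y ∉ Z) (σ : V → Bool) :
    marg P (insert x (insert y Z)) (Function.update (Function.update σ x true) y true) =
      rs P Z σ (fun τ => ind x τ * ind y τ) := by
  unfold marg rs ind
  refine Finset.sum_congr rfl fun τ _ => ?_
  have hiff : (∀ v ∈ insert x (insert y Z), τ v =
      Function.update (Function.update σ x true) y true v) ↔
      ((∀ v ∈ Z, τ v = σ v) ∧ τ x = true ∧ τ y = true) := by
    constructor
    · intro h
      refine ⟨fun v hv => ?_, ?_, ?_⟩
      · have := h v (Finset.mem_insert_of_mem (Finset.mem_insert_of_mem hv))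
        rwa [Function.update_of_ne (by rintro rfl; exact hy hv),
          Function.update_of_ne (by rintro rfl; exact hx hv)] at this
      · have := h x (Finset.mem_insert_self _ _)
        rwa [Function.update_of_ne hxy, Function.update_self] at this
      · have := h y (Finset.mem_insert_of_mem (Finset.mem_insert_self _ _))
        rwa [Function.update_self] at this
    · rintro ⟨h1, h2, h3⟩ v hv
      rcases Finset.mem_insert.1 hv with rfl | hv'
      · rw [Function.update_of_ne hxy, Function.update_self]; exact h2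
      · rcases Finset.mem_insert.1 hv' with rfl | hv''
        · rw [Function.update_self]; exact h3
        · rw [Function.update_of_ne (by rintro rfl; exact hy hv''),
            Function.update_of_ne (by rintro rfl; exact hx hv'')]
          exact h1 v hv''
  beta_reduce
  by_cases h1 : ∀ v ∈ Z, τ v = σ v
  · by_cases h2 : τ x = true
    · by_cases h3 : τ y = true
      · rw [if_pos (hiff.2 ⟨h1, h2, h3⟩), if_pos h1, if_pos h2, if_pos h3, mul_one, mul_one]
      · rw [if_neg (fun h => h3 (hiff.1 h).2.2), if_neg h3, mul_zero, mul_zero]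
    · rw [if_neg (fun h => h2 (hiff.1 h).2.1), if_neg h2, zero_mul, mul_zero]
  · rw [if_neg (fun h => h1 (hiff.1 h).1), if_neg h1, zero_mul]

lemma marg_eq (P : (V → Bool) → ℝ) (Z : Finset V) (σ : V → Bool) :
    marg P Z σ = rs P Z σ (fun _ => 1) := by
  unfold marg rs
  simp only [mul_one]

lemma rs_congr (P : (V → Bool) → ℝ) (Z : Finset V) {σ τ : V → Bool} (h : ∀ v ∈ Z, τ v = σ v)
    (φ : (V → Bool) → ℝ) : rs P Z τ φ = rs P Z σ φ := by
  unfold rs
  refine Finset.sum_congr rfl fun ρ _ => ?_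
  have : (∀ v ∈ Z, ρ v = τ v) ↔ (∀ v ∈ Z, ρ v = σ v) :=
    forall₂_congr fun v hv => by rw [h v hv]
  simp only [this]

lemma rs_pos {P : (V → Bool) → ℝ} (hP : ∀ σ, 0 < P σ) (Z : Finset V) (σ : V → Bool) :
    0 < rs P Z σ (fun _ => 1) := by
  unfold rs
  refine Finset.sum_pos' (fun τ _ => ?_) ⟨σ, Finset.mem_univ _, ?_⟩
  · split_ifs
    · rw [mul_one]; exact (hP τ).le
    · simp
  · rw [if_pos (fun _ _ => rfl), mul_one]; exact hP σ

lemma rs_nonneg {P : (V → Bool) → ℝ} (hP : ∀ σ, 0 < P σ) (Z : Finset V) (σ : V → Bool)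
    {φ : (V → Bool) → ℝ} (hφ : ∀ τ, 0 ≤ φ τ) : 0 ≤ rs P Z σ φ := by
  unfold rs
  refine Finset.sum_nonneg fun τ _ => ?_
  refine mul_nonneg ?_ (hφ τ)
  split_ifs
  · exact (hP τ).le
  · exact le_rfl

/-- total expectation -/
lemma total {P : (V → Bool) → ℝ} (hP : ∀ σ, 0 < P σ) (Z : Finset V) (φ : (V → Bool) → ℝ) :
    ∑ σ, P σ * (rs P Z σ φ / rs P Z σ (fun _ => 1)) = ∑ τ, P τ * φ τ := by
  have h1 : ∀ σ, P σ * (rs P Z σ φ / rs P Z σ (fun _ => 1)) =
      ∑ τ, P σ * (((if (∀ v ∈ Z, τ v = σ v) then P τ else 0) * φ τ) /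
        rs P Z σ (fun _ => 1)) := by
    intro σ
    rw [← Finset.mul_sum, ← Finset.sum_div]; rfl
  rw [Finset.sum_congr rfl fun σ _ => h1 σ]
  rw [Finset.sum_comm]
  refine Finset.sum_congr rfl fun τ _ => ?_
  have h2 : ∀ σ, P σ * (((if (∀ v ∈ Z, τ v = σ v) then P τ else 0) * φ τ) /
        rs P Z σ (fun _ => 1)) =
      (P τ * φ τ / rs P Z τ (fun _ => 1)) * ((if (∀ v ∈ Z, σ v = τ v) then P σ else 0) * 1) := by
    intro σ
    by_cases h : ∀ v ∈ Z, τ v = σ v
    · have h' : ∀ v ∈ Z, σ v = τ v := fun v hv => (h v hv).symm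
      rw [if_pos h, if_pos h', rs_congr P Z h']
      ring
    · have h' : ¬ ∀ v ∈ Z, σ v = τ v := fun h'' => h fun v hv => (h'' v hv).symm
      rw [if_neg h, if_neg h']
      ring
  rw [Finset.sum_congr rfl fun σ _ => h2 σ]
  rw [← Finset.mul_sum]
  have h3 : ∑ σ, (if (∀ v ∈ Z, σ v = τ v) then P σ else 0) * 1 = rs P Z τ (fun _ => 1) := rfl
  rw [h3, div_mul_cancel₀ _ (rs_pos hP Z τ).ne']

/-- FKG for the restricted measure -/
lemma fkg_rs {P : (V → Bool) → ℝ} (hP : ∀ σ, 0 < P σ)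
    (hls : ∀ a b, P a * P b ≤ P (a ⊓ b) * P (a ⊔ b)) (Z : Finset V) (σ : V → Bool)
    (x y : V) : rs P Z σ (ind x) * rs P Z σ (ind y) ≤
      rs P Z σ (fun _ => 1) * rs P Z σ (fun τ => ind x τ * ind y τ) := by
  have h := fkg (μ := fun τ => if (∀ v ∈ Z, τ v = σ v) then P τ else 0) (f := ind x) (g := ind y)
    (fun τ => by
      simp only [Pi.zero_apply]
      split_ifs
      · exact (hP τ).le
      · exact le_rfl)
    (fun τ => ind_nonneg x τ) (fun τ => ind_nonneg y τ) (ind_mono x) (ind_mono y)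
    (fun a b => by
      by_cases ha : ∀ v ∈ Z, a v = σ v
      · by_cases hb : ∀ v ∈ Z, b v = σ v
        · have h1 : ∀ v ∈ Z, (a ⊓ b) v = σ v := fun v hv => by
            rw [Pi.inf_apply, ha v hv, hb v hv, inf_idem]
          have h2 : ∀ v ∈ Z, (a ⊔ b) v = σ v := fun v hv => by
            rw [Pi.sup_apply, ha v hv, hb v hv, sup_idem]
          rw [if_pos ha, if_pos hb, if_pos h1, if_pos h2]
          exact hls a b
        · rw [if_neg hb, mul_zero]
          refine mul_nonneg ?_ ?_ <;> split_ifs <;> first | exact (hP _).le | exact le_rfl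
      · rw [if_neg ha, zero_mul]
        refine mul_nonneg ?_ ?_ <;> split_ifs <;> first | exact (hP _).le | exact le_rfl)
  have e : rs P Z σ (fun _ => 1) = ∑ τ : V → Bool, (if (∀ v ∈ Z, τ v = σ v) then P τ else 0) := by
    unfold rs; simp only [mul_one]
  rw [e]
  exact h

/-- monotonicity of the conditional probability -/
lemma mono_rs {P : (V → Bool) → ℝ} (hP : ∀ σ, 0 < P σ)
    (hls : ∀ a b, P a * P b ≤ P (a ⊓ b) * P (a ⊔ b)) (Z : Finset V) (x : V) :
    Monotone fun σ => rs P Z σ (ind x) / rs P Z σ (fun _ => 1) := by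
  intro σ σ' hσ
  simp only
  rw [div_le_div_iff₀ (rs_pos hP Z σ) (rs_pos hP Z σ')]
  have hnn : ∀ (ρ τ : V → Bool), 0 ≤ (if (∀ v ∈ Z, τ v = ρ v) then P τ else 0) := by
    intro ρ τ
    split_ifs
    · exact (hP τ).le
    · exact le_rfl
  have h := four_functions_theorem_univ
    (fun τ => (if (∀ v ∈ Z, τ v = σ v) then P τ else 0) * ind x τ)
    (fun τ => (if (∀ v ∈ Z, τ v = σ' v) then P τ else 0) * 1)
    (fun τ => (if (∀ v ∈ Z, τ v = σ v) then P τ else 0) * 1)
    (fun τ => (if (∀ v ∈ Z, τ v = σ' v) then P τ else 0) * ind x τ)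
    (fun τ => mul_nonneg (hnn _ _) (ind_nonneg _ _)) (fun τ => mul_nonneg (hnn _ _) zero_le_one)
    (fun τ => mul_nonneg (hnn _ _) zero_le_one) (fun τ => mul_nonneg (hnn _ _) (ind_nonneg _ _))
    (fun a b => by
      simp only [mul_one]
      by_cases ha : ∀ v ∈ Z, a v = σ v
      · by_cases hb : ∀ v ∈ Z, b v = σ' v
        · have h1 : ∀ v ∈ Z, (a ⊓ b) v = σ v := fun v hv => by
            rw [Pi.inf_apply, ha v hv, hb v hv, inf_eq_left.2 (hσ v)]
          have h2 : ∀ v ∈ Z, (a ⊔ b) v = σ' v := fun v hv => by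
            rw [Pi.sup_apply, ha v hv, hb v hv, sup_eq_right.2 (hσ v)]
          rw [if_pos ha, if_pos hb, if_pos h1, if_pos h2]
          calc P a * ind x a * P b = (P a * P b) * ind x a := by ring
            _ ≤ (P (a ⊓ b) * P (a ⊔ b)) * ind x (a ⊔ b) :=
                mul_le_mul (hls a b) (ind_mono x le_sup_left) (ind_nonneg _ _)
                  (mul_nonneg (hP _).le (hP _).le)
            _ = _ := by ring
        · rw [if_neg hb, mul_zero]
          exact mul_nonneg (hnn _ _) (mul_nonneg (hnn _ _) (ind_nonneg _ _))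
      · rw [if_neg ha, zero_mul, zero_mul]
        exact mul_nonneg (hnn _ _) (mul_nonneg (hnn _ _) (ind_nonneg _ _)))
  calc rs P Z σ (ind x) * rs P Z σ' (fun _ => 1)
      ≤ rs P Z σ (fun _ => 1) * rs P Z σ' (ind x) := h
    _ = _ := mul_comm _ _

lemma wt_pos (β : ℝ) (E : Finset (V × V)) (B : V → ℝ) (σ : V → Bool) : 0 < wt β E B σ :=
  Real.exp_pos _

lemma Zp_pos (β : ℝ) (E : Finset (V × V)) (B : V → ℝ) : 0 < Zp β E B :=
  Finset.sum_pos (fun σ _ => wt_pos β E B σ) Finset.univ_nonempty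

lemma gb_pos (β : ℝ) (E : Finset (V × V)) (B : V → ℝ) (σ : V → Bool) : 0 < gb β E B σ :=
  div_pos (wt_pos β E B σ) (Zp_pos β E B)

lemma gb_sum (β : ℝ) (E : Finset (V × V)) (B : V → ℝ) : ∑ σ, gb β E B σ = 1 := by
  unfold gb
  rw [← Finset.sum_div]
  exact div_self (Zp_pos β E B).ne'

lemma sp_super (a b a' b' : Bool) :
    sp a * sp b + sp a' * sp b' ≤ sp (a ⊓ a') * sp (b ⊓ b') + sp (a ⊔ a') * sp (b ⊔ b') := by
  cases a <;> cases b <;> cases a' <;> cases b' <;> norm_num [sp]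

lemma sp_mod (a b : Bool) : sp a + sp b = sp (a ⊓ b) + sp (a ⊔ b) := by
  cases a <;> cases b <;> norm_num [sp]

lemma gb_ls {β : ℝ} (hβ : 0 ≤ β) (E : Finset (V × V)) (B : V → ℝ) (a b : V → Bool) :
    gb β E B a * gb β E B b ≤ gb β E B (a ⊓ b) * gb β E B (a ⊔ b) := by
  unfold gb
  rw [div_mul_div_comm, div_mul_div_comm]
  refine div_le_div_of_nonneg_right ?_ (mul_nonneg (Zp_pos β E B).le (Zp_pos β E B).le)
  unfold wt
  rw [← Real.exp_add, ← Real.exp_add]
  apply Real.exp_le_exp.2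
  have h1 : (∑ p ∈ E, sp (a p.1) * sp (a p.2)) + ∑ p ∈ E, sp (b p.1) * sp (b p.2) ≤
      (∑ p ∈ E, sp ((a ⊓ b) p.1) * sp ((a ⊓ b) p.2)) +
        ∑ p ∈ E, sp ((a ⊔ b) p.1) * sp ((a ⊔ b) p.2) := by
    rw [← Finset.sum_add_distrib, ← Finset.sum_add_distrib]
    exact Finset.sum_le_sum fun p _ => sp_super _ _ _ _
  have h2 : (∑ v, B v * sp (a v)) + ∑ v, B v * sp (b v) =
      (∑ v, B v * sp ((a ⊓ b) v)) + ∑ v, B v * sp ((a ⊔ b) v) := by
    rw [← Finset.sum_add_distrib, ← Finset.sum_add_distrib]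
    refine Finset.sum_congr rfl fun v _ => ?_
    have := sp_mod (a v) (b v)
    rw [Pi.inf_apply, Pi.sup_apply]
    linear_combination B v * this
  have h3 := mul_le_mul_of_nonneg_left h1 hβ
  linarith

lemma cv_eq (β : ℝ) (E : Finset (V × V)) (B : V → ℝ) (x y : V) :
    cv β E B x y / 4 = (∑ σ, gb β E B σ * (ind x σ * ind y σ)) -
      (∑ σ, gb β E B σ * ind x σ) * ∑ σ, gb β E B σ * ind y σ := by
  have hs : ∀ (v : V) (σ : V → Bool), sp (σ v) = 2 * ind v σ - 1 := by
    intro v σ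
    unfold sp ind
    cases σ v <;> norm_num
  have hm : ∀ v, mag β E B v = 2 * (∑ σ, gb β E B σ * ind v σ) - 1 := by
    intro v
    unfold mag
    have : ∀ σ, gb β E B σ * sp (σ v) = 2 * (gb β E B σ * ind v σ) - gb β E B σ := by
      intro σ; rw [hs]; ring
    simp only [this]
    rw [Finset.sum_sub_distrib, ← Finset.mul_sum, gb_sum]
  have hxy : ∑ σ : V → Bool, gb β E B σ * (sp (σ x) * sp (σ y)) =
      4 * (∑ σ, gb β E B σ * (ind x σ * ind y σ)) - 2 * (∑ σ, gb β E B σ * ind x σ) -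
        2 * (∑ σ, gb β E B σ * ind y σ) + 1 := by
    have : ∀ σ, gb β E B σ * (sp (σ x) * sp (σ y)) =
        4 * (gb β E B σ * (ind x σ * ind y σ)) - 2 * (gb β E B σ * ind x σ) -
          2 * (gb β E B σ * ind y σ) + gb β E B σ := by
      intro σ; rw [hs, hs]; ring
    simp only [this]
    rw [Finset.sum_add_distrib, Finset.sum_sub_distrib, Finset.sum_sub_distrib,
      ← Finset.mul_sum, ← Finset.mul_sum, ← Finset.mul_sum, gb_sum]
  unfold cv
  rw [hxy, hm, hm]
  ring

end E3bAux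

open E3bAux

theorem taskE3b : TaskE3b := by
  intro V _ _ β E B x y Z hβ hxy hx hy
  have hP := gb_pos β E B
  have hls := gb_ls hβ E B
  refine ⟨?_, ?_⟩
  · intro σ
    rw [marg_x _ hx, marg_x _ hy, marg_xy _ hxy hx hy, marg_eq, mul_comm (rs _ Z σ fun τ =>
      ind x τ * ind y τ)]
    exact fkg_rs hP hls Z σ x y
  · simp only [marg_x _ hx, marg_x _ hy, marg_xy _ hxy hx hy, marg_eq]
    have e1 : ∀ σ, gb β E B σ * ((rs (gb β E B) Z σ (fun τ => ind x τ * ind y τ) -
        rs (gb β E B) Z σ (ind x) * rs (gb β E B) Z σ (ind y) / rs (gb β E B) Z σ (fun _ => 1)) /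
          rs (gb β E B) Z σ (fun _ => 1)) =
        gb β E B σ * (rs (gb β E B) Z σ (fun τ => ind x τ * ind y τ) /
          rs (gb β E B) Z σ (fun _ => 1)) -
        gb β E B σ * ((rs (gb β E B) Z σ (ind x) / rs (gb β E B) Z σ (fun _ => 1)) *
          (rs (gb β E B) Z σ (ind y) / rs (gb β E B) Z σ (fun _ => 1))) := by
      intro σ
      have := (rs_pos hP Z σ).ne'
      field_simp
    rw [Finset.sum_congr rfl fun σ _ => e1 σ, Finset.sum_sub_distrib, total hP Z, cv_eq]
    have hf := fkg (μ := gb β E B)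
      (f := fun σ => rs (gb β E B) Z σ (ind x) / rs (gb β E B) Z σ (fun _ => 1))
      (g := fun σ => rs (gb β E B) Z σ (ind y) / rs (gb β E B) Z σ (fun _ => 1))
      (fun σ => (hP σ).le)
      (fun σ => div_nonneg (rs_nonneg hP Z σ (ind_nonneg x)) (rs_pos hP Z σ).le)
      (fun σ => div_nonneg (rs_nonneg hP Z σ (ind_nonneg y)) (rs_pos hP Z σ).le)
      (mono_rs hP hls Z x) (mono_rs hP hls Z y) hls
    simp only at hf
    rw [total hP Z, total hP Z, gb_sum, one_mul] at hf
    linarith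

end H29I
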