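import Pool.Agent.H29Ising.Stmts

set_option autoImplicit false

namespace H29I
open Finset

namespace E3cH62

theorem sp_abs (b : Bool) : |sp b| = 1 := by
  cases b <;> simp [sp]

theorem sp_mul_le (a b : Bool) : sp a * sp b ≤ 1 := by
  cases a <;> cases b <;> simp [sp]

theorem neg_sp_mul_le (a b : Bool) : -1 ≤ sp a * sp b := by
  cases a <;> cases b <;> simp [sp]

variable {V : Type} [Fintype V] [DecidableEq V]

/-- flip the spin at `x` -/
def fl (x : V) (τ : V → Bool) : V → Bool := Function.update τ x (!τ x)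

theorem fl_fl (x : V) (τ : V → Bool) : fl x (fl x τ) = τ := by
  funext v
  by_cases h : v = x
  · subst h; simp [fl]
  · simp [fl, h]

def flEquiv (x : V) : (V → Bool) ≃ (V → Bool) where
  toFun := fl x
  invFun := fl x
  left_inv := fl_fl x
  right_inv := fl_fl x

theorem fl_same (x : V) (τ : V → Bool) : fl x τ x = !τ x := by simp [fl]

theorem fl_ne (x : V) (τ : V → Bool) {v : V} (h : v ≠ x) : fl x τ v = τ v := by simp [fl, h]

theorem wt_fl_le (β b : ℝ) (d : ℕ) (hβ : 0 ≤ β) (E : Finset (V × V)) (B : V → ℝ) (x : V)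
    (hd : dE E x ≤ d) (hB : |B x| ≤ b) (τ : V → Bool) :
    wt β E B (fl x τ) ≤ Real.exp (2 * (β * d + b)) * wt β E B τ := by
  unfold wt
  rw [← Real.exp_add]
  apply Real.exp_le_exp.2
  have h1 : ∑ p ∈ E, sp (fl x τ p.1) * sp (fl x τ p.2) ≤
      ∑ p ∈ E, sp (τ p.1) * sp (τ p.2) + 2 * d := by
    have h2 : ∑ p ∈ E, sp (fl x τ p.1) * sp (fl x τ p.2) ≤
        ∑ p ∈ E, (sp (τ p.1) * sp (τ p.2) + if (p.1 = x ∨ p.2 = x) then 2 else 0) := by
      apply Finset.sum_le_sum
      intro p _
      by_cases h : p.1 = x ∨ p.2 = x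
      · rw [if_pos h]
        have := sp_mul_le (fl x τ p.1) (fl x τ p.2)
        have := neg_sp_mul_le (τ p.1) (τ p.2)
        linarith
      · rw [if_neg h]
        push Not at h
        rw [fl_ne x τ h.1, fl_ne x τ h.2, add_zero]
    refine h2.trans ?_
    rw [Finset.sum_add_distrib, ← Finset.sum_filter, Finset.sum_const, nsmul_eq_mul]
    have h3 : ((E.filter (fun p => p.1 = x ∨ p.2 = x)).card : ℝ) ≤ d := by
      exact_mod_cast hd
    linarith
  have h4 : ∑ v, B v * sp (fl x τ v) ≤ ∑ v, B v * sp (τ v) + 2 * b := by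
    rw [← Finset.add_sum_erase _ _ (Finset.mem_univ x),
      ← Finset.add_sum_erase (Finset.univ) (fun v => B v * sp (τ v)) (Finset.mem_univ x)]
    have h5 : ∑ v ∈ Finset.univ.erase x, B v * sp (fl x τ v) =
        ∑ v ∈ Finset.univ.erase x, B v * sp (τ v) := by
      apply Finset.sum_congr rfl
      intro v hv
      rw [fl_ne x τ (Finset.ne_of_mem_erase hv)]
    rw [h5]
    have h6 : B x * sp (fl x τ x) ≤ b := by
      refine (le_abs_self _).trans ?_
      rw [abs_mul, sp_abs, mul_one]
      exact hB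
    have h7 : -b ≤ B x * sp (τ x) := by
      have : |B x * sp (τ x)| ≤ b := by
        rw [abs_mul, sp_abs, mul_one]; exact hB
      exact (abs_le.1 this).1
    linarith
  have h8 := mul_le_mul_of_nonneg_left h1 hβ
  nlinarith

theorem Zp_pos (β : ℝ) (E : Finset (V × V)) (B : V → ℝ) : 0 < Zp β E B := by
  unfold Zp
  apply Finset.sum_pos
  · intro σ _
    exact Real.exp_pos _
  · exact ⟨fun _ => true, Finset.mem_univ _⟩

theorem gb_fl_le (β b : ℝ) (d : ℕ) (hβ : 0 ≤ β) (E : Finset (V × V)) (B : V → ℝ) (x : V)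
    (hd : dE E x ≤ d) (hB : |B x| ≤ b) (τ : V → Bool) :
    gb β E B (fl x τ) ≤ Real.exp (2 * (β * d + b)) * gb β E B τ := by
  unfold gb
  rw [← mul_div_assoc]
  exact div_le_div_of_nonneg_right (wt_fl_le β b d hβ E B x hd hB τ) (Zp_pos β E B).le

end E3cH62

open E3cH62 in
theorem taskE3c : TaskE3c := by
  intro β b d hβ
  refine ⟨1 / (1 + Real.exp (2 * (β * d + b))), by positivity, ?_, ?_⟩
  · rw [div_lt_one (by positivity)]
    have := Real.exp_pos (2 * (β * d + b))
    linarith
  intro V _ _ E B x Z σ s _ hd hB hx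
  have hC := Real.exp_pos (2 * (β * d + b))
  rw [div_mul_eq_mul_div, one_mul, div_le_iff₀ (by positivity)]
  -- abbreviations
  set P := gb β E B with hP
  have hcond : ∀ τ : V → Bool, (∀ v ∈ Z, fl x τ v = σ v) ↔ (∀ v ∈ Z, τ v = σ v) := by
    intro τ
    constructor
    · intro h v hv
      rw [← h v hv, fl_ne x τ (fun h => hx (h ▸ hv))]
    · intro h v hv
      rw [← h v hv, fl_ne x τ (fun h => hx (h ▸ hv))]
  have hM : marg P (insert x Z) (Function.update σ x s) =
      ∑ τ : V → Bool, if τ x = s then (if (∀ v ∈ Z, τ v = σ v) then P τ else 0) else 0 := by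
    unfold marg
    apply Finset.sum_congr rfl
    intro τ _
    rw [← ite_and]
    congr 1
    apply propext
    constructor
    · intro h
      refine ⟨?_, ?_⟩
      · have := h x (Finset.mem_insert_self _ _)
        simpa using this
      · intro v hv
        have := h v (Finset.mem_insert_of_mem hv)
        have hne : v ≠ x := fun h' => hx (h' ▸ hv)
        rwa [Function.update_of_ne hne] at this
    · rintro ⟨h1, h2⟩ v hv
      rcases Finset.mem_insert.1 hv with rfl | hv
      · simpa using h1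
      · have hne : v ≠ x := fun h' => hx (h' ▸ hv)
        rw [Function.update_of_ne hne]
        exact h2 v hv
  have hS : marg P Z σ =
      ∑ τ : V → Bool, (if τ x = s then (if (∀ v ∈ Z, τ v = σ v) then P τ else 0) else 0) +
      ∑ τ : V → Bool, (if τ x = s then (if (∀ v ∈ Z, τ v = σ v) then P (fl x τ) else 0) else 0) := by
    have h2 : ∑ τ : V → Bool,
        (if τ x = s then (if (∀ v ∈ Z, τ v = σ v) then P (fl x τ) else 0) else 0) =
        ∑ τ : V → Bool, (if τ x = s then 0 else (if (∀ v ∈ Z, τ v = σ v) then P τ else 0)) := by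
      rw [← Equiv.sum_comp (flEquiv x)
        (fun τ : V → Bool => (if τ x = s then 0 else (if (∀ v ∈ Z, τ v = σ v) then P τ else 0)))]
      apply Finset.sum_congr rfl
      intro τ _
      show _ = (if fl x τ x = s then 0 else (if (∀ v ∈ Z, fl x τ v = σ v) then P (fl x τ) else 0))
      rw [fl_same]
      simp only [hcond τ]
      cases hτ : τ x <;> cases s <;> simp
    rw [h2, ← Finset.sum_add_distrib]
    unfold marg
    apply Finset.sum_congr rfl
    intro τ _
    by_cases h : τ x = s <;> simp [h]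
  rw [hM, hS]
  have hle : ∑ τ : V → Bool,
      (if τ x = s then (if (∀ v ∈ Z, τ v = σ v) then P (fl x τ) else 0) else 0) ≤
      Real.exp (2 * (β * d + b)) *
      ∑ τ : V → Bool, (if τ x = s then (if (∀ v ∈ Z, τ v = σ v) then P τ else 0) else 0) := by
    rw [Finset.mul_sum]
    apply Finset.sum_le_sum
    intro τ _
    split_ifs
    · exact gb_fl_le β b d hβ E B x (hd x) (hB x) τ
    · simp
    · simp
  linarith

end H29I
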