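import Pool.Agent.H29Ising.Stmts2

/-! Project H29-ISING, TaskFinal (helper41): assembly of the final statement. -/

set_option autoImplicit false

namespace H29I
open Finset Filter Topology MeasureTheory

lemma fin_pr_le {μ : (n : ℕ) → SimpleGraph (Fin n) → ℝ} (hμ : IsLaw μ) (n : ℕ)
    (A B : SimpleGraph (Fin n) → Prop) :
    pr μ n B ≤ pr μ n (fun G => A G ∧ B G) + pr μ n (fun G => ¬ A G) := by
  classical
  unfold pr
  rw [← Finset.sum_add_distrib]
  refine Finset.sum_le_sum fun G _ => ?_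
  have h0 := hμ.1 n G
  by_cases hA : A G <;> by_cases hB : B G <;> simp [hA, hB, h0]

lemma fin_dg_tr {V : Type} [Fintype V] (K : ℕ) (G : SimpleGraph V) (v : V) :
    dg (trG K G) v ≤ K := by
  classical
  by_cases h : dg G v ≤ K
  · refine le_trans ?_ h
    unfold dg
    refine Finset.card_le_card fun u hu => ?_
    simp only [Finset.mem_filter, Finset.mem_univ, true_and] at hu ⊢
    exact hu.1
  · have : dg (trG K G) v = 0 := by
      unfold dg
      rw [Finset.card_eq_zero, Finset.filter_eq_empty_iff]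
      intro u _ hu
      exact h hu.2.1
    omega

theorem taskFinal : TaskFinal := by
  intro hcore hD1 hD2 hD3 hP1 hP2 hP3 hP4 hP5 μ hμ β k h hβ
  obtain ⟨hlaw, hsp, Ω, mΩ, P, T, hPr, hfin, hac, hloc⟩ := hμ
  refine hP1 μ (fun n G => Real.log (ZeIsing β k h G) / n) hlaw ?_
  intro ε η hε hη
  set c : ℝ := β + |k| + |h| + 1 with hcdef
  have hc : 0 < c := by positivity
  obtain ⟨K, N1, hN1⟩ := hP2 μ hlaw hsp (ε / (4 * c)) (η / 3) (by positivity) (by positivity)
  set b : ℝ := |k| * K + |h| with hbdef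
  have hb0 : 0 ≤ b := by positivity
  obtain ⟨R, δ0, hδ0, hcore'⟩ := hcore β b (ε / 2) K hβ (by positivity)
  obtain ⟨ℓ, m, H, o, hHac, hHne, hHsum⟩ := hP3 Ω P T hfin hac hloc.1 (R + 2) (δ0 / 6) (by positivity)
  set p : Fin ℓ → ℝ := fun i => (P {ω | IsoBall (T ω) 0 (R + 2) (H i) (o i)}).toReal with hp
  set δ' : ℝ := (δ0 / 6) / (ℓ + 1) with hδ'def
  have hδ' : 0 < δ' := by positivity
  have hℓδ : (ℓ : ℝ) * δ' ≤ δ0 / 6 := by
    rw [hδ'def, ← mul_div_assoc, div_le_iff₀ (by positivity)]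
    nlinarith
  obtain ⟨N2, hN2⟩ := hP5 μ hlaw Ω P T hloc (R + 2) ℓ m H o δ' (η / 3) hδ' (by positivity)
  refine ⟨max (max N1 N2) 1, fun n G =>
    (∑ v, (if dg G v ≤ K then (0 : ℝ) else dg G v) ≤ ε / (4 * c) * n) ∧
      ∀ i, |fr G (R + 2) (H i) (o i) - p i| ≤ δ', ?_, ?_⟩
  · intro n hn
    have h1 := hN1 n (by omega)
    have h2 := hN2 n (by omega)
    have h3 := fin_pr_le hlaw n
      (fun G => ∑ v, (if dg G v ≤ K then (0 : ℝ) else dg G v) ≤ ε / (4 * c) * n)
      (fun G => ∀ i, |fr G (R + 2) (H i) (o i) - p i| ≤ δ')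
    have h4 : pr μ n (fun G => ¬ (∑ v, (if dg G v ≤ K then (0 : ℝ) else dg G v) ≤ ε / (4 * c) * n)) =
        pr μ n (fun G => ε / (4 * c) * n < ∑ v, (if dg G v ≤ K then (0 : ℝ) else dg G v)) := by
      congr 1
      funext G
      exact propext not_le
    rw [h4] at h3
    linarith
  · intro n n' hn hn' G G' hS hS'
    have hn0 : 0 < n := by omega
    have hn0' : 0 < n' := by omega
    have hnr : (0 : ℝ) < n := by exact_mod_cast hn0
    have hnr' : (0 : ℝ) < n' := by exact_mod_cast hn0'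
    haveI : Nonempty (Fin n) := ⟨⟨0, hn0⟩⟩
    haveI : Nonempty (Fin n') := ⟨⟨0, hn0'⟩⟩
    set bf : ℕ → ℝ := fun j : ℕ => if j ≤ K then k * (j : ℝ) + h else 0 with hbf
    have hbfb : ∀ j, |bf j| ≤ b := by
      intro j
      simp only [hbf]
      split_ifs with hj
      · refine (abs_add_le _ _).trans ?_
        rw [abs_mul, Nat.abs_cast]
        have : (j : ℝ) ≤ K := by exact_mod_cast hj
        rw [hbdef]
        gcongr
      · simpa using hb0
    have hcl := hP4 hD1 hD2 K R ℓ m H o p (δ0 / 6) δ' (by positivity) hδ' hHac hHne hHsum hℓδ n n'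
      G G' hn0 hn0' hS.2 hS'.2
    have hcl' := hP4 hD1 hD2 K R ℓ m H o p (δ0 / 6) δ' (by positivity) hδ' hHac hHne hHsum hℓδ n' n
      G' G hn0' hn0 hS'.2 hS.2
    have hclose : Close (trG K G) (trL K G) (trG K G') (trL K G') R δ0 := by
      have e : 6 * (δ0 / 6) = δ0 := by ring
      rw [← e]
      exact hcl.1
    have hnt : (nontree (trG K G) R : ℝ) ≤ δ0 * Fintype.card (Fin n) := by
      rw [Fintype.card_fin]
      refine hcl.2.trans ?_
      nlinarith
    have hnt' : (nontree (trG K G') R : ℝ) ≤ δ0 * Fintype.card (Fin n') := by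
      rw [Fintype.card_fin]
      refine hcl'.2.trans ?_
      nlinarith
    have hmain := hcore' (Fin n) (Fin n') (trG K G) (trG K G') (trL K G) (trL K G') bf
      (fin_dg_tr K G) (fin_dg_tr K G') hbfb hnt hnt' hclose
    rw [Fintype.card_fin, Fintype.card_fin] at hmain
    have hcost : ∀ (N : ℕ) (A : SimpleGraph (Fin N)), 0 < (N : ℝ) →
        (∑ v, (if dg A v ≤ K then (0 : ℝ) else dg A v) ≤ ε / (4 * c) * N) →
        |Real.log (ZeIsing β k h A) / N -
          Real.log (Zp β (oe (trG K A)) (fun v => bf (trL K A v))) / N| ≤ ε / 4 := by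
      intro N A hN hA
      have h1 := hD3 (Fin N) A β k h K hβ
      have h2 : (β + |k| + |h|) * ∑ v, (if dg A v ≤ K then (0 : ℝ) else dg A v) ≤ ε / 4 * N := by
        have h3 : 0 ≤ ∑ v, (if dg A v ≤ K then (0 : ℝ) else dg A v) := by
          refine Finset.sum_nonneg fun v _ => ?_
          split_ifs <;> positivity
        calc (β + |k| + |h|) * ∑ v, (if dg A v ≤ K then (0 : ℝ) else dg A v)
            ≤ c * ∑ v, (if dg A v ≤ K then (0 : ℝ) else dg A v) := by
              refine mul_le_mul_of_nonneg_right ?_ h3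
              rw [hcdef]
              linarith
          _ ≤ c * (ε / (4 * c) * N) := mul_le_mul_of_nonneg_left hA hc.le
          _ = ε / 4 * N := by field_simp
      rw [← sub_div, abs_div, abs_of_pos hN, div_le_iff₀ hN]
      exact le_trans h1 h2
    have c1 := hcost n G hnr hS.1
    have c2 := hcost n' G' hnr' hS'.1
    rw [abs_le] at c1 c2 hmain ⊢
    constructor <;> linarith [c1.1, c1.2, c2.1, c2.2, hmain.1, hmain.2]

end H29I
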