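import Pool.Agent.H29Ising.Stmts

set_option autoImplicit false

/-! Task G1: Gibbs inequality for two spins. -/

namespace H29I.G1H405

open Finset

/-- pointwise inequality -/
theorem ptw (p H Z : ℝ) (hp : 0 ≤ p) (hZ : 0 < Z) :
    Real.negMulLog p + p * H - p * Real.log Z ≤ Real.exp H / Z - p := by
  rcases hp.eq_or_lt with h0 | h0
  · subst h0
    simp only [Real.negMulLog_zero, zero_mul, sub_zero, add_zero]
    positivity
  · have h1 : Real.log (Real.exp H / (Z * p)) ≤ Real.exp H / (Z * p) - 1 :=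
      Real.log_le_sub_one_of_pos (by positivity)
    have h2 : Real.log (Real.exp H / (Z * p)) = H - (Real.log Z + Real.log p) := by
      rw [Real.log_div (Real.exp_pos H).ne' (by positivity), Real.log_exp,
        Real.log_mul hZ.ne' h0.ne']
    rw [h2] at h1
    have h3 := mul_le_mul_of_nonneg_left h1 h0.le
    have h4 : p * (Real.exp H / (Z * p) - 1) = Real.exp H / Z - p := by
      field_simp
    rw [h4] at h3
    unfold Real.negMulLog
    linarith

/-- Gibbs inequality -/
theorem gibbs (p H : Bool → Bool → ℝ) (hp : ∀ s t, 0 ≤ p s t) (h1 : ∑ s, ∑ t, p s t = 1) :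
    (∑ s, ∑ t, Real.negMulLog (p s t)) + ∑ s, ∑ t, p s t * H s t ≤
      Real.log (∑ s, ∑ t, Real.exp (H s t)) := by
  set Z := ∑ s, ∑ t, Real.exp (H s t) with hZd
  have hZ : 0 < Z := by
    rw [hZd]
    exact Finset.sum_pos (fun s _ => Finset.sum_pos (fun t _ => Real.exp_pos _)
      Finset.univ_nonempty) Finset.univ_nonempty
  have key : ∑ s, ∑ t, (Real.negMulLog (p s t) + p s t * H s t - p s t * Real.log Z) ≤
      ∑ s, ∑ t, (Real.exp (H s t) / Z - p s t) :=
    Finset.sum_le_sum fun s _ => Finset.sum_le_sum fun t _ => ptw _ _ _ (hp s t) hZ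
  simp only [Finset.sum_sub_distrib, Finset.sum_add_distrib] at key
  have h2 : ∑ s, ∑ t, p s t * Real.log Z = Real.log Z := by
    simp only [← Finset.sum_mul]
    rw [h1, one_mul]
  have h3 : ∑ s, ∑ t, Real.exp (H s t) / Z = 1 := by
    simp only [← Finset.sum_div]
    rw [← hZd, div_self hZ.ne']
  rw [h2, h3, h1] at key
  linarith

end H29I.G1H405

namespace H29I

open Finset

theorem taskG1 : TaskG1 := by
  intro β p hp h1
  unfold G2
  refine le_ciInf fun q => ?_
  have h := G1H405.gibbs p (fun s t => β * (sp s * sp t) + q.1 * sp s + q.2 * sp t) hp h1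
  have h2 : ∑ s, ∑ t, p s t * (β * (sp s * sp t) + q.1 * sp s + q.2 * sp t) =
      β * (∑ s, ∑ t, p s t * (sp s * sp t)) + q.1 * (∑ s, ∑ t, p s t * sp s) +
        q.2 * (∑ s, ∑ t, p s t * sp t) := by
    simp only [Finset.mul_sum, ← Finset.sum_add_distrib]
    refine Finset.sum_congr rfl fun s _ => Finset.sum_congr rfl fun t _ => ?_
    ring
  unfold L2

  rw [h2] at h
  linarith

end H29I
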