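import Pool.Agent.H29Ising.Stmts

/-! Task G2: supermodularity of the two-spin constrained free energy. -/

namespace H29I
namespace TG2

/-- two-spin partition function -/
noncomputable def Z (β a c : ℝ) : ℝ :=
  Real.exp β * (Real.exp a * Real.exp c + Real.exp (-a) * Real.exp (-c)) +
    Real.exp (-β) * (Real.exp a * Real.exp (-c) + Real.exp (-a) * Real.exp c)

theorem L2_eq (β a c : ℝ) : L2 β a c = Real.log (Z β a c) := by
  unfold L2 Z
  congr 1
  simp only [Fintype.sum_bool, sp, if_true, Bool.false_eq_true, if_false]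
  have e1 : Real.exp (β * (1 * 1) + a * 1 + c * 1) = Real.exp β * (Real.exp a * Real.exp c) := by
    rw [← Real.exp_add, ← Real.exp_add]; congr 1; ring
  have e2 : Real.exp (β * (1 * -1) + a * 1 + c * -1) =
      Real.exp (-β) * (Real.exp a * Real.exp (-c)) := by
    rw [← Real.exp_add, ← Real.exp_add]; congr 1; ring
  have e3 : Real.exp (β * (-1 * 1) + a * -1 + c * 1) =
      Real.exp (-β) * (Real.exp (-a) * Real.exp c) := by
    rw [← Real.exp_add, ← Real.exp_add]; congr 1; ring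
  have e4 : Real.exp (β * (-1 * -1) + a * -1 + c * -1) =
      Real.exp β * (Real.exp (-a) * Real.exp (-c)) := by
    rw [← Real.exp_add, ← Real.exp_add]; congr 1; ring
  rw [e1, e2, e3, e4]
  ring

theorem Z_pos (β a c : ℝ) : 0 < Z β a c := by
  unfold Z
  positivity

theorem Z_super {β a a' c c' : ℝ} (hβ : 0 ≤ β) (ha : a ≤ a') (hc : c ≤ c') :
    Z β a c' * Z β a' c ≤ Z β a c * Z β a' c' := by
  have key : Z β a c * Z β a' c' - Z β a c' * Z β a' c =
      (Real.exp β ^ 2 - Real.exp (-β) ^ 2) *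
        (Real.exp a' * Real.exp (-a) - Real.exp a * Real.exp (-a')) *
        (Real.exp c' * Real.exp (-c) - Real.exp c * Real.exp (-c')) := by
    unfold Z
    ring
  have h1 : 0 ≤ Real.exp β ^ 2 - Real.exp (-β) ^ 2 := by
    have : Real.exp (-β) ≤ Real.exp β := Real.exp_le_exp.2 (by linarith)
    have := pow_le_pow_left₀ (Real.exp_pos _).le this 2
    linarith
  have h2 : 0 ≤ Real.exp a' * Real.exp (-a) - Real.exp a * Real.exp (-a') := by
    rw [← Real.exp_add, ← Real.exp_add, sub_nonneg]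
    exact Real.exp_le_exp.2 (by linarith)
  have h3 : 0 ≤ Real.exp c' * Real.exp (-c) - Real.exp c * Real.exp (-c') := by
    rw [← Real.exp_add, ← Real.exp_add, sub_nonneg]
    exact Real.exp_le_exp.2 (by linarith)
  have := mul_nonneg (mul_nonneg h1 h2) h3
  linarith

theorem L2_super {β a a' c c' : ℝ} (hβ : 0 ≤ β) (ha : a ≤ a') (hc : c ≤ c') :
    L2 β a c' + L2 β a' c ≤ L2 β a c + L2 β a' c' := by
  rw [L2_eq, L2_eq, L2_eq, L2_eq, ← Real.log_mul (Z_pos _ _ _).ne' (Z_pos _ _ _).ne',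
    ← Real.log_mul (Z_pos _ _ _).ne' (Z_pos _ _ _).ne']
  exact Real.log_le_log (mul_pos (Z_pos _ _ _) (Z_pos _ _ _)) (Z_super hβ ha hc)

theorem L2_ge (β a c : ℝ) : |a| + |c| - |β| ≤ L2 β a c := by
  rw [L2_eq, Real.le_log_iff_exp_le (Z_pos _ _ _)]
  have hb1 : Real.exp (-|β|) ≤ Real.exp β := Real.exp_le_exp.2 (neg_abs_le β)
  have hb2 : Real.exp (-|β|) ≤ Real.exp (-β) := Real.exp_le_exp.2 (neg_le_neg (le_abs_self β))
  have e : Real.exp (|a| + |c| - |β|) = Real.exp (-|β|) * (Real.exp |a| * Real.exp |c|) := by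
    rw [← Real.exp_add, ← Real.exp_add]; congr 1; ring
  rw [e]
  unfold Z
  have p1 := Real.exp_pos β
  have p2 := Real.exp_pos (-β)
  have p3 := Real.exp_pos a
  have p4 := Real.exp_pos (-a)
  have p5 := Real.exp_pos c
  have p6 := Real.exp_pos (-c)
  have q1 := mul_pos p1 (mul_pos p3 p5)
  have q2 := mul_pos p1 (mul_pos p4 p6)
  have q3 := mul_pos p2 (mul_pos p3 p6)
  have q4 := mul_pos p2 (mul_pos p4 p5)
  rcases abs_cases a with ⟨ha, -⟩ | ⟨ha, -⟩ <;> rcases abs_cases c with ⟨hc, -⟩ | ⟨hc, -⟩ <;>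
    rw [ha, hc]
  · have := mul_le_mul_of_nonneg_right hb1 (mul_pos p3 p5).le
    linarith
  · have := mul_le_mul_of_nonneg_right hb2 (mul_pos p3 p6).le
    linarith
  · have := mul_le_mul_of_nonneg_right hb2 (mul_pos p4 p5).le
    linarith
  · have := mul_le_mul_of_nonneg_right hb1 (mul_pos p4 p6).le
    linarith

theorem bdd {β x y : ℝ} (hx : |x| < 1) (hy : |y| < 1) :
    BddBelow (Set.range fun p : ℝ × ℝ => L2 β p.1 p.2 - p.1 * x - p.2 * y) := by
  refine ⟨-|β|, ?_⟩
  rintro _ ⟨⟨a, c⟩, rfl⟩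
  simp only
  have h1 := L2_ge β a c
  have h2 : a * x ≤ |a| := by
    calc a * x ≤ |a * x| := le_abs_self _
      _ = |a| * |x| := abs_mul _ _
      _ ≤ |a| * 1 := mul_le_mul_of_nonneg_left hx.le (abs_nonneg _)
      _ = |a| := mul_one _
  have h3 : c * y ≤ |c| := by
    calc c * y ≤ |c * y| := le_abs_self _
      _ = |c| * |y| := abs_mul _ _
      _ ≤ |c| * 1 := mul_le_mul_of_nonneg_left hy.le (abs_nonneg _)
      _ = |c| := mul_one _
  linarith

theorem rearr {a b x y : ℝ} (h : x ≤ y) : a * x + b * y ≤ min a b * x + max a b * y := by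
  rcases le_total a b with hab | hab
  · rw [min_eq_left hab, max_eq_right hab]
  · rw [min_eq_right hab, max_eq_left hab]
    nlinarith [mul_nonneg (sub_nonneg.2 hab) (sub_nonneg.2 h)]

theorem L2_lattice {β a1 a2 c1 c2 : ℝ} (hβ : 0 ≤ β) :
    L2 β (max a1 a2) (min c1 c2) + L2 β (min a1 a2) (max c1 c2) ≤ L2 β a1 c1 + L2 β a2 c2 := by
  rcases le_total a1 a2 with ha | ha <;> rcases le_total c1 c2 with hc | hc
  · rw [max_eq_right ha, min_eq_left ha, max_eq_right hc, min_eq_left hc]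
    have := L2_super hβ ha hc
    linarith
  · rw [max_eq_right ha, min_eq_left ha, max_eq_left hc, min_eq_right hc]
    linarith
  · rw [max_eq_left ha, min_eq_right ha, max_eq_right hc, min_eq_left hc]
  · rw [max_eq_left ha, min_eq_right ha, max_eq_left hc, min_eq_right hc]
    have := L2_super hβ ha hc
    linarith

end TG2

open TG2 in
theorem taskG2 : TaskG2 := by
  intro β x x' y y' hβ hx hx' hy hy' hxx hyy
  have key : ∀ p q : ℝ × ℝ, G2 β x y' + G2 β x' y ≤
      (L2 β p.1 p.2 - p.1 * x - p.2 * y) + (L2 β q.1 q.2 - q.1 * x' - q.2 * y') := by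
    rintro ⟨a1, c1⟩ ⟨a2, c2⟩
    have h1 : G2 β x y' ≤ L2 β (min a1 a2) (max c1 c2) - min a1 a2 * x - max c1 c2 * y' :=
      ciInf_le (bdd hx hy') (min a1 a2, max c1 c2)
    have h2 : G2 β x' y ≤ L2 β (max a1 a2) (min c1 c2) - max a1 a2 * x' - min c1 c2 * y :=
      ciInf_le (bdd hx' hy) (max a1 a2, min c1 c2)
    have h3 := L2_lattice (a1 := a1) (a2 := a2) (c1 := c1) (c2 := c2) hβ
    have h4 := rearr (a := a1) (b := a2) hxx
    have h5 := rearr (a := c1) (b := c2) hyy
    simp only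
    linarith
  have h1 : ∀ q : ℝ × ℝ, G2 β x y' + G2 β x' y - (L2 β q.1 q.2 - q.1 * x' - q.2 * y') ≤
      G2 β x y := by
    intro q
    refine le_ciInf ?_
    intro p
    linarith [key p q]
  have h2 : G2 β x y' + G2 β x' y - G2 β x y ≤ G2 β x' y' := by
    refine le_ciInf ?_
    intro q
    linarith [h1 q]
  linarith

end H29I
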