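import Pool.Agent.H29Ising.Stmts

/-!
# Task G3 of project H29-ISING: regularity of the two-spin free energy
-/

set_option autoImplicit false

namespace H29I

namespace G3

theorem L2_symm (β a c : ℝ) : L2 β a c = L2 β c a := by
  unfold L2
  congr 1
  rw [Finset.sum_comm]
  apply Finset.sum_congr rfl
  intro s _
  apply Finset.sum_congr rfl
  intro t _
  congr 1
  ring

theorem G2_symm (β x y : ℝ) : G2 β x y = G2 β y x := by
  unfold G2
  apply (Equiv.prodComm ℝ ℝ).iInf_congr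
  rintro ⟨a, c⟩
  show L2 β c a - c * y - a * x = L2 β a c - a * x - c * y
  rw [L2_symm β a c]
  ring

/-- a sign -/
noncomputable def sg (a : ℝ) : Bool := decide (0 ≤ a)

theorem mul_sp_sg (a : ℝ) : a * sp (sg a) = |a| := by
  unfold sg sp
  by_cases h : 0 ≤ a
  · simp [h, abs_of_nonneg h]
  · simp [h, abs_of_neg (not_le.1 h)]

theorem abs_sp (b : Bool) : |sp b| = 1 := by
  unfold sp; cases b <;> simp

theorem L2_ge (β a c : ℝ) : |a| + |c| - |β| ≤ L2 β a c := by
  unfold L2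
  have h1 : Real.exp (|a| + |c| - |β|) ≤
      ∑ s : Bool, ∑ t : Bool, Real.exp (β * (sp s * sp t) + a * sp s + c * sp t) := by
    calc Real.exp (|a| + |c| - |β|)
        ≤ Real.exp (β * (sp (sg a) * sp (sg c)) + a * sp (sg a) + c * sp (sg c)) := by
          apply Real.exp_le_exp.2
          rw [mul_sp_sg, mul_sp_sg]
          have h2 : |β * (sp (sg a) * sp (sg c))| = |β| := by
            rw [abs_mul, abs_mul, abs_sp, abs_sp]; ring
          have h3 := neg_abs_le (β * (sp (sg a) * sp (sg c)))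
          rw [h2] at h3
          linarith
      _ ≤ ∑ t : Bool, Real.exp (β * (sp (sg a) * sp t) + a * sp (sg a) + c * sp t) :=
          Finset.single_le_sum (f := fun t : Bool =>
            Real.exp (β * (sp (sg a) * sp t) + a * sp (sg a) + c * sp t))
            (fun t _ => (Real.exp_pos _).le) (Finset.mem_univ _)
      _ ≤ _ := Finset.single_le_sum (f := fun s : Bool => ∑ t : Bool,
            Real.exp (β * (sp s * sp t) + a * sp s + c * sp t))
            (fun s _ => Finset.sum_nonneg fun t _ => (Real.exp_pos _).le) (Finset.mem_univ _)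
  have h4 := Real.log_le_log (Real.exp_pos _) h1
  rwa [Real.log_exp] at h4

theorem L2_zero_le (β : ℝ) : L2 β 0 0 ≤ Real.log 4 + |β| := by
  unfold L2
  have h1 : (∑ s : Bool, ∑ t : Bool, Real.exp (β * (sp s * sp t) + 0 * sp s + 0 * sp t)) ≤
      4 * Real.exp |β| := by
    have h2 : ∀ s t : Bool, Real.exp (β * (sp s * sp t) + 0 * sp s + 0 * sp t) ≤ Real.exp |β| := by
      intro s t
      apply Real.exp_le_exp.2
      have h3 : |β * (sp s * sp t)| = |β| := by
        rw [abs_mul, abs_mul, abs_sp, abs_sp]; ring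
      have h4 := le_abs_self (β * (sp s * sp t))
      rw [h3] at h4
      linarith
    calc _ ≤ ∑ _s : Bool, ∑ _t : Bool, Real.exp |β| :=
          Finset.sum_le_sum fun s _ => Finset.sum_le_sum fun t _ => h2 s t
      _ = 4 * Real.exp |β| := by
          simp [Finset.sum_const]
          ring
  have hpos : 0 < (∑ s : Bool, ∑ t : Bool, Real.exp (β * (sp s * sp t) + 0 * sp s + 0 * sp t)) :=
    Finset.sum_pos (fun s _ => Finset.sum_pos (fun t _ => Real.exp_pos _) ⟨true, Finset.mem_univ _⟩)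
      ⟨true, Finset.mem_univ _⟩
  calc _ ≤ Real.log (4 * Real.exp |β|) := Real.log_le_log hpos h1
    _ = Real.log 4 + |β| := by
      rw [Real.log_mul (by norm_num) (Real.exp_pos _).ne', Real.log_exp]

theorem F_ge (β ρ x y : ℝ) (hx : |x| ≤ ρ) (hy : |y| ≤ ρ) (p : ℝ × ℝ) :
    (1 - ρ) * (|p.1| + |p.2|) - |β| ≤ L2 β p.1 p.2 - p.1 * x - p.2 * y := by
  have h1 := L2_ge β p.1 p.2
  have h2 : p.1 * x ≤ |p.1| * ρ := by
    calc p.1 * x ≤ |p.1 * x| := le_abs_self _
      _ = |p.1| * |x| := abs_mul _ _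
      _ ≤ |p.1| * ρ := mul_le_mul_of_nonneg_left hx (abs_nonneg _)
  have h3 : p.2 * y ≤ |p.2| * ρ := by
    calc p.2 * y ≤ |p.2 * y| := le_abs_self _
      _ = |p.2| * |y| := abs_mul _ _
      _ ≤ |p.2| * ρ := mul_le_mul_of_nonneg_left hy (abs_nonneg _)
  linarith

theorem bdd (β ρ x y : ℝ) (hρ : ρ < 1) (hx : |x| ≤ ρ) (hy : |y| ≤ ρ) :
    BddBelow (Set.range fun p : ℝ × ℝ => L2 β p.1 p.2 - p.1 * x - p.2 * y) := by
  refine ⟨-|β|, ?_⟩
  rintro _ ⟨p, rfl⟩
  have h1 := F_ge β ρ x y hx hy p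
  have h2 : 0 ≤ (1 - ρ) * (|p.1| + |p.2|) := mul_nonneg (by linarith) (by positivity)
  show -|β| ≤ L2 β p.1 p.2 - p.1 * x - p.2 * y
  linarith

theorem G2_ge (β ρ x y : ℝ) (hρ : ρ < 1) (hx : |x| ≤ ρ) (hy : |y| ≤ ρ) : -|β| ≤ G2 β x y := by
  unfold G2
  apply le_ciInf
  intro p
  have h1 := F_ge β ρ x y hx hy p
  have h2 : 0 ≤ (1 - ρ) * (|p.1| + |p.2|) := mul_nonneg (by linarith) (by positivity)
  linarith

theorem G2_le (β ρ x y : ℝ) (hρ : ρ < 1) (hx : |x| ≤ ρ) (hy : |y| ≤ ρ) :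
    G2 β x y ≤ Real.log 4 + |β| := by
  unfold G2
  refine (ciInf_le (bdd β ρ x y hρ hx hy) (0, 0)).trans ?_
  have := L2_zero_le β
  simpa using this

theorem G2_lip (β ρ : ℝ) (hρ : ρ < 1) (x y x' y' : ℝ) (hx : |x| ≤ ρ) (hy : |y| ≤ ρ)
    (hx' : |x'| ≤ ρ) (hy' : |y'| ≤ ρ) :
    G2 β x y ≤ G2 β x' y' +
      (Real.log 4 + 2 * |β|) / (1 - ρ) * (|x - x'| + |y - y'|) := by
  set M := (Real.log 4 + 2 * |β|) / (1 - ρ) with hM
  have h1ρ : 0 < 1 - ρ := by linarith
  have hlog4 : 0 ≤ Real.log 4 := Real.log_nonneg (by norm_num)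
  have hM0 : 0 ≤ M := by positivity
  rw [← sub_le_iff_le_add]
  conv_rhs => rw [G2]
  apply le_ciInf
  intro p
  by_cases hp : M < |p.1| + |p.2|
  · have h1 := F_ge β ρ x' y' hx' hy' p
    have h2 := G2_le β ρ x y hρ hx hy
    have h3 : (1 - ρ) * M = Real.log 4 + 2 * |β| := by
      rw [hM]; field_simp
    have h4 : (1 - ρ) * M ≤ (1 - ρ) * (|p.1| + |p.2|) :=
      mul_le_mul_of_nonneg_left hp.le h1ρ.le
    have h5 : 0 ≤ M * (|x - x'| + |y - y'|) := by positivity
    linarith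
  · rw [not_lt] at hp
    have h1 : G2 β x y ≤ L2 β p.1 p.2 - p.1 * x - p.2 * y := by
      unfold G2
      exact ciInf_le (bdd β ρ x y hρ hx hy) p
    have h2 : |p.1| ≤ M := le_trans (by linarith [abs_nonneg p.2]) hp
    have h3 : |p.2| ≤ M := le_trans (by linarith [abs_nonneg p.1]) hp
    have h4 : -(p.1 * (x - x')) ≤ M * |x - x'| := by
      calc -(p.1 * (x - x')) ≤ |p.1 * (x - x')| := neg_le_abs _
        _ = |p.1| * |x - x'| := abs_mul _ _
        _ ≤ M * |x - x'| := mul_le_mul_of_nonneg_right h2 (abs_nonneg _)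
    have h5 : -(p.2 * (y - y')) ≤ M * |y - y'| := by
      calc -(p.2 * (y - y')) ≤ |p.2 * (y - y')| := neg_le_abs _
        _ = |p.2| * |y - y'| := abs_mul _ _
        _ ≤ M * |y - y'| := mul_le_mul_of_nonneg_right h3 (abs_nonneg _)
    nlinarith

theorem h1_lip (ρ : ℝ) (hρ0 : 0 < ρ) (hρ : ρ < 1) (x x' : ℝ) (hx : |x| ≤ ρ) (hx' : |x'| ≤ ρ) :
    |h1 x - h1 x'| ≤ (-Real.log ((1 - ρ) / 2)) * |x - x'| := by
  set c0 := -Real.log ((1 - ρ) / 2) with hc0
  have hb0 : 0 < (1 - ρ) / 2 := by linarith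
  have key : ∀ p ∈ Set.Icc ((1 - ρ) / 2) ((1 + ρ) / 2), ‖deriv Real.binEntropy p‖ ≤ 2 * c0 := by
    intro p hp
    obtain ⟨hp1, hp2⟩ := hp
    rw [Real.deriv_binEntropy, Real.norm_eq_abs]
    have e1 : |Real.log p| ≤ c0 := by
      rw [abs_le]
      constructor
      · rw [hc0, neg_neg]
        exact Real.log_le_log hb0 hp1
      · have h1 : Real.log p ≤ 0 := Real.log_nonpos (by linarith) (by linarith)
        have h2 : Real.log ((1 - ρ) / 2) ≤ 0 := Real.log_nonpos hb0.le (by linarith)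
        rw [hc0]; linarith
    have e2 : |Real.log (1 - p)| ≤ c0 := by
      rw [abs_le]
      constructor
      · rw [hc0, neg_neg]
        exact Real.log_le_log hb0 (by linarith)
      · have h1 : Real.log (1 - p) ≤ 0 := Real.log_nonpos (by linarith) (by linarith)
        have h2 : Real.log ((1 - ρ) / 2) ≤ 0 := Real.log_nonpos hb0.le (by linarith)
        rw [hc0]; linarith
    calc |Real.log (1 - p) - Real.log p| ≤ |Real.log (1 - p)| + |Real.log p| := abs_sub _ _
      _ ≤ 2 * c0 := by linarith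
  have hdiff : ∀ p ∈ Set.Icc ((1 - ρ) / 2) ((1 + ρ) / 2), DifferentiableAt ℝ Real.binEntropy p := by
    intro p hp
    apply Real.differentiableAt_binEntropy
    · have := hp.1; linarith
    · have := hp.2; intro h; rw [h] at this; linarith
  have hmem : ∀ z : ℝ, |z| ≤ ρ → (1 + z) / 2 ∈ Set.Icc ((1 - ρ) / 2) ((1 + ρ) / 2) := by
    intro z hz
    rw [abs_le] at hz
    constructor <;> linarith [hz.1, hz.2]
  have h3 := (convex_Icc ((1 - ρ) / 2) ((1 + ρ) / 2)).norm_image_sub_le_of_norm_deriv_le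
    hdiff key (hmem x' hx') (hmem x hx)
  unfold h1
  rw [Real.norm_eq_abs, Real.norm_eq_abs] at h3
  have h4 : (1 + x) / 2 - (1 + x') / 2 = (x - x') / 2 := by ring
  rw [h4, abs_div, abs_of_pos (by norm_num : (0 : ℝ) < 2)] at h3
  calc |Real.binEntropy ((1 + x) / 2) - Real.binEntropy ((1 + x') / 2)|
      ≤ 2 * c0 * (|x - x'| / 2) := h3
    _ = c0 * |x - x'| := by ring

theorem h1_bound (ρ : ℝ) (hρ : ρ < 1) (x : ℝ) (hx : |x| ≤ ρ) : |h1 x| ≤ Real.log 2 := by
  rw [abs_le] at hx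
  unfold h1
  rw [abs_of_nonneg (Real.binEntropy_nonneg (by linarith [hx.1]) (by linarith [hx.2]))]
  exact Real.binEntropy_le_log_two

end G3

theorem taskG3 : TaskG3 := by
  refine ⟨G3.G2_symm, ?_⟩
  intro β ρ _ hρ0 hρ
  have h1ρ : 0 < 1 - ρ := by linarith
  have hlog4 : 0 ≤ Real.log 4 := Real.log_nonneg (by norm_num)
  have hlog2 : 0 ≤ Real.log 2 := Real.log_nonneg (by norm_num)
  have hc0 : 0 ≤ -Real.log ((1 - ρ) / 2) := by
    have : Real.log ((1 - ρ) / 2) ≤ 0 := Real.log_nonpos (by linarith) (by linarith)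
    linarith
  set M := (Real.log 4 + 2 * |β|) / (1 - ρ) with hM
  have hM0 : 0 ≤ M := by positivity
  have hβ := abs_nonneg β
  refine ⟨M + (-Real.log ((1 - ρ) / 2)) + (Real.log 4 + |β|) + Real.log 2, by positivity, ?_⟩
  intro x y x' y' hx hy hx' hy'
  refine ⟨?_, ?_, ?_, ?_⟩
  · have h1 := G3.G2_lip β ρ hρ x y x' y' hx hy hx' hy'
    have h2 := G3.G2_lip β ρ hρ x' y' x y hx' hy' hx hy
    rw [abs_sub_comm x' x, abs_sub_comm y' y] at h2
    have hD : 0 ≤ |x - x'| + |y - y'| := by positivity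
    have h3 : M * (|x - x'| + |y - y'|) ≤
        (M + (-Real.log ((1 - ρ) / 2)) + (Real.log 4 + |β|) + Real.log 2) *
          (|x - x'| + |y - y'|) := mul_le_mul_of_nonneg_right (by linarith) hD
    rw [abs_le]
    constructor <;> linarith
  · have h1 := G3.h1_lip ρ hρ0 hρ x x' hx hx'
    refine h1.trans (mul_le_mul_of_nonneg_right (by linarith) (abs_nonneg _))
  · have h1 := G3.G2_ge β ρ x y hρ hx hy
    have h2 := G3.G2_le β ρ x y hρ hx hy
    rw [abs_le]
    constructor <;> linarith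
  · have h1 := G3.h1_bound ρ hρ x hx
    linarith

end H29I
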