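import Pool.Agent.H29Ising.Stmts2

namespace H29I
open Finset Filter Topology MeasureTheory

namespace P1h133

variable {μ : (n : ℕ) → SimpleGraph (Fin n) → ℝ}

lemma pr_nonneg (hμ : IsLaw μ) (n : ℕ) (S : SimpleGraph (Fin n) → Prop) : 0 ≤ pr μ n S := by
  classical
  unfold pr
  refine Finset.sum_nonneg fun G _ => ?_
  split_ifs
  · exact hμ.1 n G
  · exact le_rfl

lemma pr_mono (hμ : IsLaw μ) (n : ℕ) {S T : SimpleGraph (Fin n) → Prop} (h : ∀ G, S G → T G) :
    pr μ n S ≤ pr μ n T := by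
  classical
  unfold pr
  refine Finset.sum_le_sum fun G _ => ?_
  by_cases hS : S G
  · rw [if_pos hS, if_pos (h G hS)]
  · rw [if_neg hS]
    split_ifs
    · exact hμ.1 n G
    · exact le_rfl

lemma pr_compl (hμ : IsLaw μ) (n : ℕ) (S : SimpleGraph (Fin n) → Prop) :
    pr μ n S + pr μ n (fun G => ¬ S G) = 1 := by
  classical
  unfold pr
  rw [← Finset.sum_add_distrib, ← hμ.2 n]
  refine Finset.sum_congr rfl fun G _ => ?_
  by_cases hS : S G
  · simp [hS]
  · simp [hS]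

lemma exists_both (hμ : IsLaw μ) (n : ℕ) {S T : SimpleGraph (Fin n) → Prop}
    (h : 1 < pr μ n S + pr μ n T) : ∃ G, S G ∧ T G := by
  by_contra hcon
  push Not at hcon
  have h1 : pr μ n S ≤ pr μ n (fun G => ¬ T G) := pr_mono hμ n hcon
  have h2 := pr_compl hμ n T
  linarith

end P1h133

open P1h133 in
theorem taskP1 : TaskP1 := by
  intro μ ψ hμ H
  -- the sequence of good sets
  have H' : ∀ j : ℕ, ∃ (N : ℕ) (S : (n : ℕ) → SimpleGraph (Fin n) → Prop),
      (∀ n, N ≤ n → 1 - 1 / 4 ≤ pr μ n (S n)) ∧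
      ∀ n n', N ≤ n → N ≤ n' → ∀ G G', S n G → S n' G' → |ψ n G - ψ n' G'| ≤ (1 / 2 : ℝ) ^ j :=
    fun j => H ((1 / 2 : ℝ) ^ j) (1 / 4) (by positivity) (by norm_num)
  choose N S hS hd using H'
  have hne : ∀ j : ℕ, ∃ G, S j (N j) G := by
    intro j
    obtain ⟨G, hG, _⟩ := exists_both hμ (N j) (S := S j (N j)) (T := S j (N j)) (by
      have := hS j (N j) le_rfl
      linarith)
    exact ⟨G, hG⟩
  choose g hg using hne
  set x : ℕ → ℝ := fun j => ψ (N j) (g j) with hx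
  have hxx : ∀ j k, |x j - x k| ≤ (1 / 2 : ℝ) ^ j + (1 / 2 : ℝ) ^ k := by
    intro j k
    obtain ⟨G, h1, h2⟩ := exists_both hμ (max (N j) (N k)) (S := S j _) (T := S k _) (by
      have h1 := hS j (max (N j) (N k)) (le_max_left _ _)
      have h2 := hS k (max (N j) (N k)) (le_max_right _ _)
      linarith)
    have e1 := hd j (N j) _ le_rfl (le_max_left _ _) (g j) G (hg j) h1
    have e2 := hd k (N k) _ le_rfl (le_max_right _ _) (g k) G (hg k) h2
    have e3 : x j - x k = (ψ (N j) (g j) - ψ _ G) - (ψ (N k) (g k) - ψ _ G) := by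
      simp only [hx]; ring
    rw [e3]
    exact (abs_sub _ _).trans (add_le_add e1 e2)
  have hpow : Tendsto (fun j : ℕ => (1 / 2 : ℝ) ^ j) atTop (𝓝 0) :=
    tendsto_pow_atTop_nhds_zero_of_lt_one (by norm_num) (by norm_num)
  have hcau : CauchySeq x := by
    rw [Metric.cauchySeq_iff]
    intro ε hε
    obtain ⟨J, hJ⟩ := (Metric.tendsto_atTop.mp hpow) (ε / 2) (by positivity)
    refine ⟨J, fun j hj k hk => ?_⟩
    have h1 := hJ j hj
    have h2 := hJ k hk
    rw [Real.dist_eq, sub_zero, abs_of_nonneg (by positivity)] at h1 h2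
    rw [Real.dist_eq]
    linarith [hxx j k]
  obtain ⟨φ, hφ⟩ := cauchySeq_tendsto_of_complete hcau
  have hxφ : ∀ j, |x j - φ| ≤ (1 / 2 : ℝ) ^ j := by
    intro j
    have h1 : Tendsto (fun k => |x j - x k|) atTop (𝓝 |x j - φ|) :=
      (tendsto_const_nhds.sub hφ).abs
    have h2 : Tendsto (fun k => (1 / 2 : ℝ) ^ j + (1 / 2 : ℝ) ^ k) atTop
        (𝓝 ((1 / 2 : ℝ) ^ j + 0)) := tendsto_const_nhds.add hpow
    have := le_of_tendsto_of_tendsto' h1 h2 (fun k => hxx j k)
    simpa using this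
  refine ⟨φ, fun ε hε => ?_⟩
  rw [Metric.tendsto_atTop]
  intro δ hδ
  obtain ⟨M, T, hT, hTd⟩ := H (ε / 4) (min (δ / 2) (1 / 4)) (by positivity) (by positivity)
  obtain ⟨J, hJ⟩ := (Metric.tendsto_atTop.mp hpow) (ε / 4) (by positivity)
  have hJ' : (1 / 2 : ℝ) ^ J ≤ ε / 4 := by
    have := hJ J le_rfl
    rw [Real.dist_eq, sub_zero, abs_of_nonneg (by positivity)] at this
    exact this.le
  obtain ⟨G0, h0, h0'⟩ := exists_both hμ (max M (N J)) (S := T _) (T := S J _) (by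
    have h1 := hT (max M (N J)) (le_max_left _ _)
    have h2 := hS J (max M (N J)) (le_max_right _ _)
    have h3 : min (δ / 2) (1 / 4) ≤ (1 / 4 : ℝ) := min_le_right _ _
    linarith)
  refine ⟨M, fun n hn => ?_⟩
  rw [Real.dist_eq, sub_zero, abs_of_nonneg (pr_nonneg hμ _ _)]
  have hsub : pr μ n (fun G => ε < |ψ n G - φ|) ≤ pr μ n (fun G => ¬ T n G) := by
    refine pr_mono hμ n fun G hG hTG => ?_
    have e1 := hTd n (max M (N J)) hn (le_max_left _ _) G G0 hTG h0
    have e2 := hd J (N J) (max M (N J)) le_rfl (le_max_right _ _) (g J) G0 (hg J) h0'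
    have e3 := hxφ J
    simp only [hx] at e3
    rw [abs_le] at e1 e2 e3
    rcases lt_abs.mp hG with h | h
    · linarith [e1.2, e2.1, e3.2]
    · linarith [e1.1, e2.2, e3.1]
  have h1 := hT n hn
  have h2 := pr_compl hμ n (T n)
  have h3 : min (δ / 2) (1 / 4) ≤ δ / 2 := min_le_left _ _
  linarith

end H29I
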