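import Pool.Agent.H29Ising.Stmts2

set_option autoImplicit false

namespace H29I
open Finset Filter Topology MeasureTheory

namespace P2

lemma frd_eq {n : ℕ} (G : SimpleGraph (Fin n)) (k : ℕ) :
    frd G k = (∑ v, (if dg G v = k then (1 : ℝ) else 0)) / n := by
  unfold frd
  rw [Finset.card_filter]
  push_cast
  congr 1

lemma split {n : ℕ} (G : SimpleGraph (Fin n)) (K : ℕ) :
    (∑ v, (if dg G v ≤ K then (0 : ℝ) else dg G v)) / n =
      (∑ v, (dg G v : ℝ)) / n - ∑ k ∈ range (K + 1), (k : ℝ) * frd G k := by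
  have h1 : ∑ k ∈ range (K + 1), (k : ℝ) * frd G k =
      (∑ v, (if dg G v ≤ K then (dg G v : ℝ) else 0)) / n := by
    rw [Finset.sum_div]
    have h2 : ∀ k ∈ range (K + 1), (k : ℝ) * frd G k =
        ∑ v, (if dg G v = k then (k : ℝ) / n else 0) := by
      intro k _
      rw [frd_eq, Finset.sum_div, Finset.mul_sum]
      refine sum_congr rfl fun v _ => ?_
      split_ifs <;> ring
    rw [Finset.sum_congr rfl h2, Finset.sum_comm]
    refine sum_congr rfl fun v _ => ?_
    rw [Finset.sum_ite_eq]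
    simp only [mem_range, Nat.lt_succ_iff]
    split_ifs <;> simp
  rw [h1, ← sub_div, ← sum_sub_distrib]
  congr 1
  refine sum_congr rfl fun v _ => ?_
  split_ifs <;> ring

lemma markov (μ : (n : ℕ) → SimpleGraph (Fin n) → ℝ) (hμ : IsLaw μ) {n : ℕ} (hn : 0 < n)
    {ε : ℝ} (hε : 0 < ε) (X : SimpleGraph (Fin n) → ℝ) (hX : ∀ G, 0 ≤ X G) :
    pr μ n (fun G => ε * n < X G) ≤ (∑ G, μ n G * (X G / n)) / ε := by
  classical
  unfold pr
  rw [Finset.sum_div]
  refine sum_le_sum fun G _ => ?_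
  have hn' : (0 : ℝ) < n := by exact_mod_cast hn
  have h0 := hμ.1 n G
  split_ifs with h
  · have h1 : 1 ≤ X G / n / ε := by
      rw [le_div_iff₀ hε, le_div_iff₀ hn', one_mul]
      exact h.le
    calc μ n G = μ n G * 1 := (mul_one _).symm
      _ ≤ μ n G * (X G / n / ε) := mul_le_mul_of_nonneg_left h1 h0
      _ = _ := by ring
  · have := hX G
    positivity

end P2

theorem taskP2 : TaskP2 := by
  intro μ hμ hus ε η hε hη
  obtain ⟨p, D, hp, hp1, hD, hfr, hdeg⟩ := hus
  have hεη : 0 < ε * η := mul_pos hε hη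
  have h1 := hD.tendsto_sum_nat
  obtain ⟨K, hK⟩ := eventually_atTop.1
    (h1.eventually (lt_mem_nhds (show D - ε * η / 2 < D by linarith)))
  have h2 := hK (K + 1) (Nat.le_succ K)
  set X : (n : ℕ) → SimpleGraph (Fin n) → ℝ :=
    fun n G => ∑ v, (if dg G v ≤ K then (0 : ℝ) else dg G v) with hXdef
  have hE : ∀ n, ∑ G, μ n G * (X n G / n) =
      (∑ G : SimpleGraph (Fin n), μ n G * ((∑ v, (dg G v : ℝ)) / n)) -
        ∑ k ∈ range (K + 1), (k : ℝ) * ∑ G, μ n G * frd G k := by
    intro n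
    have h3 : ∀ G ∈ (univ : Finset (SimpleGraph (Fin n))), μ n G * (X n G / n) =
        μ n G * ((∑ v, (dg G v : ℝ)) / n) -
          ∑ k ∈ range (K + 1), (k : ℝ) * (μ n G * frd G k) := by
      intro G _
      simp only [hXdef]
      rw [P2.split, mul_sub, Finset.mul_sum]
      congr 1
      refine sum_congr rfl fun k _ => ?_
      ring
    rw [Finset.sum_congr rfl h3, Finset.sum_sub_distrib, Finset.sum_comm]
    congr 1
    refine sum_congr rfl fun k _ => ?_
    rw [Finset.mul_sum]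
  have hlim : Tendsto (fun n => ∑ G, μ n G * (X n G / n)) atTop
      (𝓝 (D - ∑ k ∈ range (K + 1), (k : ℝ) * p k)) := by
    simp_rw [hE]
    exact hdeg.sub (tendsto_finsetSum _ fun k _ => (hfr k).const_mul _)
  have hlt : D - ∑ k ∈ range (K + 1), (k : ℝ) * p k < ε * η := by linarith
  obtain ⟨N, hN⟩ := eventually_atTop.1 (hlim.eventually (gt_mem_nhds hlt))
  refine ⟨K, max N 1, fun n hn => ?_⟩
  have hn1 : 0 < n := lt_of_lt_of_le one_pos ((le_max_right _ _).trans hn)
  have hnN : N ≤ n := (le_max_left _ _).trans hn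
  have hX0 : ∀ G, 0 ≤ X n G := by
    intro G
    refine sum_nonneg fun v _ => ?_
    split_ifs
    · exact le_refl _
    · positivity
  refine (P2.markov μ hμ hn1 hε (X n) hX0).trans ?_
  rw [div_le_iff₀ hε]
  have := hN n hnN
  linarith

end H29I
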