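import Pool.Agent.H29Ising.Stmts

namespace H29I

theorem taskD0 : TaskD0 := by
  intro V G v r
  induction r with
  | zero =>
    ext u
    change u = v ↔ G.edist v u ≤ ((0 : ℕ) : ℕ∞)
    rw [Nat.cast_zero, nonpos_iff_eq_zero, SimpleGraph.edist_eq_zero_iff, eq_comm]
  | succ r ih =>
    ext u
    change (u ∈ bl G v r ∨ ∃ w ∈ bl G v r, G.Adj w u) ↔ G.edist v u ≤ ((r + 1 : ℕ) : ℕ∞)
    rw [ih]
    constructor
    · rintro (h | ⟨w, hw, ha⟩)
      · have h' : G.edist v u ≤ r := h
        exact h'.trans (by exact_mod_cast Nat.le_succ r)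
      · have h' : G.edist v w ≤ r := hw
        have h1 : G.edist w u = 1 := SimpleGraph.edist_eq_one_iff_adj.2 ha
        calc G.edist v u ≤ G.edist v w + G.edist w u := SimpleGraph.edist_triangle
          _ ≤ r + 1 := add_le_add h' h1.le
          _ = ((r + 1 : ℕ) : ℕ∞) := by push_cast; rfl
    · intro h
      have hne : G.edist v u ≠ ⊤ := ne_top_of_le_ne_top (ENat.natCast_ne_top _) h
      obtain ⟨p, hp⟩ := SimpleGraph.exists_walk_of_edist_ne_top hne
      rw [← hp] at h
      have hn : p.length ≤ r + 1 := by exact_mod_cast h
      by_cases hr : p.length ≤ r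
      · left
        change G.edist v u ≤ r
        rw [← hp]
        exact_mod_cast hr
      · right
        obtain ⟨q, hq⟩ : ∃ q : G.Walk u v, q.length = p.length := ⟨p.reverse, by simp⟩
        cases q with
        | nil => simp at hq; omega
        | cons ha q =>
          rename_i w
          refine ⟨w, ?_, ha.symm⟩
          change G.edist v w ≤ r
          have h2 : q.length ≤ r := by
            rw [SimpleGraph.Walk.length_cons] at hq
            omega
          rw [SimpleGraph.edist_comm]
          exact (SimpleGraph.Walk.edist_le q).trans (by exact_mod_cast h2)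

end H29I
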