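import Pool.Agent.H29Ising.Stmts2
import Pool.Agent.H29Ising.TaskD0

namespace H29I
open Finset Filter Topology MeasureTheory

namespace P3

/-- index set of the finite rooted graphs -/
abbrev Ix := (m : ℕ) × (SimpleGraph (Fin m) × Fin m)

/-- rooted isomorphism -/
def rel (x y : Ix) : Prop := ∃ φ : x.2.1 ≃g y.2.1, φ x.2.2 = y.2.2

theorem rel_equiv : Equivalence rel := by
  refine ⟨fun x => ⟨SimpleGraph.Iso.refl, rfl⟩, ?_, ?_⟩
  · rintro x y ⟨φ, hφ⟩
    exact ⟨φ.symm, by rw [← hφ]; exact φ.symm_apply_apply _⟩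
  · rintro x y z ⟨φ, hφ⟩ ⟨ψ, hψ⟩
    refine ⟨φ.trans ψ, ?_⟩
    rw [← hψ, ← hφ]
    rfl

/-- the setoid -/
def st : Setoid Ix := ⟨rel, rel_equiv⟩

theorem ball_finite (G : SimpleGraph ℕ) (h : ∀ v, {u | G.Adj v u}.Finite) (v : ℕ) (r : ℕ) :
    {u | G.edist v u ≤ r}.Finite := by
  rw [← taskD0 ℕ G v r]
  induction r with
  | zero => exact Set.finite_singleton v
  | succ r ih =>
    have : bl G v (r + 1) = bl G v r ∪ ⋃ w ∈ bl G v r, {u | G.Adj w u} := by
      ext u
      change (u ∈ bl G v r ∨ ∃ w ∈ bl G v r, G.Adj w u) ↔ _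
      simp
    rw [this]
    exact ih.union (ih.biUnion (fun w _ => h w))

theorem exists_ix (G : SimpleGraph ℕ) (h : ∀ v, {u | G.Adj v u}.Finite) (r : ℕ) :
    ∃ x : Ix, IsoBall G 0 r x.2.1 x.2.2 := by
  classical
  have hfin := ball_finite G h 0 r
  haveI : Fintype {u | G.edist 0 u ≤ r} := hfin.fintype
  have h0 : (0 : ℕ) ∈ {u | G.edist 0 u ≤ r} := by
    change G.edist 0 0 ≤ r
    rw [SimpleGraph.edist_self]
    exact bot_le
  let e := Fintype.equivFin {u | G.edist 0 u ≤ r}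
  refine ⟨⟨Fintype.card {u | G.edist 0 u ≤ r},
    ((G.induce {u | G.edist 0 u ≤ r}).map e.toEmbedding, e ⟨0, h0⟩)⟩, ?_⟩
  exact ⟨SimpleGraph.Iso.map e _, h0, rfl⟩

theorem isoBall_of_rel {G : SimpleGraph ℕ} {r : ℕ} {x y : Ix} (hxy : rel x y)
    (hx : IsoBall G 0 r x.2.1 x.2.2) : IsoBall G 0 r y.2.1 y.2.2 := by
  obtain ⟨φ, hv, hφ⟩ := hx
  obtain ⟨ψ, hψ⟩ := hxy
  refine ⟨φ.trans ψ, hv, ?_⟩
  rw [← hψ, ← hφ]
  rfl

theorem rel_of_isoBall {G : SimpleGraph ℕ} {r : ℕ} {x y : Ix}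
    (hx : IsoBall G 0 r x.2.1 x.2.2) (hy : IsoBall G 0 r y.2.1 y.2.2) : rel x y := by
  obtain ⟨φ, hv, hφ⟩ := hx
  obtain ⟨ψ, hw, hψ⟩ := hy
  refine ⟨φ.symm.trans ψ, ?_⟩
  rw [← hφ, ← hψ]
  change ψ (φ.symm (φ ⟨0, hv⟩)) = ψ ⟨0, hw⟩
  rw [φ.symm_apply_apply]

end P3

open P3 in
theorem taskP3 : TaskP3 := by
  classical
  intro Ω _ P _ T hlf hac hmeas r δ hδ
  let A : Ix → Set Ω := fun x => {ω | IsoBall (T ω) 0 r x.2.1 x.2.2}
  have hAm : ∀ x, MeasurableSet (A x) := fun x => hmeas r x.1 x.2.1 x.2.2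
  let Q := Quotient P3.st
  haveI : Countable Ix := inferInstance
  haveI : Countable Q := inferInstance
  let B : Q → Set Ω := fun q => A q.out
  have hBm : ∀ q, MeasurableSet (B q) := fun q => hAm _
  have hdisj : Pairwise (Function.onFun Disjoint B) := by
    intro q q' hqq
    rw [Function.onFun, Set.disjoint_left]
    intro ω h1 h2
    apply hqq
    have h3 : rel q.out q'.out := rel_of_isoBall h1 h2
    have h4 : (Quotient.mk P3.st q.out) = Quotient.mk P3.st q'.out := Quotient.sound h3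
    rw [Quotient.out_eq, Quotient.out_eq] at h4
    exact h4
  have hun : ⋃ q, B q = Set.univ := by
    rw [Set.eq_univ_iff_forall]
    intro ω
    obtain ⟨x, hx⟩ := exists_ix (T ω) (hlf ω) r
    rw [Set.mem_iUnion]
    refine ⟨Quotient.mk P3.st x, ?_⟩
    have h3 : rel x (Quotient.mk P3.st x).out := by
      have h4 : Quotient.mk P3.st (Quotient.mk P3.st x).out = Quotient.mk P3.st x :=
        Quotient.out_eq _
      exact rel_equiv.symm (Quotient.exact h4)
    exact isoBall_of_rel h3 hx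
  have hsum : ∑' q, P (B q) = 1 := by
    rw [← measure_iUnion hdisj hBm, hun, measure_univ]
  have hhas : HasSum (fun q => (P (B q)).toReal) 1 := by
    have h1 : HasSum (fun q => (P (B q)).toReal) (∑' q, (P (B q)).toReal) :=
      (ENNReal.summable_toReal (by rw [hsum]; exact ENNReal.one_ne_top)).hasSum
    rw [← ENNReal.tsum_toReal_eq (fun q => measure_ne_top P _), hsum] at h1
    simpa using h1
  obtain ⟨F, hF⟩ := ((tendsto_order.1 hhas).1 (1 - δ) (by linarith)).exists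
  -- non acyclic ones have probability zero
  have hzero : ∀ q : Q, ¬ (q.out.2.1).IsAcyclic → (P (B q)).toReal = 0 := by
    intro q hq
    have h1 : P (B q) = 0 := by
      have h2 : ∀ᵐ ω ∂P, ω ∉ B q := by
        filter_upwards [hac] with ω hω hmem
        obtain ⟨φ, -, -⟩ := hmem
        exact hq (φ.isAcyclic_iff.1 (hω.induce _))
      exact measure_eq_zero_iff_ae_notMem.2 h2
    rw [h1]
    rfl
  let F' : Finset Q := F.filter (fun q => (q.out.2.1).IsAcyclic)
  have hF' : ∑ q ∈ F', (P (B q)).toReal = ∑ q ∈ F, (P (B q)).toReal := by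
    apply Finset.sum_filter_of_ne
    intro q _ hne
    by_contra h
    exact hne (hzero q h)
  let e : F' ≃ Fin F'.card := F'.equivFin
  refine ⟨F'.card, fun i => ((e.symm i : Q).out).1, fun i => ((e.symm i : Q).out).2.1,
    fun i => ((e.symm i : Q).out).2.2, ?_, ?_, ?_⟩
  · intro i
    exact (Finset.mem_filter.1 (e.symm i).2).2
  · rintro i j hij hrel
    apply hij
    have h3 : rel ((e.symm i : Q).out) ((e.symm j : Q).out) := hrel
    have h4 : (Quotient.mk P3.st (e.symm i : Q).out) = Quotient.mk P3.st (e.symm j : Q).out :=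
      Quotient.sound h3
    rw [Quotient.out_eq, Quotient.out_eq] at h4
    exact e.symm.injective (Subtype.ext h4)
  · have h1 : ∑ i : Fin F'.card, (P (B (e.symm i : Q))).toReal = ∑ q ∈ F', (P (B q)).toReal := by
      rw [e.symm.sum_comp (fun q : F' => (P (B (q : Q))).toReal)]
      exact Finset.sum_coe_sort F' (fun q => (P (B q)).toReal)
    have h2 : 1 - δ ≤ ∑ i : Fin F'.card, (P (B (e.symm i : Q))).toReal := by
      rw [h1, hF']
      exact hF.le
    exact h2

end H29I
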