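import Pool.Agent.H29Ising.Stmts2

/-! Task P5: union bound for the ball statistics. -/

namespace H29I
open Finset Filter Topology MeasureTheory

theorem taskP5 : TaskP5 := by
  intro μ hμ Ω _ P T hL r ℓ m H o δ' η hδ hη
  obtain ⟨h0, h1⟩ := hμ
  have hlim : ∀ i : Fin ℓ, Tendsto (fun n => pr μ n (fun G => δ' < |fr G r (H i) (o i) -
      (P {ω | IsoBall (T ω) 0 r (H i) (o i)}).toReal|)) atTop (𝓝 0) :=
    fun i => hL.2 r (m i) (H i) (o i) δ' hδ
  have hsum : Tendsto (fun n => ∑ i : Fin ℓ, pr μ n (fun G => δ' < |fr G r (H i) (o i) -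
      (P {ω | IsoBall (T ω) 0 r (H i) (o i)}).toReal|)) atTop (𝓝 0) := by
    have := tendsto_finsetSum (univ : Finset (Fin ℓ)) (fun i _ => hlim i)
    simpa using this
  have hev := hsum.eventually (gt_mem_nhds hη)
  rw [eventually_atTop] at hev
  obtain ⟨N, hN⟩ := hev
  refine ⟨N, fun n hn => ?_⟩
  have h2 := hN n hn
  have key : 1 ≤ pr μ n (fun G => ∀ i, |fr G r (H i) (o i) -
      (P {ω | IsoBall (T ω) 0 r (H i) (o i)}).toReal| ≤ δ') +
      ∑ i : Fin ℓ, pr μ n (fun G => δ' < |fr G r (H i) (o i) -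
      (P {ω | IsoBall (T ω) 0 r (H i) (o i)}).toReal|) := by
    classical
    unfold pr
    rw [Finset.sum_comm, ← Finset.sum_add_distrib, ← h1 n]
    apply Finset.sum_le_sum
    intro G _
    have hG := h0 n G
    have hnn : ∀ i ∈ (univ : Finset (Fin ℓ)), 0 ≤ (if δ' < |fr G r (H i) (o i) -
        (P {ω | IsoBall (T ω) 0 r (H i) (o i)}).toReal| then μ n G else 0) := by
      intro i _
      split_ifs <;> simp [hG]
    by_cases hall : ∀ i, |fr G r (H i) (o i) -
      (P {ω | IsoBall (T ω) 0 r (H i) (o i)}).toReal| ≤ δ'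
    · rw [if_pos hall]
      have := Finset.sum_nonneg hnn
      linarith
    · rw [if_neg hall, zero_add]
      push Not at hall
      obtain ⟨i, hi⟩ := hall
      have h3 := Finset.single_le_sum hnn (mem_univ i)
      rw [if_pos hi] at h3
      exact h3
  linarith

end H29I
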