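import Pool.Agent.H29Ising.Stmts

set_option autoImplicit false
set_option linter.unusedSectionVars false

/-! Task R2: Ruozzi's inequality for attractive pairwise models. -/

namespace H29I
namespace R2

open Finset

section
variable {V : Type} [Fintype V] [DecidableEq V]

theorem wt_pos (β : ℝ) (E : Finset (V × V)) (B : V → ℝ) (σ : V → Bool) : 0 < wt β E B σ :=
  Real.exp_pos _

/-- restricted partition function -/
noncomputable def zz (β : ℝ) (E : Finset (V × V)) (B : V → ℝ) (u v : V) (s t : Bool) : ℝ :=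
  ∑ σ : V → Bool, if σ u = s ∧ σ v = t then wt β E B σ else 0

theorem sum_zz (β : ℝ) (E : Finset (V × V)) (B : V → ℝ) (u v : V) (g : Bool → Bool → ℝ) :
    ∑ σ : V → Bool, wt β E B σ * g (σ u) (σ v) = ∑ s, ∑ t, zz β E B u v s t * g s t := by
  unfold zz
  simp only [Fintype.sum_bool, Finset.sum_mul, ← Finset.sum_add_distrib]
  refine Finset.sum_congr rfl (fun σ _ => ?_)
  cases σ u <;> cases σ v <;> simp

theorem sp_inf_sup (a b : Bool) : sp (a ⊓ b) + sp (a ⊔ b) = sp a + sp b := by
  cases a <;> cases b <;> simp [sp]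

theorem sp_pair (a b c d : Bool) :
    sp a * sp b + sp c * sp d ≤ sp (a ⊓ c) * sp (b ⊓ d) + sp (a ⊔ c) * sp (b ⊔ d) := by
  cases a <;> cases b <;> cases c <;> cases d <;> simp [sp] <;> norm_num

theorem wt_mul_le (β : ℝ) (hβ : 0 ≤ β) (E : Finset (V × V)) (B : V → ℝ) (σ τ : V → Bool) :
    wt β E B σ * wt β E B τ ≤ wt β E B (σ ⊓ τ) * wt β E B (σ ⊔ τ) := by
  unfold wt
  rw [← Real.exp_add, ← Real.exp_add]
  apply Real.exp_le_exp.2
  have h1 : ∑ v, B v * sp (σ v) + ∑ v, B v * sp (τ v) =
      ∑ v, B v * sp ((σ ⊓ τ) v) + ∑ v, B v * sp ((σ ⊔ τ) v) := by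
    rw [← Finset.sum_add_distrib, ← Finset.sum_add_distrib]
    refine Finset.sum_congr rfl (fun v _ => ?_)
    rw [← mul_add, ← mul_add, ← sp_inf_sup (σ v) (τ v)]
    rfl
  have h2 : ∑ p ∈ E, sp (σ p.1) * sp (σ p.2) + ∑ p ∈ E, sp (τ p.1) * sp (τ p.2) ≤
      ∑ p ∈ E, sp ((σ ⊓ τ) p.1) * sp ((σ ⊓ τ) p.2) + ∑ p ∈ E, sp ((σ ⊔ τ) p.1) * sp ((σ ⊔ τ) p.2) := by
    rw [← Finset.sum_add_distrib, ← Finset.sum_add_distrib]
    exact Finset.sum_le_sum (fun p _ => sp_pair _ _ _ _)
  have h3 := mul_le_mul_of_nonneg_left h2 hβ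
  rw [mul_add, mul_add] at h3
  linarith

theorem zz_pos (β : ℝ) (E : Finset (V × V)) (B : V → ℝ) {u v : V} (huv : u ≠ v) (s t : Bool) :
    0 < zz β E B u v s t := by
  unfold zz
  refine Finset.sum_pos' (fun σ _ => ?_) ⟨fun w => if w = u then s else t, Finset.mem_univ _, ?_⟩
  · split_ifs
    · exact (wt_pos β E B σ).le
    · exact le_rfl
  · rw [if_pos ⟨by simp, by simp [huv.symm]⟩]
    exact wt_pos _ _ _ _

theorem zz_super (β : ℝ) (hβ : 0 ≤ β) (E : Finset (V × V)) (B : V → ℝ) (u v : V) :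
    zz β E B u v true false * zz β E B u v false true ≤
      zz β E B u v false false * zz β E B u v true true := by
  unfold zz
  have hnn : ∀ (p : (V → Bool) → Prop) [DecidablePred p],
      (0 : (V → Bool) → ℝ) ≤ fun σ => if p σ then wt β E B σ else 0 := by
    intro p _ σ
    show (0 : ℝ) ≤ if p σ then wt β E B σ else 0
    split_ifs
    · exact (wt_pos β E B σ).le
    · exact le_rfl
  refine four_functions_theorem_univ
    (fun σ => if σ u = true ∧ σ v = false then wt β E B σ else 0)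
    (fun σ => if σ u = false ∧ σ v = true then wt β E B σ else 0)
    (fun σ => if σ u = false ∧ σ v = false then wt β E B σ else 0)
    (fun σ => if σ u = true ∧ σ v = true then wt β E B σ else 0) (hnn _) (hnn _) (hnn _) (hnn _) ?_
  intro a b
  have hn' : ∀ (p : Prop) [Decidable p] (σ : V → Bool), 0 ≤ if p then wt β E B σ else 0 := by
    intro p _ σ
    split_ifs
    · exact (wt_pos β E B σ).le
    · exact le_rfl
  by_cases ha : a u = true ∧ a v = false
  · by_cases hb : b u = false ∧ b v = true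
    · have h1 : (a ⊓ b) u = false ∧ (a ⊓ b) v = false := by
        simp [Pi.inf_apply, ha.1, ha.2, hb.1, hb.2]
      have h2 : (a ⊔ b) u = true ∧ (a ⊔ b) v = true := by
        simp [Pi.sup_apply, ha.1, ha.2, hb.1, hb.2]
      simp only [if_pos ha, if_pos hb, if_pos h1, if_pos h2]
      exact wt_mul_le β hβ E B a b
    · simp only [if_neg hb, mul_zero]
      exact mul_nonneg (hn' _ _) (hn' _ _)
  · simp only [if_neg ha, zero_mul]
    exact mul_nonneg (hn' _ _) (hn' _ _)

end

/-- values as an exponential of a bilinear function -/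
theorem rep (z : Bool → Bool → ℝ) (hz : ∀ s t, 0 < z s t)
    (hsup : z true false * z false true ≤ z false false * z true true) :
    ∃ l0 l1 l2 l3 : ℝ, 0 ≤ l3 ∧
      ∀ s t, z s t = Real.exp (l0 + l1 * sp s + l2 * sp t + l3 * (sp s * sp t)) := by
  refine ⟨(Real.log (z true true) + Real.log (z true false) + Real.log (z false true) +
      Real.log (z false false)) / 4,
    (Real.log (z true true) + Real.log (z true false) - Real.log (z false true) -
      Real.log (z false false)) / 4,
    (Real.log (z true true) - Real.log (z true false) + Real.log (z false true) -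
      Real.log (z false false)) / 4,
    (Real.log (z true true) - Real.log (z true false) - Real.log (z false true) +
      Real.log (z false false)) / 4, ?_, ?_⟩
  · have h1 := Real.log_le_log (mul_pos (hz _ _) (hz _ _)) hsup
    rw [Real.log_mul (hz _ _).ne' (hz _ _).ne', Real.log_mul (hz _ _).ne' (hz _ _).ne'] at h1
    linarith
  · intro s t
    rw [← Real.exp_log (hz s t)]
    congr 1
    cases s <;> cases t <;> simp only [sp, if_true, Bool.false_eq_true, if_false] <;> ring

theorem L2_ge (β a c : ℝ) : |a| + |c| - |β| ≤ L2 β a c := by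
  have key : ∀ s t : Bool, β * (sp s * sp t) + a * sp s + c * sp t ≤ L2 β a c := by
    intro s t
    unfold L2
    rw [Real.le_log_iff_exp_le (Finset.sum_pos (fun s _ => Finset.sum_pos
      (fun t _ => Real.exp_pos _) ⟨true, Finset.mem_univ _⟩) ⟨true, Finset.mem_univ _⟩)]
    refine le_trans ?_ (Finset.single_le_sum (f := fun s => ∑ t : Bool,
      Real.exp (β * (sp s * sp t) + a * sp s + c * sp t))
      (fun s _ => Finset.sum_nonneg (fun t _ => (Real.exp_pos _).le)) (Finset.mem_univ s))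
    exact Finset.single_le_sum (f := fun t => Real.exp (β * (sp s * sp t) + a * sp s + c * sp t))
      (fun t _ => (Real.exp_pos _).le) (Finset.mem_univ t)
  have h1 := key true true
  have h2 := key true false
  have h3 := key false true
  have h4 := key false false
  simp only [sp, if_true, Bool.false_eq_true, if_false] at h1 h2 h3 h4
  rcases abs_cases a with ⟨ha, _⟩ | ⟨ha, _⟩ <;> rcases abs_cases c with ⟨hc, _⟩ | ⟨hc, _⟩ <;>
    rcases abs_cases β with ⟨hb, _⟩ | ⟨hb, _⟩ <;> rw [ha, hc, hb] <;> nlinarith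

theorem bdd (β x y : ℝ) (hx : |x| < 1) (hy : |y| < 1) :
    BddBelow (Set.range (fun p : ℝ × ℝ => L2 β p.1 p.2 - p.1 * x - p.2 * y)) := by
  refine ⟨-|β|, ?_⟩
  rintro _ ⟨⟨a, c⟩, rfl⟩
  have h1 := L2_ge β a c
  have h2 : a * x ≤ |a| := by
    have := abs_mul a x
    have h3 := le_abs_self (a * x)
    have h4 : |a| * |x| ≤ |a| := by nlinarith [abs_nonneg a]
    linarith
  have h3 : c * y ≤ |c| := by
    have := abs_mul c y
    have h3 := le_abs_self (c * y)
    have h4 : |c| * |y| ≤ |c| := by nlinarith [abs_nonneg c]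
    linarith
  show -|β| ≤ L2 β a c - a * x - c * y
  linarith

theorem G2_le (β x y : ℝ) (hx : |x| < 1) (hy : |y| < 1) (a c : ℝ) :
    G2 β x y ≤ L2 β a c - a * x - c * y :=
  ciInf_le (bdd β x y hx hy) (a, c)

theorem le_G2 (β x y r : ℝ) (h : ∀ a c, r ≤ L2 β a c - a * x - c * y) : r ≤ G2 β x y :=
  le_ciInf (fun p => h p.1 p.2)

/-- log of the four-term sum -/
theorem log_four (l0 l1 l2 l3 β a c : ℝ) :
    Real.log (∑ s : Bool, ∑ t : Bool, Real.exp (l0 + l1 * sp s + l2 * sp t + l3 * (sp s * sp t)) *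
      Real.exp (β * (sp s * sp t) + a * sp s + c * sp t)) = l0 + L2 (l3 + β) (l1 + a) (l2 + c) := by
  have h1 : ∑ s : Bool, ∑ t : Bool, Real.exp (l0 + l1 * sp s + l2 * sp t + l3 * (sp s * sp t)) *
      Real.exp (β * (sp s * sp t) + a * sp s + c * sp t) = Real.exp l0 *
      ∑ s : Bool, ∑ t : Bool, Real.exp ((l3 + β) * (sp s * sp t) + (l1 + a) * sp s +
        (l2 + c) * sp t) := by
    rw [Finset.mul_sum]
    refine Finset.sum_congr rfl (fun s _ => ?_)
    rw [Finset.mul_sum]
    refine Finset.sum_congr rfl (fun t _ => ?_)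
    rw [← Real.exp_add, ← Real.exp_add]
    congr 1
    ring
  rw [h1, Real.log_mul (Real.exp_pos _).ne' (Finset.sum_pos (fun s _ => Finset.sum_pos
      (fun t _ => Real.exp_pos _) ⟨true, Finset.mem_univ _⟩) ⟨true, Finset.mem_univ _⟩).ne',
    Real.log_exp]
  rfl

/-- Gibbs inequality for one spin -/
theorem gibbs1 (b x : ℝ) (hx : |x| < 1) :
    b * x + h1 x ≤ Real.log (Real.exp b + Real.exp (-b)) := by
  obtain ⟨hx1, hx2⟩ := abs_lt.1 hx
  have hp1 : 0 < 1 + x := by linarith
  have hq1 : 0 < 1 - x := by linarith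
  have hp : 0 < (1 + x) / 2 := by linarith
  have hq : 0 < (1 - x) / 2 := by linarith
  have h1e : h1 x = -((1 + x) / 2) * Real.log ((1 + x) / 2) - (1 - x) / 2 * Real.log ((1 - x) / 2) := by
    unfold h1
    rw [Real.binEntropy, Real.log_inv, Real.log_inv]
    have : 1 - (1 + x) / 2 = (1 - x) / 2 := by ring
    rw [this]
    ring
  set Z := Real.exp b + Real.exp (-b) with hZ
  have hZ0 : 0 < Z := by positivity
  have g1 : (1 + x) / 2 * (Real.log (Real.exp b / ((1 + x) / 2 * Z))) ≤
      (1 + x) / 2 * (Real.exp b / ((1 + x) / 2 * Z) - 1) :=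
    mul_le_mul_of_nonneg_left (Real.log_le_sub_one_of_pos (by positivity)) hp.le
  have g2 : (1 - x) / 2 * (Real.log (Real.exp (-b) / ((1 - x) / 2 * Z))) ≤
      (1 - x) / 2 * (Real.exp (-b) / ((1 - x) / 2 * Z) - 1) :=
    mul_le_mul_of_nonneg_left (Real.log_le_sub_one_of_pos (by positivity)) hq.le
  rw [Real.log_div (Real.exp_pos _).ne' (by positivity), Real.log_exp,
    Real.log_mul hp.ne' hZ0.ne'] at g1
  rw [Real.log_div (Real.exp_pos _).ne' (by positivity), Real.log_exp,
    Real.log_mul hq.ne' hZ0.ne'] at g2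
  have g3 : (1 + x) / 2 * (Real.exp b / ((1 + x) / 2 * Z) - 1) +
      (1 - x) / 2 * (Real.exp (-b) / ((1 - x) / 2 * Z) - 1) = 0 := by
    have h3 : (1 + x) / 2 * (Real.exp b / ((1 + x) / 2 * Z)) = Real.exp b / Z := by
      field_simp
    have h4 : (1 - x) / 2 * (Real.exp (-b) / ((1 - x) / 2 * Z)) = Real.exp (-b) / Z := by
      field_simp
    have h5 : Real.exp b / Z + Real.exp (-b) / Z = 1 := by
      rw [← add_div, ← hZ, div_self hZ0.ne']
    rw [mul_sub, mul_sub, h3, h4]
    linarith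
  rw [h1e]
  nlinarith

section
variable {V : Type} [Fintype V] [DecidableEq V]

theorem base (β : ℝ) (B m : V → ℝ) (hm : ∀ v, |m v| < 1) :
    ∑ v, (B v * m v + h1 (m v)) ≤ Real.log (Zp β (∅ : Finset (V × V)) B) := by
  have h1 : Zp β (∅ : Finset (V × V)) B = ∏ v, (Real.exp (B v) + Real.exp (-(B v))) := by
    unfold Zp wt
    have h2 : ∀ v, Real.exp (B v) + Real.exp (-(B v)) = ∑ b : Bool, Real.exp (B v * sp b) := by
      intro v
      simp [sp]
    rw [Finset.prod_congr rfl (fun v _ => h2 v), Finset.prod_univ_sum, Fintype.piFinset_univ]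
    refine Finset.sum_congr rfl (fun σ _ => ?_)
    rw [Finset.sum_empty, mul_zero, zero_add, Real.exp_sum]
  rw [h1, Real.log_prod (fun v _ => by positivity)]
  exact Finset.sum_le_sum (fun v _ => gibbs1 (B v) (m v) (hm v))

/-- changed fields -/
def Bc (B : V → ℝ) (u v : V) (a c : ℝ) (w : V) : ℝ :=
  B w + (if w = u then a else 0) + (if w = v then c else 0)

theorem sum_Bc (B : V → ℝ) (u v : V) (a c : ℝ) (f : V → ℝ) :
    ∑ w, Bc B u v a c w * f w = ∑ w, B w * f w + a * f u + c * f v := by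
  unfold Bc
  simp only [add_mul, Finset.sum_add_distrib, ite_mul, zero_mul, Finset.sum_ite_eq',
    Finset.mem_univ, if_true]

theorem Phi_Bc (β : ℝ) (E : Finset (V × V)) (B m : V → ℝ) (u v : V) (a c : ℝ) :
    Phi β E (Bc B u v a c) m = Phi β E B m + a * m u + c * m v := by
  unfold Phi
  simp only [Finset.sum_add_distrib]
  rw [sum_Bc]
  ring

theorem Zp_Bc (β : ℝ) (E : Finset (V × V)) (B : V → ℝ) (u v : V) (a c : ℝ) :
    Zp β E (Bc B u v a c) = ∑ s, ∑ t, zz β E B u v s t *
      Real.exp (0 * (sp s * sp t) + a * sp s + c * sp t) := by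
  rw [← sum_zz β E B u v (fun s t => Real.exp (0 * (sp s * sp t) + a * sp s + c * sp t))]
  unfold Zp
  refine Finset.sum_congr rfl (fun σ _ => ?_)
  unfold wt
  rw [← Real.exp_add, sum_Bc B u v a c (fun w => sp (σ w))]
  congr 1
  ring

theorem Zp_insert (β : ℝ) (E : Finset (V × V)) (B : V → ℝ) (p : V × V) (hp : p ∉ E) :
    Zp β (insert p E) B = ∑ s, ∑ t, zz β E B p.1 p.2 s t *
      Real.exp (β * (sp s * sp t) + 0 * sp s + 0 * sp t) := by
  rw [← sum_zz β E B p.1 p.2 (fun s t => Real.exp (β * (sp s * sp t) + 0 * sp s + 0 * sp t))]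
  unfold Zp
  refine Finset.sum_congr rfl (fun σ _ => ?_)
  unfold wt
  rw [← Real.exp_add, Finset.sum_insert hp]
  congr 1
  ring

end

end R2

open Finset R2 in
theorem taskR2 : TaskR2 := by
  intro hR1 V _ _ β E B m hβ hE hm
  induction E using Finset.induction_on generalizing B with
  | empty =>
    have h := base β B m hm
    unfold Phi
    rw [Finset.sum_empty, add_zero]
    exact h
  | insert p E hp ih =>
    have hE' : ∀ q ∈ E, q.1 ≠ q.2 := fun q hq => hE q (Finset.mem_insert_of_mem hq)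
    have hne : p.1 ≠ p.2 := hE p (Finset.mem_insert_self _ _)
    obtain ⟨l0, l1, l2, l3, hl3, hz⟩ := rep (zz β E B p.1 p.2)
      (fun s t => zz_pos β E B hne s t) (zz_super β hβ E B p.1 p.2)
    -- the induction hypothesis
    have k1 : Phi β E B m ≤ l0 + l1 * m p.1 + l2 * m p.2 + G2 l3 (m p.1) (m p.2) := by
      have h2 : Phi β E B m - l0 - l1 * m p.1 - l2 * m p.2 ≤ G2 l3 (m p.1) (m p.2) := by
        refine le_G2 _ _ _ _ (fun a c => ?_)
        have h3 := ih hE' (B := Bc B p.1 p.2 (a - l1) (c - l2))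
        rw [Phi_Bc, Zp_Bc] at h3
        simp only [hz] at h3
        rw [log_four] at h3
        have e1 : l3 + 0 = l3 := add_zero _
        have e2 : l1 + (a - l1) = a := by ring
        have e3 : l2 + (c - l2) = c := by ring
        rw [e1, e2, e3] at h3
        linarith
      linarith
    have h4 : Real.log (Zp β (insert p E) B) = l0 + L2 (l3 + β) l1 l2 := by
      rw [Zp_insert β E B p hp]
      simp only [hz]
      rw [log_four, add_zero, add_zero]
    have h5 := G2_le (l3 + β) (m p.1) (m p.2) (hm _) (hm _) l1 l2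
    have h6 := hR1 l3 β (m p.1) (m p.2) hl3 hβ (hm _) (hm _)
    have h7 : Phi β (insert p E) B m = Phi β E B m +
        (G2 β (m p.1) (m p.2) - h1 (m p.1) - h1 (m p.2)) := by
      unfold Phi
      rw [Finset.sum_insert hp]
      ring
    rw [h7, h4]
    linarith

end H29I
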