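import Pool.Agent.H29Ising.Stmts

/-! Task S of project H29-ISING. -/

namespace H29I
open Finset

namespace TS

theorem sp_abs (b : Bool) : |sp b| = 1 := by cases b <;> simp [sp]

theorem sp_sq (b : Bool) : sp b * sp b = 1 := by cases b <;> simp [sp]

theorem sp_not (b : Bool) : sp (!b) = -sp b := by cases b <;> simp [sp]

theorem sp_le (b : Bool) : sp b ≤ 1 := by cases b <;> simp [sp]

theorem neg_le_sp (b : Bool) : -1 ≤ sp b := by cases b <;> simp [sp]

section
variable {V : Type} [Fintype V] [DecidableEq V]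

theorem wt_pos (β : ℝ) (E : Finset (V × V)) (B : V → ℝ) (σ : V → Bool) : 0 < wt β E B σ :=
  Real.exp_pos _

theorem Zp_pos (β : ℝ) (E : Finset (V × V)) (B : V → ℝ) : 0 < Zp β E B :=
  sum_pos (fun σ _ => wt_pos β E B σ) univ_nonempty

theorem gb_pos (β : ℝ) (E : Finset (V × V)) (B : V → ℝ) (σ : V → Bool) : 0 < gb β E B σ :=
  div_pos (wt_pos β E B σ) (Zp_pos β E B)

theorem sum_gb (β : ℝ) (E : Finset (V × V)) (B : V → ℝ) : ∑ σ, gb β E B σ = 1 := by
  unfold gb
  rw [← sum_div]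
  exact div_self (Zp_pos β E B).ne'

theorem sp4 : ∀ a b c d : Bool, sp a * sp b + sp c * sp d ≤
    sp (a && c) * sp (b && d) + sp (a || c) * sp (b || d) := by
  intro a b c d
  cases a <;> cases b <;> cases c <;> cases d <;> norm_num [sp]

theorem sp2 : ∀ a c : Bool, sp a + sp c = sp (a && c) + sp (a || c) := by
  intro a c
  cases a <;> cases c <;> norm_num [sp]

theorem wt_super (β : ℝ) (E : Finset (V × V)) (B : V → ℝ) (hβ : 0 ≤ β) (σ τ : V → Bool) :
    wt β E B σ * wt β E B τ ≤ wt β E B (σ ⊓ τ) * wt β E B (σ ⊔ τ) := by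
  unfold wt
  rw [← Real.exp_add, ← Real.exp_add, Real.exp_le_exp]
  have h1 : ∑ p ∈ E, sp (σ p.1) * sp (σ p.2) + ∑ p ∈ E, sp (τ p.1) * sp (τ p.2) ≤
      ∑ p ∈ E, sp ((σ ⊓ τ) p.1) * sp ((σ ⊓ τ) p.2) +
        ∑ p ∈ E, sp ((σ ⊔ τ) p.1) * sp ((σ ⊔ τ) p.2) := by
    rw [← sum_add_distrib, ← sum_add_distrib]
    exact sum_le_sum fun p _ => sp4 (σ p.1) (σ p.2) (τ p.1) (τ p.2)
  have h2 : ∑ v, B v * sp (σ v) + ∑ v, B v * sp (τ v) =
      ∑ v, B v * sp ((σ ⊓ τ) v) + ∑ v, B v * sp ((σ ⊔ τ) v) := by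
    rw [← sum_add_distrib, ← sum_add_distrib]
    refine sum_congr rfl fun v _ => ?_
    rw [← mul_add, ← mul_add]
    exact congrArg (fun z => B v * z) (sp2 (σ v) (τ v))
  have h3 := mul_le_mul_of_nonneg_left h1 hβ
  rw [mul_add, mul_add] at h3
  linarith

theorem gb_super (β : ℝ) (E : Finset (V × V)) (B : V → ℝ) (hβ : 0 ≤ β) (σ τ : V → Bool) :
    gb β E B σ * gb β E B τ ≤ gb β E B (σ ⊓ τ) * gb β E B (σ ⊔ τ) := by
  have h := wt_super β E B hβ σ τ
  have hZ := Zp_pos β E B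
  unfold gb
  rw [div_mul_div_comm, div_mul_div_comm]
  exact div_le_div_of_nonneg_right h (mul_pos hZ hZ).le

theorem sp_mono {a b : Bool} (h : a ≤ b) : sp a ≤ sp b := by
  revert h
  cases a <;> cases b <;> simp [sp]

theorem cv_nonneg (β : ℝ) (E : Finset (V × V)) (B : V → ℝ) (x y : V) (hβ : 0 ≤ β) :
    0 ≤ cv β E B x y := by
  have h := fkg (μ := gb β E B) (f := fun σ : V → Bool => sp (σ x) + 1)
    (g := fun σ : V → Bool => sp (σ y) + 1)
    (fun σ => (gb_pos β E B σ).le)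
    (fun σ => by
      change (0 : ℝ) ≤ sp (σ x) + 1
      linarith [neg_le_sp (σ x)])
    (fun σ => by
      change (0 : ℝ) ≤ sp (σ y) + 1
      linarith [neg_le_sp (σ y)])
    (fun σ τ hστ => by
      change sp (σ x) + 1 ≤ sp (τ x) + 1
      linarith [sp_mono (hστ x)])
    (fun σ τ hστ => by
      change sp (σ y) + 1 ≤ sp (τ y) + 1
      linarith [sp_mono (hστ y)])
    (gb_super β E B hβ)
  have e1 : ∑ σ, gb β E B σ * (sp (σ x) + 1) = mag β E B x + 1 := by
    simp only [mul_add, mul_one, sum_add_distrib, sum_gb]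
    rfl
  have e2 : ∑ σ, gb β E B σ * (sp (σ y) + 1) = mag β E B y + 1 := by
    simp only [mul_add, mul_one, sum_add_distrib, sum_gb]
    rfl
  have e3 : ∑ σ, gb β E B σ * ((sp (σ x) + 1) * (sp (σ y) + 1)) =
      (∑ σ : V → Bool, gb β E B σ * (sp (σ x) * sp (σ y))) + mag β E B x + mag β E B y + 1 := by
    have : ∀ σ : V → Bool, gb β E B σ * ((sp (σ x) + 1) * (sp (σ y) + 1)) =
        gb β E B σ * (sp (σ x) * sp (σ y)) + gb β E B σ * sp (σ x) + gb β E B σ * sp (σ y) +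
          gb β E B σ := fun σ => by ring
    rw [sum_congr rfl fun σ _ => this σ, sum_add_distrib, sum_add_distrib, sum_add_distrib, sum_gb]
    rfl
  rw [e1, e2, e3, sum_gb] at h
  unfold cv
  nlinarith

/-! ### derivative in the field -/

theorem wt_shift (β : ℝ) (E : Finset (V × V)) (B : V → ℝ) (t : ℝ) (σ : V → Bool) :
    wt β E (fun u => B u + t) σ =
      Real.exp ((β * ∑ p ∈ E, sp (σ p.1) * sp (σ p.2) + ∑ v, B v * sp (σ v)) +
        t * ∑ v, sp (σ v)) := by
  unfold wt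
  congr 1
  have : ∑ v, (B v + t) * sp (σ v) = ∑ v, B v * sp (σ v) + t * ∑ v, sp (σ v) := by
    rw [mul_sum, ← sum_add_distrib]
    exact sum_congr rfl fun v _ => add_mul _ _ _
  rw [this]
  ring

theorem sum_mag (β : ℝ) (E : Finset (V × V)) (B : V → ℝ) :
    ∑ v, mag β E B v = ∑ σ, gb β E B σ * ∑ v, sp (σ v) := by
  unfold mag
  rw [sum_comm]
  exact sum_congr rfl fun σ _ => (mul_sum _ _ _).symm

theorem sum_cv (β : ℝ) (E : Finset (V × V)) (B : V → ℝ) :
    ∑ v, ∑ w, cv β E B v w = ∑ σ, gb β E B σ * (∑ v, sp (σ v)) ^ 2 -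
      (∑ σ, gb β E B σ * ∑ v, sp (σ v)) ^ 2 := by
  unfold cv
  simp only [sum_sub_distrib]
  congr 1
  · have : ∀ σ : V → Bool, gb β E B σ * (∑ v, sp (σ v)) ^ 2 =
        ∑ v, ∑ w, gb β E B σ * (sp (σ v) * sp (σ w)) := by
      intro σ
      rw [sq, sum_mul_sum, mul_sum]
      exact sum_congr rfl fun v _ => mul_sum _ _ _
    rw [sum_congr rfl fun σ _ => this σ]
    calc ∑ v, ∑ w, ∑ σ : V → Bool, gb β E B σ * (sp (σ v) * sp (σ w))
        = ∑ v, ∑ σ : V → Bool, ∑ w, gb β E B σ * (sp (σ v) * sp (σ w)) :=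
          sum_congr rfl fun v _ => sum_comm
      _ = ∑ σ : V → Bool, ∑ v, ∑ w, gb β E B σ * (sp (σ v) * sp (σ w)) := sum_comm
  · rw [← sum_mag, sq, sum_mul_sum]

theorem abs_sum_sp (σ : V → Bool) : |∑ v, sp (σ v)| ≤ Fintype.card V := by
  calc |∑ v, sp (σ v)| ≤ ∑ v, |sp (σ v)| := abs_sum_le_sum_abs _ _
    _ = Fintype.card V := by
      simp [sp_abs]

theorem abs_mean (β : ℝ) (E : Finset (V × V)) (B : V → ℝ) :
    |∑ σ, gb β E B σ * ∑ v, sp (σ v)| ≤ Fintype.card V := by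
  calc |∑ σ, gb β E B σ * ∑ v, sp (σ v)| ≤ ∑ σ, |gb β E B σ * ∑ v, sp (σ v)| :=
        abs_sum_le_sum_abs _ _
    _ ≤ ∑ σ, gb β E B σ * Fintype.card V := by
        refine sum_le_sum fun σ _ => ?_
        rw [abs_mul, abs_of_pos (gb_pos β E B σ)]
        exact mul_le_mul_of_nonneg_left (abs_sum_sp σ) (gb_pos β E B σ).le
    _ = Fintype.card V := by rw [← sum_mul, sum_gb, one_mul]

theorem hasDeriv_mean (β : ℝ) (E : Finset (V × V)) (B : V → ℝ) (t : ℝ) :
    HasDerivAt (fun t => ∑ σ, gb β E (fun u => B u + t) σ * ∑ v, sp (σ v))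
      (∑ v, ∑ w, cv β E (fun u => B u + t) v w) t := by
  set A : (V → Bool) → ℝ := fun σ => β * ∑ p ∈ E, sp (σ p.1) * sp (σ p.2) + ∑ v, B v * sp (σ v)
    with hA
  set S : (V → Bool) → ℝ := fun σ => ∑ v, sp (σ v) with hS
  have hw : ∀ t σ, wt β E (fun u => B u + t) σ = Real.exp (A σ + t * S σ) :=
    fun t σ => wt_shift β E B t σ
  have he : ∀ (σ : V → Bool) (t : ℝ), HasDerivAt (fun t => Real.exp (A σ + t * S σ))
      (Real.exp (A σ + t * S σ) * S σ) t := by
    intro σ t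
    have h1 : HasDerivAt (fun t : ℝ => A σ + t * S σ) (S σ) t := by
      simpa using ((hasDerivAt_id t).mul_const (S σ)).const_add (A σ)
    exact h1.exp
  have hZ : ∀ t : ℝ, HasDerivAt (fun t => ∑ σ : V → Bool, Real.exp (A σ + t * S σ))
      (∑ σ : V → Bool, Real.exp (A σ + t * S σ) * S σ) t :=
    fun t => HasDerivAt.fun_sum fun σ _ => he σ t
  have hNd : ∀ t : ℝ, HasDerivAt (fun t => ∑ σ : V → Bool, Real.exp (A σ + t * S σ) * S σ)
      (∑ σ : V → Bool, Real.exp (A σ + t * S σ) * S σ * S σ) t :=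
    fun t => HasDerivAt.fun_sum fun σ _ => (he σ t).mul_const (S σ)
  have hZpos : ∀ t : ℝ, 0 < ∑ σ : V → Bool, Real.exp (A σ + t * S σ) :=
    fun t => sum_pos (fun σ _ => Real.exp_pos _) univ_nonempty
  have hgb : ∀ t σ, gb β E (fun u => B u + t) σ =
      Real.exp (A σ + t * S σ) / ∑ σ : V → Bool, Real.exp (A σ + t * S σ) := by
    intro t σ
    unfold gb Zp
    rw [hw, sum_congr rfl fun σ _ => hw t σ]
  have hM : (fun t => ∑ σ, gb β E (fun u => B u + t) σ * S σ) = fun t =>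
      (∑ σ : V → Bool, Real.exp (A σ + t * S σ) * S σ) /
        ∑ σ : V → Bool, Real.exp (A σ + t * S σ) := by
    funext t
    rw [sum_div]
    refine sum_congr rfl fun σ _ => ?_
    rw [hgb]
    ring
  change HasDerivAt (fun t => ∑ σ, gb β E (fun u => B u + t) σ * S σ) _ t
  rw [hM, sum_cv]
  have h2 := (hNd t).fun_div (hZ t) (hZpos t).ne'
  refine HasDerivAt.congr_deriv h2 (Eq.symm ?_)
  change ∑ σ, gb β E (fun u => B u + t) σ * S σ ^ 2 -
    (∑ σ, gb β E (fun u => B u + t) σ * S σ) ^ 2 = _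
  have h3 : ∑ σ, gb β E (fun u => B u + t) σ * S σ ^ 2 =
      (∑ σ : V → Bool, Real.exp (A σ + t * S σ) * S σ * S σ) /
        ∑ σ : V → Bool, Real.exp (A σ + t * S σ) := by
    rw [sum_div]
    refine sum_congr rfl fun σ _ => ?_
    rw [hgb]
    ring
  have h4 : ∑ σ, gb β E (fun u => B u + t) σ * S σ =
      (∑ σ : V → Bool, Real.exp (A σ + t * S σ) * S σ) /
        ∑ σ : V → Bool, Real.exp (A σ + t * S σ) := congrFun hM t
  rw [h3, h4]
  have := (hZpos t).ne'
  field_simp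

theorem exists_shift (β : ℝ) (E : Finset (V × V)) (B : V → ℝ) (δ : ℝ) (hδ : 0 < δ) :
    ∃ t, 0 ≤ t ∧ t ≤ δ ∧
      ∑ v, ∑ w, cv β E (fun u => B u + t) v w ≤ 2 / δ * Fintype.card V := by
  obtain ⟨t, ht, h⟩ := exists_hasDerivAt_eq_slope
    (fun t => ∑ σ, gb β E (fun u => B u + t) σ * ∑ v, sp (σ v))
    (fun t => ∑ v, ∑ w, cv β E (fun u => B u + t) v w) hδ
    (fun t _ => (hasDeriv_mean β E B t).continuousAt.continuousWithinAt)
    (fun t _ => hasDeriv_mean β E B t)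
  refine ⟨t, ht.1.le, ht.2.le, ?_⟩
  rw [h, sub_zero, div_le_iff₀ hδ]
  have h1 := (abs_le.1 (abs_mean β E (fun u => B u + δ))).2
  have h2 := (abs_le.1 (abs_mean β E (fun u => B u + 0))).1
  have h3 : 2 / δ * (Fintype.card V : ℝ) * δ = 2 * Fintype.card V := by
    field_simp
  rw [h3]
  linarith

/-! ### finite energy -/

/-- flip of the spin at `v` -/
def fl (v : V) (σ : V → Bool) : V → Bool := Function.update σ v (!(σ v))

theorem fl_same (v : V) (σ : V → Bool) : fl v σ v = !(σ v) := Function.update_self _ _ _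

theorem fl_ne (v : V) (σ : V → Bool) {u : V} (h : u ≠ v) : fl v σ u = σ u :=
  Function.update_of_ne h _ _

theorem fl_fl (v : V) (σ : V → Bool) : fl v (fl v σ) = σ := by
  funext u
  by_cases h : u = v
  · subst h
    rw [fl_same, fl_same, Bool.not_not]
  · rw [fl_ne v _ h, fl_ne v _ h]

theorem wt_fl (β b : ℝ) (d : ℕ) (hβ : 0 ≤ β) (E : Finset (V × V)) (B : V → ℝ) (v : V)
    (hd : dE E v ≤ d) (hB : |B v| ≤ b) (σ : V → Bool) :
    Real.exp (-(2 * (β * d + b))) * wt β E B σ ≤ wt β E B (fl v σ) := by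
  unfold wt
  rw [← Real.exp_add, Real.exp_le_exp]
  have h1 : ∑ p ∈ E, sp (σ p.1) * sp (σ p.2) - 2 * (dE E v : ℝ) ≤
      ∑ p ∈ E, sp (fl v σ p.1) * sp (fl v σ p.2) := by
    have e : 2 * (dE E v : ℝ) = ∑ p ∈ E, if p.1 = v ∨ p.2 = v then (2 : ℝ) else 0 := by
      unfold dE
      rw [← sum_filter, sum_const, nsmul_eq_mul, mul_comm]
    rw [e, ← sum_sub_distrib]
    refine sum_le_sum fun p _ => ?_
    by_cases h : p.1 = v ∨ p.2 = v
    · rw [if_pos h]
      have b1 : sp (σ p.1) * sp (σ p.2) ≤ 1 := by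
        generalize σ p.1 = x
        generalize σ p.2 = y
        cases x <;> cases y <;> norm_num [sp]
      have b2 : -1 ≤ sp (fl v σ p.1) * sp (fl v σ p.2) := by
        generalize fl v σ p.1 = x
        generalize fl v σ p.2 = y
        cases x <;> cases y <;> norm_num [sp]
      linarith
    · rw [if_neg h]
      push Not at h
      rw [fl_ne v σ h.1, fl_ne v σ h.2]
      linarith
  have h2 : ∑ u, B u * sp (σ u) - 2 * b ≤ ∑ u, B u * sp (fl v σ u) := by
    rw [← sum_erase_add _ _ (mem_univ v), ← sum_erase_add univ (fun u => B u * sp (fl v σ u))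
      (mem_univ v)]
    have e : ∑ u ∈ univ.erase v, B u * sp (fl v σ u) = ∑ u ∈ univ.erase v, B u * sp (σ u) := by
      refine sum_congr rfl fun u hu => ?_
      rw [fl_ne v σ (ne_of_mem_erase hu)]
    rw [e, fl_same, sp_not]
    have := abs_le.1 hB
    have h3 : |B v * sp (σ v)| ≤ b := by
      rw [abs_mul, sp_abs, mul_one]
      exact hB
    have h4 := (abs_le.1 h3).2
    linarith
  have h3 : (dE E v : ℝ) ≤ d := by exact_mod_cast hd
  have h4 := mul_le_mul_of_nonneg_left h1 hβ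
  have h5 := mul_le_mul_of_nonneg_left h3 hβ
  rw [mul_sub] at h4
  linarith

theorem mag_bound (β b : ℝ) (d : ℕ) (_hβ : 0 ≤ β) (_hb : 0 ≤ b) (E : Finset (V × V)) (B : V → ℝ)
    (v : V) (hd : dE E v ≤ d) (hB : |B v| ≤ b) :
    |mag β E B v| ≤ 1 / (1 + Real.exp (-(2 * (β * d + b)))) := by
  set c := Real.exp (-(2 * (β * d + b))) with hc
  have hc0 : 0 < c := Real.exp_pos _
  have hg : ∀ σ, c * gb β E B σ ≤ gb β E B (fl v σ) := by
    intro σ
    have := wt_fl β b d _hβ E B v hd hB σ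
    unfold gb
    rw [← mul_div_assoc]
    exact div_le_div_of_nonneg_right this (Zp_pos β E B).le
  have hbij : Function.Bijective (fl v) := by
    rw [Function.bijective_iff_has_inverse]
    exact ⟨fl v, fl_fl v, fl_fl v⟩
  have hp : ∑ σ, gb β E B σ * (1 + sp (σ v)) = 1 + mag β E B v := by
    simp only [mul_add, mul_one, sum_add_distrib, sum_gb]
    rfl
  have hm : ∑ σ, gb β E B σ * (1 - sp (σ v)) = 1 - mag β E B v := by
    simp only [mul_sub, mul_one, sum_sub_distrib, sum_gb]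
    rfl
  have h1 : c * (1 - mag β E B v) ≤ 1 + mag β E B v := by
    rw [← hp, ← hm, mul_sum]
    rw [← hbij.sum_comp (fun σ => gb β E B σ * (1 + sp (σ v)))]
    refine sum_le_sum fun σ _ => ?_
    rw [fl_same, sp_not, ← mul_assoc, ← sub_eq_add_neg]
    exact mul_le_mul_of_nonneg_right (hg σ) (by linarith [sp_le (σ v)])
  have h2 : c * (1 + mag β E B v) ≤ 1 - mag β E B v := by
    rw [← hp, ← hm, mul_sum]
    rw [← hbij.sum_comp (fun σ => gb β E B σ * (1 - sp (σ v)))]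
    refine sum_le_sum fun σ _ => ?_
    rw [fl_same, sp_not, ← mul_assoc, sub_neg_eq_add]
    exact mul_le_mul_of_nonneg_right (hg σ) (by linarith [neg_le_sp (σ v)])
  rw [abs_le]
  have h3 : 0 < 1 + c := by linarith
  constructor
  · rw [neg_le, ← sub_nonneg]
    have : 0 ≤ (1 / (1 + c) - -mag β E B v) * (1 + c) := by
      rw [sub_mul, div_mul_cancel₀ _ h3.ne']
      linarith
    exact nonneg_of_mul_nonneg_left this h3
  · rw [le_div_iff₀ h3]
    linarith

end

end TS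

theorem taskS : TaskS := by
  refine ⟨?_, ?_, ?_⟩
  · intro V _ _ β E B x y hβ
    exact TS.cv_nonneg β E B x y hβ
  · intro V _ _ β E B δ _ hδ
    exact TS.exists_shift β E B δ hδ
  · intro β b d hβ
    have hc : 0 < Real.exp (-(2 * (β * d + |b|))) := Real.exp_pos _
    refine ⟨1 / (1 + Real.exp (-(2 * (β * d + |b|)))), by positivity, ?_, ?_⟩
    · rw [div_lt_one (by linarith)]
      linarith
    · intro V _ _ E B _ hd hB v
      exact TS.mag_bound β |b| d hβ (abs_nonneg b) E B v (hd v) ((hB v).trans (le_abs_self b))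

end H29I
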