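import Pool.Agent.H29Ising.Core
import Pool.Agent.H29Ising.Stmts2
import Pool.Agent.H29Ising.R1
import Pool.Agent.H29Ising.TaskR2
import Pool.Agent.H29Ising.TaskG1
import Pool.Agent.H29Ising.TaskG2
import Pool.Agent.H29Ising.TaskG3
import Pool.Agent.H29Ising.TaskE1
import Pool.Agent.H29Ising.TaskE2
import Pool.Agent.H29Ising.TaskE3a
import Pool.Agent.H29Ising.TaskE3b
import Pool.Agent.H29Ising.TaskE3c
import Pool.Agent.H29Ising.TaskE3
import Pool.Agent.H29Ising.TaskS
import Pool.Agent.H29Ising.TaskT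
import Pool.Agent.H29Ising.TaskA2
import Pool.Agent.H29Ising.TaskA3
import Pool.Agent.H29Ising.TaskA
import Pool.Agent.H29Ising.TaskC1
import Pool.Agent.H29Ising.TaskC2
import Pool.Agent.H29Ising.TaskC3
import Pool.Agent.H29Ising.TaskC4
import Pool.Agent.H29Ising.TaskC5
import Pool.Agent.H29Ising.TaskD1
import Pool.Agent.H29Ising.TaskD2
import Pool.Agent.H29Ising.TaskD3
import Pool.Agent.H29Ising.TaskP1
import Pool.Agent.H29Ising.TaskP2
import Pool.Agent.H29Ising.TaskP3
import Pool.Agent.H29Ising.TaskP4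
import Pool.Agent.H29Ising.TaskP5
import Pool.Agent.H29Ising.TaskFinal

namespace H29I

theorem stmtA : StmtA :=
  taskA taskG1 taskE1 taskE2 (taskE3 taskE3a taskE3b taskE3c) taskS taskT taskA2 taskA3

theorem stmtC : StmtC := taskC3 taskG2 taskG3 taskC1 taskC2

theorem ruozzi : Ruozzi := taskR2 taskR1

theorem stmtCore : StmtCore := core stmtA ruozzi taskS stmtC taskC4 taskG3 taskC5

theorem final : Final := taskFinal stmtCore taskD1 taskD2 taskD3 taskP1 taskP2 taskP3 taskP4 taskP5

end H29I
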