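import Pool.Agent.H29Ising.Stmts2

namespace H29I
namespace P4

open Finset

theorem sum_frq {V : Type} [Fintype V] (G : SimpleGraph V) (a : V → ℕ) (r : ℕ)
    (S : Finset (WLT r)) [DecidablePred fun v => wl G a r v ∈ S] :
    ∑ t ∈ S, frq G a r t =
      ((univ.filter (fun v => wl G a r v ∈ S)).card : ℝ) / Fintype.card V := by
  classical
  unfold frq
  rw [← Finset.sum_div]
  congr 1
  rw [← Nat.cast_sum]
  congr 1
  rw [Finset.card_eq_sum_card_fiberwise (f := wl G a r)
    (s := univ.filter (fun v => wl G a r v ∈ S)) (t := S) (by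
      intro v hv
      simpa using hv)]
  apply Finset.sum_congr rfl
  intro t ht
  congr 1
  ext v
  simp only [Finset.mem_filter, Finset.mem_univ, true_and]
  constructor
  · intro h
    exact ⟨by rw [h]; exact ht, h⟩
  · intro h
    exact h.2

theorem decomp {n ℓ : ℕ} (A : Fin ℓ → Finset (Fin n)) (hd : ∀ i j, i ≠ j → Disjoint (A i) (A j))
    (Q : Fin n → Prop) [DecidablePred Q] :
    ((univ.filter Q).card : ℝ) = ∑ i, (((A i).filter Q).card : ℝ) +
      (((univ \ univ.biUnion A).filter Q).card : ℝ) := by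
  classical
  have h1 : univ.filter Q = (univ.biUnion (fun i => (A i).filter Q)) ∪
      ((univ \ univ.biUnion A).filter Q) := by
    ext v
    simp only [Finset.mem_filter, Finset.mem_univ, true_and, Finset.mem_union,
      Finset.mem_biUnion, Finset.mem_sdiff]
    constructor
    · intro h
      by_cases h2 : ∃ i, v ∈ A i
      · obtain ⟨i, hi⟩ := h2
        exact Or.inl ⟨i, hi, h⟩
      · exact Or.inr ⟨h2, h⟩
    · rintro (⟨i, _, h⟩ | ⟨_, h⟩)
      · exact h
      · exact h
  have h2 : Disjoint (univ.biUnion (fun i => (A i).filter Q))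
      ((univ \ univ.biUnion A).filter Q) := by
    rw [Finset.disjoint_left]
    intro v hv hv2
    simp only [Finset.mem_filter, Finset.mem_univ, true_and,
      Finset.mem_biUnion, Finset.mem_sdiff] at hv hv2
    obtain ⟨i, hi, _⟩ := hv
    exact hv2.1 ⟨i, hi⟩
  rw [h1, Finset.card_union_of_disjoint h2, Finset.card_biUnion]
  · push_cast
    rfl
  · intro i _ j _ hij
    exact Finset.disjoint_filter_filter (hd i j hij)

theorem rest_le {n ℓ : ℕ} (hn : 0 < n) (A : Fin ℓ → Finset (Fin n))
    (hd : ∀ i j, i ≠ j → Disjoint (A i) (A j)) (p : Fin ℓ → ℝ) (δ δ' : ℝ)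
    (hp : 1 - δ ≤ ∑ i, p i) (hl : (ℓ : ℝ) * δ' ≤ δ)
    (h : ∀ i, |((A i).card : ℝ) / n - p i| ≤ δ') :
    ((univ \ univ.biUnion A).card : ℝ) ≤ 2 * δ * n := by
  have h1 := decomp A hd (fun _ => True)
  simp only [Finset.filter_true] at h1
  rw [Finset.card_univ, Fintype.card_fin] at h1
  have hn' : (0 : ℝ) < n := by exact_mod_cast hn
  have h2 : ∑ i, (p i - δ') ≤ ∑ i, ((A i).card : ℝ) / n := by
    apply Finset.sum_le_sum
    intro i _
    have := (abs_le.1 (h i)).1
    linarith
  rw [Finset.sum_sub_distrib, Finset.sum_const, Finset.card_univ, Fintype.card_fin,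
    nsmul_eq_mul] at h2
  rw [← Finset.sum_div, le_div_iff₀ hn'] at h2
  nlinarith

end P4

open P4 Finset in
theorem taskP4 : TaskP4 := by
  classical
  intro hD1 hD2 K r ℓ m H o p δ δ' hδ hδ' hac hiso hp hl n n' G G' hn hn' hG hG'
  have hnR : (0 : ℝ) < n := by exact_mod_cast hn
  have hnR' : (0 : ℝ) < n' := by exact_mod_cast hn'
  -- the sets of vertices with listed balls
  let A : Fin ℓ → Finset (Fin n) := fun i => univ.filter (fun v => IsoBall G v (r + 2) (H i) (o i))
  let A' : Fin ℓ → Finset (Fin n') :=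
    fun i => univ.filter (fun v => IsoBall G' v (r + 2) (H i) (o i))
  have hdis : ∀ {N : ℕ} (F : SimpleGraph (Fin N)) (i j : Fin ℓ), i ≠ j → ∀ v,
      IsoBall F v (r + 2) (H i) (o i) → IsoBall F v (r + 2) (H j) (o j) → False := by
    intro N F i j hij v h1 h2
    obtain ⟨φ, hv, hφ⟩ := h1
    obtain ⟨ψ, hv', hψ⟩ := h2
    refine hiso i j hij ⟨φ.symm.trans ψ, ?_⟩
    rw [← hφ]
    simpa using hψ
  have hdA : ∀ i j, i ≠ j → Disjoint (A i) (A j) := by
    intro i j hij
    rw [Finset.disjoint_left]
    intro v hv hv'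
    simp only [A, Finset.mem_filter, Finset.mem_univ, true_and] at hv hv'
    exact hdis G i j hij v hv hv'
  have hdA' : ∀ i j, i ≠ j → Disjoint (A' i) (A' j) := by
    intro i j hij
    rw [Finset.disjoint_left]
    intro v hv hv'
    simp only [A', Finset.mem_filter, Finset.mem_univ, true_and] at hv hv'
    exact hdis G' i j hij v hv hv'
  have hfr : ∀ i, |((A i).card : ℝ) / n - p i| ≤ δ' := hG
  have hfr' : ∀ i, |((A' i).card : ℝ) / n' - p i| ≤ δ' := hG'
  have hR := rest_le hn A hdA p δ δ' hp hl hfr
  have hR' := rest_le hn' A' hdA' p δ δ' hp hl hfr'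
  -- the types
  have hc : ∃ c : Fin ℓ → WLT r, (∀ i, ∀ v ∈ A i, wl (trG K G) (trL K G) r v = c i) ∧
      ∀ i, ∀ v ∈ A' i, wl (trG K G') (trL K G') r v = c i := by
    have : ∀ i, ∃ c : WLT r, (∀ v ∈ A i, wl (trG K G) (trL K G) r v = c) ∧
        ∀ v ∈ A' i, wl (trG K G') (trL K G') r v = c := by
      intro i
      by_cases h1 : ∃ v, v ∈ A i
      · obtain ⟨v0, hv0⟩ := h1
        refine ⟨wl (trG K G) (trL K G) r v0, ?_, ?_⟩
        · intro v hv
          simp only [A, Finset.mem_filter, Finset.mem_univ, true_and] at hv hv0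
          exact hD1 _ _ _ G G (H i) (o i) v v0 K r hv hv0
        · intro v hv
          simp only [A, A', Finset.mem_filter, Finset.mem_univ, true_and] at hv hv0
          exact hD1 _ _ _ G' G (H i) (o i) v v0 K r hv hv0
      · by_cases h2 : ∃ v, v ∈ A' i
        · obtain ⟨v0, hv0⟩ := h2
          refine ⟨wl (trG K G') (trL K G') r v0, ?_, ?_⟩
          · intro v hv
            exact absurd ⟨v, hv⟩ h1
          · intro v hv
            simp only [A', Finset.mem_filter, Finset.mem_univ, true_and] at hv hv0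
            exact hD1 _ _ _ G' G' (H i) (o i) v v0 K r hv hv0
        · exact ⟨wl (trG K G) (trL K G) r ⟨0, hn⟩, fun v hv => absurd ⟨v, hv⟩ h1,
            fun v hv => absurd ⟨v, hv⟩ h2⟩
    choose c hc1 hc2 using this
    exact ⟨c, hc1, hc2⟩
  obtain ⟨c, hc1, hc2⟩ := hc
  constructor
  · intro S
    rw [Finset.sum_sub_distrib, sum_frq, sum_frq, Fintype.card_fin, Fintype.card_fin,
      decomp A hdA, decomp A' hdA']
    have e1 : ∀ i, (((A i).filter (fun v => wl (trG K G) (trL K G) r v ∈ S)).card : ℝ) =
        if c i ∈ S then ((A i).card : ℝ) else 0 := by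
      intro i
      split_ifs with h
      · rw [Finset.filter_true_of_mem]
        intro v hv
        rw [hc1 i v hv]; exact h
      · rw [Finset.filter_false_of_mem]
        · simp
        · intro v hv
          rw [hc1 i v hv]; exact h
    have e2 : ∀ i, (((A' i).filter (fun v => wl (trG K G') (trL K G') r v ∈ S)).card : ℝ) =
        if c i ∈ S then ((A' i).card : ℝ) else 0 := by
      intro i
      split_ifs with h
      · rw [Finset.filter_true_of_mem]
        intro v hv
        rw [hc2 i v hv]; exact h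
      · rw [Finset.filter_false_of_mem]
        · simp
        · intro v hv
          rw [hc2 i v hv]; exact h
    simp only [e1, e2]
    set Q : ℝ := (((univ \ univ.biUnion A).filter
      (fun v => wl (trG K G) (trL K G) r v ∈ S)).card : ℝ) with hQ
    set Q' : ℝ := (((univ \ univ.biUnion A').filter
      (fun v => wl (trG K G') (trL K G') r v ∈ S)).card : ℝ) with hQ'
    have hQ0 : 0 ≤ Q / n := by positivity
    have hQ0' : 0 ≤ Q' / n' := by positivity
    have hQ1 : Q / n ≤ 2 * δ := by
      rw [div_le_iff₀ hnR]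
      refine le_trans ?_ hR
      rw [hQ]
      exact_mod_cast Finset.card_filter_le _ _
    have hQ1' : Q' / n' ≤ 2 * δ := by
      rw [div_le_iff₀ hnR']
      refine le_trans ?_ hR'
      rw [hQ']
      exact_mod_cast Finset.card_filter_le _ _
    have hs : |∑ i, ((if c i ∈ S then ((A i).card : ℝ) else 0) / n -
        (if c i ∈ S then ((A' i).card : ℝ) else 0) / n')| ≤ 2 * δ := by
      refine (Finset.abs_sum_le_sum_abs _ _).trans ?_
      have h3 : ∀ i ∈ (univ : Finset (Fin ℓ)), |((if c i ∈ S then ((A i).card : ℝ) else 0) / n -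
        (if c i ∈ S then ((A' i).card : ℝ) else 0) / n')| ≤ 2 * δ' := by
        intro i _
        have h4 := abs_le.1 (hfr i)
        have h5 := abs_le.1 (hfr' i)
        split_ifs
        · rw [abs_le]
          constructor <;> linarith [h4.1, h4.2, h5.1, h5.2]
        · simp only [zero_div, sub_zero, abs_zero]
          linarith
      refine (Finset.sum_le_sum h3).trans ?_
      rw [Finset.sum_const, Finset.card_univ, Fintype.card_fin, nsmul_eq_mul]
      linarith
    rw [Finset.sum_sub_distrib, ← Finset.sum_div, ← Finset.sum_div] at hs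
    rw [add_div, add_div]
    have h6 := abs_le.1 hs
    rw [abs_le]
    constructor <;> linarith [h6.1, h6.2]
  · unfold nontree
    refine le_trans ?_ hR
    have : (univ.filter (fun v => ¬ TreeBall (trG K G) v r)) ⊆ univ \ univ.biUnion A := by
      intro v hv
      simp only [Finset.mem_filter, Finset.mem_univ, true_and] at hv
      simp only [Finset.mem_sdiff, Finset.mem_univ, true_and, Finset.mem_biUnion, not_exists]
      intro i hi
      simp only [A, Finset.mem_filter, Finset.mem_univ, true_and] at hi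
      exact hv (hD2 _ _ G (H i) (o i) v K (r + 2) r (by omega) hi (hac i))
    exact_mod_cast Finset.card_le_card this

end H29I
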