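import Mathlib
import Pool.Agent.H29Ising.Stmts

set_option autoImplicit false

/-! Task T: edges inside a tree ball inject into its non-root vertices. -/

namespace H29I

namespace TaskTAux

lemma bl_mono {V : Type} (G : SimpleGraph V) (w : V) {r R : ℕ} (h : r ≤ R) :
    bl G w r ⊆ bl G w R := by
  induction h with
  | refl => exact subset_rfl
  | step _ ih => exact fun u hu => Or.inl (ih hu)

lemma root_mem {V : Type} (G : SimpleGraph V) (w : V) (R : ℕ) : w ∈ bl G w R :=
  bl_mono G w (Nat.zero_le R) (show w ∈ ({w} : Set V) from rfl)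

lemma reach {V : Type} (G : SimpleGraph V) (w : V) (R : ℕ) : ∀ r : ℕ, r ≤ R → ∀ u : V,
    u ∈ bl G w r → ∀ hu : u ∈ bl G w R,
    (G.induce (bl G w R)).Reachable ⟨w, root_mem G w R⟩ ⟨u, hu⟩ := by
  intro r
  induction r with
  | zero =>
    intro _ u hu hu'
    have : u = w := hu
    subst this
    exact SimpleGraph.Reachable.refl _
  | succ r ih =>
    intro hr u hu hu'
    rcases hu with hu | ⟨v, hv, hvu⟩
    · exact ih (by omega) u hu hu'
    · have hv' : v ∈ bl G w R := bl_mono G w (by omega) hv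
      refine (ih (by omega) v hv hv').trans (SimpleGraph.Adj.reachable ?_)
      exact hvu

lemma key {S : Type} (H : SimpleGraph S) (hH : H.IsAcyclic) (w x y y' : S)
    (hy : H.Reachable w y) (hy' : H.Reachable w y') (h : H.Adj y x) (h' : H.Adj y' x)
    (hd : H.dist w y < H.dist w x) (hd' : H.dist w y' < H.dist w x) : y = y' := by
  classical
  obtain ⟨p, hp, hpl⟩ := hy.exists_path_of_dist
  obtain ⟨q, hq, hql⟩ := hy'.exists_path_of_dist
  have h1 : x ∉ p.support := fun hx => by
    have h2 := SimpleGraph.dist_le (p.takeUntil x hx)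
    have h3 := p.length_takeUntil_le_length hx
    omega
  have h1' : x ∉ q.support := fun hx => by
    have h2 := SimpleGraph.dist_le (q.takeUntil x hx)
    have h3 := q.length_takeUntil_le_length hx
    omega
  have h2 := hH.path_unique ⟨p.concat h, hp.concat h1 h⟩ ⟨q.concat h', hq.concat h1' h'⟩
  have h3 := congrArg (fun r => r.1.penultimate) h2
  simpa using h3

end TaskTAux

open TaskTAux

theorem taskT : TaskT := by
  classical
  intro V _ _ G w R hT
  let w' : bl G w R := ⟨w, root_mem G w R⟩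
  let D : V → ℕ := fun v => if h : v ∈ bl G w R then (G.induce (bl G w R)).dist w' ⟨v, h⟩ else 0
  have hDv : ∀ v (h : v ∈ bl G w R), D v = (G.induce (bl G w R)).dist w' ⟨v, h⟩ := by
    intro v h
    simp only [D]
    rw [dif_pos h]
  have hDw : D w = 0 := by
    rw [hDv w (root_mem G w R)]
    exact SimpleGraph.dist_self
  have hR : ∀ v (h : v ∈ bl G w R), (G.induce (bl G w R)).Reachable w' ⟨v, h⟩ :=
    fun v h => reach G w R R le_rfl v h h
  have hoe : ∀ p ∈ oe G, p.1 < p.2 ∧ G.Adj p.1 p.2 := by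
    intro p hp
    unfold oe at hp
    simpa using hp
  have hne : ∀ p ∈ oe G, p.1 ∈ bl G w R → p.2 ∈ bl G w R → D p.1 ≠ D p.2 := by
    intro p hp h1 h2
    rw [hDv _ h1, hDv _ h2]
    exact hT.dist_ne_of_adj (v := ⟨p.1, h1⟩) (w := ⟨p.2, h2⟩) (hoe p hp).2 (hR _ h1)
  have hkey : ∀ x y y' : V, x ∈ bl G w R → y ∈ bl G w R → y' ∈ bl G w R → G.Adj y x →
      G.Adj y' x → D y < D x → D y' < D x → y = y' := by
    intro x y y' hx hy hy' h h' hd hd'
    rw [hDv _ hy, hDv _ hx] at hd
    rw [hDv _ hy', hDv _ hx] at hd'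
    have := key (G.induce (bl G w R)) hT w' ⟨x, hx⟩ ⟨y, hy⟩ ⟨y', hy'⟩ (hR _ hy) (hR _ hy')
      h h' hd hd'
    exact congrArg Subtype.val this
  refine ⟨fun p => if D p.2 < D p.1 then p.1 else p.2, ?_, ?_⟩
  · intro p hp h1 h2
    have h3 := hne p hp h1 h2
    by_cases hlt : D p.2 < D p.1
    · simp only [if_pos hlt]
      refine ⟨Or.inl trivial, fun h => ?_, h1⟩
      rw [h, hDw] at hlt
      omega
    · simp only [if_neg hlt]
      refine ⟨Or.inr trivial, fun h => ?_, h2⟩
      rw [h, hDw] at hlt h3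
      omega
  · rintro p ⟨hp, hp1, hp2⟩ p' ⟨hp', hp1', hp2'⟩ heq
    have h3 := hne p hp hp1 hp2
    have h3' := hne p' hp' hp1' hp2'
    have h4 := hoe p hp
    have h4' := hoe p' hp'
    simp only at heq
    by_cases hlt : D p.2 < D p.1 <;> by_cases hlt' : D p'.2 < D p'.1
    · rw [if_pos hlt, if_pos hlt'] at heq
      refine Prod.ext heq ?_
      refine hkey p.1 p.2 p'.2 hp1 hp2 hp2' h4.2.symm ?_ hlt ?_
      · rw [heq]; exact h4'.2.symm
      · rw [heq]; exact hlt'
    · rw [if_pos hlt, if_neg hlt'] at heq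
      exfalso
      have h5 : p.2 = p'.1 := by
        refine hkey p.1 p.2 p'.1 hp1 hp2 hp1' h4.2.symm ?_ hlt ?_
        · rw [heq]; exact h4'.2
        · rw [heq]; omega
      have h6 := h4.1
      have h7 := h4'.1
      rw [← heq, ← h5] at h7
      exact lt_asymm h6 h7
    · rw [if_neg hlt, if_pos hlt'] at heq
      exfalso
      have h5 : p.1 = p'.2 := by
        refine hkey p.2 p.1 p'.2 hp2 hp1 hp2' h4.2 ?_ (by omega) ?_
        · rw [heq]; exact h4'.2.symm
        · rw [heq]; exact hlt'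
      have h6 := h4.1
      have h7 := h4'.1
      rw [← heq, ← h5] at h7
      exact lt_asymm h6 h7
    · rw [if_neg hlt, if_neg hlt'] at heq
      refine Prod.ext ?_ heq
      refine hkey p.2 p.1 p'.1 hp2 hp1 hp1' h4.2 ?_ (by omega) ?_
      · rw [heq]; exact h4'.2
      · rw [heq]; omega

end H29I
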